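import Pool.Agent.SRG.Base

/-!
Semi-random ergodic averages: elementary facts on the auxiliary notions.
-/

open MeasureTheory Filter Topology

namespace Pool.Agent.SRG

noncomputable section

theorem pow_hN_pos {p : ℕ} (hp : 2 ≤ p) (N : ℕ) : (0 : ℝ) < (p : ℝ) ^ (hN N) := by
  have : (0 : ℝ) < p := by exact_mod_cast (by omega : 0 < p)
  positivity

/-- `p ^ h ≥ N ^ 3` -/
theorem cube_le_pow_hN {p : ℕ} (hp : 2 ≤ p) (N : ℕ) : (N : ℝ) ^ 3 ≤ (p : ℝ) ^ (hN N) := by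
  have h1 : N < 2 ^ (Nat.log 2 N + 1) := Nat.lt_pow_succ_log_self (by norm_num) N
  have h2 : N ^ 3 ≤ p ^ (hN N) := by
    calc N ^ 3 ≤ (2 ^ (Nat.log 2 N + 1)) ^ 3 := Nat.pow_le_pow_left h1.le 3
      _ = 2 ^ (hN N) := by rw [← pow_mul, hN, mul_comm]
      _ ≤ p ^ (hN N) := Nat.pow_le_pow_left hp _
  exact_mod_cast h2

theorem rpow_neg_le_one {a : ℝ} (ha : 0 < a) (n : ℕ) : (n : ℝ) ^ (-a) ≤ 1 := by
  rcases Nat.eq_zero_or_pos n with h | h
  · subst h; simp [Real.zero_rpow (by linarith : -a ≠ 0)]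
  · exact Real.rpow_le_one_of_one_le_of_nonpos (by exact_mod_cast h) (by linarith)

theorem rpow_neg_nonneg (a : ℝ) (n : ℕ) : (0 : ℝ) ≤ (n : ℝ) ^ (-a) :=
  Real.rpow_nonneg (Nat.cast_nonneg n) _

theorem thr_nonneg (a : ℝ) {p : ℕ} (hp : 2 ≤ p) (N n : ℕ) : 0 ≤ thr a p N n := by
  have h := pow_hN_pos hp N
  unfold thr
  apply div_nonneg _ h.le
  have : (0 : ℤ) ≤ ⌊(p : ℝ) ^ (hN N) * (n : ℝ) ^ (-a)⌋ :=
    Int.floor_nonneg.mpr (mul_nonneg h.le (rpow_neg_nonneg a n))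
  exact_mod_cast this

theorem thr_le (a : ℝ) {p : ℕ} (hp : 2 ≤ p) (N n : ℕ) : thr a p N n ≤ (n : ℝ) ^ (-a) := by
  have h := pow_hN_pos hp N
  unfold thr
  rw [div_le_iff₀ h, mul_comm]
  exact Int.floor_le _

theorem thr_le_one {a : ℝ} (ha : 0 < a) {p : ℕ} (hp : 2 ≤ p) (N n : ℕ) : thr a p N n ≤ 1 :=
  (thr_le a hp N n).trans (rpow_neg_le_one ha n)

theorem lt_thr_add (a : ℝ) {p : ℕ} (hp : 2 ≤ p) (N n : ℕ) :
    (n : ℝ) ^ (-a) < thr a p N n + ((p : ℝ) ^ (hN N))⁻¹ := by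
  have h := pow_hN_pos hp N
  unfold thr
  rw [div_add' _ _ _ h.ne', lt_div_iff₀ h, inv_mul_cancel₀ h.ne', mul_comm]
  exact Int.lt_floor_add_one _

/-- the thresholds decrease with `n ≥ 1` -/
theorem thr_anti {a : ℝ} (ha : 0 < a) {p : ℕ} (hp : 2 ≤ p) (N : ℕ) {m n : ℕ} (hm : 1 ≤ m)
    (hmn : m ≤ n) : thr a p N n ≤ thr a p N m := by
  have h := pow_hN_pos hp N
  unfold thr
  apply div_le_div_of_nonneg_right _ h.le
  have : ⌊(p : ℝ) ^ (hN N) * (n : ℝ) ^ (-a)⌋ ≤ ⌊(p : ℝ) ^ (hN N) * (m : ℝ) ^ (-a)⌋ := by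
    apply Int.floor_le_floor
    apply mul_le_mul_of_nonneg_left _ h.le
    exact Real.rpow_le_rpow_of_nonpos (by exact_mod_cast hm) (by exact_mod_cast hmn) (by linarith)
  exact_mod_cast this

theorem wc_nonneg (a : ℝ) {p : ℕ} (hp : 2 ≤ p) (N c s : ℕ) : 0 ≤ wc a p N c s := by
  have h1 : (2 : ℝ) ≤ p := by exact_mod_cast hp
  have h2 : 1 / (p : ℝ) ≤ 1 := by
    rw [div_le_one (by linarith)]; linarith
  unfold wc
  have := thr_nonneg a hp N (s + c)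
  apply mul_nonneg (by linarith)
  positivity

theorem wc_le_thr (a : ℝ) {p : ℕ} (hp : 2 ≤ p) (N c s : ℕ) :
    wc a p N c s ≤ thr a p N (s + c) := by
  have h1 : (2 : ℝ) ≤ p := by exact_mod_cast hp
  have h2 : 0 ≤ 1 / (p : ℝ) := by positivity
  have h3 := thr_nonneg a hp N (s + c)
  have h4 : (1 : ℝ) ≤ (p : ℝ) ^ (c - 1) := one_le_pow₀ (by linarith)
  have h5 : thr a p N (s + c) / (p : ℝ) ^ (c - 1) ≤ thr a p N (s + c) := div_le_self h3 h4
  have h6 : 0 ≤ thr a p N (s + c) / (p : ℝ) ^ (c - 1) := by positivity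
  unfold wc
  nlinarith

theorem wc_le {a : ℝ} {p : ℕ} (hp : 2 ≤ p) (N c s : ℕ) :
    wc a p N c s ≤ ((s + c : ℕ) : ℝ) ^ (-a) :=
  (wc_le_thr a hp N c s).trans (thr_le a hp N (s + c))

theorem wc_le_one {a : ℝ} (ha : 0 < a) {p : ℕ} (hp : 2 ≤ p) (N c s : ℕ) : wc a p N c s ≤ 1 :=
  (wc_le hp N c s).trans (rpow_neg_le_one ha _)

theorem wc_anti {a : ℝ} (ha : 0 < a) {p : ℕ} (hp : 2 ≤ p) (N : ℕ) {c : ℕ} (hc : 1 ≤ c) {m n : ℕ}
    (hmn : m ≤ n) : wc a p N c n ≤ wc a p N c m := by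
  have h1 : (2 : ℝ) ≤ p := by exact_mod_cast hp
  have h2 : 1 / (p : ℝ) ≤ 1 := by
    rw [div_le_one (by linarith)]; linarith
  unfold wc
  apply mul_le_mul_of_nonneg_left _ (by linarith)
  apply div_le_div_of_nonneg_right _ (by positivity)
  exact thr_anti ha hp N (by omega) (by omega)

theorem Xc_nonneg (a : ℝ) (p N c s : ℕ) (z : ℝ) : 0 ≤ Xc a p N c s z := by
  unfold Xc; split_ifs <;> norm_num

theorem Xc_le_one (a : ℝ) (p N c s : ℕ) (z : ℝ) : Xc a p N c s z ≤ 1 := by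
  unfold Xc; split_ifs <;> norm_num

theorem Xc_sq (a : ℝ) (p N c s : ℕ) (z : ℝ) : Xc a p N c s z ^ 2 = Xc a p N c s z := by
  unfold Xc; split_ifs <;> norm_num

theorem abs_Yc_le {a : ℝ} (ha : 0 < a) {p : ℕ} (hp : 2 ≤ p) (N c : ℕ) (y : ℝ) (s : ℕ) :
    |Yc a p N c y s| ≤ 1 := by
  have h1 := Xc_nonneg a p N c s (Int.fract ((p : ℝ) ^ s * y))
  have h2 := Xc_le_one a p N c s (Int.fract ((p : ℝ) ^ s * y))
  have h3 := wc_nonneg a hp N c s
  have h4 := wc_le_one ha hp N c s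
  unfold Yc
  rw [abs_le]; constructor <;> linarith

theorem Xt_le_one (a : ℝ) (p N : ℕ) (y : ℝ) (n : ℕ) : Xt a p N y n ≤ 1 := by
  unfold Xt; split_ifs <;> norm_num

theorem ind_le_one (a : ℝ) (p : ℕ) (y : ℝ) (n : ℕ) : ind a p y n ≤ 1 := by
  unfold ind; split_ifs <;> norm_num

theorem St_succ (a : ℝ) (p N : ℕ) (y : ℝ) (n : ℕ) :
    St a p N y (n + 1) = St a p N y n + Xt a p N y (n + 1) := by
  unfold St
  rw [Finset.sum_Icc_succ_top (by omega)]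

theorem cnt_succ (a : ℝ) (p : ℕ) (y : ℝ) (n : ℕ) :
    cnt a p y (n + 1) = cnt a p y n + ind a p y (n + 1) := by
  unfold cnt
  rw [Finset.sum_Icc_succ_top (by omega)]

theorem St_zero (a : ℝ) (p N : ℕ) (y : ℝ) : St a p N y 0 = 0 := by simp [St]

theorem cnt_zero (a : ℝ) (p : ℕ) (y : ℝ) : cnt a p y 0 = 0 := by simp [cnt]

theorem St_mono (a : ℝ) (p N : ℕ) (y : ℝ) : Monotone (St a p N y) :=
  monotone_nat_of_le_succ fun n => by rw [St_succ]; omega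

theorem cnt_mono (a : ℝ) (p : ℕ) (y : ℝ) : Monotone (cnt a p y) :=
  monotone_nat_of_le_succ fun n => by rw [cnt_succ]; omega

theorem St_le (a : ℝ) (p N : ℕ) (y : ℝ) (n : ℕ) : St a p N y n ≤ n := by
  induction n with
  | zero => simp [St_zero]
  | succ n ih => rw [St_succ]; have := Xt_le_one a p N y (n + 1); omega

theorem cnt_le (a : ℝ) (p : ℕ) (y : ℝ) (n : ℕ) : cnt a p y n ≤ n := by
  induction n with
  | zero => simp [cnt_zero]
  | succ n ih => rw [cnt_succ]; have := ind_le_one a p y (n + 1); omega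

theorem al_mono (a : ℝ) (p N : ℕ) (y : ℝ) : Monotone (al a p N y) := fun s t h =>
  St_mono a p N y (by omega)

theorem al_le (a : ℝ) (p N : ℕ) (y : ℝ) (s : ℕ) : al a p N y s ≤ s :=
  (St_le a p N y _).trans (by omega)

theorem al_le_St (a : ℝ) (p N : ℕ) (y : ℝ) (s : ℕ) : al a p N y s ≤ St a p N y s :=
  St_mono a p N y (by omega)

/-- if the truncation is exact up to `2 N` then the counts agree -/
theorem St_eq_cnt {a : ℝ} {p N : ℕ} {y : ℝ}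
    (h : ∀ n : ℕ, 1 ≤ n → n ≤ 2 * N → Xt a p N y n = ind a p y n) {n : ℕ} (hn : n ≤ 2 * N) :
    St a p N y n = cnt a p y n := by
  unfold St cnt
  refine Finset.sum_congr rfl fun j hj => ?_
  rw [Finset.mem_Icc] at hj
  exact h j hj.1 (hj.2.trans hn)

theorem W_nonneg (a : ℝ) (N : ℕ) : 0 ≤ W a N :=
  Finset.sum_nonneg fun n _ => rpow_neg_nonneg a n

theorem W_lower {a : ℝ} (ha : 0 < a) (ha1 : a < 1) (N : ℕ) : (N : ℝ) ^ (1 - a) ≤ W a N := by
  rcases Nat.eq_zero_or_pos N with h | h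
  · subst h
    have h1 : (1 - a) ≠ 0 := by linarith
    simp [W, Real.zero_rpow h1]
  · have h0 : (0 : ℝ) < N := by exact_mod_cast h
    calc (N : ℝ) ^ (1 - a) = N * (N : ℝ) ^ (-a) := by
          rw [sub_eq_add_neg, Real.rpow_add h0, Real.rpow_one]
      _ = ∑ n ∈ Finset.Icc 1 N, (N : ℝ) ^ (-a) := by simp
      _ ≤ W a N := by
          refine Finset.sum_le_sum fun n hn => ?_
          rw [Finset.mem_Icc] at hn
          exact Real.rpow_le_rpow_of_nonpos (by exact_mod_cast hn.1) (by exact_mod_cast hn.2)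
            (by linarith)

theorem W_succ (a : ℝ) (N : ℕ) : W a (N + 1) = W a N + ((N + 1 : ℕ) : ℝ) ^ (-a) := by
  unfold W
  rw [Finset.sum_Icc_succ_top (by omega)]

theorem W_upper {a : ℝ} (ha : 0 < a) (ha1 : a < 1) (N : ℕ) :
    W a N ≤ (N : ℝ) ^ (1 - a) / (1 - a) := by
  induction N with
  | zero => simp [W, Real.zero_rpow (by linarith : (1 - a) ≠ 0)]
  | succ n ih =>
    rw [W_succ]
    have hn : (0 : ℝ) < (n + 1 : ℕ) := by positivity
    have h1 : (0 : ℝ) < 1 - a := by linarith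
    have key : (n : ℝ) ^ (1 - a) ≤
        ((n + 1 : ℕ) : ℝ) ^ (1 - a) - (1 - a) * ((n + 1 : ℕ) : ℝ) ^ (-a) := by
      have h2 : (n : ℝ) = ((n + 1 : ℕ) : ℝ) * (1 + (-1 / ((n + 1 : ℕ) : ℝ))) := by
        field_simp; push_cast; ring
      have h3 : -1 ≤ -1 / ((n + 1 : ℕ) : ℝ) := by
        rw [le_div_iff₀ hn]
        push_cast; nlinarith [(Nat.cast_nonneg n : (0 : ℝ) ≤ n)]
      have h4 := rpow_one_add_le_one_add_mul_self h3 h1.le (by linarith : 1 - a ≤ 1)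
      have h5 : ((n + 1 : ℕ) : ℝ) ^ (-a) = ((n + 1 : ℕ) : ℝ) ^ (1 - a) / ((n + 1 : ℕ) : ℝ) := by
        rw [sub_eq_add_neg, Real.rpow_add hn, Real.rpow_one]; field_simp
      calc (n : ℝ) ^ (1 - a)
          = ((n + 1 : ℕ) : ℝ) ^ (1 - a) * (1 + (-1 / ((n + 1 : ℕ) : ℝ))) ^ (1 - a) := by
            conv_lhs => rw [h2]
            rw [Real.mul_rpow hn.le (by linarith)]
        _ ≤ ((n + 1 : ℕ) : ℝ) ^ (1 - a) * (1 + (1 - a) * (-1 / ((n + 1 : ℕ) : ℝ))) :=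
            mul_le_mul_of_nonneg_left h4 (Real.rpow_nonneg hn.le _)
        _ = _ := by rw [h5]; ring
    rw [le_div_iff₀ h1] at ih ⊢
    nlinarith

theorem W_le_two {a : ℝ} (ha : 0 < a) (ha2 : a < 1 / 2) (N : ℕ) :
    W a N ≤ 2 * (N : ℝ) ^ (1 - a) := by
  refine (W_upper ha (by linarith) N).trans ?_
  rw [div_le_iff₀ (by linarith)]
  have := Real.rpow_nonneg (Nat.cast_nonneg N : (0 : ℝ) ≤ N) (1 - a)
  nlinarith

/-- increments of `W` -/
theorem W_sub_le {a : ℝ} (ha : 0 < a) {m n : ℕ} (hm : 1 ≤ m) (hmn : m ≤ n) :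
    W a n - W a m ≤ ((n : ℝ) - m) * (m : ℝ) ^ (-a) := by
  induction n, hmn using Nat.le_induction with
  | base => simp
  | succ n hn ih =>
    rw [W_succ]
    have h1 : ((n + 1 : ℕ) : ℝ) ^ (-a) ≤ (m : ℝ) ^ (-a) :=
      Real.rpow_le_rpow_of_nonpos (by exact_mod_cast hm) (by exact_mod_cast (by omega))
        (by linarith)
    push_cast at h1 ⊢
    nlinarith

theorem W_mono (a : ℝ) : Monotone (W a) :=
  monotone_nat_of_le_succ fun n => by
    rw [W_succ]; have := rpow_neg_nonneg a (n + 1); linarith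

end

end Pool.Agent.SRG
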