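import Pool.Agent.SRG.Vdc
import Pool.Agent.SRG.Facts

/-!
Semi-random ergodic averages: the `L²` bound for the centred part.
-/

open MeasureTheory Filter Topology

namespace Pool.Agent.SRG

noncomputable section

namespace A1

/-- asymptotic comparison: `K (log₂ N + 1) N ^ s ≤ N ^ t` eventually if `s < t` -/
theorem eventually_hN_le {s t : ℝ} (h : s < t) (K : ℝ) :
    ∀ᶠ N : ℕ in atTop, K * (hN N : ℝ) * (N : ℝ) ^ s ≤ (N : ℝ) ^ t := by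
  -- hN N ≤ 3 (log N / log 2 + 1)
  have h1 : Tendsto (fun N : ℕ => (Real.log (N : ℝ)) / (N : ℝ) ^ ((t - s) / 2)) atTop (𝓝 0) := by
    have := (isLittleO_log_rpow_atTop (by linarith : (0 : ℝ) < (t - s) / 2)).tendsto_div_nhds_zero
    exact this.comp tendsto_natCast_atTop_atTop
  have h2 : Tendsto (fun N : ℕ => (N : ℝ) ^ ((t - s) / 2)) atTop atTop :=
    (tendsto_rpow_atTop (by linarith : (0 : ℝ) < (t - s) / 2)).comp tendsto_natCast_atTop_atTop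
  have hlog2 : 0 < Real.log 2 := Real.log_pos (by norm_num)
  filter_upwards [h1.eventually (gt_mem_nhds (zero_lt_one)), eventually_ge_atTop 1,
    h2.eventually_ge_atTop (|K| * 3 * (1 / Real.log 2 + 1))] with N h3 h4 h5
  have hN0 : (0 : ℝ) < N := by exact_mod_cast h4
  have hN1 : (1 : ℝ) ≤ N := by exact_mod_cast h4
  have h6 : (Nat.log 2 N : ℝ) ≤ Real.log N / Real.log 2 := by
    have := Real.natLog_le_logb N 2
    rwa [Real.logb] at this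
  have hpos : 0 < (N : ℝ) ^ ((t - s) / 2) := Real.rpow_pos_of_pos hN0 _
  have h7 : Real.log N ≤ (N : ℝ) ^ ((t - s) / 2) := by
    rw [div_lt_one hpos] at h3; exact h3.le
  have h8 : (hN N : ℝ) ≤ 3 * (1 / Real.log 2 + 1) * (N : ℝ) ^ ((t - s) / 2) := by
    have h9 : (hN N : ℝ) = 3 * ((Nat.log 2 N : ℝ) + 1) := by simp [hN]
    rw [h9]
    have h10 : (1 : ℝ) ≤ (N : ℝ) ^ ((t - s) / 2) := Real.one_le_rpow hN1 (by linarith)
    have h11 : Real.log N / Real.log 2 ≤ (1 / Real.log 2) * (N : ℝ) ^ ((t - s) / 2) := by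
      rw [div_eq_mul_inv, mul_comm, one_div]
      exact mul_le_mul_of_nonneg_left h7 (by positivity)
    nlinarith
  have hs : 0 ≤ (N : ℝ) ^ s := Real.rpow_nonneg hN0.le _
  calc K * (hN N : ℝ) * (N : ℝ) ^ s ≤ |K| * (hN N : ℝ) * (N : ℝ) ^ s := by
        gcongr; exact le_abs_self K
    _ ≤ |K| * (3 * (1 / Real.log 2 + 1) * (N : ℝ) ^ ((t - s) / 2)) * (N : ℝ) ^ s := by gcongr
    _ = (|K| * 3 * (1 / Real.log 2 + 1)) * (N : ℝ) ^ ((t - s) / 2) * (N : ℝ) ^ s := by ring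
    _ ≤ (N : ℝ) ^ ((t - s) / 2) * (N : ℝ) ^ ((t - s) / 2) * (N : ℝ) ^ s := by gcongr
    _ = (N : ℝ) ^ t := by
        rw [← Real.rpow_add hN0, ← Real.rpow_add hN0]; congr 1; ring

/-- `K N ^ s ≤ N ^ t` eventually if `s < t` -/
theorem eventually_rpow_le {s t : ℝ} (h : s < t) (K : ℝ) :
    ∀ᶠ N : ℕ in atTop, K * (N : ℝ) ^ s ≤ (N : ℝ) ^ t := by
  filter_upwards [eventually_hN_le h |K|] with N h1
  refine le_trans ?_ h1
  have h2 : (1 : ℝ) ≤ hN N := by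
    have : 1 ≤ hN N := by unfold hN; omega
    exact_mod_cast this
  have h3 : 0 ≤ (N : ℝ) ^ s := Real.rpow_nonneg (Nat.cast_nonneg N) _
  calc K * (N : ℝ) ^ s ≤ |K| * (N : ℝ) ^ s := by gcongr; exact le_abs_self K
    _ = |K| * 1 * (N : ℝ) ^ s := by ring
    _ ≤ |K| * (hN N : ℝ) * (N : ℝ) ^ s := by gcongr

theorem l2_bound {a δ : ℝ} (ha : 0 < a) (ha2 : a < 1 / 2) (hδ : 0 < δ)
    (hδ1 : 8 * δ ≤ 1 / 2 - a) (hδ2 : 4 * δ ≤ a) {p : ℕ} (hp : 2 ≤ p) {D : ℕ}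
    {y : ℝ} (hy : GoodY a δ p D y) {c : ℕ} (hc : 1 ≤ c) :
    ∀ᶠ N : ℕ in atTop, ∀ {X : Type*} [MeasurableSpace X] (μ : Measure X) [IsProbabilityMeasure μ]
      (T₁ T₂ : X → X) (_ : MeasurePreserving T₁ μ μ) (_ : MeasurePreserving T₂ μ μ)
      (_ : T₁ ∘ T₂ =ᵐ[μ] T₂ ∘ T₁) (f₁ f₂ : X → ℝ) (_ : Measurable f₁) (_ : Measurable f₂)
      (_ : ∀ x, |f₁ x| ≤ 1) (_ : ∀ x, |f₂ x| ≤ 1),
      ∫ x, (∑ s ∈ Finset.Ico (N0 δ N) N, Yc a p N c y s *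
        (f₁ (T₁^[al a p N y s + c] x) * f₂ (T₂^[s + c] x))) ^ 2 ∂μ ≤
      (N : ℝ) ^ (2 - 2 * a - δ / 4) := by
  have e1 := eventually_hN_le (s := 2 - 2 * a - δ / 2) (t := 2 - 2 * a - δ / 3)
    (by linarith) 8
  have e2 := eventually_rpow_le (s := 3 / 2 - a + 4 * δ) (t := 2 - 2 * a - δ / 3)
    (by linarith) 64
  have e3 := eventually_rpow_le (s := 2 - 2 * a - δ / 3) (t := 2 - 2 * a - δ / 4)
    (by linarith) 2
  filter_upwards [hy.sq c hc, hy.win, hy.expsum c hc, eventually_ge_atTop 1,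
    eventually_ge_atTop c, e1, e2, e3] with N h1 h2 h3 h4 h5 e1 e2 e3
  intro X _ μ _ T₁ T₂ hT₁ hT₂ hcomm f₁ f₂ hf₁ hf₂ hb₁ hb₂
  have hN0 : (0 : ℝ) < N := by exact_mod_cast h4
  have hN1 : (1 : ℝ) ≤ N := by exact_mod_cast h4
  have hM0 : (0 : ℝ) < (N : ℝ) ^ (a + δ) := Real.rpow_pos_of_pos hN0 _
  have hM1 : 1 ≤ Mw a δ N := by
    unfold Mw
    exact Nat.one_le_iff_ne_zero.mpr (Nat.ceil_pos.mpr hM0).ne'
  have key := vdc_transfer (μ := μ) hT₁ hT₂ hcomm hf₁ hf₂ hb₁ hb₂ (n₀ := N0 δ N) (N := N)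
    (M := Mw a δ N) (H := 2 * hN N) (R := Rw δ N) (Q := 2 * N) (c := c) hM1
    (by unfold hN; omega) (Yc a p N c y) (al a p N y) (al_mono a p N y)
    (fun s hs => by have := al_le a p N y s; omega) (by omega)
    (fun s m hs hsm hm => h2 s m hs hsm hm)
    (B := 4 * (N : ℝ) ^ (1 / 2 - a + 2 * δ)) (by positivity)
    (fun m r k₁ k₂ hm1 hm2 hr hk₁ hk₂ => h3 m r k₁ k₂ hm1 hm2 hr hk₁ hk₂)
  refine key.trans ?_
  -- numerical bounds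
  have hMle : (Mw a δ N : ℝ) ≤ N := by
    have : Mw a δ N ≤ N := by
      unfold Mw
      rw [Nat.ceil_le]
      calc (N : ℝ) ^ (a + δ) ≤ (N : ℝ) ^ (1 : ℝ) :=
            Real.rpow_le_rpow_of_exponent_le hN1 (by linarith)
        _ = N := Real.rpow_one _
    exact_mod_cast this
  have hMge : (N : ℝ) ^ (a + δ) ≤ (Mw a δ N : ℝ) := Nat.le_ceil _
  have hMpos : (0 : ℝ) < (Mw a δ N : ℝ) := lt_of_lt_of_le hM0 hMge
  have hRle : (Rw δ N : ℝ) ≤ 2 * (N : ℝ) ^ (2 * δ) := by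
    have h6 : (Rw δ N : ℝ) < (N : ℝ) ^ (2 * δ) + 1 :=
      Nat.ceil_lt_add_one (Real.rpow_nonneg hN0.le _)
    have h7 : (1 : ℝ) ≤ (N : ℝ) ^ (2 * δ) := Real.one_le_rpow hN1 (by linarith)
    linarith
  have hfirst : ((N : ℝ) + Mw a δ N) / Mw a δ N * (2 * ((2 * hN N : ℕ) : ℝ) *
      ∑ s ∈ Finset.Ico (N0 δ N) N, Yc a p N c y s ^ 2) ≤ (N : ℝ) ^ (2 - 2 * a - δ / 3) := by
    have h6 : ((N : ℝ) + Mw a δ N) / Mw a δ N ≤ 2 * (N : ℝ) ^ (1 - a - δ) := by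
      rw [div_le_iff₀ hMpos]
      calc (N : ℝ) + Mw a δ N ≤ 2 * N := by linarith
        _ = 2 * (N : ℝ) ^ (1 - a - δ) * (N : ℝ) ^ (a + δ) := by
            rw [mul_assoc, ← Real.rpow_add hN0]
            rw [show 1 - a - δ + (a + δ) = 1 by ring, Real.rpow_one]
        _ ≤ _ := by gcongr
    have h7 : 0 ≤ ∑ s ∈ Finset.Ico (N0 δ N) N, Yc a p N c y s ^ 2 :=
      Finset.sum_nonneg fun s _ => sq_nonneg _
    calc _ ≤ (2 * (N : ℝ) ^ (1 - a - δ)) * (2 * ((2 * hN N : ℕ) : ℝ) *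
          (N : ℝ) ^ (1 - a + δ / 2)) := by gcongr
      _ = 8 * (hN N : ℝ) * ((N : ℝ) ^ (1 - a - δ) * (N : ℝ) ^ (1 - a + δ / 2)) := by
          push_cast; ring
      _ = 8 * (hN N : ℝ) * (N : ℝ) ^ (2 - 2 * a - δ / 2) := by
          rw [← Real.rpow_add hN0]; congr 2; ring
      _ ≤ _ := e1
  have hsecond : ((N : ℝ) + Mw a δ N) / Mw a δ N * (4 * (Mw a δ N : ℝ) * (Rw δ N : ℝ) *
      (4 * (N : ℝ) ^ (1 / 2 - a + 2 * δ))) ≤ (N : ℝ) ^ (2 - 2 * a - δ / 3) := by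
    calc _ = ((N : ℝ) + Mw a δ N) * (16 * (Rw δ N : ℝ) * (N : ℝ) ^ (1 / 2 - a + 2 * δ)) := by
          field_simp; ring
      _ ≤ (2 * N) * (16 * (2 * (N : ℝ) ^ (2 * δ)) * (N : ℝ) ^ (1 / 2 - a + 2 * δ)) := by
          gcongr; linarith
      _ = 64 * ((N : ℝ) ^ (1 : ℝ) * (N : ℝ) ^ (2 * δ) * (N : ℝ) ^ (1 / 2 - a + 2 * δ)) := by
          rw [Real.rpow_one]; ring
      _ = 64 * (N : ℝ) ^ (3 / 2 - a + 4 * δ) := by
          rw [← Real.rpow_add hN0, ← Real.rpow_add hN0]; congr 2; ring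
      _ ≤ _ := e2
  calc _ = ((N : ℝ) + Mw a δ N) / Mw a δ N * (2 * ((2 * hN N : ℕ) : ℝ) *
        ∑ s ∈ Finset.Ico (N0 δ N) N, Yc a p N c y s ^ 2) +
      ((N : ℝ) + Mw a δ N) / Mw a δ N * (4 * (Mw a δ N : ℝ) * (Rw δ N : ℝ) *
      (4 * (N : ℝ) ^ (1 / 2 - a + 2 * δ))) := by ring
    _ ≤ 2 * (N : ℝ) ^ (2 - 2 * a - δ / 3) := by linarith
    _ ≤ _ := e3

end A1

end

end Pool.Agent.SRG
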