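import Pool.Agent.SRG.A1

/-!
Semi-random ergodic averages: almost everywhere convergence of the centred part and of the main
part for `f₂` with zero invariant part.
-/

open MeasureTheory Filter Topology

namespace Pool.Agent.SRG

noncomputable section

namespace A2

/-- nonnegative functions with summable integrals tend to zero almost everywhere -/
theorem ae_tendsto_zero_of_integral_le {X : Type*} [MeasurableSpace X] {μ : Measure X}
    {g : ℕ → X → ℝ} (hg : ∀ k, Measurable (g k)) (hg0 : ∀ k x, 0 ≤ g k x)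
    (hgi : ∀ k, Integrable (g k) μ) {u : ℕ → ℝ} (hu : Summable u) {K : ℕ}
    (h : ∀ k, K ≤ k → ∫ x, g k x ∂μ ≤ u k) : ∀ᵐ x ∂μ, Tendsto (fun k => g k x) atTop (𝓝 0) := by
  have h1 : ∀ k, ∫⁻ x, ENNReal.ofReal (g (k + K) x) ∂μ ≤ ENNReal.ofReal (u (k + K)) := by
    intro k
    rw [← ofReal_integral_eq_lintegral_ofReal (hgi _) (Eventually.of_forall (hg0 _))]
    exact ENNReal.ofReal_le_ofReal (h _ (by omega))
  have hu0 : ∀ k, 0 ≤ u (k + K) := fun k =>
    (integral_nonneg (hg0 _)).trans (h _ (by omega))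
  have hus : Summable (fun k => u (k + K)) := (summable_nat_add_iff K).mpr hu
  have h2 : ∫⁻ x, ∑' k, ENNReal.ofReal (g (k + K) x) ∂μ < ⊤ := by
    rw [lintegral_tsum (fun k => (hg _).ennreal_ofReal.aemeasurable)]
    calc ∑' k, ∫⁻ x, ENNReal.ofReal (g (k + K) x) ∂μ ≤ ∑' k, ENNReal.ofReal (u (k + K)) :=
          ENNReal.tsum_le_tsum h1
      _ = ENNReal.ofReal (∑' k, u (k + K)) := (ENNReal.ofReal_tsum_of_nonneg hu0 hus).symm
      _ < ⊤ := ENNReal.ofReal_lt_top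
  have h3 := ae_lt_top' (Measurable.tsum fun k => (hg _).ennreal_ofReal).aemeasurable h2.ne
  filter_upwards [h3] with x hx
  have h4 := ENNReal.tendsto_atTop_zero_of_tsum_ne_top hx.ne
  have h5 : Tendsto (fun k => g (k + K) x) atTop (𝓝 0) := by
    have h6 := (ENNReal.tendsto_toReal (ENNReal.zero_ne_top)).comp h4
    simp only [ENNReal.toReal_zero] at h6
    refine h6.congr fun k => ?_
    simp [ENNReal.toReal_ofReal (hg0 _ _)]
  exact (tendsto_add_atTop_iff_nat K).mp h5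

/-- the centred part tends to zero along `N = k ^ D` -/
theorem centred_tendsto {a δ : ℝ} (ha : 0 < a) (ha2 : a < 1 / 2) (hδ : 0 < δ)
    (hδ1 : 8 * δ ≤ 1 / 2 - a) (hδ2 : 4 * δ ≤ a) {p : ℕ} (hp : 2 ≤ p) {D : ℕ} (hD : 8 ≤ δ * D)
    {y : ℝ} (hy : GoodY a δ p D y) {c : ℕ} (hc : 1 ≤ c)
    {X : Type*} [MeasurableSpace X] {μ : Measure X} [IsProbabilityMeasure μ]
    {T₁ T₂ : X → X} (h₁ : MeasurePreserving T₁ μ μ) (h₂ : MeasurePreserving T₂ μ μ)
    (hcm : T₁ ∘ T₂ =ᵐ[μ] T₂ ∘ T₁) {f₁ f₂ : X → ℝ} (hf₁ : Measurable f₁) (hf₂ : Measurable f₂)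
    (hb₁ : ∀ x, |f₁ x| ≤ 1) (hb₂ : ∀ x, |f₂ x| ≤ 1) :
    ∀ᵐ x ∂μ, Tendsto (fun k : ℕ => (((k ^ D : ℕ) : ℝ) ^ (1 - a))⁻¹ *
      ∑ s ∈ Finset.Ico (N0 δ (k ^ D)) (k ^ D), Yc a p (k ^ D) c y s *
        (f₁ (T₁^[al a p (k ^ D) y s + c] x) * f₂ (T₂^[s + c] x))) atTop (𝓝 0) := by
  have hD0 : D ≠ 0 := by
    rintro rfl; simp at hD; linarith
  have hkD : Tendsto (fun k : ℕ => k ^ D) atTop atTop := tendsto_pow_atTop hD0
  obtain ⟨K, hK⟩ := eventually_atTop.mp (hkD.eventually (A1.l2_bound ha ha2 hδ hδ1 hδ2 hp hy hc))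
  set g : ℕ → X → ℝ := fun k x => ((((k ^ D : ℕ) : ℝ) ^ (1 - a))⁻¹ *
      ∑ s ∈ Finset.Ico (N0 δ (k ^ D)) (k ^ D), Yc a p (k ^ D) c y s *
        (f₁ (T₁^[al a p (k ^ D) y s + c] x) * f₂ (T₂^[s + c] x))) ^ 2 with hgdef
  have hg : ∀ k, Measurable (g k) := by
    intro k
    refine Measurable.pow_const (Measurable.const_mul ?_ _) 2
    refine Finset.measurable_sum _ fun s _ => ?_
    exact ((hf₁.comp (h₁.measurable.iterate _)).mul
      (hf₂.comp (h₂.measurable.iterate _))).const_mul _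
  have hsumle : ∀ k x, |∑ s ∈ Finset.Ico (N0 δ (k ^ D)) (k ^ D), Yc a p (k ^ D) c y s *
        (f₁ (T₁^[al a p (k ^ D) y s + c] x) * f₂ (T₂^[s + c] x))| ≤ ((k ^ D : ℕ) : ℝ) := by
    intro k x
    calc _ ≤ ∑ s ∈ Finset.Ico (N0 δ (k ^ D)) (k ^ D), |Yc a p (k ^ D) c y s *
        (f₁ (T₁^[al a p (k ^ D) y s + c] x) * f₂ (T₂^[s + c] x))| :=
          Finset.abs_sum_le_sum_abs _ _
      _ ≤ ∑ s ∈ Finset.Ico (N0 δ (k ^ D)) (k ^ D), (1 : ℝ) := by
          refine Finset.sum_le_sum fun s _ => ?_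
          rw [abs_mul, abs_mul]
          have h1 := abs_Yc_le ha hp (k ^ D) c y s
          have h2 := hb₁ (T₁^[al a p (k ^ D) y s + c] x)
          have h3 := hb₂ (T₂^[s + c] x)
          have h4 := abs_nonneg (Yc a p (k ^ D) c y s)
          have h5 := abs_nonneg (f₁ (T₁^[al a p (k ^ D) y s + c] x))
          have h6 := abs_nonneg (f₂ (T₂^[s + c] x))
          calc |Yc a p (k ^ D) c y s| * (|f₁ (T₁^[al a p (k ^ D) y s + c] x)| *
                |f₂ (T₂^[s + c] x)|) ≤ 1 * (1 * 1) := by gcongr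
            _ = 1 := by norm_num
      _ ≤ _ := by
          simp only [Finset.sum_const, Nat.card_Ico, nsmul_eq_mul, mul_one]
          exact_mod_cast Nat.sub_le _ _
  have hgi : ∀ k, Integrable (g k) μ := by
    intro k
    refine Integrable.of_bound (hg k).aestronglyMeasurable
      (((((k ^ D : ℕ) : ℝ) ^ (1 - a))⁻¹ * ((k ^ D : ℕ) : ℝ)) ^ 2) (Eventually.of_forall fun x => ?_)
    rw [Real.norm_eq_abs, hgdef]
    simp only
    rw [abs_of_nonneg (sq_nonneg _), ← sq_abs]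
    rw [abs_mul, abs_of_nonneg (inv_nonneg.mpr (Real.rpow_nonneg (Nat.cast_nonneg _) _))]
    have := hsumle k x
    have h0 : (0 : ℝ) ≤ (((k ^ D : ℕ) : ℝ) ^ (1 - a))⁻¹ :=
      inv_nonneg.mpr (Real.rpow_nonneg (Nat.cast_nonneg _) _)
    gcongr
  have hmain := ae_tendsto_zero_of_integral_le (μ := μ) hg (fun k x => sq_nonneg _) hgi
    (u := fun k : ℕ => ((k : ℝ) ^ 2)⁻¹) (Real.summable_nat_pow_inv.mpr (by norm_num))
    (K := max K 1) (by
      intro k hk
      have hk1 : 1 ≤ k := le_trans (le_max_right _ _) hk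
      have hkpos : (0 : ℝ) < k := by exact_mod_cast hk1
      have hNpos : (0 : ℝ) < ((k ^ D : ℕ) : ℝ) := by positivity
      have h1 := hK k (le_trans (le_max_left _ _) hk) μ T₁ T₂ h₁ h₂ hcm f₁ f₂ hf₁ hf₂ hb₁ hb₂
      simp only [hgdef, mul_pow]
      rw [integral_const_mul]
      calc _ ≤ ((((k ^ D : ℕ) : ℝ) ^ (1 - a))⁻¹) ^ 2 *
            ((k ^ D : ℕ) : ℝ) ^ (2 - 2 * a - δ / 4) := by gcongr
        _ = ((k ^ D : ℕ) : ℝ) ^ (-(δ / 4)) := by
            rw [← Real.rpow_neg hNpos.le, ← Real.rpow_natCast, ← Real.rpow_mul hNpos.le,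
              ← Real.rpow_add hNpos]
            congr 1; push_cast; ring
        _ = (k : ℝ) ^ (-(δ * D / 4)) := by
            push_cast
            rw [← Real.rpow_natCast, ← Real.rpow_mul hkpos.le]
            congr 1; ring
        _ ≤ (k : ℝ) ^ (-(2 : ℝ)) :=
            Real.rpow_le_rpow_of_exponent_le (by exact_mod_cast hk1) (by linarith)
        _ = ((k : ℝ) ^ 2)⁻¹ := by
            rw [Real.rpow_neg hkpos.le]; norm_num)
  filter_upwards [hmain] with x hx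
  have h3 := (Real.continuous_sqrt.tendsto 0).comp hx
  rw [Real.sqrt_zero] at h3
  rw [tendsto_zero_iff_abs_tendsto_zero]
  refine h3.congr fun k => ?_
  simp only [Function.comp_apply, hgdef, Real.sqrt_sq_eq_abs]

end A2

end

end Pool.Agent.SRG
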