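import Pool.Agent.SRG.Base

/-!
Module M1 of the semi-random ergodic theorem: ergodic theory (maximal inequality, Birkhoff,
weighted averages).
-/

open MeasureTheory Filter Topology

namespace Pool.Agent.SRG

noncomputable section

namespace Erg

variable {X : Type*}

/-- running maximum of the ergodic sums -/
def MX (T : X → X) (φ : X → ℝ) : ℕ → X → ℝ
  | 0 => fun _ => 0
  | n + 1 => fun x => max 0 (φ x + MX T φ n (T x))

lemma MX_nonneg (T : X → X) (φ : X → ℝ) (n : ℕ) (x : X) : 0 ≤ MX T φ n x := by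
  cases n with
  | zero => exact le_rfl
  | succ n => exact le_max_left _ _

lemma MX_le_succ (T : X → X) (φ : X → ℝ) (n : ℕ) (x : X) : MX T φ n x ≤ MX T φ (n + 1) x := by
  induction n generalizing x with
  | zero => exact le_max_left _ _
  | succ n ih => exact max_le_max le_rfl (add_le_add le_rfl (ih (T x)))

lemma sum_le_MX (T : X → X) (φ : X → ℝ) (n : ℕ) (x : X) :
    ∑ j ∈ Finset.range n, φ (T^[j] x) ≤ MX T φ n x := by
  induction n generalizing x with
  | zero => simp [MX]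
  | succ n ih =>
    rw [Finset.sum_range_succ']
    have h := ih (T x)
    refine le_trans ?_ (le_max_right _ _)
    simp only [Function.iterate_succ_apply, Function.iterate_zero_apply]
    linarith

/-- the pointwise inequality of Garsia -/
lemma garsia (T : X → X) (φ : X → ℝ) (n : ℕ) (x : X) :
    MX T φ n x - MX T φ n (T x) ≤ Set.indicator {y | 0 < MX T φ n y} φ x := by
  by_cases hx : 0 < MX T φ n x
  · rw [Set.indicator_of_mem (show x ∈ {y | 0 < MX T φ n y} from hx)]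
    have h1 := MX_le_succ T φ n x
    have h2 : MX T φ (n + 1) x = max 0 (φ x + MX T φ n (T x)) := rfl
    have h3 : 0 < MX T φ (n + 1) x := lt_of_lt_of_le hx h1
    rw [h2] at h1 h3
    rcases le_total 0 (φ x + MX T φ n (T x)) with h | h
    · rw [max_eq_right h] at h1; linarith
    · rw [max_eq_left h] at h3; exact absurd h3 (lt_irrefl _)
  · rw [Set.indicator_of_notMem (show x ∉ {y | 0 < MX T φ n y} from hx)]
    have h1 := MX_nonneg T φ n (T x)
    push Not at hx
    linarith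

variable [MeasurableSpace X] {μ : Measure X}

lemma MX_measurable {T : X → X} (hT : Measurable T) {φ : X → ℝ} (hφ : Measurable φ) (n : ℕ) :
    Measurable (MX T φ n) := by
  induction n with
  | zero => exact measurable_const
  | succ n ih => exact measurable_const.max (hφ.add (ih.comp hT))

lemma MX_integrable [IsFiniteMeasure μ] {T : X → X} (hT : MeasurePreserving T μ μ) {φ : X → ℝ}
    (hφ : Measurable φ) (hφi : Integrable φ μ) (n : ℕ) : Integrable (MX T φ n) μ := by
  induction n with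
  | zero => exact integrable_const _
  | succ n ih =>
    have h1 : Integrable (fun x => MX T φ n (T x)) μ :=
      hT.integrable_comp_of_integrable ih
    exact (integrable_const (0 : ℝ)).sup (hφi.add h1)

lemma measure_MX_pos_le [IsProbabilityMeasure μ] {T : X → X} (hT : MeasurePreserving T μ μ)
    {g : X → ℝ} (hg : Measurable g) (hgi : Integrable g μ) (hg0 : ∀ x, 0 ≤ g x) {t : ℝ}
    (ht : 0 < t) (n : ℕ) :
    μ {x | 0 < MX T (fun x => g x - t) n x} ≤ ENNReal.ofReal ((∫ x, g x ∂μ) / t) := by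
  set φ : X → ℝ := fun x => g x - t with hφdef
  have hφ : Measurable φ := hg.sub_const t
  have hφi : Integrable φ μ := hgi.sub (integrable_const _)
  set E : Set X := {x | 0 < MX T φ n x} with hE
  have hEm : MeasurableSet E := measurableSet_lt measurable_const (MX_measurable hT.measurable hφ n)
  have hM := MX_integrable hT hφ hφi n
  have hM' : Integrable (fun x => MX T φ n (T x)) μ := hT.integrable_comp_of_integrable hM
  have h1 : 0 ≤ ∫ x, Set.indicator E φ x ∂μ := by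
    have h2 : ∫ x, (MX T φ n x - MX T φ n (T x)) ∂μ = 0 := by
      rw [integral_sub hM hM']
      have h3 : ∫ x, MX T φ n (T x) ∂μ = ∫ x, MX T φ n x ∂μ := by
        have h4 := integral_map (μ := μ) (φ := T) hT.measurable.aemeasurable
          (f := MX T φ n) (by rw [hT.map_eq]; exact hM.aestronglyMeasurable)
        rw [hT.map_eq] at h4
        exact h4.symm
      rw [h3, sub_self]
    rw [← h2]
    exact integral_mono (hM.sub hM') (hφi.indicator hEm) (fun x => garsia T φ n x)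
  have h5 : ∫ x, Set.indicator E φ x ∂μ = ∫ x, Set.indicator E g x ∂μ - t * (μ E).toReal := by
    rw [integral_indicator hEm, integral_indicator hEm]
    rw [integral_sub hgi.integrableOn (integrable_const _)]
    simp [Measure.real, mul_comm]
  have h6 : ∫ x, Set.indicator E g x ∂μ ≤ ∫ x, g x ∂μ := by
    refine integral_mono (hgi.indicator hEm) hgi (fun x => ?_)
    exact Set.indicator_le_self' (fun _ _ => hg0 _) x
  have h7 : (μ E).toReal ≤ (∫ x, g x ∂μ) / t := by
    rw [le_div_iff₀ ht]; linarith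
  rw [← ENNReal.ofReal_toReal (measure_ne_top μ E)]
  exact ENNReal.ofReal_le_ofReal h7

end Erg

open Erg

theorem maximal_ineq {X : Type*} [MeasurableSpace X] {μ : Measure X} [IsProbabilityMeasure μ]
    {T : X → X} (hT : MeasurePreserving T μ μ) {g : X → ℝ} (hg : Measurable g)
    (hgi : Integrable g μ) (hg0 : ∀ x, 0 ≤ g x) {t : ℝ} (ht : 0 < t) :
    μ {x | ∃ n : ℕ, 1 ≤ n ∧ t * n < ∑ j ∈ Finset.range n, g (T^[j] x)} ≤
      ENNReal.ofReal ((∫ x, g x ∂μ) / t) := by
  have hsub : {x | ∃ n : ℕ, 1 ≤ n ∧ t * n < ∑ j ∈ Finset.range n, g (T^[j] x)} ⊆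
      ⋃ n : ℕ, {x | 0 < MX T (fun x => g x - t) n x} := by
    rintro x ⟨n, -, hn⟩
    refine Set.mem_iUnion.2 ⟨n, ?_⟩
    have h := sum_le_MX T (fun x => g x - t) n x
    rw [Finset.sum_sub_distrib] at h
    simp only [Finset.sum_const, Finset.card_range, nsmul_eq_mul] at h
    show 0 < MX T (fun x => g x - t) n x
    nlinarith
  have hmono : Monotone fun n : ℕ => {x | 0 < MX T (fun x => g x - t) n x} := by
    refine monotone_nat_of_le_succ fun n x hx => ?_
    exact lt_of_lt_of_le hx (MX_le_succ _ _ _ _)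
  refine (measure_mono hsub).trans ?_
  rw [hmono.measure_iUnion]
  exact iSup_le fun n => measure_MX_pos_le hT hg hgi hg0 ht n

namespace Erg

variable {X : Type*} [m0 : MeasurableSpace X] {μ : Measure X}

lemma invAlg_le (T : X → X) : invAlg μ T ≤ m0 := fun _ hA => hA.1

/-- an invariant function is measurable for the invariant σ-algebra -/
lemma measurable_invAlg {T : X → X} {g : X → ℝ} (hg : Measurable g) (h : g ∘ T =ᵐ[μ] g) :
    Measurable[invAlg μ T] g := by
  intro B hB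
  refine ⟨hg hB, ?_⟩
  filter_upwards [h] with x hx
  have : g (T x) = g x := hx
  show (x ∈ T ⁻¹' (g ⁻¹' B)) = (x ∈ g ⁻¹' B)
  simp only [Set.mem_preimage, this]

lemma comp_self_of_measurable {T : X → X} {g : X → ℝ} (hg : Measurable[invAlg μ T] g) :
    (fun x => g (T x)) =ᵐ[μ] g := by
  have h : ∀ q : ℚ, ∀ᵐ x ∂μ, (g (T x) < q ↔ g x < q) := by
    intro q
    have hm : MeasurableSet[invAlg μ T] {x | g x < q} := hg measurableSet_Iio
    have h2 := hm.2
    filter_upwards [h2] with x hx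
    have : (x ∈ T ⁻¹' {x | g x < q}) = (x ∈ {x | g x < q}) := hx
    simpa using Eq.to_iff this
  filter_upwards [ae_all_iff.2 h] with x hx
  apply le_antisymm
  · by_contra hlt
    push Not at hlt
    obtain ⟨q, hq1, hq2⟩ := exists_rat_btwn hlt
    exact absurd ((hx q).2 hq1) (not_lt.2 hq2.le)
  · by_contra hlt
    push Not at hlt
    obtain ⟨q, hq1, hq2⟩ := exists_rat_btwn hlt
    exact absurd ((hx q).1 hq1) (not_lt.2 hq2.le)

end Erg

namespace Erg

variable {X : Type*} [m0 : MeasurableSpace X] {μ : Measure X}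

lemma bdd_integrable [IsFiniteMeasure μ] {f : X → ℝ} (hf : Measurable f) {K : ℝ}
    (hK : ∀ x, |f x| ≤ K) : Integrable f μ :=
  Integrable.of_bound hf.aestronglyMeasurable K (ae_of_all _ (fun x => by simpa using hK x))

/-- a bounded function with vanishing conditional expectation is orthogonal to the invariant
functions -/
lemma integral_mul_eq_zero [IsProbabilityMeasure μ] {T : X → X} {f g : X → ℝ} (hf : Measurable f)
    {K : ℝ} (hK : ∀ x, |f x| ≤ K) (h0 : μ[f | invAlg μ T] =ᵐ[μ] 0) (hg : Measurable g)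
    (hgi : Integrable g μ) (hgT : g ∘ T =ᵐ[μ] g) : ∫ x, g x * f x ∂μ = 0 := by
  have hgm := measurable_invAlg hg hgT
  have hfi : Integrable f μ := bdd_integrable hf hK
  have hfg : Integrable (g * f) μ := by
    refine Integrable.mono' (hgi.norm.mul_const K) (hg.mul hf).aestronglyMeasurable
      (ae_of_all _ fun x => ?_)
    rw [Pi.mul_apply, norm_mul]
    exact mul_le_mul_of_nonneg_left (by simpa using hK x) (norm_nonneg _)
  have h1 : μ[g * f | invAlg μ T] =ᵐ[μ] g * μ[f | invAlg μ T] :=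
    condExp_mul_of_stronglyMeasurable_left hgm.stronglyMeasurable hfg hfi
  have h2 : ∫ x, (μ[g * f | invAlg μ T]) x ∂μ = ∫ x, (g * f) x ∂μ := integral_condExp (invAlg_le T)
  have h3 : ∫ x, (μ[g * f | invAlg μ T]) x ∂μ = 0 := by
    have : μ[g * f | invAlg μ T] =ᵐ[μ] 0 := by
      filter_upwards [h1, h0] with x hx1 hx2
      rw [hx1, Pi.mul_apply, hx2]; simp
    rw [integral_congr_ae this]; simp
  rw [h3] at h2
  exact h2.symm

/-- the mean ergodic theorem -/
lemma exists_average_small [IsProbabilityMeasure μ] {T : X → X} (hT : MeasurePreserving T μ μ)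
    {f : X → ℝ} (hf : Measurable f) {K : ℝ} (hK : ∀ x, |f x| ≤ K)
    (h0 : μ[f | invAlg μ T] =ᵐ[μ] 0) {ε : ℝ} (hε : 0 < ε) :
    ∃ n : ℕ, 1 ≤ n ∧ ∫ x, |(n : ℝ)⁻¹ * ∑ i ∈ Finset.range n, f (T^[i] x)| ∂μ ≤ ε := by
  have hmem : MemLp f 2 μ := MemLp.of_bound hf.aestronglyMeasurable K
    (ae_of_all _ (fun x => by simpa using hK x))
  set F : Lp ℝ 2 μ := hmem.toLp f with hF
  have hFf : F =ᵐ[μ] f := hmem.coeFn_toLp
  set U : Lp ℝ 2 μ →L[ℝ] Lp ℝ 2 μ :=
    (Lp.compMeasurePreservingₗᵢ ℝ T hT).toContinuousLinearMap with hU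
  have hUapp : ∀ g : Lp ℝ 2 μ, U g =ᵐ[μ] g ∘ T := fun g => Lp.coeFn_compMeasurePreserving g hT
  have hU1 : ‖U‖ ≤ 1 := LinearIsometry.norm_toContinuousLinearMap_le _
  have hconv := ContinuousLinearMap.tendsto_birkhoffAverage_orthogonalProjection U hU1 F
  have hproj : (U.eqLocus (1 : Lp ℝ 2 μ →L[ℝ] Lp ℝ 2 μ)).orthogonalProjectionOnto F = 0 := by
    rw [Submodule.orthogonalProjectionOnto_eq_zero_iff, Submodule.mem_orthogonal]
    intro g hg
    have hg' : U g = g := by simpa [LinearMap.mem_eqLocus] using hg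
    have hgT : (g : X → ℝ) ∘ T =ᵐ[μ] g := by
      have := hUapp g
      rw [hg'] at this
      exact this.symm
    rw [L2.inner_def]
    have h1 : ∀ᵐ a ∂μ, inner ℝ (g a) (F a) = g a * f a := by
      filter_upwards [hFf] with a ha
      rw [ha]; simp [mul_comm]
    rw [integral_congr_ae h1]
    have hgi : Integrable (g : X → ℝ) μ := (Lp.memLp g).integrable (by norm_num)
    exact integral_mul_eq_zero hf hK h0 (Lp.stronglyMeasurable g).measurable hgi hgT
  rw [hproj] at hconv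
  have hnorm : Tendsto (fun n => ‖birkhoffAverage ℝ U _root_.id n F‖) atTop (𝓝 0) := by
    have := hconv.norm
    simpa using this
  have hev := (hnorm.eventually (gt_mem_nhds hε)).and (eventually_ge_atTop 1)
  obtain ⟨n, hn, hn1⟩ := hev.exists
  refine ⟨n, hn1, ?_⟩
  have hiter : ∀ k : ℕ, (U^[k] F : Lp ℝ 2 μ) =ᵐ[μ] fun x => f (T^[k] x) := by
    intro k
    induction k with
    | zero => exact hFf
    | succ k ih =>
      rw [Function.iterate_succ_apply']
      have h1 := hUapp (U^[k] F)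
      have h2 := hT.quasiMeasurePreserving.ae_eq_comp ih
      filter_upwards [h1, h2] with x hx1 hx2
      rw [hx1, hx2]
      simp [Function.iterate_succ_apply]
  have hsum : ∀ k : ℕ, (birkhoffSum U _root_.id k F : Lp ℝ 2 μ) =ᵐ[μ]
      fun x => ∑ i ∈ Finset.range k, f (T^[i] x) := by
    intro k
    induction k with
    | zero =>
      simp only [birkhoffSum_zero, Finset.range_zero, Finset.sum_empty]
      exact Lp.coeFn_zero ℝ 2 μ
    | succ k ih =>
      rw [birkhoffSum_succ]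
      have h1 := Lp.coeFn_add (birkhoffSum U _root_.id k F) (U^[k] F)
      filter_upwards [h1, ih, hiter k] with x hx1 hx2 hx3
      rw [Finset.sum_range_succ, ← hx2, ← hx3]
      exact hx1
  have havg : (birkhoffAverage ℝ U _root_.id n F : Lp ℝ 2 μ) =ᵐ[μ]
      fun x => (n : ℝ)⁻¹ * ∑ i ∈ Finset.range n, f (T^[i] x) := by
    have h1 := Lp.coeFn_smul ((n : ℝ)⁻¹) (birkhoffSum U _root_.id n F)
    filter_upwards [h1, hsum n] with x hx1 hx2
    rw [← hx2]
    exact hx1
  have h5 : ∫ x, |(n : ℝ)⁻¹ * ∑ i ∈ Finset.range n, f (T^[i] x)| ∂μ =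
      ∫ x, ‖(birkhoffAverage ℝ U _root_.id n F : Lp ℝ 2 μ) x‖ ∂μ := by
    refine integral_congr_ae ?_
    filter_upwards [havg] with x hx
    rw [hx, Real.norm_eq_abs]
  rw [h5]
  set G := (birkhoffAverage ℝ U _root_.id n F : Lp ℝ 2 μ) with hG
  have hGm : MemLp G 2 μ := Lp.memLp G
  have h6 : ∫ x, ‖G x‖ ∂μ = (eLpNorm G 1 μ).toReal := by
    rw [eLpNorm_one_eq_lintegral_enorm, integral_norm_eq_lintegral_enorm hGm.aestronglyMeasurable]
  rw [h6]
  have h7 : eLpNorm G 1 μ ≤ eLpNorm G 2 μ :=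
    eLpNorm_le_eLpNorm_of_exponent_le (by norm_num) hGm.aestronglyMeasurable
  have h8 : (eLpNorm G 2 μ).toReal = ‖G‖ := rfl
  calc (eLpNorm G 1 μ).toReal ≤ (eLpNorm G 2 μ).toReal :=
        ENNReal.toReal_mono hGm.eLpNorm_ne_top h7
    _ ≤ ε := by rw [h8]; exact hn.le

lemma sum_iterate_measurable {T : X → X} (hT : Measurable T) {f : X → ℝ} (hf : Measurable f)
    (n : ℕ) : Measurable fun x => ∑ i ∈ Finset.range n, f (T^[i] x) :=
  Finset.measurable_sum _ fun i _ => hf.comp (hT.iterate i)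

end Erg

theorem cobdry_approx {X : Type*} [MeasurableSpace X] {μ : Measure X} [IsProbabilityMeasure μ]
    {T : X → X} (hT : MeasurePreserving T μ μ) {f : X → ℝ} (hf : Measurable f) {K : ℝ}
    (hK : ∀ x, |f x| ≤ K) (h0 : μ[f | invAlg μ T] =ᵐ[μ] 0) {ε : ℝ} (hε : 0 < ε) :
    ∃ h : X → ℝ, Measurable h ∧ (∃ K' : ℝ, ∀ x, |h x| ≤ K') ∧
      ∫ x, |f x - (h x - h (T x))| ∂μ ≤ ε := by
  obtain ⟨n, hn1, hn⟩ := exists_average_small hT hf hK h0 hε
  have hK0 : ∀ x : X, 0 ≤ K := fun x => (abs_nonneg _).trans (hK x)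
  refine ⟨fun x => (n : ℝ)⁻¹ * ∑ i ∈ Finset.range n, ∑ j ∈ Finset.range i, f (T^[j] x), ?_, ?_, ?_⟩
  · exact (Finset.measurable_sum _ fun i _ => sum_iterate_measurable hT.measurable hf i).const_mul _
  · refine ⟨(n : ℝ)⁻¹ * ∑ i ∈ Finset.range n, ∑ j ∈ Finset.range i, K, fun x => ?_⟩
    rw [abs_mul, abs_of_nonneg (by positivity : (0 : ℝ) ≤ (n : ℝ)⁻¹)]
    refine mul_le_mul_of_nonneg_left ?_ (by positivity)
    refine (Finset.abs_sum_le_sum_abs _ _).trans (Finset.sum_le_sum fun i _ => ?_)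
    exact (Finset.abs_sum_le_sum_abs _ _).trans (Finset.sum_le_sum fun j _ => hK _)
  · refine le_trans (le_of_eq ?_) hn
    refine integral_congr_ae (ae_of_all _ fun x => ?_)
    have hn0 : (n : ℝ) ≠ 0 := by positivity
    show |f x - ((n : ℝ)⁻¹ * ∑ i ∈ Finset.range n, ∑ j ∈ Finset.range i, f (T^[j] x) -
      (n : ℝ)⁻¹ * ∑ i ∈ Finset.range n, ∑ j ∈ Finset.range i, f (T^[j] (T x)))| =
      |(n : ℝ)⁻¹ * ∑ i ∈ Finset.range n, f (T^[i] x)|
    congr 1
    have h1 : ∀ i : ℕ, ∑ j ∈ Finset.range i, f (T^[j] (T x)) =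
        ∑ j ∈ Finset.range i, f (T^[j] x) + f (T^[i] x) - f x := by
      intro i
      have h2 := Finset.sum_range_succ (fun j => f (T^[j] x)) i
      have h3 := Finset.sum_range_succ' (fun j => f (T^[j] x)) i
      simp only [Function.iterate_succ_apply, Function.iterate_zero_apply] at h3
      linarith
    simp only [h1]
    rw [Finset.sum_sub_distrib, Finset.sum_add_distrib]
    simp only [Finset.sum_const, Finset.card_range, nsmul_eq_mul]
    field_simp
    ring

theorem condExp_comp_self {X : Type*} [MeasurableSpace X] {μ : Measure X} [IsProbabilityMeasure μ]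
    {T : X → X} (hT : MeasurePreserving T μ μ) {f : X → ℝ} (hf : Integrable f μ) :
    (fun x => (μ[f | invAlg μ T]) (T x)) =ᵐ[μ] μ[f | invAlg μ T] := by
  apply comp_self_of_measurable
  exact (stronglyMeasurable_condExp (m := invAlg μ T) (μ := μ) (f := f)).measurable

namespace Erg

/-- for almost every point there are good approximations of `f` by coboundaries -/
lemma ae_exists_approx {X : Type*} [MeasurableSpace X] {μ : Measure X} [IsProbabilityMeasure μ]
    {T : X → X} (hT : MeasurePreserving T μ μ) {f : X → ℝ} (hf : Measurable f) {K : ℝ}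
    (hK : ∀ x, |f x| ≤ K) (h0 : μ[f | invAlg μ T] =ᵐ[μ] 0) :
    ∀ᵐ x ∂μ, ∀ ε : ℝ, 0 < ε → ∃ (h : X → ℝ) (K' : ℝ), (∀ x, |h x| ≤ K') ∧
      ∀ n : ℕ, ∑ i ∈ Finset.range n,
        |f (T^[i] x) - (h (T^[i] x) - h (T^[i + 1] x))| ≤ ε * n := by
  choose h hm hb hi using fun j : ℕ => cobdry_approx hT hf hK h0 (ε := 1 / ((j : ℝ) + 1))
    (by positivity)
  choose K' hK' using hb
  -- the errors
  set e : ℕ → X → ℝ := fun j x => |f x - (h j x - h j (T x))| with he
  have hem : ∀ j, Measurable (e j) := fun j =>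
    (hf.sub ((hm j).sub ((hm j).comp hT.measurable))).abs
  have hei : ∀ j, Integrable (e j) μ := fun j => by
    refine bdd_integrable (hem j) (K := K + (K' j + K' j)) fun x => ?_
    rw [he]; simp only [abs_abs]
    have h1 := hK x
    have h2 := hK' j x
    have h3 := hK' j (T x)
    rw [abs_le] at *
    constructor <;> linarith
  have he0 : ∀ j x, 0 ≤ e j x := fun j x => abs_nonneg _
  have key : ∀ q : ℕ, ∀ᵐ x ∂μ, ∃ j, ∀ n : ℕ,
      ∑ i ∈ Finset.range n, e j (T^[i] x) ≤ 1 / ((q : ℝ) + 1) * n := by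
    intro q
    set t : ℝ := 1 / ((q : ℝ) + 1) with ht
    have ht0 : 0 < t := by positivity
    rw [ae_iff]
    have hsub : ∀ j : ℕ, μ {x | ¬ ∃ j, ∀ n : ℕ, ∑ i ∈ Finset.range n, e j (T^[i] x) ≤ t * n} ≤
        ENNReal.ofReal (1 / ((j : ℝ) + 1) / t) := by
      intro j
      refine (measure_mono (t := {x | ∃ n : ℕ, 1 ≤ n ∧
        t * n < ∑ i ∈ Finset.range n, e j (T^[i] x)}) ?_).trans
        ((maximal_ineq hT (hem j) (hei j) (he0 j) ht0).trans ?_)
      · intro x hx
        simp only [Set.mem_ofPred_eq] at hx ⊢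
        push Not at hx
        obtain ⟨n, hn⟩ := hx j
        refine ⟨n, ?_, hn⟩
        rcases Nat.eq_zero_or_pos n with rfl | h'
        · simp at hn
        · exact h'
      · refine ENNReal.ofReal_le_ofReal ?_
        exact div_le_div_of_nonneg_right (hi j) ht0.le
    have hlim : Tendsto (fun j : ℕ => ENNReal.ofReal (1 / ((j : ℝ) + 1) / t)) atTop (𝓝 0) := by
      have h1 : Tendsto (fun j : ℕ => 1 / ((j : ℝ) + 1) / t) atTop (𝓝 0) := by
        have := (tendsto_one_div_add_atTop_nhds_zero_nat (𝕜 := ℝ)).div_const t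
        simpa using this
      have h2 := (ENNReal.continuous_ofReal.tendsto 0).comp h1
      rw [ENNReal.ofReal_zero] at h2
      exact h2
    exact le_antisymm (ge_of_tendsto' hlim hsub) (zero_le)
  filter_upwards [ae_all_iff.2 key] with x hx ε hε
  obtain ⟨q, hq⟩ := exists_nat_one_div_lt hε
  obtain ⟨j, hj⟩ := hx q
  refine ⟨h j, K' j, hK' j, fun n => ?_⟩
  have h1 := hj n
  simp only [he] at h1
  have h2 : ∀ i, T (T^[i] x) = T^[i + 1] x := fun i => (Function.iterate_succ_apply' T i x).symm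
  simp only [h2] at h1
  refine h1.trans ?_
  exact mul_le_mul_of_nonneg_right hq.le (Nat.cast_nonneg _)

/-- summation by parts with a decreasing weight -/
lemma abel_le {w e : ℕ → ℝ} (hw : Antitone w) (hw0 : ∀ s, 0 ≤ w s) {ε : ℝ}
    (he : ∀ n : ℕ, ∑ i ∈ Finset.range n, e i ≤ ε * n) (N : ℕ) :
    ∑ s ∈ Finset.range N, w s * e s ≤ ε * ∑ s ∈ Finset.range N, w s := by
  have key : ∀ N : ℕ, w N * (ε * N - ∑ i ∈ Finset.range N, e i) ≤
      ∑ s ∈ Finset.range N, w s * (ε - e s) := by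
    intro N
    induction N with
    | zero => simp
    | succ N ih =>
      rw [Finset.sum_range_succ, Finset.sum_range_succ]
      have h1 : 0 ≤ ε * ((N + 1 : ℕ) : ℝ) - (∑ i ∈ Finset.range N, e i + e N) := by
        have := he (N + 1)
        rw [Finset.sum_range_succ] at this
        linarith
      have h2 : w (N + 1) ≤ w N := hw (Nat.le_succ N)
      calc w (N + 1) * (ε * ((N + 1 : ℕ) : ℝ) - (∑ i ∈ Finset.range N, e i + e N))
          ≤ w N * (ε * ((N + 1 : ℕ) : ℝ) - (∑ i ∈ Finset.range N, e i + e N)) :=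
            mul_le_mul_of_nonneg_right h2 h1
        _ = w N * (ε * N - ∑ i ∈ Finset.range N, e i) + w N * (ε - e N) := by push_cast; ring
        _ ≤ _ := by linarith
  have h1 := key N
  have h2 : 0 ≤ w N * (ε * N - ∑ i ∈ Finset.range N, e i) :=
    mul_nonneg (hw0 N) (by linarith [he N])
  have h3 : ∑ s ∈ Finset.range N, w s * (ε - e s) =
      ε * ∑ s ∈ Finset.range N, w s - ∑ s ∈ Finset.range N, w s * e s := by
    rw [Finset.mul_sum, ← Finset.sum_sub_distrib]
    exact Finset.sum_congr rfl fun s _ => by ring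
  linarith

lemma sum_rpow_le {a : ℝ} (ha : 0 ≤ a) (ha1 : a < 1) (N : ℕ) :
    ∑ s ∈ Finset.range N, ((s : ℝ) + 1) ^ (-a) ≤ (N : ℝ) ^ (1 - a) / (1 - a) := by
  have h1a : 0 < 1 - a := by linarith
  induction N with
  | zero => simp [Real.zero_rpow h1a.ne']
  | succ N ih =>
    rw [Finset.sum_range_succ]
    have hN : (0 : ℝ) < (N : ℝ) + 1 := by positivity
    have hb : (1 + (-(1 / ((N : ℝ) + 1)))) ^ (1 - a) ≤ 1 + (1 - a) * (-(1 / ((N : ℝ) + 1))) := by
      apply rpow_one_add_le_one_add_mul_self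
      · have : 1 / ((N : ℝ) + 1) ≤ 1 := by
          rw [div_le_one hN]; linarith [Nat.cast_nonneg (α := ℝ) N]
        linarith
      · linarith
      · linarith
    have h2 : (1 + (-(1 / ((N : ℝ) + 1)))) = N / ((N : ℝ) + 1) := by field_simp; ring
    rw [h2, Real.div_rpow (Nat.cast_nonneg _) hN.le] at hb
    have h3 : ((N : ℝ) + 1) ^ (-a) = ((N : ℝ) + 1) ^ (1 - a) / ((N : ℝ) + 1) := by
      rw [show -a = (1 - a) - 1 by ring, Real.rpow_sub_one hN.ne']
    have h4 : 0 < ((N : ℝ) + 1) ^ (1 - a) := Real.rpow_pos_of_pos hN _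
    rw [div_le_iff₀ h4] at hb
    push_cast
    rw [le_div_iff₀ h1a]
    rw [le_div_iff₀ h1a] at ih
    rw [h3]
    have h5 : (∑ x ∈ Finset.range N, ((x : ℝ) + 1) ^ (-a) +
        ((N : ℝ) + 1) ^ (1 - a) / ((N : ℝ) + 1)) * (1 - a) =
        (∑ x ∈ Finset.range N, ((x : ℝ) + 1) ^ (-a)) * (1 - a) +
        (1 - a) * (((N : ℝ) + 1) ^ (1 - a) / ((N : ℝ) + 1)) := by ring
    rw [h5]
    have h6 : (1 + (1 - a) * -(1 / ((N : ℝ) + 1))) * ((N : ℝ) + 1) ^ (1 - a) =
        ((N : ℝ) + 1) ^ (1 - a) - (1 - a) * (((N : ℝ) + 1) ^ (1 - a) / ((N : ℝ) + 1)) := by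
      ring
    linarith

/-- the deterministic part of the weighted ergodic theorem -/
lemma weighted_det {a : ℝ} (ha : 0 ≤ a) (ha1 : a < 1) {u : ℕ → ℝ}
    (hu : ∀ ε : ℝ, 0 < ε → ∃ (H : ℕ → ℝ) (K' : ℝ), (∀ s, |H s| ≤ K') ∧
      ∀ n : ℕ, ∑ i ∈ Finset.range n, |u i - (H i - H (i + 1))| ≤ ε * n) {ε : ℝ} (hε : 0 < ε) :
    ∃ η : ℝ, 0 < η ∧ ∃ N₀ : ℕ, ∀ N : ℕ, N₀ ≤ N → ∀ ω : ℕ → ℝ,
      (∀ s, |ω s| ≤ 2 * ((s : ℝ) + 1) ^ (-a)) →
      ∑ s ∈ Finset.range N, |ω (s + 1) - ω s| ≤ η * (N : ℝ) ^ (1 - a) →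
      |∑ s ∈ Finset.range N, ω s * u s| ≤ ε * (N : ℝ) ^ (1 - a) := by
  have h1a : 0 < 1 - a := by linarith
  obtain ⟨H, K', hH, hE⟩ := hu (ε * (1 - a) / 8) (by positivity)
  have hK0 : 0 ≤ K' := (abs_nonneg _).trans (hH 0)
  have htend : Tendsto (fun N : ℕ => (N : ℝ) ^ (1 - a)) atTop atTop :=
    (tendsto_rpow_atTop h1a).comp tendsto_natCast_atTop_atTop
  obtain ⟨N₀, hN₀⟩ := (htend.eventually_ge_atTop (8 * K' / ε)).exists_forall_of_atTop
  refine ⟨ε / (4 * (K' + 1)), by positivity, N₀, fun N hN ω hω hvar => ?_⟩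
  have hNb := hN₀ N hN
  rw [div_le_iff₀ hε] at hNb
  have hpow0 : (0 : ℝ) ≤ (N : ℝ) ^ (1 - a) := Real.rpow_nonneg (Nat.cast_nonneg _) _
  have hω2 : ∀ s, |ω s| ≤ 2 := fun s => by
    refine (hω s).trans ?_
    have : ((s : ℝ) + 1) ^ (-a) ≤ 1 :=
      Real.rpow_le_one_of_one_le_of_nonpos (by linarith [Nat.cast_nonneg (α := ℝ) s]) (by linarith)
    linarith
  -- the coboundary part
  have hcob : ∀ n : ℕ, ∑ s ∈ Finset.range n, ω s * (H s - H (s + 1)) =
      ω 0 * H 0 - ω n * H n + ∑ s ∈ Finset.range n, (ω (s + 1) - ω s) * H (s + 1) := by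
    intro n
    induction n with
    | zero => simp
    | succ n ih => rw [Finset.sum_range_succ, Finset.sum_range_succ, ih]; ring
  have h1 : |∑ s ∈ Finset.range N, ω s * (H s - H (s + 1))| ≤
      4 * K' + K' * (ε / (4 * (K' + 1)) * (N : ℝ) ^ (1 - a)) := by
    rw [hcob N]
    have e1 : |ω 0 * H 0| ≤ 2 * K' := by
      rw [abs_mul]; exact mul_le_mul (hω2 0) (hH 0) (abs_nonneg _) (by norm_num)
    have e2 : |ω N * H N| ≤ 2 * K' := by
      rw [abs_mul]; exact mul_le_mul (hω2 N) (hH N) (abs_nonneg _) (by norm_num)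
    have e3 : |∑ s ∈ Finset.range N, (ω (s + 1) - ω s) * H (s + 1)| ≤
        K' * (ε / (4 * (K' + 1)) * (N : ℝ) ^ (1 - a)) := by
      refine (Finset.abs_sum_le_sum_abs _ _).trans ?_
      calc ∑ s ∈ Finset.range N, |(ω (s + 1) - ω s) * H (s + 1)|
          ≤ ∑ s ∈ Finset.range N, K' * |ω (s + 1) - ω s| := by
            refine Finset.sum_le_sum fun s _ => ?_
            rw [abs_mul, mul_comm]
            exact mul_le_mul_of_nonneg_right (hH _) (abs_nonneg _)
        _ = K' * ∑ s ∈ Finset.range N, |ω (s + 1) - ω s| := by rw [Finset.mul_sum]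
        _ ≤ _ := mul_le_mul_of_nonneg_left hvar hK0
    have e4 := abs_add_le (ω 0 * H 0 - ω N * H N)
      (∑ s ∈ Finset.range N, (ω (s + 1) - ω s) * H (s + 1))
    have e5 := abs_sub (ω 0 * H 0) (ω N * H N)
    linarith
  -- the error part
  have h2 : |∑ s ∈ Finset.range N, ω s * (u s - (H s - H (s + 1)))| ≤
      2 * (ε * (1 - a) / 8 * ((N : ℝ) ^ (1 - a) / (1 - a))) := by
    refine (Finset.abs_sum_le_sum_abs _ _).trans ?_
    have hanti : Antitone fun s : ℕ => ((s : ℝ) + 1) ^ (-a) := by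
      intro s t hst
      refine Real.rpow_le_rpow_of_nonpos (by positivity) ?_ (by linarith)
      have : (s : ℝ) ≤ t := by exact_mod_cast hst
      linarith
    have e1 := abel_le hanti (fun s => Real.rpow_nonneg (by positivity) _) hE N
    calc ∑ s ∈ Finset.range N, |ω s * (u s - (H s - H (s + 1)))|
        ≤ ∑ s ∈ Finset.range N, 2 * (((s : ℝ) + 1) ^ (-a) * |u s - (H s - H (s + 1))|) := by
          refine Finset.sum_le_sum fun s _ => ?_
          rw [abs_mul, ← mul_assoc]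
          exact mul_le_mul_of_nonneg_right (hω s) (abs_nonneg _)
      _ = 2 * ∑ s ∈ Finset.range N, ((s : ℝ) + 1) ^ (-a) * |u s - (H s - H (s + 1))| := by
          rw [Finset.mul_sum]
      _ ≤ 2 * (ε * (1 - a) / 8 * ∑ s ∈ Finset.range N, ((s : ℝ) + 1) ^ (-a)) :=
          mul_le_mul_of_nonneg_left e1 (by norm_num)
      _ ≤ _ := by
          refine mul_le_mul_of_nonneg_left ?_ (by norm_num)
          exact mul_le_mul_of_nonneg_left (sum_rpow_le ha ha1 N) (by positivity)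
  have h3 : ∑ s ∈ Finset.range N, ω s * u s =
      ∑ s ∈ Finset.range N, ω s * (H s - H (s + 1)) +
      ∑ s ∈ Finset.range N, ω s * (u s - (H s - H (s + 1))) := by
    rw [← Finset.sum_add_distrib]
    exact Finset.sum_congr rfl fun s _ => by ring
  rw [h3]
  refine (abs_add_le _ _).trans ?_
  have h4 : K' * (ε / (4 * (K' + 1)) * (N : ℝ) ^ (1 - a)) ≤ ε / 4 * (N : ℝ) ^ (1 - a) := by
    rw [← mul_assoc]
    refine mul_le_mul_of_nonneg_right ?_ hpow0
    rw [← mul_div_assoc, div_le_div_iff₀ (by positivity) (by norm_num)]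
    nlinarith
  have h5 : 2 * (ε * (1 - a) / 8 * ((N : ℝ) ^ (1 - a) / (1 - a))) = ε / 4 * (N : ℝ) ^ (1 - a) := by
    field_simp
    ring
  linarith

lemma weighted_null' {X : Type*} [MeasurableSpace X] {μ : Measure X} [IsProbabilityMeasure μ]
    {T : X → X} (hT : MeasurePreserving T μ μ) {f : X → ℝ} (hf : Measurable f) {K : ℝ}
    (hK : ∀ x, |f x| ≤ K) (h0 : μ[f | invAlg μ T] =ᵐ[μ] 0) {a : ℝ} (ha : 0 ≤ a) (ha1 : a < 1) :
    ∀ᵐ x ∂μ, ∀ ε : ℝ, 0 < ε → ∃ η : ℝ, 0 < η ∧ ∃ N₀ : ℕ, ∀ N : ℕ, N₀ ≤ N → ∀ ω : ℕ → ℝ,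
      (∀ s, |ω s| ≤ 2 * ((s : ℝ) + 1) ^ (-a)) →
      ∑ s ∈ Finset.range N, |ω (s + 1) - ω s| ≤ η * (N : ℝ) ^ (1 - a) →
      |∑ s ∈ Finset.range N, ω s * f (T^[s] x)| ≤ ε * (N : ℝ) ^ (1 - a) := by
  filter_upwards [ae_exists_approx hT hf hK h0] with x hx ε hε
  refine weighted_det ha ha1 (u := fun s => f (T^[s] x)) (fun ε' hε' => ?_) hε
  obtain ⟨h, K', hK', hh⟩ := hx ε' hε'
  exact ⟨fun s => h (T^[s] x), K', fun s => hK' _, hh⟩

end Erg

theorem weighted_null {X : Type*} [MeasurableSpace X] {μ : Measure X} [IsProbabilityMeasure μ]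
    {T : X → X} (hT : MeasurePreserving T μ μ) {f : X → ℝ} (hf : Measurable f) {K : ℝ}
    (hK : ∀ x, |f x| ≤ K) (h0 : μ[f | invAlg μ T] =ᵐ[μ] 0) {a : ℝ} (ha : 0 < a) (ha1 : a < 1) :
    ∀ᵐ x ∂μ, ∀ ε : ℝ, 0 < ε → ∃ η : ℝ, 0 < η ∧ ∃ N₀ : ℕ, ∀ N : ℕ, N₀ ≤ N → ∀ ω : ℕ → ℝ,
      (∀ s, |ω s| ≤ 2 * ((s : ℝ) + 1) ^ (-a)) →
      ∑ s ∈ Finset.range N, |ω (s + 1) - ω s| ≤ η * (N : ℝ) ^ (1 - a) →
      |∑ s ∈ Finset.range N, ω s * f (T^[s] x)| ≤ ε * (N : ℝ) ^ (1 - a) :=
  weighted_null' hT hf hK h0 ha.le ha1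

theorem birkhoff {X : Type*} [MeasurableSpace X] {μ : Measure X} [IsProbabilityMeasure μ]
    {T : X → X} (hT : MeasurePreserving T μ μ) {f : X → ℝ} (hf : Measurable f) {K : ℝ}
    (hK : ∀ x, |f x| ≤ K) :
    ∀ᵐ x ∂μ, Tendsto (fun N : ℕ => (N : ℝ)⁻¹ * ∑ n ∈ Finset.Icc 1 N, f (T^[n] x)) atTop
      (𝓝 ((μ[f | invAlg μ T]) x)) := by
  obtain ⟨x₀⟩ : Nonempty X := nonempty_of_isProbabilityMeasure μ
  have hK0 : 0 ≤ K := (abs_nonneg _).trans (hK x₀)
  set F : X → ℝ := μ[f | invAlg μ T] with hF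
  have hFm : Measurable[invAlg μ T] F :=
    (stronglyMeasurable_condExp (m := invAlg μ T) (μ := μ) (f := f)).measurable
  have hFm0 : Measurable F := hFm.mono (invAlg_le T) le_rfl
  have hfi : Integrable f μ := bdd_integrable hf hK
  set G : X → ℝ := fun x => max (-K) (min K (F x)) with hG
  have hGm : Measurable G := measurable_const.max (measurable_const.min hFm0)
  have hGK : ∀ x, |G x| ≤ K := fun x => by
    rw [abs_le]
    exact ⟨le_max_left _ _, max_le (by linarith) (min_le_left _ _)⟩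
  have hGF : G =ᵐ[μ] F := by
    have h1 : ∀ᵐ x ∂μ, |F x| ≤ K := ae_bdd_abs_condExp_of_ae_bdd_abs (ae_of_all _ fun x => hK x)
    filter_upwards [h1] with x hx'
    rw [abs_le] at hx'
    show max (-K) (min K (F x)) = F x
    rw [min_eq_right hx'.2, max_eq_right hx'.1]
  have hGi : Integrable G μ := bdd_integrable hGm hGK
  set g : X → ℝ := fun x => f x - G x with hg
  have hgm : Measurable g := hf.sub hGm
  have hgK : ∀ x, |g x| ≤ K + K := fun x => by
    have h1 := hK x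
    have h2 := hGK x
    rw [abs_le] at *
    constructor <;> simp only [hg] <;> linarith
  have hg0 : μ[g | invAlg μ T] =ᵐ[μ] 0 := by
    have h1 : μ[f - G | invAlg μ T] =ᵐ[μ] μ[f | invAlg μ T] - μ[G | invAlg μ T] :=
      condExp_sub hfi hGi _
    have h2 : μ[G | invAlg μ T] =ᵐ[μ] μ[F | invAlg μ T] := condExp_congr_ae hGF
    have h3 : μ[F | invAlg μ T] = F :=
      condExp_of_stronglyMeasurable (invAlg_le T) hFm.stronglyMeasurable integrable_condExp
    filter_upwards [h1, h2] with x hx1 hx2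
    have : (μ[g | invAlg μ T]) x = (μ[f - G | invAlg μ T]) x := rfl
    rw [this, hx1, Pi.sub_apply, hx2, h3, Pi.zero_apply, sub_self]
  have hFT : ∀ n : ℕ, ∀ᵐ x ∂μ, F (T^[n] x) = F x := by
    intro n
    induction n with
    | zero => exact ae_of_all _ fun x => rfl
    | succ n ih =>
      have h1 := hT.quasiMeasurePreserving.ae ih
      filter_upwards [h1, condExp_comp_self hT hfi] with x hx1 hx2
      rw [Function.iterate_succ_apply, hx1]
      exact hx2
  have hGT : ∀ n : ℕ, ∀ᵐ x ∂μ, G (T^[n] x) = F x := by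
    intro n
    have h1 := (hT.iterate n).quasiMeasurePreserving.ae hGF
    filter_upwards [h1, hFT n] with x hx1 hx2
    rw [hx1, hx2]
  filter_upwards [weighted_null' hT hgm hgK hg0 (a := 0) le_rfl one_pos, ae_all_iff.2 hGT]
    with x hx1 hx2
  have hA : Tendsto (fun N : ℕ => (N : ℝ)⁻¹ * ∑ s ∈ Finset.range N, g (T^[s] x)) atTop (𝓝 0) := by
    rw [Metric.tendsto_atTop]
    intro ε hε
    obtain ⟨η, hη, N₀, hN₀⟩ := hx1 (ε / 2) (by positivity)
    refine ⟨max N₀ 1, fun N hN => ?_⟩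
    have hN1 : (1 : ℝ) ≤ N := by exact_mod_cast (le_max_right _ _).trans hN
    have h1 := hN₀ N ((le_max_left _ _).trans hN) (fun _ => 1) (fun s => by
      rw [neg_zero, Real.rpow_zero]; norm_num) (by
      simp only [sub_self, abs_zero, Finset.sum_const_zero]; positivity)
    simp only [one_mul, sub_zero, Real.rpow_one] at h1
    rw [Real.dist_eq, sub_zero, abs_mul, abs_of_nonneg (by positivity : (0 : ℝ) ≤ (N : ℝ)⁻¹)]
    calc (N : ℝ)⁻¹ * |∑ s ∈ Finset.range N, g (T^[s] x)| ≤ (N : ℝ)⁻¹ * (ε / 2 * N) :=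
          mul_le_mul_of_nonneg_left h1 (by positivity)
      _ = ε / 2 := by field_simp
      _ < ε := by linarith
  have hB : Tendsto (fun N : ℕ => (N : ℝ)⁻¹ * (g (T^[N] x) - g x)) atTop (𝓝 0) := by
    have h1 : Tendsto (fun N : ℕ => (N : ℝ)⁻¹ * (4 * K)) atTop (𝓝 0) := by
      have := (tendsto_inv_atTop_nhds_zero_nat (𝕜 := ℝ)).mul_const (4 * K)
      simpa using this
    refine squeeze_zero_norm (fun N => ?_) h1
    rw [Real.norm_eq_abs, abs_mul, abs_of_nonneg (by positivity : (0 : ℝ) ≤ (N : ℝ)⁻¹)]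
    refine mul_le_mul_of_nonneg_left ?_ (by positivity)
    have h1 := hgK (T^[N] x)
    have h2 := hgK x
    rw [abs_le] at *
    constructor <;> linarith
  have hsum : Tendsto (fun N : ℕ => (N : ℝ)⁻¹ * ∑ s ∈ Finset.range N, g (T^[s] x) +
      (N : ℝ)⁻¹ * (g (T^[N] x) - g x) + F x) atTop (𝓝 (F x)) := by
    have := (hA.add hB).add_const (F x)
    simpa using this
  refine hsum.congr' ?_
  filter_upwards [eventually_ge_atTop 1] with N hN
  have hN0 : (N : ℝ) ≠ 0 := by positivity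
  have e1 : ∑ n ∈ Finset.Icc 1 N, f (T^[n] x) = ∑ s ∈ Finset.range N, f (T^[s + 1] x) := by
    rw [Finset.range_eq_Ico, Finset.sum_Ico_add' (fun n => f (T^[n] x)) 0 N 1]
    rfl
  have e2 : ∑ s ∈ Finset.range N, f (T^[s + 1] x) =
      ∑ s ∈ Finset.range N, g (T^[s + 1] x) + N * F x := by
    have : ∀ s ∈ Finset.range N, f (T^[s + 1] x) = g (T^[s + 1] x) + F x := by
      intro s _
      rw [← hx2 (s + 1)]; simp only [hg]; ring
    rw [Finset.sum_congr rfl this, Finset.sum_add_distrib]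
    simp
  have e3 : ∑ s ∈ Finset.range N, g (T^[s + 1] x) =
      ∑ s ∈ Finset.range N, g (T^[s] x) + g (T^[N] x) - g x := by
    have h2 := Finset.sum_range_succ (fun j => g (T^[j] x)) N
    have h3 := Finset.sum_range_succ' (fun j => g (T^[j] x)) N
    simp only [Function.iterate_zero_apply] at h3
    linarith
  rw [e1, e2, e3]
  field_simp
  ring

end

end Pool.Agent.SRG
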