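import Pool.Agent.SRG.A2
import Pool.Agent.SRG.Erg

/-!
Semi-random ergodic averages: the main part tends to zero if `f₂` has zero invariant part.
-/

open MeasureTheory Filter Topology

namespace Pool.Agent.SRG

noncomputable section

namespace A3

/-- the weight sequence -/
def om (a δ : ℝ) (p c N : ℕ) (y : ℝ) (g : ℕ → ℝ) (t : ℕ) : ℝ :=
  if N0 δ N + c ≤ t ∧ t < N + c then wc a p N c (t - c) * g (al a p N y (t - c)) else 0

theorem om_le {a δ : ℝ} (ha : 0 < a) (ha1 : a < 1) {p : ℕ} (hp : 2 ≤ p) {c : ℕ} (hc : 1 ≤ c)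
    (N : ℕ) (y : ℝ) {g : ℕ → ℝ} (hg : ∀ i, |g i| ≤ 1) (t : ℕ) :
    |om a δ p c N y g t| ≤ 2 * ((t : ℝ) + 1) ^ (-a) := by
  have hpos : 0 ≤ ((t : ℝ) + 1) ^ (-a) := by positivity
  unfold om
  split_ifs with h
  · have ht : 1 ≤ t := by omega
    have ht0 : (0 : ℝ) < t := by exact_mod_cast ht
    have ht1 : (1 : ℝ) ≤ t := by exact_mod_cast ht
    rw [abs_mul]
    have h1 := wc_nonneg a hp N c (t - c)
    have h2 : wc a p N c (t - c) ≤ (t : ℝ) ^ (-a) := by
      have := wc_le (a := a) hp N c (t - c)
      rwa [show t - c + c = t by omega] at this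
    rw [abs_of_nonneg h1]
    have h3 := hg (al a p N y (t - c))
    have h4 : (t : ℝ) ^ (-a) ≤ 2 * ((t : ℝ) + 1) ^ (-a) := by
      have h5 : ((t : ℝ) + 1) ^ a ≤ 2 * (t : ℝ) ^ a := by
        calc ((t : ℝ) + 1) ^ a ≤ (2 * t) ^ a :=
              Real.rpow_le_rpow (by linarith) (by linarith) ha.le
          _ = 2 ^ a * (t : ℝ) ^ a := Real.mul_rpow (by norm_num) ht0.le
          _ ≤ 2 ^ (1 : ℝ) * (t : ℝ) ^ a := by
              have := Real.rpow_le_rpow_of_exponent_le (by norm_num : (1 : ℝ) ≤ 2) ha1.le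
              gcongr
          _ = _ := by rw [Real.rpow_one]
      rw [Real.rpow_neg ht0.le, Real.rpow_neg (by linarith), ← div_eq_mul_inv, inv_eq_one_div,
        div_le_div_iff₀ (Real.rpow_pos_of_pos ht0 _) (Real.rpow_pos_of_pos (by linarith) _)]
      linarith
    calc wc a p N c (t - c) * |g (al a p N y (t - c))| ≤ (t : ℝ) ^ (-a) * 1 := by gcongr
      _ ≤ _ := by linarith
  · rw [abs_zero]; linarith

/-- pointwise bound of the increments -/
theorem om_succ_sub {a δ : ℝ} (ha : 0 < a) {p : ℕ} (hp : 2 ≤ p) {c : ℕ} (hc : 1 ≤ c)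
    (N : ℕ) (y : ℝ) {g : ℕ → ℝ} (hg : ∀ i, |g i| ≤ 1) (t : ℕ) :
    |om a δ p c N y g (t + 1) - om a δ p c N y g t| ≤
      (if t + 1 = N0 δ N + c then 1 else 0) + (if t + 1 = N + c then 1 else 0) +
      (if N0 δ N + c ≤ t ∧ t + 1 < N + c then
        (wc a p N c (t - c) - wc a p N c (t - c + 1)) + 2 * wc a p N c (t - c) *
          ((al a p N y (t - c + 1) : ℝ) - al a p N y (t - c)) else 0) := by
  have hwc1 : ∀ s, wc a p N c s ≤ 1 := wc_le_one ha hp N c
  have hwc0 : ∀ s, 0 ≤ wc a p N c s := wc_nonneg a hp N c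
  have hone : ∀ s, |wc a p N c s * g (al a p N y s)| ≤ 1 := by
    intro s
    rw [abs_mul, abs_of_nonneg (hwc0 s)]
    have := hg (al a p N y s)
    calc wc a p N c s * |g (al a p N y s)| ≤ 1 * 1 := by
          gcongr; exact hwc1 s
      _ = 1 := by norm_num
  have hthird : 0 ≤ (if N0 δ N + c ≤ t ∧ t + 1 < N + c then
        (wc a p N c (t - c) - wc a p N c (t - c + 1)) + 2 * wc a p N c (t - c) *
          ((al a p N y (t - c + 1) : ℝ) - al a p N y (t - c)) else 0) := by
    split_ifs with h
    · have h1 := wc_anti ha hp N hc (Nat.le_succ (t - c))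
      have h2 : (al a p N y (t - c) : ℝ) ≤ al a p N y (t - c + 1) := by
        exact_mod_cast al_mono a p N y (Nat.le_succ _)
      have h3 := hwc0 (t - c)
      have h4 : 0 ≤ 2 * wc a p N c (t - c) *
          ((al a p N y (t - c + 1) : ℝ) - al a p N y (t - c)) := by
        apply mul_nonneg (by linarith) (by linarith)
      simp only [Nat.succ_eq_add_one] at h1
      linarith
    · exact le_refl _
  by_cases hA : t + 1 = N0 δ N + c
  · -- left end
    have h1 : om a δ p c N y g t = 0 := by
      unfold om; rw [if_neg (by omega)]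
    rw [h1, sub_zero, if_pos hA]
    have h2 : |om a δ p c N y g (t + 1)| ≤ 1 := by
      unfold om
      split_ifs
      · exact hone _
      · simp
    have h3 : (0 : ℝ) ≤ (if t + 1 = N + c then 1 else 0) := by split_ifs <;> norm_num
    linarith
  · by_cases hB : t + 1 = N + c
    · have h1 : om a δ p c N y g (t + 1) = 0 := by
        unfold om; rw [if_neg (by omega)]
      rw [h1, zero_sub, abs_neg, if_pos hB]
      have h2 : |om a δ p c N y g t| ≤ 1 := by
        unfold om
        split_ifs
        · exact hone _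
        · simp
      have h3 : (0 : ℝ) ≤ (if t + 1 = N0 δ N + c then 1 else 0) := by split_ifs <;> norm_num
      linarith
    · rw [if_neg hA, if_neg hB]
      by_cases hC : N0 δ N + c ≤ t ∧ t + 1 < N + c
      · rw [if_pos hC]
        have h1 : om a δ p c N y g t = wc a p N c (t - c) * g (al a p N y (t - c)) := by
          unfold om; rw [if_pos (by omega)]
        have h2 : om a δ p c N y g (t + 1) =
            wc a p N c (t - c + 1) * g (al a p N y (t - c + 1)) := by
          unfold om
          rw [if_pos (by omega), show t + 1 - c = t - c + 1 by omega]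
        rw [h1, h2]
        set s := t - c
        have hanti := wc_anti ha hp N hc (Nat.le_succ s)
        simp only [Nat.succ_eq_add_one] at hanti
        have hg1 := hg (al a p N y (s + 1))
        have hdiff : |g (al a p N y (s + 1)) - g (al a p N y s)| ≤
            2 * ((al a p N y (s + 1) : ℝ) - al a p N y s) := by
          rcases eq_or_lt_of_le (al_mono a p N y (Nat.le_succ s)) with h | h
          · simp only [Nat.succ_eq_add_one] at h
            rw [h]; simp
          · have h5 : (al a p N y s : ℝ) + 1 ≤ al a p N y (s + 1) := by exact_mod_cast h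
            calc |g (al a p N y (s + 1)) - g (al a p N y s)| ≤
                |g (al a p N y (s + 1))| + |g (al a p N y s)| := abs_sub _ _
              _ ≤ 1 + 1 := add_le_add (hg _) (hg _)
              _ ≤ _ := by linarith
        calc |wc a p N c (s + 1) * g (al a p N y (s + 1)) - wc a p N c s * g (al a p N y s)|
            = |(wc a p N c (s + 1) - wc a p N c s) * g (al a p N y (s + 1)) +
                wc a p N c s * (g (al a p N y (s + 1)) - g (al a p N y s))| := by ring_nf
          _ ≤ |(wc a p N c (s + 1) - wc a p N c s) * g (al a p N y (s + 1))| +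
                |wc a p N c s * (g (al a p N y (s + 1)) - g (al a p N y s))| := abs_add_le _ _
          _ = (wc a p N c s - wc a p N c (s + 1)) * |g (al a p N y (s + 1))| +
                wc a p N c s * |g (al a p N y (s + 1)) - g (al a p N y s)| := by
              rw [abs_mul, abs_mul, abs_of_nonneg (hwc0 s),
                abs_of_nonpos (by linarith : wc a p N c (s + 1) - wc a p N c s ≤ 0)]
              ring
          _ ≤ (wc a p N c s - wc a p N c (s + 1)) * 1 +
                wc a p N c s * (2 * ((al a p N y (s + 1) : ℝ) - al a p N y s)) := by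
              have := hwc0 s
              gcongr
          _ = _ := by ring
      · rw [if_neg hC]
        have h1 : om a δ p c N y g t = 0 := by
          unfold om; rw [if_neg (by omega)]
        have h2 : om a δ p c N y g (t + 1) = 0 := by
          unfold om; rw [if_neg (by omega)]
        rw [h1, h2]; simp

theorem sum_om {a δ : ℝ} {p : ℕ} {c : ℕ} (N : ℕ) (y : ℝ) (g : ℕ → ℝ) (F : ℕ → ℝ) :
    ∑ t ∈ Finset.range (N + c), om a δ p c N y g t * F t =
      ∑ s ∈ Finset.Ico (N0 δ N) N, wc a p N c s * (g (al a p N y s) * F (s + c)) := by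
  have h1 : ∑ s ∈ Finset.Ico (N0 δ N) N, wc a p N c s * (g (al a p N y s) * F (s + c)) =
      ∑ t ∈ Finset.Ico (N0 δ N + c) (N + c), om a δ p c N y g t * F t := by
    rw [← Finset.sum_Ico_add' (fun t => om a δ p c N y g t * F t) (N0 δ N) N c]
    refine Finset.sum_congr rfl fun s hs => ?_
    rw [Finset.mem_Ico] at hs
    unfold om
    rw [if_pos (by omega), show s + c - c = s by omega]
    ring
  rw [h1]
  symm
  apply Finset.sum_subset
  · intro t ht
    rw [Finset.mem_Ico] at ht
    rw [Finset.mem_range]; omega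
  · intro t ht ht2
    rw [Finset.mem_range] at ht
    rw [Finset.mem_Ico] at ht2
    unfold om
    rw [if_neg (by omega)]; ring

theorem sum_om_succ_sub {a δ : ℝ} (ha : 0 < a) {p : ℕ} (hp : 2 ≤ p) {c : ℕ} (hc : 1 ≤ c)
    (N : ℕ) (y : ℝ) {g : ℕ → ℝ} (hg : ∀ i, |g i| ≤ 1) :
    ∑ t ∈ Finset.range (N + c), |om a δ p c N y g (t + 1) - om a δ p c N y g t| ≤
      3 + 2 * (N0 δ N : ℝ) ^ (-a) * St a p N y N := by
  have hwc1 : ∀ s, wc a p N c s ≤ 1 := wc_le_one ha hp N c
  have hwc0 : ∀ s, 0 ≤ wc a p N c s := wc_nonneg a hp N c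
  calc _ ≤ ∑ t ∈ Finset.range (N + c), ((if t + 1 = N0 δ N + c then 1 else 0) +
        (if t + 1 = N + c then 1 else 0) +
        (if N0 δ N + c ≤ t ∧ t + 1 < N + c then
        (wc a p N c (t - c) - wc a p N c (t - c + 1)) + 2 * wc a p N c (t - c) *
          ((al a p N y (t - c + 1) : ℝ) - al a p N y (t - c)) else 0)) :=
        Finset.sum_le_sum fun t _ => om_succ_sub ha hp hc N y hg t
    _ = ∑ t ∈ Finset.range (N + c), (if t + 1 = N0 δ N + c then (1 : ℝ) else 0) +
        ∑ t ∈ Finset.range (N + c), (if t + 1 = N + c then (1 : ℝ) else 0) +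
        ∑ t ∈ Finset.range (N + c), (if N0 δ N + c ≤ t ∧ t + 1 < N + c then
        (wc a p N c (t - c) - wc a p N c (t - c + 1)) + 2 * wc a p N c (t - c) *
          ((al a p N y (t - c + 1) : ℝ) - al a p N y (t - c)) else 0) := by
        rw [Finset.sum_add_distrib, Finset.sum_add_distrib]
    _ ≤ 1 + 1 + (1 + 2 * (N0 δ N : ℝ) ^ (-a) * St a p N y N) := by
        have hcard : ∀ K : ℕ, ∑ t ∈ Finset.range (N + c), (if t + 1 = K then (1 : ℝ) else 0) ≤ 1 := by
          intro K
          rw [← Finset.sum_filter, Finset.sum_const, nsmul_eq_mul, mul_one]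
          have : (Finset.filter (fun t => t + 1 = K) (Finset.range (N + c))).card ≤ 1 := by
            rw [Finset.card_le_one]
            intro u hu v hv
            simp only [Finset.mem_filter] at hu hv
            omega
          exact_mod_cast this
        have hthird : ∑ t ∈ Finset.range (N + c), (if N0 δ N + c ≤ t ∧ t + 1 < N + c then
            (wc a p N c (t - c) - wc a p N c (t - c + 1)) + 2 * wc a p N c (t - c) *
            ((al a p N y (t - c + 1) : ℝ) - al a p N y (t - c)) else 0) ≤
            1 + 2 * (N0 δ N : ℝ) ^ (-a) * St a p N y N := by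
          rw [← Finset.sum_filter]
          have hset : Finset.filter (fun t => N0 δ N + c ≤ t ∧ t + 1 < N + c)
              (Finset.range (N + c)) = Finset.Ico (N0 δ N + c) (N - 1 + c) := by
            ext t
            simp only [Finset.mem_filter, Finset.mem_range, Finset.mem_Ico]
            omega
          rw [hset, ← Finset.sum_Ico_add' (fun t =>
            (wc a p N c (t - c) - wc a p N c (t - c + 1)) + 2 * wc a p N c (t - c) *
            ((al a p N y (t - c + 1) : ℝ) - al a p N y (t - c))) (N0 δ N) (N - 1) c]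
          simp only [Nat.add_sub_cancel]
          rcases Nat.lt_or_ge (N0 δ N) (N - 1) with hlt | hge
          · have hN0pos : 1 ≤ N0 δ N ∨ N0 δ N = 0 := by omega
            have hwcN0 : ∀ s, N0 δ N ≤ s → wc a p N c s ≤ (N0 δ N : ℝ) ^ (-a) ∨ N0 δ N = 0 := by
              intro s hs
              rcases hN0pos with h | h
              · left
                refine (wc_le hp N c s).trans ?_
                exact Real.rpow_le_rpow_of_nonpos (by exact_mod_cast h)
                  (by exact_mod_cast (by omega)) (by linarith)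
              · right; exact h
            have htel1 : ∑ s ∈ Finset.Ico (N0 δ N) (N - 1), (wc a p N c s - wc a p N c (s + 1)) ≤ 1 := by
              rw [Finset.sum_Ico_eq_sum_range]
              have := Finset.sum_range_sub' (fun i => wc a p N c (N0 δ N + i)) (N - 1 - N0 δ N)
              simp only [← add_assoc] at this
              rw [this]
              have h1 := hwc1 (N0 δ N + 0)
              have h2 := hwc0 (N0 δ N + (N - 1 - N0 δ N))
              linarith
            have htel2 : ∑ s ∈ Finset.Ico (N0 δ N) (N - 1),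
                ((al a p N y (s + 1) : ℝ) - al a p N y s) ≤ St a p N y N := by
              rw [Finset.sum_Ico_eq_sum_range]
              have := Finset.sum_range_sub (fun i => (al a p N y (N0 δ N + i) : ℝ))
                (N - 1 - N0 δ N)
              simp only [← add_assoc] at this
              rw [this]
              have h1 : (al a p N y (N0 δ N + (N - 1 - N0 δ N)) : ℝ) ≤ St a p N y N := by
                exact_mod_cast (al_le_St a p N y _).trans (St_mono a p N y (by omega))
              have h2 : (0 : ℝ) ≤ al a p N y (N0 δ N + 0) := Nat.cast_nonneg _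
              linarith
            rcases hN0pos with hpos | hzero
            · calc ∑ s ∈ Finset.Ico (N0 δ N) (N - 1), ((wc a p N c s - wc a p N c (s + 1)) +
                  2 * wc a p N c s * ((al a p N y (s + 1) : ℝ) - al a p N y s))
                  ≤ ∑ s ∈ Finset.Ico (N0 δ N) (N - 1), ((wc a p N c s - wc a p N c (s + 1)) +
                  2 * (N0 δ N : ℝ) ^ (-a) * ((al a p N y (s + 1) : ℝ) - al a p N y s)) := by
                    refine Finset.sum_le_sum fun s hs => ?_
                    rw [Finset.mem_Ico] at hs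
                    have h1 : wc a p N c s ≤ (N0 δ N : ℝ) ^ (-a) := by
                      rcases hwcN0 s hs.1 with h | h
                      · exact h
                      · omega
                    have h2 : (0 : ℝ) ≤ (al a p N y (s + 1) : ℝ) - al a p N y s := by
                      have : (al a p N y s : ℝ) ≤ al a p N y (s + 1) := by
                        exact_mod_cast al_mono a p N y (Nat.le_succ _)
                      linarith
                    gcongr
                _ = ∑ s ∈ Finset.Ico (N0 δ N) (N - 1), (wc a p N c s - wc a p N c (s + 1)) +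
                    2 * (N0 δ N : ℝ) ^ (-a) * ∑ s ∈ Finset.Ico (N0 δ N) (N - 1),
                      ((al a p N y (s + 1) : ℝ) - al a p N y s) := by
                    rw [Finset.sum_add_distrib, ← Finset.mul_sum]
                _ ≤ _ := by
                    have h3 : (0 : ℝ) ≤ (N0 δ N : ℝ) ^ (-a) := Real.rpow_nonneg (Nat.cast_nonneg _) _
                    gcongr
            · -- `N0 = 0` forces `N = 0`
              exfalso
              have hN : 0 < N := by omega
              have : 0 < N0 δ N := by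
                unfold N0
                exact Nat.ceil_pos.mpr (Real.rpow_pos_of_pos (by exact_mod_cast hN) _)
              omega
          · rw [Finset.Ico_eq_empty (by omega), Finset.sum_empty]
            have h3 : (0 : ℝ) ≤ (N0 δ N : ℝ) ^ (-a) := Real.rpow_nonneg (Nat.cast_nonneg _) _
            positivity
        have := hcard (N0 δ N + c)
        have := hcard (N + c)
        linarith
    _ = _ := by ring

/-- the main part tends to zero if `f₂` has zero invariant part -/
theorem main_tendsto {a δ : ℝ} (ha : 0 < a) (ha2 : a < 1 / 2) (hδ : 0 < δ)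
    (hδ1 : 8 * δ ≤ 1 / 2 - a) {p : ℕ} (hp : 2 ≤ p) {D : ℕ}
    {y : ℝ} (hy : GoodY a δ p D y) {c : ℕ} (hc : 1 ≤ c)
    {X : Type*} [MeasurableSpace X] {μ : Measure X} [IsProbabilityMeasure μ]
    {T₁ T₂ : X → X} (h₂ : MeasurePreserving T₂ μ μ)
    {f₁ f₂ : X → ℝ} (hf₂ : Measurable f₂)
    (hb₁ : ∀ x, |f₁ x| ≤ 1) (hb₂ : ∀ x, |f₂ x| ≤ 1) (h0 : μ[f₂ | invAlg μ T₂] =ᵐ[μ] 0) :
    ∀ᵐ x ∂μ, Tendsto (fun N : ℕ => ((N : ℝ) ^ (1 - a))⁻¹ *
      ∑ s ∈ Finset.Ico (N0 δ N) N, wc a p N c s *
        (f₁ (T₁^[al a p N y s + c] x) * f₂ (T₂^[s + c] x))) atTop (𝓝 0) := by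
  filter_upwards [weighted_null h₂ hf₂ hb₂ h0 ha (by linarith)] with x hx
  rw [Metric.tendsto_atTop']
  intro ε hε
  obtain ⟨η, hη, N₁, hN₁⟩ := hx (ε / 4) (by linarith)
  have e1 := A1.eventually_rpow_le (s := 0) (t := 1 - a) (by linarith) (6 / η)
  have e2 := A1.eventually_rpow_le (s := 1 - a - (1 - δ) * a) (t := 1 - a) (by nlinarith)
    (12 / η)
  have e3 := A1.eventually_rpow_le (s := 1 - a - δ) (t := 1 - a) (by linarith) 1
  obtain ⟨N₂, hN₂⟩ := eventually_atTop.mp
    ((((hy.slln.and hy.trunc).and e1).and (e2.and e3)).and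
      ((eventually_ge_atTop 1).and (eventually_ge_atTop c)))
  refine ⟨max N₁ N₂, fun N hN => ?_⟩
  obtain ⟨⟨⟨⟨hslln, htrunc⟩, e1⟩, e2, e3⟩, hN1, hNc⟩ := hN₂ N (le_trans (le_max_right _ _) hN.le)
  have hNN₁ : N₁ ≤ N + c := by
    have := le_trans (le_max_left N₁ N₂) hN.le
    omega
  have hNpos : (0 : ℝ) < N := by exact_mod_cast hN1
  have hNp : (0 : ℝ) < (N : ℝ) ^ (1 - a) := Real.rpow_pos_of_pos hNpos _
  set g : ℕ → ℝ := fun i => f₁ (T₁^[i + c] x) with hg
  have hg1 : ∀ i, |g i| ≤ 1 := fun i => hb₁ _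
  have hcnt : (St a p N y N : ℝ) ≤ 3 * (N : ℝ) ^ (1 - a) := by
    rw [St_eq_cnt htrunc (by omega)]
    have h1 := (abs_le.mp hslln).2
    have h2 := W_le_two ha ha2 N
    rw [one_mul] at e3
    linarith
  have hN0 : (N0 δ N : ℝ) ^ (-a) ≤ (N : ℝ) ^ (-((1 - δ) * a)) := by
    have h1 : (N : ℝ) ^ (1 - δ) ≤ N0 δ N := Nat.le_ceil _
    calc (N0 δ N : ℝ) ^ (-a) ≤ ((N : ℝ) ^ (1 - δ)) ^ (-a) :=
          Real.rpow_le_rpow_of_nonpos (Real.rpow_pos_of_pos hNpos _) h1 (by linarith)
      _ = _ := by rw [← Real.rpow_mul hNpos.le]; congr 1; ring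
  have hvar : ∑ t ∈ Finset.range (N + c), |om a δ p c N y g (t + 1) - om a δ p c N y g t| ≤
      η * ((N + c : ℕ) : ℝ) ^ (1 - a) := by
    refine (sum_om_succ_sub ha hp hc N y hg1).trans ?_
    rw [Real.rpow_zero, mul_one] at e1
    have h1 : (3 : ℝ) ≤ η / 2 * (N : ℝ) ^ (1 - a) := by
      have := (div_le_iff₀ hη).mp e1
      linarith
    have h2 : 2 * (N0 δ N : ℝ) ^ (-a) * St a p N y N ≤ η / 2 * (N : ℝ) ^ (1 - a) := by
      calc 2 * (N0 δ N : ℝ) ^ (-a) * St a p N y N
          ≤ 2 * (N : ℝ) ^ (-((1 - δ) * a)) * (3 * (N : ℝ) ^ (1 - a)) := by gcongr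
        _ = 6 * (N : ℝ) ^ (1 - a - (1 - δ) * a) := by
            rw [sub_eq_add_neg (1 - a), Real.rpow_add hNpos]; ring
        _ ≤ _ := by
            have := mul_le_mul_of_nonneg_left e2 hη.le
            calc 6 * (N : ℝ) ^ (1 - a - (1 - δ) * a) =
                (η * (12 / η * (N : ℝ) ^ (1 - a - (1 - δ) * a))) / 2 := by field_simp; norm_num
              _ ≤ (η * (N : ℝ) ^ (1 - a)) / 2 := by linarith
              _ = _ := by ring
    have h3 : (N : ℝ) ^ (1 - a) ≤ ((N + c : ℕ) : ℝ) ^ (1 - a) :=
      Real.rpow_le_rpow hNpos.le (by exact_mod_cast (by omega)) (by linarith)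
    calc 3 + 2 * (N0 δ N : ℝ) ^ (-a) * St a p N y N ≤ η * (N : ℝ) ^ (1 - a) := by linarith
      _ ≤ _ := by gcongr
  have key := hN₁ (N + c) hNN₁ (om a δ p c N y g)
    (om_le ha (by linarith) hp hc N y hg1) hvar
  rw [sum_om (a := a) (δ := δ) (p := p) N y g (fun t => f₂ (T₂^[t] x))] at key
  rw [Real.dist_eq, sub_zero, abs_mul, abs_of_nonneg (inv_nonneg.mpr hNp.le)]
  have h5 : ((N + c : ℕ) : ℝ) ^ (1 - a) ≤ 2 * (N : ℝ) ^ (1 - a) := by
    calc ((N + c : ℕ) : ℝ) ^ (1 - a) ≤ (2 * (N : ℝ)) ^ (1 - a) := by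
          apply Real.rpow_le_rpow (Nat.cast_nonneg _) _ (by linarith)
          push_cast
          have : (c : ℝ) ≤ N := by exact_mod_cast hNc
          linarith
      _ = 2 ^ (1 - a) * (N : ℝ) ^ (1 - a) := Real.mul_rpow (by norm_num) hNpos.le
      _ ≤ 2 ^ (1 : ℝ) * (N : ℝ) ^ (1 - a) := by
          have := Real.rpow_le_rpow_of_exponent_le (by norm_num : (1 : ℝ) ≤ 2)
            (by linarith : 1 - a ≤ 1)
          gcongr
      _ = _ := by rw [Real.rpow_one]
  calc ((N : ℝ) ^ (1 - a))⁻¹ * |∑ s ∈ Finset.Ico (N0 δ N) N, wc a p N c s *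
        (f₁ (T₁^[al a p N y s + c] x) * f₂ (T₂^[s + c] x))|
      ≤ ((N : ℝ) ^ (1 - a))⁻¹ * (ε / 4 * ((N + c : ℕ) : ℝ) ^ (1 - a)) := by gcongr
    _ ≤ ((N : ℝ) ^ (1 - a))⁻¹ * (ε / 4 * (2 * (N : ℝ) ^ (1 - a))) := by gcongr
    _ = ε / 2 := by field_simp; ring
    _ < ε := by linarith

end A3

end

end Pool.Agent.SRG
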