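import Pool.Agent.SRG.A3

/-!
Semi-random ergodic averages: convergence along all `N` for real bounded functions.
-/

open MeasureTheory Filter Topology

namespace Pool.Agent.SRG

noncomputable section

namespace A4

variable {a δ : ℝ} {p D : ℕ} {y : ℝ}

/-- along `N = k ^ D`, if `f₂` has zero invariant part -/
theorem block_tendsto (ha : 0 < a) (ha2 : a < 1 / 2) (hδ : 0 < δ)
    (hδ1 : 8 * δ ≤ 1 / 2 - a) (hδ2 : 4 * δ ≤ a) (hp : 2 ≤ p) (hD : 8 ≤ δ * D)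
    (hy : GoodY a δ p D y)
    {X : Type*} [MeasurableSpace X] {μ : Measure X} [IsProbabilityMeasure μ]
    {T₁ T₂ : X → X} (h₁ : MeasurePreserving T₁ μ μ) (h₂ : MeasurePreserving T₂ μ μ)
    (hcm : T₁ ∘ T₂ =ᵐ[μ] T₂ ∘ T₁) {f₁ f₂ : X → ℝ} (hf₁ : Measurable f₁) (hf₂ : Measurable f₂)
    (hb₁ : ∀ x, |f₁ x| ≤ 1) (hb₂ : ∀ x, |f₂ x| ≤ 1) (h0 : μ[f₂ | invAlg μ T₂] =ᵐ[μ] 0) :
    ∀ᵐ x ∂μ, Tendsto (fun k : ℕ => (((k ^ D : ℕ) : ℝ) ^ (1 - a))⁻¹ *
      ∑ j ∈ Finset.Icc 1 (k ^ D), (ind a p y j : ℝ) *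
        (f₁ (T₁^[cnt a p y j] x) * f₂ (T₂^[j] x))) atTop (𝓝 0) := by
  have hD0 : D ≠ 0 := by
    rintro rfl; simp at hD; linarith
  have hkD : Tendsto (fun k : ℕ => k ^ D) atTop atTop := tendsto_pow_atTop hD0
  have hA : ∀ᵐ x ∂μ, ∀ c : ℕ, 1 ≤ c → Tendsto (fun k : ℕ => (((k ^ D : ℕ) : ℝ) ^ (1 - a))⁻¹ *
      ∑ s ∈ Finset.Ico (N0 δ (k ^ D)) (k ^ D), Yc a p (k ^ D) c y s *
        (f₁ (T₁^[al a p (k ^ D) y s + c] x) * f₂ (T₂^[s + c] x))) atTop (𝓝 0) := by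
    rw [ae_all_iff]
    intro c
    by_cases hc : 1 ≤ c
    · filter_upwards [A2.centred_tendsto ha ha2 hδ hδ1 hδ2 hp hD hy hc h₁ h₂ hcm hf₁ hf₂ hb₁ hb₂]
        with x hx _
      exact hx
    · exact Eventually.of_forall fun x h => absurd h hc
  have hB : ∀ᵐ x ∂μ, ∀ c : ℕ, 1 ≤ c → Tendsto (fun N : ℕ => ((N : ℝ) ^ (1 - a))⁻¹ *
      ∑ s ∈ Finset.Ico (N0 δ N) N, wc a p N c s *
        (f₁ (T₁^[al a p N y s + c] x) * f₂ (T₂^[s + c] x))) atTop (𝓝 0) := by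
    rw [ae_all_iff]
    intro c
    by_cases hc : 1 ≤ c
    · filter_upwards [A3.main_tendsto (T₁ := T₁) (f₁ := f₁) ha ha2 hδ hδ1 hp hy hc h₂ hf₂ hb₁ hb₂
        h0] with x hx _
      exact hx
    · exact Eventually.of_forall fun x h => absurd h hc
  filter_upwards [hA, hB] with x hxA hxB
  rw [Metric.tendsto_atTop']
  intro ε hε
  have hp1 : (1 : ℝ) < p := by exact_mod_cast (by omega : 1 < p)
  -- choose C
  obtain ⟨C, hC⟩ : ∃ C : ℕ, 1 ≤ C ∧ 5 * ((p : ℝ) ^ C)⁻¹ < ε / 2 := by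
    have h1 : Tendsto (fun C : ℕ => 5 * ((p : ℝ) ^ C)⁻¹) atTop (𝓝 (5 * 0)) :=
      ((tendsto_pow_atTop_atTop_of_one_lt hp1).inv_tendsto_atTop).const_mul 5
    rw [mul_zero] at h1
    obtain ⟨C, h2, h3⟩ := ((h1.eventually (gt_mem_nhds (by linarith : (0 : ℝ) < ε / 2))).and
      (eventually_ge_atTop 1)).exists
    exact ⟨C, h3, h2⟩
  have hsum : Tendsto (fun k : ℕ => ∑ c ∈ Finset.Icc 1 C, ((((k ^ D : ℕ) : ℝ) ^ (1 - a))⁻¹ *
      ∑ s ∈ Finset.Ico (N0 δ (k ^ D)) (k ^ D),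
        Xc a p (k ^ D) c s (Int.fract ((p : ℝ) ^ s * y)) *
        (f₁ (T₁^[al a p (k ^ D) y s + c] x) * f₂ (T₂^[s + c] x)))) atTop
      (𝓝 (∑ c ∈ Finset.Icc 1 C, (0 : ℝ))) := by
    refine tendsto_finsetSum _ fun c hc => ?_
    rw [Finset.mem_Icc] at hc
    have h1 := (hxA c hc.1).add ((hxB c hc.1).comp hkD)
    rw [add_zero] at h1
    refine h1.congr fun k => ?_
    simp only [Function.comp_apply]
    rw [← mul_add, ← Finset.sum_add_distrib]
    congr 1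
    refine Finset.sum_congr rfl fun s _ => ?_
    unfold Yc
    ring
  rw [Finset.sum_const_zero] at hsum
  obtain ⟨K, hK⟩ := eventually_atTop.mp ((hy.approx C hC.1).and
    ((hsum.eventually (Metric.ball_mem_nhds 0 (by linarith : (0 : ℝ) < ε / 2))).and
      (eventually_ge_atTop 1)))
  refine ⟨K, fun k hk => ?_⟩
  obtain ⟨h1, h2, h3⟩ := hK k hk.le
  have hNpos : (0 : ℝ) < ((k ^ D : ℕ) : ℝ) := by
    have : 0 < k ^ D := by positivity
    exact_mod_cast this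
  have hNp : (0 : ℝ) < ((k ^ D : ℕ) : ℝ) ^ (1 - a) := Real.rpow_pos_of_pos hNpos _
  have h4 := h1 (fun i j => f₁ (T₁^[i] x) * f₂ (T₂^[j] x)) (fun i j => by
    rw [abs_mul]
    calc |f₁ (T₁^[i] x)| * |f₂ (T₂^[j] x)| ≤ 1 * 1 := by
          gcongr
          · exact hb₁ _
          · exact hb₂ _
      _ = 1 := by norm_num)
  rw [Real.dist_eq, sub_zero, ← Finset.mul_sum, abs_mul,
    abs_of_nonneg (inv_nonneg.mpr hNp.le)] at h2
  rw [Real.dist_eq, sub_zero, abs_mul, abs_of_nonneg (inv_nonneg.mpr hNp.le)]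
  set A := ∑ j ∈ Finset.Icc 1 (k ^ D), (ind a p y j : ℝ) *
    (f₁ (T₁^[cnt a p y j] x) * f₂ (T₂^[j] x))
  set B := ∑ c ∈ Finset.Icc 1 C, ∑ s ∈ Finset.Ico (N0 δ (k ^ D)) (k ^ D),
    Xc a p (k ^ D) c s (Int.fract ((p : ℝ) ^ s * y)) *
      (f₁ (T₁^[al a p (k ^ D) y s + c] x) * f₂ (T₂^[s + c] x))
  have h5 : |A| ≤ |B| + |A - B| := by
    calc |A| = |B + (A - B)| := by ring_nf
      _ ≤ _ := abs_add_le _ _
  calc (((k ^ D : ℕ) : ℝ) ^ (1 - a))⁻¹ * |A|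
      ≤ (((k ^ D : ℕ) : ℝ) ^ (1 - a))⁻¹ * (|B| +
        5 * ((p : ℝ) ^ C)⁻¹ * ((k ^ D : ℕ) : ℝ) ^ (1 - a)) := by gcongr; linarith
    _ = (((k ^ D : ℕ) : ℝ) ^ (1 - a))⁻¹ * |B| + 5 * ((p : ℝ) ^ C)⁻¹ := by field_simp
    _ < ε / 2 + ε / 2 := by linarith [hC.2]
    _ = ε := by ring

/-- the enumeration of the return times -/
def bn (a : ℝ) (p : ℕ) (y : ℝ) (n : ℕ) : ℕ := Nat.nth (· ∈ returnSet a p y) (n - 1)

theorem cnt_eq_count (a : ℝ) (p : ℕ) (y : ℝ) [DecidablePred (· ∈ returnSet a p y)] (n : ℕ) :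
    cnt a p y n = Nat.count (· ∈ returnSet a p y) (n + 1) := by
  induction n with
  | zero =>
    have h0 : (0 : ℕ) ∉ returnSet a p y := fun h => absurd h.1 (by norm_num)
    rw [cnt_zero, Nat.count_succ (· ∈ returnSet a p y) 0, Nat.count_zero, zero_add, if_neg h0]
  | succ n ih =>
    rw [cnt_succ, ih, Nat.count_succ (· ∈ returnSet a p y) (n + 1)]
    congr 1
    unfold ind
    split_ifs <;> rfl

/-- rewriting a sum over return times as a sum over the index -/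
theorem sum_ind_eq (a : ℝ) (p : ℕ) (y : ℝ) (ψ : ℕ → ℕ → ℝ) (N : ℕ) :
    ∑ j ∈ Finset.Icc 1 N, (ind a p y j : ℝ) * ψ (cnt a p y j) j =
      ∑ n ∈ Finset.Icc 1 (cnt a p y N), ψ n (bn a p y n) := by
  classical
  induction N with
  | zero => simp [cnt_zero]
  | succ N ih =>
    rw [Finset.sum_Icc_succ_top (by omega), ih]
    by_cases h : N + 1 ∈ returnSet a p y
    · have h1 : ind a p y (N + 1) = 1 := by unfold ind; rw [if_pos h]
      have h2 : cnt a p y (N + 1) = cnt a p y N + 1 := by rw [cnt_succ, h1]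
      rw [h1, h2, Finset.sum_Icc_succ_top (by omega)]
      have h3 : bn a p y (cnt a p y N + 1) = N + 1 := by
        unfold bn
        rw [Nat.add_sub_cancel, cnt_eq_count]
        exact Nat.nth_count (p := (· ∈ returnSet a p y)) h
      rw [h3]; push_cast; ring
    · have h1 : ind a p y (N + 1) = 0 := by unfold ind; rw [if_neg h]
      have h2 : cnt a p y (N + 1) = cnt a p y N := by rw [cnt_succ, h1]; rfl
      rw [h1, h2]; simp

theorem cnt_tendsto_atTop (ha : 0 < a) (ha2 : a < 1 / 2) (hδ : 0 < δ) (hy : GoodY a δ p D y) :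
    Tendsto (cnt a p y) atTop atTop := by
  have h1 : Tendsto (fun N : ℕ => (1 / 2 : ℝ) * (N : ℝ) ^ (1 - a)) atTop atTop :=
    ((tendsto_rpow_atTop (by linarith : (0 : ℝ) < 1 - a)).comp
      tendsto_natCast_atTop_atTop).const_mul_atTop (by norm_num)
  have h2 : Tendsto (fun N : ℕ => (cnt a p y N : ℝ)) atTop atTop := by
    refine tendsto_atTop_mono' _ ?_ h1
    filter_upwards [hy.slln, A1.eventually_rpow_le (s := 1 - a - δ) (t := 1 - a) (by linarith) 2]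
      with N h3 h4
    have h5 := (abs_le.mp h3).1
    have h6 := W_lower ha (by linarith) N
    linarith
  exact tendsto_natCast_atTop_iff.mp h2

theorem returnSet_infinite (ha : 0 < a) (ha2 : a < 1 / 2) (hδ : 0 < δ) (hy : GoodY a δ p D y) :
    (returnSet a p y).Infinite := by
  classical
  by_contra hfin
  rw [Set.not_infinite] at hfin
  have h1 := cnt_tendsto_atTop ha ha2 hδ hy
  obtain ⟨N, hN⟩ := (h1.eventually_gt_atTop hfin.toFinset.card).exists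
  have h2 : cnt a p y N ≤ hfin.toFinset.card := by
    unfold cnt ind
    rw [← Finset.card_filter]
    refine Finset.card_le_card fun j hj => ?_
    rw [Finset.mem_filter] at hj
    rw [Set.Finite.mem_toFinset]
    exact hj.2
  omega

/-- comparison of `cnt` with the powers -/
theorem ratio_tendsto (ha : 0 < a) (ha2 : a < 1 / 2) (hδ : 0 < δ) (hD0 : D ≠ 0)
    (hy : GoodY a δ p D y) :
    Tendsto (fun k : ℕ => ((cnt a p y ((k + 1) ^ D) : ℝ) - cnt a p y (k ^ D)) /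
      ((k ^ D : ℕ) : ℝ) ^ (1 - a)) atTop (𝓝 0) := by
  have hkD : Tendsto (fun k : ℕ => k ^ D) atTop atTop := tendsto_pow_atTop hD0
  have hkD' : Tendsto (fun k : ℕ => (k + 1) ^ D) atTop atTop := hkD.comp (tendsto_add_atTop_nat 1)
  have hlim1 : Tendsto (fun k : ℕ => (((k + 1 : ℕ) : ℝ) / (k : ℕ)) ^ D - 1) atTop (𝓝 0) := by
    have h1 : Tendsto (fun k : ℕ => ((k + 1 : ℕ) : ℝ) / (k : ℕ)) atTop (𝓝 1) := by
      have := (tendsto_one_div_atTop_nhds_zero_nat (𝕜 := ℝ)).const_add 1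
      rw [add_zero] at this
      refine this.congr' ?_
      filter_upwards [eventually_ge_atTop 1] with k hk
      have : (0 : ℝ) < k := by exact_mod_cast hk
      push_cast; field_simp
    have := (h1.pow D).sub_const 1
    simpa using this
  have hlim2 : Tendsto (fun k : ℕ => (((k ^ D : ℕ) : ℝ)) ^ (-δ)) atTop (𝓝 0) :=
    ((tendsto_rpow_neg_atTop hδ).comp tendsto_natCast_atTop_atTop).comp hkD
  have hlim : Tendsto (fun k : ℕ => ((((k + 1 : ℕ) : ℝ) / (k : ℕ)) ^ D - 1) +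
      3 * 2 ^ D * (((k ^ D : ℕ) : ℝ)) ^ (-δ)) atTop (𝓝 0) := by
    have := hlim1.add (hlim2.const_mul (3 * 2 ^ D))
    simpa using this
  refine squeeze_zero' ?_ ?_ hlim
  · refine Eventually.of_forall fun k => ?_
    apply div_nonneg _ (Real.rpow_nonneg (Nat.cast_nonneg _) _)
    have : cnt a p y (k ^ D) ≤ cnt a p y ((k + 1) ^ D) :=
      cnt_mono a p y (Nat.pow_le_pow_left (by omega) D)
    have : (cnt a p y (k ^ D) : ℝ) ≤ cnt a p y ((k + 1) ^ D) := by exact_mod_cast this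
    linarith
  · filter_upwards [hkD.eventually hy.slln, hkD'.eventually hy.slln, eventually_ge_atTop 1]
      with k h1 h2 hk
    have hkpos : (0 : ℝ) < k := by exact_mod_cast hk
    set n := k ^ D with hn
    set m := (k + 1) ^ D with hm
    have hn1 : 1 ≤ n := Nat.one_le_pow _ _ (by omega)
    have hnpos : (0 : ℝ) < n := by exact_mod_cast hn1
    have hnm : n ≤ m := Nat.pow_le_pow_left (by omega) D
    have hNp : (0 : ℝ) < (n : ℝ) ^ (1 - a) := Real.rpow_pos_of_pos hnpos _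
    have h3 := W_sub_le ha hn1 hnm
    have h4 : (n : ℝ) ^ (-a) = (n : ℝ) ^ (1 - a) / n := by
      rw [sub_eq_add_neg, Real.rpow_add hnpos, Real.rpow_one]; field_simp
    have h5 : ((m : ℝ) - n) * (n : ℝ) ^ (-a) =
        ((((k + 1 : ℕ) : ℝ) / (k : ℕ)) ^ D - 1) * (n : ℝ) ^ (1 - a) := by
      rw [h4, div_pow]
      have : (m : ℝ) = ((k + 1 : ℕ) : ℝ) ^ D := by rw [hm]; push_cast; ring
      rw [← this]
      have h6 : (n : ℝ) = (k : ℝ) ^ D := by rw [hn]; push_cast; ring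
      rw [← h6]
      field_simp
    have hm2 : (m : ℝ) ≤ 2 ^ D * n := by
      have : m ≤ 2 ^ D * n := by
        rw [hm, hn, ← mul_pow]
        exact Nat.pow_le_pow_left (by omega) D
      exact_mod_cast this
    have h7 : (m : ℝ) ^ (1 - a - δ) ≤ 2 ^ D * (n : ℝ) ^ (1 - a - δ) ∨ 1 - a - δ < 0 := by
      by_cases hneg : 1 - a - δ < 0
      · right; exact hneg
      · left
        push Not at hneg
        calc (m : ℝ) ^ (1 - a - δ) ≤ (2 ^ D * n : ℝ) ^ (1 - a - δ) :=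
              Real.rpow_le_rpow (Nat.cast_nonneg _) hm2 hneg
          _ = ((2 : ℝ) ^ D) ^ (1 - a - δ) * (n : ℝ) ^ (1 - a - δ) :=
              Real.mul_rpow (by positivity) hnpos.le
          _ ≤ ((2 : ℝ) ^ D) ^ (1 : ℝ) * (n : ℝ) ^ (1 - a - δ) := by
              have := Real.rpow_le_rpow_of_exponent_le (one_le_pow₀ (by norm_num : (1 : ℝ) ≤ 2) :
                (1 : ℝ) ≤ 2 ^ D) (by linarith : 1 - a - δ ≤ 1)
              gcongr
          _ = _ := by rw [Real.rpow_one]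
    have h8 : (m : ℝ) ^ (1 - a - δ) ≤ 2 ^ D * (n : ℝ) ^ (1 - a - δ) := by
      rcases h7 with h | h
      · exact h
      · have h9 : (m : ℝ) ^ (1 - a - δ) ≤ (n : ℝ) ^ (1 - a - δ) :=
          Real.rpow_le_rpow_of_nonpos hnpos (by exact_mod_cast hnm) h.le
        have h10 : (1 : ℝ) ≤ 2 ^ D := one_le_pow₀ (by norm_num)
        have h11 : 0 ≤ (n : ℝ) ^ (1 - a - δ) := Real.rpow_nonneg hnpos.le _
        nlinarith
    have h12 : (n : ℝ) ^ (1 - a - δ) = (n : ℝ) ^ (-δ) * (n : ℝ) ^ (1 - a) := by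
      rw [← Real.rpow_add hnpos]; congr 1; ring
    have h13 : 0 ≤ (n : ℝ) ^ (-δ) := Real.rpow_nonneg hnpos.le _
    have h14 : (1 : ℝ) ≤ 2 ^ D := one_le_pow₀ (by norm_num)
    rw [div_le_iff₀ hNp]
    have h15 := (abs_le.mp h1).1
    have h16 := (abs_le.mp h2).2
    have h17 : (n : ℝ) ^ (1 - a - δ) ≤ 2 ^ D * ((n : ℝ) ^ (-δ) * (n : ℝ) ^ (1 - a)) := by
      rw [← h12]
      have h11 : 0 ≤ (n : ℝ) ^ (1 - a - δ) := Real.rpow_nonneg hnpos.le _
      nlinarith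
    rw [h12] at h8
    have h18 : 0 ≤ 2 ^ D * ((n : ℝ) ^ (-δ) * (n : ℝ) ^ (1 - a)) := by positivity
    calc (cnt a p y m : ℝ) - cnt a p y n ≤
        (W a m - W a n) + (m : ℝ) ^ (1 - a - δ) + (n : ℝ) ^ (1 - a - δ) := by linarith
      _ ≤ ((((k + 1 : ℕ) : ℝ) / (k : ℕ)) ^ D - 1) * (n : ℝ) ^ (1 - a) +
          3 * 2 ^ D * (n : ℝ) ^ (-δ) * (n : ℝ) ^ (1 - a) := by
          rw [h5] at h3
          nlinarith
      _ = _ := by ring

/-- passing from the subsequence `cnt (k ^ D)` to all indices -/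
theorem index_tendsto (ha : 0 < a) (ha2 : a < 1 / 2) (hδ : 0 < δ) (hD0 : D ≠ 0)
    (hy : GoodY a δ p D y) {g : ℕ → ℝ} (hg : ∀ n, |g n| ≤ 1)
    (h : Tendsto (fun k : ℕ => (((k ^ D : ℕ) : ℝ) ^ (1 - a))⁻¹ *
      ∑ n ∈ Finset.Icc 1 (cnt a p y (k ^ D)), g n) atTop (𝓝 0)) :
    Tendsto (fun N : ℕ => (N : ℝ)⁻¹ * ∑ n ∈ Finset.Icc 1 N, g n) atTop (𝓝 0) := by
  classical
  have hkD : Tendsto (fun k : ℕ => k ^ D) atTop atTop := tendsto_pow_atTop hD0
  have hcnt := cnt_tendsto_atTop ha ha2 hδ hy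
  have hcntk : Tendsto (fun k : ℕ => cnt a p y (k ^ D)) atTop atTop := hcnt.comp hkD
  have hr := ratio_tendsto ha ha2 hδ hD0 hy
  rw [Metric.tendsto_atTop']
  intro ε hε
  -- lower bound `cnt (k^D) ≥ (k^D)^{1-a} / 2`
  have hlow : ∀ᶠ k : ℕ in atTop, (1 / 2 : ℝ) * ((k ^ D : ℕ) : ℝ) ^ (1 - a) ≤ cnt a p y (k ^ D) := by
    filter_upwards [hkD.eventually hy.slln, hkD.eventually
      (A1.eventually_rpow_le (s := 1 - a - δ) (t := 1 - a) (by linarith) 2)] with k h3 h4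
    have h5 := (abs_le.mp h3).1
    have h6 := W_lower ha (by linarith) (k ^ D)
    linarith
  obtain ⟨K, hK⟩ := eventually_atTop.mp ((hlow.and (eventually_ge_atTop 1)).and
    ((h.eventually (Metric.ball_mem_nhds 0 (by linarith : (0 : ℝ) < ε / 8))).and
     (hr.eventually (Metric.ball_mem_nhds 0 (by linarith : (0 : ℝ) < ε / 8)))))
  refine ⟨cnt a p y (K ^ D), fun N hN => ?_⟩
  -- the largest `k` with `cnt (k^D) ≤ N`
  have hex : ∃ k, N < cnt a p y ((k + 1) ^ D) := by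
    obtain ⟨k, hk⟩ := (hcntk.eventually_gt_atTop N).exists
    exact ⟨k, lt_of_lt_of_le hk (cnt_mono a p y (Nat.pow_le_pow_left (by omega) D))⟩
  set k := Nat.find hex with hkdef
  have hk1 : N < cnt a p y ((k + 1) ^ D) := Nat.find_spec hex
  have hk2 : cnt a p y (k ^ D) ≤ N := by
    rcases Nat.eq_zero_or_pos k with h0 | h0
    · rw [h0, zero_pow hD0, cnt_zero]; omega
    · have := Nat.find_min hex (m := k - 1) (by omega)
      rw [not_lt, show k - 1 + 1 = k by omega] at this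
      exact this
  have hkK : K ≤ k := by
    by_contra hlt
    push Not at hlt
    have : cnt a p y ((k + 1) ^ D) ≤ cnt a p y (K ^ D) :=
      cnt_mono a p y (Nat.pow_le_pow_left (by omega) D)
    omega
  obtain ⟨⟨h1, h2⟩, h3, h4⟩ := hK k hkK
  have hNpos' : 0 < N := by omega
  have hNpos : (0 : ℝ) < N := by exact_mod_cast hNpos'
  have hkDpos : (0 : ℝ) < ((k ^ D : ℕ) : ℝ) := by
    have : 0 < k ^ D := by positivity
    exact_mod_cast this
  have hNp : (0 : ℝ) < ((k ^ D : ℕ) : ℝ) ^ (1 - a) := Real.rpow_pos_of_pos hkDpos _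
  rw [Real.dist_eq, sub_zero, abs_mul,
    abs_of_nonneg (inv_nonneg.mpr hNp.le), inv_mul_lt_iff₀ hNp] at h3
  rw [Real.dist_eq, sub_zero, abs_div, abs_of_pos hNp, div_lt_iff₀ hNp] at h4
  have hsplit : ∑ n ∈ Finset.Icc 1 N, g n = ∑ n ∈ Finset.Icc 1 (cnt a p y (k ^ D)), g n +
      ∑ n ∈ Finset.Ioc (cnt a p y (k ^ D)) N, g n := by
    rw [← Finset.sum_union]
    · congr 1
      ext n
      simp only [Finset.mem_union, Finset.mem_Icc, Finset.mem_Ioc]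
      omega
    · rw [Finset.disjoint_left]
      intro n hn hn2
      rw [Finset.mem_Icc] at hn
      rw [Finset.mem_Ioc] at hn2
      omega
  have htail : |∑ n ∈ Finset.Ioc (cnt a p y (k ^ D)) N, g n| ≤
      (cnt a p y ((k + 1) ^ D) : ℝ) - cnt a p y (k ^ D) := by
    calc _ ≤ ∑ n ∈ Finset.Ioc (cnt a p y (k ^ D)) N, |g n| := Finset.abs_sum_le_sum_abs _ _
      _ ≤ ∑ n ∈ Finset.Ioc (cnt a p y (k ^ D)) N, (1 : ℝ) := Finset.sum_le_sum fun n _ => hg n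
      _ = (N : ℝ) - cnt a p y (k ^ D) := by
          simp only [Finset.sum_const, Nat.card_Ioc, nsmul_eq_mul, mul_one]
          push_cast [Nat.cast_sub hk2]; ring
      _ ≤ _ := by
          have : (N : ℝ) ≤ cnt a p y ((k + 1) ^ D) := by exact_mod_cast hk1.le
          linarith
  rw [Real.dist_eq, sub_zero, abs_mul, abs_of_pos (inv_pos.mpr hNpos), inv_mul_lt_iff₀ hNpos,
    hsplit]
  have h5 : (cnt a p y (k ^ D) : ℝ) ≤ N := by exact_mod_cast hk2
  calc |∑ n ∈ Finset.Icc 1 (cnt a p y (k ^ D)), g n +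
      ∑ n ∈ Finset.Ioc (cnt a p y (k ^ D)) N, g n|
      ≤ |∑ n ∈ Finset.Icc 1 (cnt a p y (k ^ D)), g n| +
        |∑ n ∈ Finset.Ioc (cnt a p y (k ^ D)) N, g n| := abs_add_le _ _
    _ ≤ ((k ^ D : ℕ) : ℝ) ^ (1 - a) * (ε / 8) + (ε / 8) * ((k ^ D : ℕ) : ℝ) ^ (1 - a) := by
        have := (le_abs_self _).trans h4.le
        linarith
    _ = (ε / 4) * ((k ^ D : ℕ) : ℝ) ^ (1 - a) := by ring
    _ ≤ (ε / 4) * (2 * N) := by gcongr; linarith
    _ < N * ε := by nlinarith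

end A4

end

end Pool.Agent.SRG
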