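import Pool.Agent.SRG.A4

/-!
Semi-random ergodic averages: real and complex bounded functions, and the final theorem.
-/

open MeasureTheory Filter Topology
open scoped NNReal

namespace Pool.Agent.SRG

noncomputable section

namespace A5

variable {a δ : ℝ} {p D : ℕ} {y : ℝ}

theorem invAlg_le {X : Type*} [mX : MeasurableSpace X] (μ : Measure X) (T : X → X) :
    invAlg μ T ≤ mX := fun _ h => h.1

/-- almost everywhere equality along orbits -/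
theorem ae_iterate {X : Type*} [MeasurableSpace X] {μ : Measure X} {T : X → X}
    (hT : MeasurePreserving T μ μ) {E : Type*} {f g : X → E} (h : f =ᵐ[μ] g) :
    ∀ᵐ x ∂μ, ∀ n : ℕ, f (T^[n] x) = g (T^[n] x) := by
  rw [ae_all_iff]
  intro n
  exact (hT.iterate n).quasiMeasurePreserving.ae_eq_comp h

/-- zero invariant part, all indices -/
theorem srg_zero (ha : 0 < a) (ha2 : a < 1 / 2) (hδ : 0 < δ)
    (hδ1 : 8 * δ ≤ 1 / 2 - a) (hδ2 : 4 * δ ≤ a) (hp : 2 ≤ p) (hD : 8 ≤ δ * D)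
    (hy : GoodY a δ p D y)
    {X : Type*} [MeasurableSpace X] {μ : Measure X} [IsProbabilityMeasure μ]
    {T₁ T₂ : X → X} (h₁ : MeasurePreserving T₁ μ μ) (h₂ : MeasurePreserving T₂ μ μ)
    (hcm : T₁ ∘ T₂ =ᵐ[μ] T₂ ∘ T₁) {f₁ f₂ : X → ℝ} (hf₁ : Measurable f₁) (hf₂ : Measurable f₂)
    (hb₁ : ∀ x, |f₁ x| ≤ 1) (hb₂ : ∀ x, |f₂ x| ≤ 1) (h0 : μ[f₂ | invAlg μ T₂] =ᵐ[μ] 0) :
    ∀ᵐ x ∂μ, Tendsto (fun N : ℕ => (N : ℝ)⁻¹ * ∑ n ∈ Finset.Icc 1 N,
      f₁ (T₁^[n] x) * f₂ (T₂^[A4.bn a p y n] x)) atTop (𝓝 0) := by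
  have hD0 : D ≠ 0 := by
    rintro rfl; simp at hD; linarith
  filter_upwards [A4.block_tendsto ha ha2 hδ hδ1 hδ2 hp hD hy h₁ h₂ hcm hf₁ hf₂ hb₁ hb₂ h0]
    with x hx
  refine A4.index_tendsto ha ha2 hδ hD0 hy (fun n => ?_) (hx.congr fun k => ?_)
  · rw [abs_mul]
    calc |f₁ (T₁^[n] x)| * |f₂ (T₂^[A4.bn a p y n] x)| ≤ 1 * 1 := by
          gcongr
          · exact hb₁ _
          · exact hb₂ _
      _ = 1 := by norm_num
  · rw [A4.sum_ind_eq a p y (fun i j => f₁ (T₁^[i] x) * f₂ (T₂^[j] x))]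

/-- real functions bounded by one -/
theorem srg_unit (ha : 0 < a) (ha2 : a < 1 / 2) (hδ : 0 < δ)
    (hδ1 : 8 * δ ≤ 1 / 2 - a) (hδ2 : 4 * δ ≤ a) (hp : 2 ≤ p) (hD : 8 ≤ δ * D)
    (hy : GoodY a δ p D y)
    {X : Type*} [MeasurableSpace X] {μ : Measure X} [IsProbabilityMeasure μ]
    {T₁ T₂ : X → X} (h₁ : MeasurePreserving T₁ μ μ) (h₂ : MeasurePreserving T₂ μ μ)
    (hcm : T₁ ∘ T₂ =ᵐ[μ] T₂ ∘ T₁) {f₁ f₂ : X → ℝ} (hf₁ : Measurable f₁) (hf₂ : Measurable f₂)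
    (hb₁ : ∀ x, |f₁ x| ≤ 1) (hb₂ : ∀ x, |f₂ x| ≤ 1) :
    ∀ᵐ x ∂μ, Tendsto (fun N : ℕ => (N : ℝ)⁻¹ * ∑ n ∈ Finset.Icc 1 N,
      f₁ (T₁^[n] x) * f₂ (T₂^[A4.bn a p y n] x)) atTop
      (𝓝 ((μ[f₁ | invAlg μ T₁]) x * (μ[f₂ | invAlg μ T₂]) x)) := by
  have hle : invAlg μ T₂ ≤ (inferInstance : MeasurableSpace X) := invAlg_le μ T₂
  set E := μ[f₂ | invAlg μ T₂] with hE
  have hEsm : StronglyMeasurable[invAlg μ T₂] E := stronglyMeasurable_condExp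
  have hint : Integrable f₂ μ :=
    Integrable.of_bound hf₂.aestronglyMeasurable 1 (Eventually.of_forall fun x => hb₂ x)
  set g : X → ℝ := fun x => max (-1) (min 1 (E x)) with hg
  have hgsm : StronglyMeasurable[invAlg μ T₂] g := by
    have hφ : Continuous (fun t : ℝ => max (-1) (min 1 t)) := by fun_prop
    exact hφ.comp_stronglyMeasurable hEsm
  have hgm : Measurable g := hgsm.measurable.mono hle le_rfl
  have hgb : ∀ x, |g x| ≤ 1 := by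
    intro x
    rw [abs_le]
    constructor
    · exact le_max_left _ _
    · exact max_le (by norm_num) (min_le_left _ _)
  have hEb : ∀ᵐ x ∂μ, |E x| ≤ (1 : ℝ) :=
    ae_bdd_abs_condExp_of_ae_bdd_abs (R := (1 : ℝ)) (Eventually.of_forall fun x => hb₂ x)
  have hgE : g =ᵐ[μ] E := by
    filter_upwards [hEb] with x hx
    rw [abs_le] at hx
    simp only [hg]
    rw [min_eq_right hx.2, max_eq_right hx.1]
  have hgint : Integrable g μ :=
    Integrable.of_bound hgm.aestronglyMeasurable 1 (Eventually.of_forall fun x => hgb x)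
  set h : X → ℝ := (1 / 2 : ℝ) • (f₂ - g) with hh
  have hhm : Measurable h := (hf₂.sub hgm).const_smul _
  have hhb : ∀ x, |h x| ≤ 1 := by
    intro x
    simp only [hh, Pi.smul_apply, Pi.sub_apply, smul_eq_mul, abs_mul]
    have := abs_sub (f₂ x) (g x)
    have h1 := hb₂ x
    have h2 := hgb x
    rw [abs_of_pos (by norm_num : (0 : ℝ) < 1 / 2)]
    linarith
  have hh0 : μ[h | invAlg μ T₂] =ᵐ[μ] 0 := by
    have h1 := condExp_smul (μ := μ) (1 / 2 : ℝ) (f₂ - g) (invAlg μ T₂)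
    have h2 := condExp_sub hint hgint (invAlg μ T₂)
    have h3 : μ[g | invAlg μ T₂] = g := condExp_of_stronglyMeasurable hle hgsm hgint
    rw [h3] at h2
    filter_upwards [h1, h2, hgE] with x hx1 hx2 hx3
    rw [hx1, Pi.smul_apply, hx2, Pi.sub_apply, hx3]
    simp [hE]
  have hginv : ∀ᵐ x ∂μ, ∀ n : ℕ, g (T₂^[n] x) = E x := by
    have h1 : ∀ᵐ x ∂μ, ∀ n : ℕ, E (T₂^[n] x) = E x := by
      rw [ae_all_iff]
      intro n
      induction n with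
      | zero => exact Eventually.of_forall fun x => rfl
      | succ n ih =>
        have h2 := condExp_comp_self h₂ hint
        have h3 := (h₂.iterate n).quasiMeasurePreserving.ae_eq_comp h2
        filter_upwards [ih, h3] with x hx1 hx2
        rw [Function.iterate_succ_apply', ← hx1]
        exact hx2
    filter_upwards [h1, ae_iterate h₂ hgE] with x hx1 hx2 n
    rw [hx2 n, hx1 n]
  filter_upwards [srg_zero ha ha2 hδ hδ1 hδ2 hp hD hy h₁ h₂ hcm hf₁ hhm hb₁ hhb hh0,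
    birkhoff h₁ hf₁ hb₁, hginv] with x hx1 hx2 hx3
  have h4 := (hx2.mul_const (E x)).add (hx1.const_mul 2)
  rw [mul_zero, add_zero] at h4
  refine h4.congr fun N => ?_
  rw [mul_assoc, Finset.sum_mul, ← mul_assoc 2, mul_comm (2 : ℝ) _, mul_assoc, ← mul_add,
    Finset.mul_sum, ← Finset.sum_add_distrib]
  congr 1
  refine Finset.sum_congr rfl fun n _ => ?_
  have h5 : f₂ (T₂^[A4.bn a p y n] x) = E x + 2 * h (T₂^[A4.bn a p y n] x) := by
    rw [← hx3 (A4.bn a p y n)]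
    simp only [hh, Pi.smul_apply, Pi.sub_apply, smul_eq_mul]
    ring
  rw [h5]; ring

/-- real bounded functions -/
theorem srg_real (ha : 0 < a) (ha2 : a < 1 / 2) (hδ : 0 < δ)
    (hδ1 : 8 * δ ≤ 1 / 2 - a) (hδ2 : 4 * δ ≤ a) (hp : 2 ≤ p) (hD : 8 ≤ δ * D)
    (hy : GoodY a δ p D y)
    {X : Type*} [MeasurableSpace X] {μ : Measure X} [IsProbabilityMeasure μ]
    {T₁ T₂ : X → X} (h₁ : MeasurePreserving T₁ μ μ) (h₂ : MeasurePreserving T₂ μ μ)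
    (hcm : T₁ ∘ T₂ =ᵐ[μ] T₂ ∘ T₁) {f₁ f₂ : X → ℝ} (hf₁ : Measurable f₁) (hf₂ : Measurable f₂)
    {K : ℝ} (hK : 0 < K) (hb₁ : ∀ x, |f₁ x| ≤ K) (hb₂ : ∀ x, |f₂ x| ≤ K) :
    ∀ᵐ x ∂μ, Tendsto (fun N : ℕ => (N : ℝ)⁻¹ * ∑ n ∈ Finset.Icc 1 N,
      f₁ (T₁^[n] x) * f₂ (T₂^[A4.bn a p y n] x)) atTop
      (𝓝 ((μ[f₁ | invAlg μ T₁]) x * (μ[f₂ | invAlg μ T₂]) x)) := by
  have hs : ∀ f : X → ℝ, (∀ x, |f x| ≤ K) → ∀ x, |(K⁻¹ • f) x| ≤ 1 := by
    intro f hf x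
    rw [Pi.smul_apply, smul_eq_mul, abs_mul, abs_of_pos (inv_pos.mpr hK)]
    rw [inv_mul_le_iff₀ hK, mul_one]
    exact hf x
  filter_upwards [srg_unit ha ha2 hδ hδ1 hδ2 hp hD hy h₁ h₂ hcm (hf₁.const_smul K⁻¹)
    (hf₂.const_smul K⁻¹) (hs f₁ hb₁) (hs f₂ hb₂), condExp_smul (μ := μ) K⁻¹ f₁ (invAlg μ T₁),
    condExp_smul (μ := μ) K⁻¹ f₂ (invAlg μ T₂)] with x hx h3 h4
  rw [h3, h4] at hx
  have h5 := hx.const_mul (K ^ 2)
  have h6 : K ^ 2 * ((K⁻¹ • μ[f₁ | invAlg μ T₁]) x * (K⁻¹ • μ[f₂ | invAlg μ T₂]) x) =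
      (μ[f₁ | invAlg μ T₁]) x * (μ[f₂ | invAlg μ T₂]) x := by
    simp only [Pi.smul_apply, smul_eq_mul]; field_simp
  rw [h6] at h5
  refine h5.congr fun N => ?_
  simp only [Pi.smul_apply, smul_eq_mul]
  rw [Finset.mul_sum, Finset.mul_sum, Finset.mul_sum]
  refine Finset.sum_congr rfl fun n _ => ?_
  field_simp

/-- bounded measurable real representatives of the real and imaginary parts -/
theorem exists_rep {X : Type*} [MeasurableSpace X] {μ : Measure X} [IsProbabilityMeasure μ]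
    {f : X → ℂ} (hf : MemLp f ⊤ μ) :
    ∃ (u v : X → ℝ) (K : ℝ), 0 < K ∧ Measurable u ∧ Measurable v ∧ (∀ x, |u x| ≤ K) ∧
      (∀ x, |v x| ≤ K) ∧ f =ᵐ[μ] (fun x => (u x : ℂ) + Complex.I * (v x : ℂ)) := by
  obtain ⟨C, hC⟩ : ∃ C : ℝ, ∀ᵐ x ∂μ, ‖f x‖ ≤ C := by
    refine ⟨(eLpNorm f ⊤ μ).toReal, ?_⟩
    have h1 := ae_le_eLpNormEssSup (f := f) (μ := μ)
    rw [← eLpNorm_exponent_top] at h1
    filter_upwards [h1] with x hx
    rw [← toReal_enorm]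
    exact ENNReal.toReal_mono hf.eLpNorm_ne_top hx
  set K := max C 1 with hK
  have hKpos : 0 < K := lt_of_lt_of_le one_pos (le_max_right _ _)
  set f' := hf.1.mk f with hf'
  have hf'm : Measurable f' := hf.1.stronglyMeasurable_mk.measurable
  have hff' : f =ᵐ[μ] f' := hf.1.ae_eq_mk
  refine ⟨fun x => max (-K) (min K (f' x).re), fun x => max (-K) (min K (f' x).im), K, hKpos,
    measurable_const.max (measurable_const.min (Complex.measurable_re.comp hf'm)),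
    measurable_const.max (measurable_const.min (Complex.measurable_im.comp hf'm)), ?_, ?_, ?_⟩
  · intro x
    rw [abs_le]
    exact ⟨le_max_left _ _, max_le (by linarith) (min_le_left _ _)⟩
  · intro x
    rw [abs_le]
    exact ⟨le_max_left _ _, max_le (by linarith) (min_le_left _ _)⟩
  · filter_upwards [hC, hff'] with x hx1 hx2
    have h1 : |(f' x).re| ≤ K := by
      refine (Complex.abs_re_le_norm _).trans ?_
      rw [← hx2]; exact hx1.trans (le_max_left _ _)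
    have h2 : |(f' x).im| ≤ K := by
      refine (Complex.abs_im_le_norm _).trans ?_
      rw [← hx2]; exact hx1.trans (le_max_left _ _)
    rw [abs_le] at h1 h2
    rw [min_eq_right h1.2, max_eq_right h1.1, min_eq_right h2.2, max_eq_right h2.1, hx2,
      mul_comm]
    exact (Complex.re_add_im _).symm

theorem condExp_rep {X : Type*} [MeasurableSpace X] {μ : Measure X} [IsProbabilityMeasure μ]
    {T : X → X} {f : X → ℂ} {u v : X → ℝ} (hu : Integrable u μ) (hv : Integrable v μ)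
    (h : f =ᵐ[μ] (fun x => (u x : ℂ) + Complex.I * (v x : ℂ))) :
    μ[f | invAlg μ T] =ᵐ[μ] fun x => ((μ[u | invAlg μ T]) x : ℂ) +
      Complex.I * ((μ[v | invAlg μ T]) x : ℂ) := by
  have h1 := Complex.ofRealCLM.comp_condExp_comm (m := invAlg μ T) hu
  have h2 := Complex.ofRealCLM.comp_condExp_comm (m := invAlg μ T) hv
  have hu' : Integrable (Complex.ofRealCLM ∘ u) μ := Complex.ofRealCLM.integrable_comp hu
  have hv' : Integrable (Complex.ofRealCLM ∘ v) μ := Complex.ofRealCLM.integrable_comp hv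
  have h3 := condExp_smul (μ := μ) Complex.I (Complex.ofRealCLM ∘ v) (invAlg μ T)
  have h4 := condExp_add hu' (hv'.smul Complex.I) (invAlg μ T)
  have h5 : μ[f | invAlg μ T] =ᵐ[μ]
      μ[(Complex.ofRealCLM ∘ u) + Complex.I • (Complex.ofRealCLM ∘ v) | invAlg μ T] := by
    refine condExp_congr_ae (h.trans (Eventually.of_forall fun x => ?_))
    simp
  filter_upwards [h1, h2, h3, h4, h5] with x h1 h2 h3 h4 h5
  rw [h5, h4, Pi.add_apply, h3, Pi.smul_apply, ← h1, ← h2]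
  simp

theorem good_srg.{u} (ha : 0 < a) (ha2 : a < 1 / 2) (hδ : 0 < δ)
    (hδ1 : 8 * δ ≤ 1 / 2 - a) (hδ2 : 4 * δ ≤ a) (hp : 2 ≤ p) (hD : 8 ≤ δ * D)
    (hy : GoodY a δ p D y) :
    (returnSet a p y).Infinite ∧
      SemiRandomGood.{u} (fun n => Nat.nth (· ∈ returnSet a p y) (n - 1)) := by
  refine ⟨A4.returnSet_infinite ha ha2 hδ hy, ?_⟩
  intro X _ μ _ T₁ T₂ h₁ h₂ hcm f₁ f₂ hf₁ hf₂
  obtain ⟨u₁, v₁, K₁, hK₁, hu₁, hv₁, hbu₁, hbv₁, he₁⟩ := exists_rep hf₁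
  obtain ⟨u₂, v₂, K₂, hK₂, hu₂, hv₂, hbu₂, hbv₂, he₂⟩ := exists_rep hf₂
  set K := max K₁ K₂ with hKdef
  have hK : 0 < K := lt_of_lt_of_le hK₁ (le_max_left _ _)
  have hbu₁' : ∀ x, |u₁ x| ≤ K := fun x => (hbu₁ x).trans (le_max_left _ _)
  have hbv₁' : ∀ x, |v₁ x| ≤ K := fun x => (hbv₁ x).trans (le_max_left _ _)
  have hbu₂' : ∀ x, |u₂ x| ≤ K := fun x => (hbu₂ x).trans (le_max_right _ _)
  have hbv₂' : ∀ x, |v₂ x| ≤ K := fun x => (hbv₂ x).trans (le_max_right _ _)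
  have hi : ∀ w : X → ℝ, Measurable w → (∀ x, |w x| ≤ K) → Integrable w μ := fun w hw hb =>
    Integrable.of_bound hw.aestronglyMeasurable K (Eventually.of_forall fun x => hb x)
  filter_upwards [srg_real ha ha2 hδ hδ1 hδ2 hp hD hy h₁ h₂ hcm hu₁ hu₂ hK hbu₁' hbu₂',
    srg_real ha ha2 hδ hδ1 hδ2 hp hD hy h₁ h₂ hcm hu₁ hv₂ hK hbu₁' hbv₂',
    srg_real ha ha2 hδ hδ1 hδ2 hp hD hy h₁ h₂ hcm hv₁ hu₂ hK hbv₁' hbu₂',
    srg_real ha ha2 hδ hδ1 hδ2 hp hD hy h₁ h₂ hcm hv₁ hv₂ hK hbv₁' hbv₂',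
    condExp_rep (T := T₁) (hi u₁ hu₁ hbu₁') (hi v₁ hv₁ hbv₁') he₁,
    condExp_rep (T := T₂) (hi u₂ hu₂ hbu₂') (hi v₂ hv₂ hbv₂') he₂,
    ae_iterate h₁ he₁, ae_iterate h₂ he₂] with x huu huv hvu hvv hc₁ hc₂ ho₁ ho₂
  rw [hc₁, hc₂]
  have cuu := (Complex.continuous_ofReal.tendsto _).comp huu
  have cuv := (Complex.continuous_ofReal.tendsto _).comp huv
  have cvu := (Complex.continuous_ofReal.tendsto _).comp hvu
  have cvv := (Complex.continuous_ofReal.tendsto _).comp hvv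
  have hall := (cuu.add ((cuv.add cvu).const_mul Complex.I)).sub cvv
  have hlim : (((μ[u₁ | invAlg μ T₁]) x * (μ[u₂ | invAlg μ T₂]) x : ℝ) : ℂ) +
      Complex.I * ((((μ[u₁ | invAlg μ T₁]) x * (μ[v₂ | invAlg μ T₂]) x : ℝ) : ℂ) +
        (((μ[v₁ | invAlg μ T₁]) x * (μ[u₂ | invAlg μ T₂]) x : ℝ) : ℂ)) -
      (((μ[v₁ | invAlg μ T₁]) x * (μ[v₂ | invAlg μ T₂]) x : ℝ) : ℂ) =
      (((μ[u₁ | invAlg μ T₁]) x : ℂ) + Complex.I * ((μ[v₁ | invAlg μ T₁]) x : ℂ)) *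
      (((μ[u₂ | invAlg μ T₂]) x : ℂ) + Complex.I * ((μ[v₂ | invAlg μ T₂]) x : ℂ)) := by
    push_cast
    linear_combination (-(((μ[v₁ | invAlg μ T₁]) x : ℂ) * ((μ[v₂ | invAlg μ T₂]) x : ℂ))) *
      Complex.I_sq
  rw [hlim] at hall
  refine hall.congr fun N => ?_
  simp only [Function.comp_apply]
  push_cast
  rw [← mul_add, mul_left_comm, ← mul_add, ← mul_sub]
  congr 1
  rw [← Finset.sum_add_distrib, Finset.mul_sum, ← Finset.sum_add_distrib, ← Finset.sum_sub_distrib]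
  refine Finset.sum_congr rfl fun n _ => ?_
  rw [ho₁ n, ho₂ (Nat.nth (· ∈ returnSet a p y) (n - 1))]
  simp only [A4.bn]
  linear_combination (-(((v₁ (T₁^[n] x) : ℂ)) *
    (v₂ (T₂^[Nat.nth (· ∈ returnSet a p y) (n - 1)] x) : ℂ))) * Complex.I_sq

end A5

end

end Pool.Agent.SRG
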