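import Pool.Agent.SRG.Base

/-!
Module M3: digits, independence, exponential inequality (helper40).
-/

open MeasureTheory Filter Topology

namespace Pool.Agent.SRG

noncomputable section

theorem DigM.mono {p t t' : ℕ} (hp : 1 ≤ p) (h : t ≤ t') {F : ℝ → ℝ} (hF : DigM p t F) :
    DigM p t' F := by
  intro y z hyz
  apply hF
  obtain ⟨k, rfl⟩ := Nat.exists_eq_add_of_le h
  have hpk : p ^ k ≠ 0 := pow_ne_zero _ (by omega)
  have e : ∀ u : ℝ, ⌊(p : ℝ) ^ t * u⌋ = ⌊(p : ℝ) ^ (t + k) * u⌋ / ((p ^ k : ℕ) : ℤ) := by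
    intro u
    rw [← Int.natCast_mul_floor_div_cancel hpk ((p : ℝ) ^ t * u)]
    congr 2
    push_cast
    ring
  rw [e y, e z, hyz]

theorem DigM.measurable {p t : ℕ} (hp : 1 ≤ p) {F : ℝ → ℝ} (hF : DigM p t F) :
    Measurable F := by
  have hP : (0 : ℝ) < (p : ℝ) ^ t := by positivity
  have e : F = (fun k : ℤ => F ((k : ℝ) / (p : ℝ) ^ t)) ∘ fun y : ℝ => ⌊(p : ℝ) ^ t * y⌋ := by
    funext y
    apply hF
    have : (p : ℝ) ^ t * ((⌊(p : ℝ) ^ t * y⌋ : ℝ) / (p : ℝ) ^ t) = (⌊(p : ℝ) ^ t * y⌋ : ℝ) := by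
      field_simp
    rw [this, Int.floor_intCast]
  rw [e]
  exact (measurable_from_top).comp (Int.measurable_floor.comp (measurable_const.mul measurable_id))

/-- if `f (z)` only depends on the first `w` digits of `z ∈ [0,1)`, then `f (fract (p ^ s y))` only
depends on the first `s + w` digits of `y` -/
theorem DigM.comp_fract {p w : ℕ} (hp : 1 ≤ p) {f : ℝ → ℝ} (hf : DigM p w f) (s : ℕ) :
    DigM p (s + w) (fun y => f (Int.fract ((p : ℝ) ^ s * y))) := by
  intro y z hyz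
  apply hf
  have h1 : ⌊(p : ℝ) ^ s * y⌋ = ⌊(p : ℝ) ^ s * z⌋ := by
    have hpk : p ^ w ≠ 0 := pow_ne_zero _ (by omega)
    have e : ∀ u : ℝ, ⌊(p : ℝ) ^ s * u⌋ = ⌊(p : ℝ) ^ (s + w) * u⌋ / ((p ^ w : ℕ) : ℤ) := by
      intro u
      rw [← Int.natCast_mul_floor_div_cancel hpk ((p : ℝ) ^ s * u)]
      congr 2
      push_cast
      ring
    rw [e y, e z, hyz]
  have h2 : ∀ u : ℝ, ⌊(p : ℝ) ^ w * Int.fract ((p : ℝ) ^ s * u)⌋ =
      ⌊(p : ℝ) ^ (s + w) * u⌋ - (p : ℤ) ^ w * ⌊(p : ℝ) ^ s * u⌋ := by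
    intro u
    rw [← Int.floor_sub_intCast]
    congr 1
    rw [Int.fract]
    push_cast
    ring
  rw [h2, h2, hyz, h1]

/-- thresholds that are multiples of `p ^ (-w)` -/
theorem DigM.lt_thr {p w : ℕ} (hp : 1 ≤ p) (n : ℤ) (A B : ℝ) :
    DigM p w (fun z => haveI := Classical.dec (z < (n : ℝ) / (p : ℝ) ^ w)
      if z < (n : ℝ) / (p : ℝ) ^ w then A else B) := by
  intro y z hyz
  have hP : (0 : ℝ) < (p : ℝ) ^ w := by positivity
  have e : ∀ u : ℝ, u < (n : ℝ) / (p : ℝ) ^ w ↔ ⌊(p : ℝ) ^ w * u⌋ < n := by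
    intro u
    rw [Int.floor_lt, lt_div_iff₀ hP, mul_comm]
  by_cases h : y < (n : ℝ) / (p : ℝ) ^ w
  · have h' : z < (n : ℝ) / (p : ℝ) ^ w := by rw [e, ← hyz, ← e]; exact h
    simp only [h, h', if_true]
  · have h' : ¬ z < (n : ℝ) / (p : ℝ) ^ w := by rw [e, ← hyz, ← e]; exact h
    simp only [h, h', if_false]

namespace Dig

lemma bounded {p t : ℕ} (hp : 1 ≤ p) {F : ℝ → ℝ} (hF : DigM p t F) :
    ∃ C : ℝ, ∀ y ∈ Set.Icc (0 : ℝ) 1, |F y| ≤ C := by
  have hP : (0 : ℝ) < (p : ℝ) ^ t := by positivity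
  refine ⟨∑ k ∈ Finset.range (p ^ t + 1), |F ((k : ℝ) / (p : ℝ) ^ t)|, ?_⟩
  intro y hy
  have h0 : 0 ≤ ⌊(p : ℝ) ^ t * y⌋ := Int.floor_nonneg.mpr (mul_nonneg hP.le hy.1)
  obtain ⟨k, hk⟩ := Int.eq_ofNat_of_zero_le h0
  have hkle : k ≤ p ^ t := by
    have h1 : ((k : ℤ) : ℝ) ≤ (p : ℝ) ^ t * y := by
      rw [← hk]
      exact Int.floor_le _
    have h2 : (p : ℝ) ^ t * y ≤ (p : ℝ) ^ t := by nlinarith [hy.2]
    have h3 : ((k : ℤ) : ℝ) ≤ (p : ℝ) ^ t := h1.trans h2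
    have h4 : (k : ℝ) ≤ ((p ^ t : ℕ) : ℝ) := by push_cast at h3 ⊢; exact h3
    exact_mod_cast h4
  have hFk : F y = F ((k : ℝ) / (p : ℝ) ^ t) := by
    apply hF
    have : (p : ℝ) ^ t * ((k : ℝ) / (p : ℝ) ^ t) = (k : ℝ) := by field_simp
    rw [this, Int.floor_natCast]
    exact hk
  rw [hFk]
  exact Finset.single_le_sum (f := fun k : ℕ => |F ((k : ℝ) / (p : ℝ) ^ t)|)
    (fun i _ => abs_nonneg _) (Finset.mem_range.mpr (by omega))

lemma intInt {p t : ℕ} (hp : 1 ≤ p) {F : ℝ → ℝ} (hF : DigM p t F) :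
    IntervalIntegrable F volume 0 1 := by
  obtain ⟨C, hC⟩ := bounded hp hF
  rw [intervalIntegrable_iff_integrableOn_Ioc_of_le zero_le_one]
  refine Measure.integrableOn_of_bounded (by simp) (hF.measurable hp).aestronglyMeasurable
    (M := C) ?_
  rw [ae_restrict_iff' measurableSet_Ioc]
  exact Filter.Eventually.of_forall fun y hy => hC y ⟨hy.1.le, hy.2⟩

/-- the integral over one cylinder -/
lemma piece {P : ℕ} (hP : 1 ≤ P) {F f : ℝ → ℝ}
    (hF : ∀ y z : ℝ, ⌊(P : ℝ) * y⌋ = ⌊(P : ℝ) * z⌋ → F y = F z)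
    (hf : IntervalIntegrable f volume 0 1) (j : ℕ) :
    IntervalIntegrable (fun y => F y * f (Int.fract ((P : ℝ) * y))) volume
      ((j : ℝ) / P) (((j + 1 : ℕ) : ℝ) / P) ∧
    ∫ y in ((j : ℝ) / P)..(((j + 1 : ℕ) : ℝ) / P), F y * f (Int.fract ((P : ℝ) * y)) =
      F ((j : ℝ) / P) * ((P : ℝ)⁻¹ * ∫ z in (0 : ℝ)..1, f z) := by
  have hP0 : (0 : ℝ) < P := by exact_mod_cast hP
  have hle : (j : ℝ) / P ≤ ((j + 1 : ℕ) : ℝ) / P := by
    apply div_le_div_of_nonneg_right _ hP0.le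
    push_cast
    linarith
  have hfl : ∀ y : ℝ, y ∈ Set.Ioc ((j : ℝ) / P) (((j + 1 : ℕ) : ℝ) / P) →
      y ≠ (((j + 1 : ℕ) : ℝ) / P) → ⌊(P : ℝ) * y⌋ = (j : ℤ) := by
    intro y hy hne
    have hlt : y < ((j + 1 : ℕ) : ℝ) / P := lt_of_le_of_ne hy.2 hne
    rw [Int.floor_eq_iff]
    constructor
    · have := hy.1
      rw [div_lt_iff₀ hP0] at this
      push_cast
      nlinarith
    · rw [lt_div_iff₀ hP0] at hlt
      push_cast at hlt ⊢
      nlinarith
  have heq : ∀ y : ℝ, y ∈ Set.Ioc ((j : ℝ) / P) (((j + 1 : ℕ) : ℝ) / P) →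
      y ≠ (((j + 1 : ℕ) : ℝ) / P) →
      F y * f (Int.fract ((P : ℝ) * y)) = F ((j : ℝ) / P) * f ((P : ℝ) * y - j) := by
    intro y hy hne
    have h1 := hfl y hy hne
    have h2 : F y = F ((j : ℝ) / P) := by
      apply hF
      rw [h1]
      have : (P : ℝ) * ((j : ℝ) / P) = (j : ℝ) := by field_simp
      rw [this, Int.floor_natCast]
    have h3 : Int.fract ((P : ℝ) * y) = (P : ℝ) * y - j := by
      rw [Int.fract, h1]
      push_cast
      ring
    rw [h2, h3]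
  have hne : ∀ᵐ y ∂(volume : Measure ℝ), y ≠ (((j + 1 : ℕ) : ℝ) / P) := by
    rw [ae_iff]
    simp
  have hae : ∀ᵐ y ∂(volume : Measure ℝ), y ∈ Set.uIoc ((j : ℝ) / P) (((j + 1 : ℕ) : ℝ) / P) →
      F y * f (Int.fract ((P : ℝ) * y)) = F ((j : ℝ) / P) * f ((P : ℝ) * y - j) := by
    filter_upwards [hne] with y hy hmem
    rw [Set.uIoc_of_le hle] at hmem
    exact heq y hmem hy
  have hint : IntervalIntegrable (fun y => f ((P : ℝ) * y - j)) volume
      ((j : ℝ) / P) (((j + 1 : ℕ) : ℝ) / P) := by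
    have h1 := hf.comp_sub_right (j : ℝ)
    have h2 := h1.comp_mul_left (c := (P : ℝ))
    have e1 : (0 + (j : ℝ)) / P = (j : ℝ) / P := by ring
    have e2 : (1 + (j : ℝ)) / P = ((j + 1 : ℕ) : ℝ) / P := by push_cast; ring
    rw [e1, e2] at h2
    exact h2
  constructor
  · refine (hint.const_mul (F ((j : ℝ) / P))).congr_ae ?_
    rw [Filter.EventuallyEq, ae_restrict_iff' measurableSet_uIoc]
    filter_upwards [hae] with y hy hmem
    exact (hy hmem).symm
  · rw [intervalIntegral.integral_congr_ae hae, intervalIntegral.integral_const_mul,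
      intervalIntegral.integral_comp_mul_sub _ hP0.ne']
    congr 1
    rw [smul_eq_mul]
    congr 2
    · field_simp
      ring
    · push_cast
      field_simp
      ring

end Dig

/-- independence of the first `t` digits and the others -/
theorem integral_mul_fract {p t : ℕ} (hp : 1 ≤ p) {F f : ℝ → ℝ} (hF : DigM p t F)
    (hf : IntervalIntegrable f volume 0 1) :
    ∫ y in (0 : ℝ)..1, F y * f (Int.fract ((p : ℝ) ^ t * y)) =
      (∫ y in (0 : ℝ)..1, F y) * ∫ z in (0 : ℝ)..1, f z := by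
  have hP : 1 ≤ p ^ t := Nat.one_le_pow _ _ hp
  have hP0 : (0 : ℝ) < ((p ^ t : ℕ) : ℝ) := by exact_mod_cast hP
  have hcast : (p : ℝ) ^ t = ((p ^ t : ℕ) : ℝ) := by push_cast; rfl
  have hF' : ∀ y z : ℝ, ⌊((p ^ t : ℕ) : ℝ) * y⌋ = ⌊((p ^ t : ℕ) : ℝ) * z⌋ → F y = F z := by
    intro y z h
    rw [← hcast] at h
    exact hF y z h
  rw [hcast]
  have key : ∀ g : ℝ → ℝ, IntervalIntegrable g volume 0 1 →
      ∫ y in (0 : ℝ)..1, F y * g (Int.fract (((p ^ t : ℕ) : ℝ) * y)) =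
        (∑ j ∈ Finset.range (p ^ t), F ((j : ℝ) / ((p ^ t : ℕ) : ℝ)) *
          (((p ^ t : ℕ) : ℝ)⁻¹)) * ∫ z in (0 : ℝ)..1, g z := by
    intro g hg
    have h1 := intervalIntegral.sum_integral_adjacent_intervals (μ := volume)
      (f := fun y => F y * g (Int.fract (((p ^ t : ℕ) : ℝ) * y)))
      (a := fun j : ℕ => (j : ℝ) / ((p ^ t : ℕ) : ℝ)) (n := p ^ t)
      (fun k _ => (Dig.piece hP hF' hg k).1)
    have e0 : ((0 : ℕ) : ℝ) / ((p ^ t : ℕ) : ℝ) = 0 := by simp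
    have e1 : ((p ^ t : ℕ) : ℝ) / ((p ^ t : ℕ) : ℝ) = 1 := div_self hP0.ne'
    simp only [e0, e1] at h1
    rw [← h1, Finset.sum_mul]
    refine Finset.sum_congr rfl (fun j _ => ?_)
    rw [(Dig.piece hP hF' hg j).2]
    ring
  have h1 := key f hf
  have h2 := key (fun _ => 1) intervalIntegrable_const
  simp only [mul_one, intervalIntegral.integral_const, sub_zero, smul_eq_mul] at h2
  rw [h1, h2]

/-- invariance of Lebesgue measure under `y ↦ p ^ t y mod 1` -/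
theorem volume_fract {p : ℕ} (hp : 1 ≤ p) (t : ℕ) {E : Set ℝ} (hE : MeasurableSet E)
    (hE1 : E ⊆ Set.Ico 0 1) :
    volume {y : ℝ | y ∈ Set.Icc (0 : ℝ) 1 ∧ Int.fract ((p : ℝ) ^ t * y) ∈ E} = volume E := by
  have hone : DigM p t (fun _ => (1 : ℝ)) := fun _ _ _ => rfl
  have hEfin : volume E ≠ ⊤ := by
    refine ne_top_of_le_ne_top ?_ (measure_mono hE1)
    simp
  have hfi : IntervalIntegrable (E.indicator fun _ => (1 : ℝ)) volume 0 1 := by
    rw [intervalIntegrable_iff_integrableOn_Ioc_of_le zero_le_one]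
    refine Measure.integrableOn_of_bounded (M := 1) (by simp)
      ((measurable_const.indicator hE).aestronglyMeasurable) ?_
    refine Filter.Eventually.of_forall fun y => ?_
    by_cases h : y ∈ E
    · simp [h]
    · simp [h]
  have h1 := integral_mul_fract hp hone hfi
  simp only [one_mul, intervalIntegral.integral_const, sub_zero, smul_eq_mul, mul_one] at h1
  set S : Set ℝ := {y : ℝ | Int.fract ((p : ℝ) ^ t * y) ∈ E} with hS
  have hSm : MeasurableSet S :=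
    (measurable_fract.comp (measurable_const.mul measurable_id)) hE
  have e1 : (fun y : ℝ => E.indicator (fun _ => (1 : ℝ)) (Int.fract ((p : ℝ) ^ t * y)))
      = S.indicator fun _ => (1 : ℝ) := by
    funext y
    by_cases h : y ∈ S
    · rw [Set.indicator_of_mem h, Set.indicator_of_mem (show Int.fract ((p : ℝ) ^ t * y) ∈ E from h)]
    · rw [Set.indicator_of_notMem h,
        Set.indicator_of_notMem (show Int.fract ((p : ℝ) ^ t * y) ∉ E from h)]
  rw [e1, intervalIntegral.integral_of_le zero_le_one, intervalIntegral.integral_of_le zero_le_one,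
    integral_indicator_const _ hSm, integral_indicator_const _ hE] at h1
  simp only [smul_eq_mul, mul_one, measureReal_restrict_apply hSm,
    measureReal_restrict_apply hE] at h1
  have h2 : volume (S ∩ Set.Ioc 0 1) = volume (E ∩ Set.Ioc 0 1) := by
    have hfin : ∀ B : Set ℝ, volume (B ∩ Set.Ioc (0 : ℝ) 1) ≠ ⊤ := by
      intro B
      refine ne_top_of_le_ne_top ?_ (measure_mono Set.inter_subset_right)
      simp
    rw [measureReal_def, measureReal_def] at h1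
    exact (ENNReal.toReal_eq_toReal_iff' (hfin S) (hfin E)).mp h1
  have h3 : volume {y : ℝ | y ∈ Set.Icc (0 : ℝ) 1 ∧ Int.fract ((p : ℝ) ^ t * y) ∈ E}
      = volume (S ∩ Set.Ioc 0 1) := by
    apply measure_congr
    have : {y : ℝ | y ∈ Set.Icc (0 : ℝ) 1 ∧ Int.fract ((p : ℝ) ^ t * y) ∈ E}
        = S ∩ Set.Icc 0 1 := by
      ext y
      simp only [hS, Set.mem_ofPred_eq, Set.mem_inter_iff]
      tauto
    rw [this]
    exact (ae_eq_refl S).inter Ioc_ae_eq_Icc.symm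
  have h4 : volume (E ∩ Set.Ioc 0 1) = volume E := by
    have : (E ∩ Set.Ioc 0 1 : Set ℝ) =ᵐ[volume] (E ∩ Set.Ico 0 1 : Set ℝ) :=
      (ae_eq_refl E).inter (Ioc_ae_eq_Icc.trans Ico_ae_eq_Icc.symm)
    rw [measure_congr this, Set.inter_eq_left.mpr hE1]
  rw [h3, h2, h4]

namespace Dig

lemma exp_quad {x : ℝ} (hx : |x| ≤ 1) : Real.exp x ≤ 1 + x + x ^ 2 := by
  have := Real.abs_exp_sub_one_sub_id_le hx
  have h2 := (abs_le.mp this).2
  linarith

/-- combination of functions depending on finitely many digits -/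
lemma op2 {p t : ℕ} {F G : ℝ → ℝ} (hF : DigM p t F) (hG : DigM p t G) (φ : ℝ → ℝ → ℝ) :
    DigM p t (fun y => φ (F y) (G y)) := by
  intro y z h
  simp only
  rw [hF y z h, hG y z h]

lemma sumD {p t : ℕ} (J : Finset ℕ) (F : ℕ → ℝ → ℝ) (hF : ∀ s ∈ J, DigM p t (F s)) :
    DigM p t (fun y => ∑ s ∈ J, F s y) := by
  intro y z h
  exact Finset.sum_congr rfl fun s hs => hF s hs y z h

/-- the exponential martingale inequality along one residue class -/
lemma exp_class {p : ℕ} (hp : 2 ≤ p) {w : ℕ} (ξ f : ℕ → ℝ → ℝ)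
    (v : ℕ → ℝ) {l : ℝ} (hl : 0 < l) (hl1 : l ≤ 1) (J : Finset ℕ) :
    (∀ s ∈ J, ∀ s' ∈ J, s < s' → s + w ≤ s') →
    (∀ s ∈ J, DigM p s (ξ s)) → (∀ s ∈ J, ∀ y, |ξ s y| ≤ 1) →
    (∀ s ∈ J, Measurable (f s)) → (∀ s ∈ J, ∀ z, |f s z| ≤ 1) →
    (∀ s ∈ J, ∫ z in (0 : ℝ)..1, f s z = 0) →
    (∀ s ∈ J, ∫ z in (0 : ℝ)..1, (f s z) ^ 2 ≤ v s) →
    (∀ s ∈ J, DigM p (s + w) (fun y => f s (Int.fract ((p : ℝ) ^ s * y)))) →
    ∫ y in (0 : ℝ)..1, Real.exp (∑ s ∈ J, (l * (ξ s y * f s (Int.fract ((p : ℝ) ^ s * y))) -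
      l ^ 2 * (v s * (ξ s y) ^ 2))) ≤ 1 := by
  have hp1 : 1 ≤ p := by omega
  induction J using Finset.induction_on_max with
  | empty => intros; simp
  | insert m J hm ih =>
    intro hgap hξ hξ1 hf hf1 hf0 hfv hη
    have hmJ : m ∉ J := fun h => lt_irrefl _ (hm m h)
    have hins : ∀ s ∈ J, s ∈ insert m J := fun s hs => Finset.mem_insert_of_mem hs
    have hmi : m ∈ insert m J := Finset.mem_insert_self m J
    have IH := ih (fun s hs s' hs' => hgap s (hins s hs) s' (hins s' hs'))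
      (fun s hs => hξ s (hins s hs)) (fun s hs => hξ1 s (hins s hs))
      (fun s hs => hf s (hins s hs)) (fun s hs => hf1 s (hins s hs))
      (fun s hs => hf0 s (hins s hs)) (fun s hs => hfv s (hins s hs))
      (fun s hs => hη s (hins s hs))
    set A : ℝ → ℝ := fun y => ∑ s ∈ J, (l * (ξ s y * f s (Int.fract ((p : ℝ) ^ s * y))) -
      l ^ 2 * (v s * (ξ s y) ^ 2)) with hA
    have hAdig : DigM p m A := by
      apply sumD
      intro s hs
      have h1 : s + w ≤ m := hgap s (hins s hs) m hmi (hm s hs)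
      exact op2 ((hξ s (hins s hs)).mono hp1 (by omega)) ((hη s (hins s hs)).mono hp1 h1)
        (fun a b => l * (a * b) - l ^ 2 * (v s * a ^ 2))
    have hv0 : 0 ≤ v m := by
      refine le_trans ?_ (hfv m hmi)
      exact intervalIntegral.integral_nonneg zero_le_one fun z _ => sq_nonneg _
    set Φ : ℝ → ℝ := fun y => Real.exp (A y - l ^ 2 * (v m * (ξ m y) ^ 2)) with hΦ
    have hΦdig : DigM p m Φ := op2 hAdig (hξ m hmi) (fun a b => Real.exp (a - l ^ 2 * (v m * b ^ 2)))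
    have hfm : IntervalIntegrable (f m) volume 0 1 := by
      rw [intervalIntegrable_iff_integrableOn_Ioc_of_le zero_le_one]
      refine Measure.integrableOn_of_bounded (M := 1) (by simp) (hf m hmi).aestronglyMeasurable ?_
      exact Filter.Eventually.of_forall fun y => by
        rw [Real.norm_eq_abs]; exact hf1 m hmi y
    have hfm2 : IntervalIntegrable (fun z => (f m z) ^ 2) volume 0 1 := by
      rw [intervalIntegrable_iff_integrableOn_Ioc_of_le zero_le_one]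
      refine Measure.integrableOn_of_bounded (M := 1) (by simp)
        ((hf m hmi).pow_const 2).aestronglyMeasurable ?_
      exact Filter.Eventually.of_forall fun y => by
        rw [Real.norm_eq_abs, abs_pow]
        exact pow_le_one₀ (abs_nonneg _) (hf1 m hmi y)
    have hd1 : DigM p m (fun y => Φ y * ξ m y) := op2 hΦdig (hξ m hmi) (fun a b => a * b)
    have hd2 : DigM p m (fun y => Φ y * (ξ m y) ^ 2) := op2 hΦdig (hξ m hmi) (fun a b => a * b ^ 2)
    have I1 := integral_mul_fract hp1 hd1 hfm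
    have I2 := integral_mul_fract hp1 hd2 hfm2
    rw [hf0 m hmi, mul_zero] at I1
    have hηm := hη m hmi
    have hbig : m ≤ m + w := by omega
    -- the pointwise inequality
    have hpt : ∀ y : ℝ, Real.exp (∑ s ∈ insert m J,
        (l * (ξ s y * f s (Int.fract ((p : ℝ) ^ s * y))) - l ^ 2 * (v s * (ξ s y) ^ 2)))
        ≤ Φ y + l * ((Φ y * ξ m y) * f m (Int.fract ((p : ℝ) ^ m * y))) +
          l ^ 2 * ((Φ y * (ξ m y) ^ 2) * (f m (Int.fract ((p : ℝ) ^ m * y))) ^ 2) := by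
      intro y
      rw [Finset.sum_insert hmJ]
      have e1 : l * (ξ m y * f m (Int.fract ((p : ℝ) ^ m * y))) - l ^ 2 * (v m * (ξ m y) ^ 2) + A y
          = l * (ξ m y * f m (Int.fract ((p : ℝ) ^ m * y))) +
            (A y - l ^ 2 * (v m * (ξ m y) ^ 2)) := by ring
      rw [show (l * (ξ m y * f m (Int.fract ((p : ℝ) ^ m * y))) - l ^ 2 * (v m * (ξ m y) ^ 2) +
        ∑ s ∈ J, (l * (ξ s y * f s (Int.fract ((p : ℝ) ^ s * y))) - l ^ 2 * (v s * (ξ s y) ^ 2)))
        = _ from e1, Real.exp_add]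
      have hx : |l * (ξ m y * f m (Int.fract ((p : ℝ) ^ m * y)))| ≤ 1 := by
        rw [abs_mul, abs_mul, abs_of_pos hl]
        have h1 := hξ1 m hmi y
        have h2 := hf1 m hmi (Int.fract ((p : ℝ) ^ m * y))
        have h3 : |ξ m y| * |f m (Int.fract ((p : ℝ) ^ m * y))| ≤ 1 := by
          calc _ ≤ 1 * 1 := mul_le_mul h1 h2 (abs_nonneg _) zero_le_one
            _ = 1 := by ring
        calc l * (|ξ m y| * |f m (Int.fract ((p : ℝ) ^ m * y))|) ≤ 1 * 1 :=
              mul_le_mul hl1 h3 (by positivity) zero_le_one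
          _ = 1 := by ring
      have h4 := exp_quad hx
      have hΦ0 : 0 ≤ Φ y := (Real.exp_pos _).le
      calc Real.exp (l * (ξ m y * f m (Int.fract ((p : ℝ) ^ m * y)))) *
            Real.exp (A y - l ^ 2 * (v m * (ξ m y) ^ 2))
          ≤ (1 + l * (ξ m y * f m (Int.fract ((p : ℝ) ^ m * y))) +
            (l * (ξ m y * f m (Int.fract ((p : ℝ) ^ m * y)))) ^ 2) * Φ y :=
            mul_le_mul_of_nonneg_right h4 hΦ0
        _ = _ := by ring
    have hi0 : IntervalIntegrable Φ volume 0 1 := intInt hp1 hΦdig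
    have hdη1 : DigM p (m + w) (fun y => (Φ y * ξ m y) * f m (Int.fract ((p : ℝ) ^ m * y))) :=
      op2 (hd1.mono hp1 hbig) hηm (fun a b => a * b)
    have hdη2 : DigM p (m + w)
        (fun y => (Φ y * (ξ m y) ^ 2) * (f m (Int.fract ((p : ℝ) ^ m * y))) ^ 2) :=
      op2 (hd2.mono hp1 hbig) hηm (fun a b => a * b ^ 2)
    have hi1 := intInt hp1 hdη1
    have hi2 := intInt hp1 hdη2
    have hdig3 : DigM p (m + w) (fun y => Real.exp (∑ s ∈ insert m J,
        (l * (ξ s y * f s (Int.fract ((p : ℝ) ^ s * y))) - l ^ 2 * (v s * (ξ s y) ^ 2)))) := by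
      have h1 : DigM p (m + w) (fun y => ∑ s ∈ insert m J,
        (l * (ξ s y * f s (Int.fract ((p : ℝ) ^ s * y))) - l ^ 2 * (v s * (ξ s y) ^ 2))) := by
        apply sumD
        intro s hs
        have hsm : s ≤ m := by
          rcases Finset.mem_insert.mp hs with h | h
          · omega
          · exact (hm s h).le
        exact op2 ((hξ s hs).mono hp1 (by omega)) ((hη s hs).mono hp1 (by omega))
          (fun a b => l * (a * b) - l ^ 2 * (v s * a ^ 2))
      exact op2 h1 h1 (fun a _ => Real.exp a)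
    have hi3 := intInt hp1 hdig3
    calc ∫ y in (0 : ℝ)..1, Real.exp (∑ s ∈ insert m J,
          (l * (ξ s y * f s (Int.fract ((p : ℝ) ^ s * y))) - l ^ 2 * (v s * (ξ s y) ^ 2)))
        ≤ ∫ y in (0 : ℝ)..1, (Φ y + l * ((Φ y * ξ m y) * f m (Int.fract ((p : ℝ) ^ m * y))) +
          l ^ 2 * ((Φ y * (ξ m y) ^ 2) * (f m (Int.fract ((p : ℝ) ^ m * y))) ^ 2)) := by
          refine intervalIntegral.integral_mono_on zero_le_one hi3
            ((hi0.add (hi1.const_mul l)).add (hi2.const_mul (l ^ 2))) fun y _ => hpt y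
      _ = (∫ y in (0 : ℝ)..1, Φ y) + l * 0 + l ^ 2 *
          ((∫ y in (0 : ℝ)..1, Φ y * (ξ m y) ^ 2) * ∫ z in (0 : ℝ)..1, (f m z) ^ 2) := by
          rw [intervalIntegral.integral_add (hi0.add (hi1.const_mul l)) (hi2.const_mul (l ^ 2)),
            intervalIntegral.integral_add hi0 (hi1.const_mul l),
            intervalIntegral.integral_const_mul, intervalIntegral.integral_const_mul, I1, I2]
      _ ≤ (∫ y in (0 : ℝ)..1, Φ y) + l ^ 2 * ((∫ y in (0 : ℝ)..1, Φ y * (ξ m y) ^ 2) * v m) := by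
          have h1 : 0 ≤ ∫ y in (0 : ℝ)..1, Φ y * (ξ m y) ^ 2 :=
            intervalIntegral.integral_nonneg zero_le_one fun y _ =>
              mul_nonneg (Real.exp_pos _).le (sq_nonneg _)
          have h2 := mul_le_mul_of_nonneg_left (hfv m hmi) h1
          have h3 := mul_le_mul_of_nonneg_left h2 (sq_nonneg l)
          linarith
      _ = ∫ y in (0 : ℝ)..1, (Φ y + (l ^ 2 * v m) * (Φ y * (ξ m y) ^ 2)) := by
          rw [intervalIntegral.integral_add hi0 ((intInt hp1 hd2).const_mul _),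
            intervalIntegral.integral_const_mul]
          ring
      _ ≤ ∫ y in (0 : ℝ)..1, Real.exp (A y) := by
          have hAexp : DigM p m (fun y => Real.exp (A y)) := op2 hAdig hAdig (fun a _ => Real.exp a)
          refine intervalIntegral.integral_mono_on zero_le_one
            (hi0.add ((intInt hp1 hd2).const_mul _)) (intInt hp1 hAexp) fun y _ => ?_
          have h1 : Φ y + (l ^ 2 * v m) * (Φ y * (ξ m y) ^ 2)
              = Φ y * (l ^ 2 * (v m * (ξ m y) ^ 2) + 1) := by ring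
          rw [h1]
          have h2 := Real.add_one_le_exp (l ^ 2 * (v m * (ξ m y) ^ 2))
          calc Φ y * (l ^ 2 * (v m * (ξ m y) ^ 2) + 1)
              ≤ Φ y * Real.exp (l ^ 2 * (v m * (ξ m y) ^ 2)) :=
                mul_le_mul_of_nonneg_left h2 (Real.exp_pos _).le
            _ = Real.exp (A y) := by
                rw [hΦ]
                simp only
                rw [← Real.exp_add]
                congr 1
                ring
      _ ≤ 1 := IH

end Dig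

/-- the exponential tail bound for sums of `p`-adic martingale differences with memory `w` -/
theorem exp_tail {p : ℕ} (hp : 2 ≤ p) {w : ℕ} (hw : 1 ≤ w) (I : Finset ℕ) (ξ f : ℕ → ℝ → ℝ)
    (v : ℕ → ℝ) {l τ : ℝ} (hl : 0 < l) (hl1 : l ≤ 1)
    (hξ : ∀ s ∈ I, DigM p s (ξ s)) (hξ1 : ∀ s ∈ I, ∀ y, |ξ s y| ≤ 1)
    (hf : ∀ s ∈ I, Measurable (f s)) (hf1 : ∀ s ∈ I, ∀ z, |f s z| ≤ 1)
    (hf0 : ∀ s ∈ I, ∫ z in (0 : ℝ)..1, f s z = 0)
    (hfv : ∀ s ∈ I, ∫ z in (0 : ℝ)..1, (f s z) ^ 2 ≤ v s)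
    (hη : ∀ s ∈ I, DigM p (s + w) (fun y => f s (Int.fract ((p : ℝ) ^ s * y)))) :
    volume {y : ℝ | y ∈ Set.Icc (0 : ℝ) 1 ∧
      (w : ℝ) * τ / l + l * ∑ s ∈ I, v s * (ξ s y) ^ 2 ≤
        ∑ s ∈ I, ξ s y * f s (Int.fract ((p : ℝ) ^ s * y))} ≤
      ENNReal.ofReal (Real.exp (-τ)) := by
  classical
  have hp1 : 1 ≤ p := by omega
  have hw0 : (0 : ℝ) < w := by exact_mod_cast hw
  set A : ℕ → ℝ → ℝ := fun ρ y => ∑ s ∈ I with s % w = ρ,
    (l * (ξ s y * f s (Int.fract ((p : ℝ) ^ s * y))) - l ^ 2 * (v s * (ξ s y) ^ 2)) with hA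
  have hclass : ∀ ρ : ℕ, ∫ y in (0 : ℝ)..1, Real.exp (A ρ y) ≤ 1 := by
    intro ρ
    refine Dig.exp_class hp (w := w) ξ f v hl hl1 _ ?_ ?_ ?_ ?_ ?_ ?_ ?_ ?_
    · intro s hs s' hs' hss
      rw [Finset.mem_filter] at hs hs'
      have h1 : s % w = s' % w := by rw [hs.2, hs'.2]
      have h2 : w ∣ s' - s := (Nat.modEq_iff_dvd' hss.le).mp h1
      have h3 := Nat.le_of_dvd (by omega) h2
      omega
    · intro s hs; exact hξ s (Finset.mem_filter.mp hs).1
    · intro s hs; exact hξ1 s (Finset.mem_filter.mp hs).1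
    · intro s hs; exact hf s (Finset.mem_filter.mp hs).1
    · intro s hs; exact hf1 s (Finset.mem_filter.mp hs).1
    · intro s hs; exact hf0 s (Finset.mem_filter.mp hs).1
    · intro s hs; exact hfv s (Finset.mem_filter.mp hs).1
    · intro s hs; exact hη s (Finset.mem_filter.mp hs).1
  -- a common digit level
  obtain ⟨t, ht⟩ : ∃ t : ℕ, ∀ s ∈ I, s + w ≤ t :=
    ⟨I.sup id + w, fun s hs => Nat.add_le_add_right (Finset.le_sup (f := id) hs) w⟩
  have hAdig : ∀ ρ, DigM p t (A ρ) := by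
    intro ρ
    apply Dig.sumD
    intro s hs
    have hsI := (Finset.mem_filter.mp hs).1
    have := ht s hsI
    exact Dig.op2 ((hξ s hsI).mono hp1 (by omega)) ((hη s hsI).mono hp1 this)
      (fun a b => l * (a * b) - l ^ 2 * (v s * a ^ 2))
  have hexpdig : ∀ ρ, DigM p t (fun y => Real.exp (A ρ y)) := fun ρ =>
    Dig.op2 (hAdig ρ) (hAdig ρ) (fun a _ => Real.exp a)
  set G : ℝ → ℝ := fun y => (w : ℝ)⁻¹ * ∑ ρ ∈ Finset.range w, Real.exp (A ρ y) with hG
  have hGdig : DigM p t G := by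
    have h1 : DigM p t (fun y => ∑ ρ ∈ Finset.range w, Real.exp (A ρ y)) :=
      Dig.sumD _ _ fun ρ _ => hexpdig ρ
    exact Dig.op2 h1 h1 (fun a _ => (w : ℝ)⁻¹ * a)
  have hGint : ∫ y in (0 : ℝ)..1, G y ≤ 1 := by
    have h1 : ∫ y in (0 : ℝ)..1, G y
        = (w : ℝ)⁻¹ * ∑ ρ ∈ Finset.range w, ∫ y in (0 : ℝ)..1, Real.exp (A ρ y) := by
      rw [hG, intervalIntegral.integral_const_mul, intervalIntegral.integral_finsetSum]
      intro ρ _
      exact Dig.intInt hp1 (hexpdig ρ)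
    rw [h1]
    have h2 : ∑ ρ ∈ Finset.range w, ∫ y in (0 : ℝ)..1, Real.exp (A ρ y)
        ≤ ∑ _ρ ∈ Finset.range w, (1 : ℝ) := Finset.sum_le_sum fun ρ _ => hclass ρ
    rw [Finset.sum_const, Finset.card_range, nsmul_eq_mul, mul_one] at h2
    calc (w : ℝ)⁻¹ * ∑ ρ ∈ Finset.range w, ∫ y in (0 : ℝ)..1, Real.exp (A ρ y)
        ≤ (w : ℝ)⁻¹ * w := mul_le_mul_of_nonneg_left h2 (by positivity)
      _ = 1 := inv_mul_cancel₀ hw0.ne'
  have hGpos : ∀ y, 0 ≤ G y := fun y =>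
    mul_nonneg (by positivity) (Finset.sum_nonneg fun ρ _ => (Real.exp_pos _).le)
  -- on the event, `G ≥ exp τ`
  have hev : ∀ y : ℝ, (w : ℝ) * τ / l + l * ∑ s ∈ I, v s * (ξ s y) ^ 2 ≤
        ∑ s ∈ I, ξ s y * f s (Int.fract ((p : ℝ) ^ s * y)) → Real.exp τ ≤ G y := by
    intro y hy
    have h1 : ∑ ρ ∈ Finset.range w, A ρ y
        = l * ∑ s ∈ I, ξ s y * f s (Int.fract ((p : ℝ) ^ s * y)) -
          l ^ 2 * ∑ s ∈ I, v s * (ξ s y) ^ 2 := by
      rw [hA]
      simp only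
      rw [Finset.sum_fiberwise_of_maps_to (fun s _ => Finset.mem_range.mpr (Nat.mod_lt s hw))
        (fun s => l * (ξ s y * f s (Int.fract ((p : ℝ) ^ s * y))) - l ^ 2 * (v s * (ξ s y) ^ 2)),
        Finset.sum_sub_distrib, ← Finset.mul_sum, ← Finset.mul_sum]
    have h2 : (w : ℝ) * τ ≤ ∑ ρ ∈ Finset.range w, A ρ y := by
      rw [h1]
      have h3 := mul_le_mul_of_nonneg_left hy hl.le
      have h4 : l * ((w : ℝ) * τ / l + l * ∑ s ∈ I, v s * (ξ s y) ^ 2)
          = (w : ℝ) * τ + l ^ 2 * ∑ s ∈ I, v s * (ξ s y) ^ 2 := by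
        field_simp
      rw [h4] at h3
      linarith
    have h3 : τ ≤ ∑ ρ ∈ Finset.range w, (w : ℝ)⁻¹ • A ρ y := by
      rw [← Finset.smul_sum, smul_eq_mul, inv_mul_eq_div, le_div_iff₀ hw0]
      linarith
    have h4 : Real.exp (∑ ρ ∈ Finset.range w, (w : ℝ)⁻¹ • A ρ y)
        ≤ ∑ ρ ∈ Finset.range w, (w : ℝ)⁻¹ • Real.exp (A ρ y) := by
      refine convexOn_exp.map_sum_le (fun i _ => by positivity) ?_ (fun i _ => Set.mem_univ _)
      rw [Finset.sum_const, Finset.card_range, nsmul_eq_mul, mul_inv_cancel₀ hw0.ne']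
    calc Real.exp τ ≤ Real.exp (∑ ρ ∈ Finset.range w, (w : ℝ)⁻¹ • A ρ y) := Real.exp_le_exp.mpr h3
      _ ≤ _ := h4
      _ = G y := by
          rw [hG]
          simp only [smul_eq_mul]
          rw [Finset.mul_sum]
  -- Markov
  have hmono : {y : ℝ | y ∈ Set.Icc (0 : ℝ) 1 ∧
      (w : ℝ) * τ / l + l * ∑ s ∈ I, v s * (ξ s y) ^ 2 ≤
        ∑ s ∈ I, ξ s y * f s (Int.fract ((p : ℝ) ^ s * y))} ⊆
      {y : ℝ | Real.exp τ ≤ G y} ∩ Set.Icc 0 1 := fun y hy => ⟨hev y hy.2, hy.1⟩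
  have hGmeas : MeasurableSet {y : ℝ | Real.exp τ ≤ G y} :=
    measurableSet_le measurable_const (hGdig.measurable hp1)
  have hGI : Integrable G (volume.restrict (Set.Icc (0 : ℝ) 1)) := by
    have := Dig.intInt hp1 hGdig
    rw [intervalIntegrable_iff_integrableOn_Icc_of_le zero_le_one] at this
    exact this
  have hmk := mul_meas_ge_le_integral_of_nonneg (μ := volume.restrict (Set.Icc (0 : ℝ) 1))
    (f := G) (Filter.Eventually.of_forall hGpos) hGI (Real.exp τ)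
  have hle1 : ∫ y in Set.Icc (0 : ℝ) 1, G y ≤ 1 := by
    rw [integral_Icc_eq_integral_Ioc, ← intervalIntegral.integral_of_le zero_le_one]
    exact hGint
  have hreal : (volume.restrict (Set.Icc (0 : ℝ) 1)).real {y : ℝ | Real.exp τ ≤ G y}
      ≤ Real.exp (-τ) := by
    have h1 := hmk.trans hle1
    rw [Real.exp_neg, ← one_div, le_div_iff₀ (Real.exp_pos τ)]
    linarith [mul_comm (Real.exp τ)
      ((volume.restrict (Set.Icc (0 : ℝ) 1)).real {y : ℝ | Real.exp τ ≤ G y})]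
  refine (measure_mono hmono).trans ?_
  rw [← Measure.restrict_apply hGmeas]
  rw [← ofReal_measureReal (measure_ne_top _ _)]
  exact ENNReal.ofReal_le_ofReal hreal

end

end Pool.Agent.SRG
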