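import Pool.Agent.SRG.Facts
import Pool.Agent.SRG.Dig

/-!
Module M4a: exactness of the truncation and the strong law for the return times.
-/

open MeasureTheory Filter Topology

namespace Pool.Agent.SRG

noncomputable section

namespace TruncAux

/-- Borel-Cantelli in the form used here -/
theorem bc {B : ℕ → Set ℝ} {b : ℕ → ℝ}
    (hb : ∀ᶠ N in atTop, volume (B N ∩ Set.Icc (0 : ℝ) 1) ≤ ENNReal.ofReal (b N))
    (hs : Summable b) :
    ∀ᵐ y ∂(volume.restrict (Set.Icc (0 : ℝ) 1)), ∀ᶠ N in atTop, y ∉ B N := by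
  obtain ⟨N₁, hN₁⟩ := eventually_atTop.1 hb
  have hs' : Summable fun N => b (N + N₁) := (summable_nat_add_iff N₁).2 hs
  have h1 : ∑' N, (volume.restrict (Set.Icc (0 : ℝ) 1)) (B (N + N₁)) ≠ ⊤ := by
    refine ne_top_of_le_ne_top hs'.tsum_ofReal_ne_top (ENNReal.tsum_le_tsum fun N => ?_)
    rw [Measure.restrict_apply' measurableSet_Icc]
    exact hN₁ _ (by omega)
  have h2 := ae_eventually_notMem h1
  filter_upwards [h2] with y hy
  obtain ⟨N₂, hN₂⟩ := eventually_atTop.1 hy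
  refine eventually_atTop.2 ⟨N₂ + N₁, fun N hN => ?_⟩
  have := hN₂ (N - N₁) (by omega)
  rwa [Nat.sub_add_cancel (by omega)] at this

theorem summable_inv_sq (C : ℝ) : Summable fun N : ℕ => C * ((N : ℝ) ^ 2)⁻¹ :=
  (Real.summable_nat_pow_inv.2 (by norm_num)).mul_left C

/-- the bad set for one index -/
theorem vol_ne {a : ℝ} (ha : 0 < a) {p : ℕ} (hp : 2 ≤ p) {N n : ℕ} (hn : 1 ≤ n) :
    volume ({y : ℝ | Xt a p N y n ≠ ind a p y n} ∩ Set.Icc (0 : ℝ) 1) ≤
      ENNReal.ofReal (((p : ℝ) ^ (hN N))⁻¹) := by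
  have hle : (n : ℝ) ^ (-a) ≤ 1 := rpow_neg_le_one ha n
  set E : Set ℝ := {0} ∪ Set.Ico (thr a p N n) ((n : ℝ) ^ (-a)) with hE
  have hEm : MeasurableSet E := (measurableSet_singleton _).union measurableSet_Ico
  have hE1 : E ⊆ Set.Ico 0 1 := by
    rintro z (hz | hz)
    · rw [Set.mem_singleton_iff] at hz
      subst hz
      exact ⟨le_rfl, zero_lt_one⟩
    · exact ⟨(thr_nonneg a hp N n).trans hz.1, hz.2.trans_le hle⟩
  have hsub : ({y : ℝ | Xt a p N y n ≠ ind a p y n} ∩ Set.Icc (0 : ℝ) 1) ⊆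
      {y : ℝ | y ∈ Set.Icc (0 : ℝ) 1 ∧ Int.fract ((p : ℝ) ^ n * y) ∈ E} := by
    rintro y ⟨hy, hy1⟩
    refine ⟨hy1, ?_⟩
    by_contra hcon
    apply hy
    have h0 : Int.fract ((p : ℝ) ^ n * y) ≠ 0 := fun h => hcon (Or.inl h)
    have hpos : 0 < Int.fract ((p : ℝ) ^ n * y) := lt_of_le_of_ne (Int.fract_nonneg _) h0.symm
    have h2 : ¬ (thr a p N n ≤ Int.fract ((p : ℝ) ^ n * y) ∧
        Int.fract ((p : ℝ) ^ n * y) < (n : ℝ) ^ (-a)) := fun h => hcon (Or.inr h)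
    unfold Xt ind
    by_cases h3 : Int.fract ((p : ℝ) ^ n * y) < thr a p N n
    · have h4 : n ∈ returnSet a p y := ⟨hn, hpos, h3.trans_le (thr_le a hp N n)⟩
      rw [if_pos h3, if_pos h4]
    · have h4 : n ∉ returnSet a p y := by
        rintro ⟨_, _, h5⟩
        exact h2 ⟨not_lt.1 h3, h5⟩
      rw [if_neg h3, if_neg h4]
  calc volume ({y : ℝ | Xt a p N y n ≠ ind a p y n} ∩ Set.Icc (0 : ℝ) 1)
      ≤ volume {y : ℝ | y ∈ Set.Icc (0 : ℝ) 1 ∧ Int.fract ((p : ℝ) ^ n * y) ∈ E} :=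
        measure_mono hsub
    _ = volume E := volume_fract (by omega) n hEm hE1
    _ ≤ volume ({0} : Set ℝ) + volume (Set.Ico (thr a p N n) ((n : ℝ) ^ (-a))) :=
        measure_union_le _ _
    _ = ENNReal.ofReal ((n : ℝ) ^ (-a) - thr a p N n) := by
        rw [Real.volume_singleton, Real.volume_Ico, zero_add]
    _ ≤ _ := by
        apply ENNReal.ofReal_le_ofReal
        have := lt_thr_add a hp N n
        linarith

theorem exp_summ {δ : ℝ} (hδ : 0 < δ) :
    ∀ᶠ N : ℕ in atTop, Real.exp (-(N : ℝ) ^ δ) ≤ ((N : ℝ) ^ 2)⁻¹ := by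
  have h1 : Tendsto (fun x : ℝ => x ^ (2 / δ) * Real.exp (-1 * x)) atTop (𝓝 0) :=
    tendsto_rpow_mul_exp_neg_mul_atTop_nhds_zero _ _ one_pos
  have h2 : Tendsto (fun N : ℕ => (N : ℝ) ^ δ) atTop atTop :=
    (tendsto_rpow_atTop hδ).comp tendsto_natCast_atTop_atTop
  have h3 := h1.comp h2
  filter_upwards [h3.eventually (gt_mem_nhds zero_lt_one), eventually_gt_atTop 0] with N hN hN0
  have hN' : (0 : ℝ) < N := by exact_mod_cast hN0
  simp only [Function.comp] at hN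
  rw [← Real.rpow_mul hN'.le, mul_div_cancel₀ _ hδ.ne', neg_one_mul,
    show (2 : ℝ) = ((2 : ℕ) : ℝ) by norm_num, Real.rpow_natCast] at hN
  rw [← one_div, le_div_iff₀ (by positivity), mul_comm]
  exact hN.le

/-- `hN N ≤ N ^ δ` eventually -/
theorem hN_le {δ : ℝ} (hδ : 0 < δ) : ∀ᶠ N : ℕ in atTop, (hN N : ℝ) ≤ (N : ℝ) ^ δ := by
  have h1 : (fun x : ℝ => Real.log x) =o[atTop] fun x : ℝ => x ^ δ := isLittleO_log_rpow_atTop hδ
  have h2 := h1.bound (show (0 : ℝ) < Real.log 2 / 12 by positivity)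
  have h3 : ∀ᶠ x : ℝ in atTop, (6 : ℝ) ≤ x ^ δ := (tendsto_rpow_atTop hδ).eventually_ge_atTop 6
  have h4 := tendsto_natCast_atTop_atTop (R := ℝ) |>.eventually (h2.and h3)
  filter_upwards [h4, eventually_gt_atTop 0] with N hN hN0
  obtain ⟨ha, hb⟩ := hN
  have hN' : (1 : ℝ) ≤ N := by exact_mod_cast hN0
  rw [Real.norm_of_nonneg (Real.log_nonneg hN'), Real.norm_of_nonneg (by positivity)] at ha
  have hlog : (Nat.log 2 N : ℝ) * Real.log 2 ≤ Real.log N := by
    rw [← Real.log_pow]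
    apply Real.log_le_log (by positivity)
    exact_mod_cast Nat.pow_log_le_self 2 (by omega)
  have hl2 : 0 < Real.log 2 := Real.log_pos (by norm_num)
  have h5 : (Nat.log 2 N : ℝ) ≤ (N : ℝ) ^ δ / 12 := by
    have h6 : (Nat.log 2 N : ℝ) * Real.log 2 ≤ (N : ℝ) ^ δ / 12 * Real.log 2 := by
      calc _ ≤ _ := hlog
        _ ≤ _ := ha
        _ = _ := by ring
    exact le_of_mul_le_mul_right h6 hl2
  unfold hN
  push_cast
  linarith

/-- integral of a two-valued function -/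
theorem integral_ite_lt {t : ℝ} (ht0 : 0 ≤ t) (ht1 : t ≤ 1) (A B : ℝ) :
    ∫ z in (0 : ℝ)..1, (if z < t then A else B) = A * t + B * (1 - t) := by
  have h1 : ∀ z : ℝ, (if z < t then A else B) =
      B + (Set.Iio t).indicator (fun _ => A - B) z := by
    intro z
    by_cases hz : z < t
    · rw [if_pos hz, Set.indicator_of_mem (Set.mem_Iio.2 hz)]
      ring
    · rw [if_neg hz, Set.indicator_of_notMem (by simpa using hz)]
      ring
  simp_rw [h1]
  rw [intervalIntegral.integral_of_le zero_le_one, integral_add (by simp)]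
  · rw [integral_indicator_const _ measurableSet_Iio, measureReal_restrict_apply measurableSet_Iio]
    have h2 : Set.Iio t ∩ Set.Ioc (0 : ℝ) 1 = Set.Ioo 0 t := by
      ext z
      simp only [Set.mem_inter_iff, Set.mem_Iio, Set.mem_Ioc, Set.mem_Ioo]
      constructor
      · rintro ⟨h1, h2, h3⟩
        exact ⟨h2, h1⟩
      · rintro ⟨h1, h2⟩
        exact ⟨h2, h1, by linarith⟩
    rw [h2, Real.volume_real_Ioo_of_le ht0]
    simp
    ring
  · exact (integrable_const _).indicator measurableSet_Iio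

end TruncAux

open TruncAux

/-- M4a -/
theorem ae_trunc {a : ℝ} (ha : 0 < a) {p : ℕ} (hp : 2 ≤ p) :
    ∀ᵐ y ∂(volume.restrict (Set.Icc (0 : ℝ) 1)), ∀ᶠ N : ℕ in atTop, ∀ n : ℕ, 1 ≤ n → n ≤ 2 * N →
      Xt a p N y n = ind a p y n := by
  have h := bc (B := fun N => {y : ℝ | ∃ n, 1 ≤ n ∧ n ≤ 2 * N ∧ Xt a p N y n ≠ ind a p y n})
    (b := fun N => 2 * ((N : ℝ) ^ 2)⁻¹) ?_ (summable_inv_sq 2)
  · filter_upwards [h] with y hy
    filter_upwards [hy] with N hN n hn1 hn2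
    by_contra hcon
    exact hN ⟨n, hn1, hn2, hcon⟩
  · filter_upwards [eventually_gt_atTop 0] with N hN0
    have hN' : (0 : ℝ) < N := by exact_mod_cast hN0
    have hsub : ({y : ℝ | ∃ n, 1 ≤ n ∧ n ≤ 2 * N ∧ Xt a p N y n ≠ ind a p y n} ∩
        Set.Icc (0 : ℝ) 1) ⊆ ⋃ n ∈ Finset.Icc 1 (2 * N),
        ({y : ℝ | Xt a p N y n ≠ ind a p y n} ∩ Set.Icc (0 : ℝ) 1) := by
      rintro y ⟨⟨n, hn1, hn2, hne⟩, hy⟩
      simp only [Set.mem_iUnion]
      exact ⟨n, Finset.mem_Icc.2 ⟨hn1, hn2⟩, hne, hy⟩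
    calc volume _ ≤ volume (⋃ n ∈ Finset.Icc 1 (2 * N),
        ({y : ℝ | Xt a p N y n ≠ ind a p y n} ∩ Set.Icc (0 : ℝ) 1)) := measure_mono hsub
      _ ≤ ∑ n ∈ Finset.Icc 1 (2 * N),
          volume ({y : ℝ | Xt a p N y n ≠ ind a p y n} ∩ Set.Icc (0 : ℝ) 1) :=
          measure_biUnion_finset_le _ _
      _ ≤ ∑ n ∈ Finset.Icc 1 (2 * N), ENNReal.ofReal (((p : ℝ) ^ (hN N))⁻¹) :=
          Finset.sum_le_sum fun n hn => vol_ne ha hp (Finset.mem_Icc.1 hn).1
      _ = ENNReal.ofReal ((2 * N : ℕ) * ((p : ℝ) ^ (hN N))⁻¹) := by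
          rw [Finset.sum_const, Nat.card_Icc, Nat.add_sub_cancel, nsmul_eq_mul,
            ENNReal.ofReal_mul (by positivity), ENNReal.ofReal_natCast]
      _ ≤ ENNReal.ofReal (2 * ((N : ℝ) ^ 2)⁻¹) := by
          apply ENNReal.ofReal_le_ofReal
          have h1 := cube_le_pow_hN hp N
          have h2 : ((p : ℝ) ^ (hN N))⁻¹ ≤ ((N : ℝ) ^ 3)⁻¹ := inv_anti₀ (by positivity) h1
          calc ((2 * N : ℕ) : ℝ) * ((p : ℝ) ^ (hN N))⁻¹ ≤ ((2 * N : ℕ) : ℝ) * ((N : ℝ) ^ 3)⁻¹ :=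
                mul_le_mul_of_nonneg_left h2 (by positivity)
            _ = 2 * ((N : ℝ) ^ 2)⁻¹ := by
                push_cast
                field_simp

/-- M4a -/
theorem ae_slln {a δ : ℝ} (ha : 0 < a) (ha2 : a < 1 / 2) (hδ : 0 < δ) (hδ1 : 8 * δ ≤ 1 / 2 - a)
    (hδ2 : 4 * δ ≤ a) {p : ℕ} (hp : 2 ≤ p) :
    ∀ᵐ y ∂(volume.restrict (Set.Icc (0 : ℝ) 1)), ∀ᶠ N : ℕ in atTop,
      |(cnt a p y N : ℝ) - W a N| ≤ (N : ℝ) ^ (1 - a - δ) := by
  classical
  -- the deviation for the truncated count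
  set T : ℕ → ℝ := fun N => (hN N : ℝ) * (N : ℝ) ^ δ / (N : ℝ) ^ (-(2 * δ)) +
    (N : ℝ) ^ (-(2 * δ)) * ∑ s ∈ Finset.Icc 1 N, thr a p N s * 1 ^ 2 with hT
  have key : ∀ σ : ℝ, (σ = 1 ∨ σ = -1) →
      ∀ᵐ y ∂(volume.restrict (Set.Icc (0 : ℝ) 1)), ∀ᶠ N : ℕ in atTop,
        σ * ((St a p N y N : ℝ) - ∑ s ∈ Finset.Icc 1 N, thr a p N s) < T N := by
    intro σ hσ
    have hσ2 : σ ^ 2 = 1 := by rcases hσ with h | h <;> rw [h] <;> norm_num
    have hσabs : |σ| = 1 := by rcases hσ with h | h <;> rw [h] <;> norm_num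
    have h := bc (B := fun N => {y : ℝ |
        T N ≤ σ * ((St a p N y N : ℝ) - ∑ s ∈ Finset.Icc 1 N, thr a p N s)})
      (b := fun N => 1 * ((N : ℝ) ^ 2)⁻¹) ?_ (summable_inv_sq 1)
    · filter_upwards [h] with y hy
      filter_upwards [hy] with N hN
      exact not_le.1 hN
    · filter_upwards [exp_summ hδ, eventually_gt_atTop 0] with N hexp hN0
      have hN' : (1 : ℝ) ≤ N := by exact_mod_cast hN0
      set f : ℕ → ℝ → ℝ := fun s z =>
        σ * (if z < thr a p N s then 1 - thr a p N s else - thr a p N s) with hf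
      have hl0 : 0 < (N : ℝ) ^ (-(2 * δ)) := Real.rpow_pos_of_pos (by linarith) _
      have hl1 : (N : ℝ) ^ (-(2 * δ)) ≤ 1 :=
        Real.rpow_le_one_of_one_le_of_nonpos hN' (by linarith)
      have hthr0 : ∀ s, 0 ≤ thr a p N s := thr_nonneg a hp N
      have hthr1 : ∀ s, thr a p N s ≤ 1 := thr_le_one ha hp N
      have hdig : ∀ s, DigM p (hN N) (f s) := by
        intro s
        have h1 := DigM.lt_thr (w := hN N) (by omega : 1 ≤ p)
          ⌊(p : ℝ) ^ (hN N) * (s : ℝ) ^ (-a)⌋ (1 - thr a p N s) (- thr a p N s)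
        intro y z hyz
        have h2 := h1 y z hyz
        simp only [hf]
        congr 1
      have htail := exp_tail hp (w := hN N) (by unfold hN; omega) (Finset.Icc 1 N)
        (fun _ _ => (1 : ℝ)) f (fun s => thr a p N s) (l := (N : ℝ) ^ (-(2 * δ)))
        (τ := (N : ℝ) ^ δ) hl0 hl1 (fun s _ y z _ => rfl) (fun s _ y => by norm_num)
        (fun s _ => by
          apply Measurable.const_mul
          exact Measurable.ite measurableSet_Iio measurable_const measurable_const)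
        (fun s _ z => by
          simp only [hf]
          rw [abs_mul, hσabs, one_mul]
          split_ifs
          · rw [abs_le]; constructor <;> linarith [hthr0 s, hthr1 s]
          · rw [abs_neg, abs_of_nonneg (hthr0 s)]; exact hthr1 s)
        (fun s _ => by
          simp only [hf]
          rw [intervalIntegral.integral_const_mul, integral_ite_lt (hthr0 s) (hthr1 s)]
          ring)
        (fun s _ => by
          have h1 : ∀ z : ℝ, (f s z) ^ 2 = if z < thr a p N s then (1 - thr a p N s) ^ 2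
              else (thr a p N s) ^ 2 := by
            intro z
            simp only [hf]
            rw [mul_pow, hσ2, one_mul]
            split_ifs <;> ring
          simp_rw [h1]
          rw [integral_ite_lt (hthr0 s) (hthr1 s)]
          nlinarith [hthr0 s, hthr1 s, mul_nonneg (hthr0 s) (hthr0 s)])
        (fun s _ => DigM.comp_fract (by omega) (hdig s) s)
      have hsub : ({y : ℝ | T N ≤ σ * ((St a p N y N : ℝ) - ∑ s ∈ Finset.Icc 1 N, thr a p N s)} ∩
          Set.Icc (0 : ℝ) 1) ⊆ {y : ℝ | y ∈ Set.Icc (0 : ℝ) 1 ∧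
          (hN N : ℝ) * (N : ℝ) ^ δ / (N : ℝ) ^ (-(2 * δ)) + (N : ℝ) ^ (-(2 * δ)) *
            ∑ s ∈ Finset.Icc 1 N, thr a p N s * (1 : ℝ) ^ 2 ≤
            ∑ s ∈ Finset.Icc 1 N, 1 * f s (Int.fract ((p : ℝ) ^ s * y))} := by
        rintro y ⟨hy, hy1⟩
        refine ⟨hy1, ?_⟩
        have h1 : ∑ s ∈ Finset.Icc 1 N, 1 * f s (Int.fract ((p : ℝ) ^ s * y)) =
            σ * ((St a p N y N : ℝ) - ∑ s ∈ Finset.Icc 1 N, thr a p N s) := by
          unfold St
          rw [Nat.cast_sum, ← Finset.sum_sub_distrib, Finset.mul_sum]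
          refine Finset.sum_congr rfl fun s _ => ?_
          simp only [hf, one_mul]
          congr 1
          unfold Xt
          split_ifs <;> simp
        rw [h1]
        exact hy
      refine (measure_mono hsub).trans (htail.trans (ENNReal.ofReal_le_ofReal ?_))
      rw [one_mul]
      exact hexp
  have hTle : ∀ᶠ N : ℕ in atTop, T N + 1 ≤ (N : ℝ) ^ (1 - a - δ) := by
    have h1 : Tendsto (fun N : ℕ => (N : ℝ) ^ δ) atTop atTop :=
      (tendsto_rpow_atTop hδ).comp tendsto_natCast_atTop_atTop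
    filter_upwards [hN_le hδ, h1.eventually_ge_atTop 4, eventually_gt_atTop 0] with N hh h4 hN0
    have hN' : (1 : ℝ) ≤ N := by exact_mod_cast hN0
    have hN'' : (0 : ℝ) < N := by linarith
    have hsum : ∑ s ∈ Finset.Icc 1 N, thr a p N s * (1 : ℝ) ^ 2 ≤ 2 * (N : ℝ) ^ (1 - a) := by
      refine le_trans ?_ (W_le_two ha ha2 N)
      unfold W
      refine Finset.sum_le_sum fun s _ => ?_
      rw [one_pow, mul_one]
      exact thr_le a hp N s
    have hA : (hN N : ℝ) * (N : ℝ) ^ δ / (N : ℝ) ^ (-(2 * δ)) ≤ (N : ℝ) ^ (4 * δ) := by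
      rw [Real.rpow_neg hN''.le, div_inv_eq_mul]
      calc (hN N : ℝ) * (N : ℝ) ^ δ * (N : ℝ) ^ (2 * δ) ≤
            (N : ℝ) ^ δ * (N : ℝ) ^ δ * (N : ℝ) ^ (2 * δ) := by
            gcongr
        _ = (N : ℝ) ^ (4 * δ) := by
            rw [← Real.rpow_add hN'', ← Real.rpow_add hN'']
            congr 1
            ring
    have hB : (N : ℝ) ^ (-(2 * δ)) * ∑ s ∈ Finset.Icc 1 N, thr a p N s * (1 : ℝ) ^ 2 ≤
        2 * (N : ℝ) ^ (1 - a - 2 * δ) := by
      calc _ ≤ (N : ℝ) ^ (-(2 * δ)) * (2 * (N : ℝ) ^ (1 - a)) := by gcongr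
        _ = 2 * ((N : ℝ) ^ (-(2 * δ)) * (N : ℝ) ^ (1 - a)) := by ring
        _ = _ := by
            rw [← Real.rpow_add hN'']
            congr 2
            ring
    have hC : 4 * (N : ℝ) ^ (1 - a - 2 * δ) ≤ (N : ℝ) ^ (1 - a - δ) := by
      calc 4 * (N : ℝ) ^ (1 - a - 2 * δ) ≤ (N : ℝ) ^ δ * (N : ℝ) ^ (1 - a - 2 * δ) := by gcongr
        _ = _ := by
            rw [← Real.rpow_add hN'']
            congr 1
            ring
    have hD : (N : ℝ) ^ (4 * δ) ≤ (N : ℝ) ^ (1 - a - 2 * δ) :=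
      Real.rpow_le_rpow_of_exponent_le hN' (by linarith)
    have hE : (1 : ℝ) ≤ (N : ℝ) ^ (1 - a - 2 * δ) := Real.one_le_rpow hN' (by linarith)
    have hF := add_le_add (hA.trans hD) hB
    show (hN N : ℝ) * (N : ℝ) ^ δ / (N : ℝ) ^ (-(2 * δ)) +
      (N : ℝ) ^ (-(2 * δ)) * ∑ s ∈ Finset.Icc 1 N, thr a p N s * (1 : ℝ) ^ 2 + 1 ≤ _
    linarith
  filter_upwards [key 1 (Or.inl rfl), key (-1) (Or.inr rfl), ae_trunc ha hp] with y h1 h2 h3
  filter_upwards [h1, h2, h3, hTle, eventually_gt_atTop 0] with N g1 g2 g3 g4 hN0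
  have hN' : (1 : ℝ) ≤ N := by exact_mod_cast hN0
  have hcnt := St_eq_cnt g3 (n := N) (by omega)
  have hW : |∑ s ∈ Finset.Icc 1 N, thr a p N s - W a N| ≤ 1 := by
    unfold W
    rw [← Finset.sum_sub_distrib]
    calc |∑ s ∈ Finset.Icc 1 N, (thr a p N s - (s : ℝ) ^ (-a))| ≤
          ∑ s ∈ Finset.Icc 1 N, |thr a p N s - (s : ℝ) ^ (-a)| := Finset.abs_sum_le_sum_abs _ _
      _ ≤ ∑ s ∈ Finset.Icc 1 N, ((N : ℝ) ^ 3)⁻¹ := by
          refine Finset.sum_le_sum fun s _ => ?_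
          have h1 := lt_thr_add a hp N s
          have h2 := thr_le a hp N s
          have h3 : ((p : ℝ) ^ (hN N))⁻¹ ≤ ((N : ℝ) ^ 3)⁻¹ :=
            inv_anti₀ (by positivity) (cube_le_pow_hN hp N)
          rw [abs_le]
          constructor <;> linarith [inv_nonneg.2 (pow_nonneg (zero_le_one.trans hN') 3)]
      _ = N * ((N : ℝ) ^ 3)⁻¹ := by simp
      _ ≤ 1 := by
          rw [← div_eq_mul_inv, div_le_one (by positivity)]
          nlinarith [mul_nonneg (zero_le_one.trans hN') (zero_le_one.trans hN')]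
  rw [← hcnt]
  rw [abs_le] at hW ⊢
  constructor
  · linarith [hW.1]
  · linarith [hW.2]

end

end Pool.Agent.SRG
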