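import Pool.Agent.SRG.Base
import Pool.Agent.SRG.Dig
import Pool.Agent.SRG.Trunc

/-!
Approximation of the sum over the return times by sums of functions of the digits.
-/

open MeasureTheory Filter Topology

namespace Pool.Agent.SRG

namespace Appr

section thr

variable {a : ℝ} {p : ℕ}

theorem thr_nonneg (N n : ℕ) : 0 ≤ thr a p N n := by
  unfold thr
  have : (0 : ℝ) ≤ (⌊(p : ℝ) ^ (hN N) * (n : ℝ) ^ (-a)⌋ : ℝ) := by
    exact_mod_cast Int.floor_nonneg.2 (by positivity)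
  positivity

theorem thr_le (hp : 2 ≤ p) (N n : ℕ) : thr a p N n ≤ (n : ℝ) ^ (-a) := by
  unfold thr
  have hp0 : (0 : ℝ) < (p : ℝ) ^ (hN N) := by positivity
  rw [div_le_iff₀ hp0, mul_comm]
  exact Int.floor_le _

theorem rpow_le_one' (ha : 0 < a) {n : ℕ} (hn : 1 ≤ n) : (n : ℝ) ^ (-a) ≤ 1 :=
  Real.rpow_le_one_of_one_le_of_nonpos (by exact_mod_cast hn) (by linarith)

theorem thr_le_one (ha : 0 < a) (hp : 2 ≤ p) (N : ℕ) {n : ℕ} (hn : 1 ≤ n) : thr a p N n ≤ 1 :=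
  (thr_le hp N n).trans (rpow_le_one' ha hn)

theorem thr_anti (ha : 0 < a) (N : ℕ) {m n : ℕ} (hm : 1 ≤ m) (hmn : m ≤ n) :
    thr a p N n ≤ thr a p N m := by
  unfold thr
  apply div_le_div_of_nonneg_right _ (by positivity)
  have h1 : (n : ℝ) ^ (-a) ≤ (m : ℝ) ^ (-a) := by
    apply Real.rpow_le_rpow_of_nonpos
    · exact_mod_cast hm
    · exact_mod_cast hmn
    · linarith
  exact_mod_cast Int.floor_le_floor (mul_le_mul_of_nonneg_left h1 (by positivity))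

end thr

section pointwise

variable {a : ℝ} {p : ℕ}

theorem fract_succ (s : ℕ) (y : ℝ) :
    Int.fract ((p : ℝ) ^ (s + 1) * y) = Int.fract ((p : ℝ) * Int.fract ((p : ℝ) ^ s * y)) := by
  have : (p : ℝ) ^ (s + 1) * y = (p : ℝ) * Int.fract ((p : ℝ) ^ s * y) +
      (((p : ℤ) * ⌊(p : ℝ) ^ s * y⌋ : ℤ) : ℝ) := by
    rw [Int.fract]
    push_cast
    ring
  rw [this, Int.fract_add_intCast]

theorem step_iff (hp : 2 ≤ p) {z θ : ℝ} (hz : 0 ≤ z) (hθ1 : θ ≤ 1) :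
    z < θ / p ↔ z < 1 / (p : ℝ) ∧ Int.fract ((p : ℝ) * z) < θ := by
  have hp0 : (0 : ℝ) < p := by positivity
  constructor
  · intro h
    have h1 : z < 1 / (p : ℝ) := lt_of_lt_of_le h (div_le_div_of_nonneg_right hθ1 hp0.le)
    refine ⟨h1, ?_⟩
    rw [lt_div_iff₀ hp0, mul_comm] at h h1
    rw [Int.fract_eq_self.2 ⟨by positivity, h1⟩]
    exact h
  · rintro ⟨h1, h2⟩
    rw [lt_div_iff₀ hp0, mul_comm] at h1
    rw [Int.fract_eq_self.2 ⟨by positivity, h1⟩] at h2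
    rw [lt_div_iff₀ hp0, mul_comm]
    exact h2

open Classical in
/-- indicator of `fract (p^(j-i) y) < thr_j / p^i` -/
noncomputable def ee (a : ℝ) (p N : ℕ) (y : ℝ) (j i : ℕ) : ℝ :=
  if Int.fract ((p : ℝ) ^ (j - i) * y) < thr a p N j / (p : ℝ) ^ i then 1 else 0

theorem ee_step (ha : 0 < a) (hp : 2 ≤ p) (N : ℕ) (y : ℝ) {j c : ℕ} (hc : 1 ≤ c) (hcj : c ≤ j) :
    ee a p N y j (c - 1) =
      Xc a p N c (j - c) (Int.fract ((p : ℝ) ^ (j - c) * y)) + ee a p N y j c := by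
  have hp0 : (0 : ℝ) < p := by positivity
  have hp1 : (1 : ℝ) ≤ p := by exact_mod_cast (by omega : 1 ≤ p)
  set z : ℝ := Int.fract ((p : ℝ) ^ (j - c) * y) with hz
  set θ : ℝ := thr a p N j / (p : ℝ) ^ (c - 1) with hθ
  have hθ1 : θ ≤ 1 := by
    rw [hθ]
    apply div_le_one_of_le₀ _ (by positivity)
    exact (thr_le_one ha hp N (hc.trans hcj)).trans (one_le_pow₀ hp1)
  have e1 : Int.fract ((p : ℝ) ^ (j - (c - 1)) * y) = Int.fract ((p : ℝ) * z) := by
    rw [hz, ← fract_succ]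
    congr 3
    omega
  have e2 : thr a p N j / (p : ℝ) ^ c = θ / p := by
    rw [hθ, div_div, ← pow_succ]
    congr 2
    omega
  have e3 : j - c + c = j := by omega
  have hstep := step_iff hp (Int.fract_nonneg ((p : ℝ) ^ (j - c) * y)) hθ1
  rw [← hz] at hstep
  unfold ee Xc
  rw [e1, e2, e3, ← hθ]
  rw [← hz]
  by_cases h1 : Int.fract ((p : ℝ) * z) < θ
  · by_cases h2 : 1 / (p : ℝ) ≤ z
    · rw [if_pos h1, if_pos ⟨h2, h1⟩, if_neg]
      · norm_num
      · rw [hstep]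
        intro h
        linarith [h.1]
    · rw [not_le] at h2
      rw [if_pos h1, if_neg (fun h => absurd h.1 (not_le.2 h2)), if_pos (hstep.2 ⟨h2, h1⟩)]
      norm_num
  · rw [if_neg h1, if_neg (fun h => h1 h.2), if_neg (fun h => h1 (hstep.1 h).2)]
    norm_num

theorem ee_nonneg (N : ℕ) (y : ℝ) (j i : ℕ) : 0 ≤ ee a p N y j i := by
  unfold ee
  split_ifs <;> norm_num

theorem Xc_cases (N c s : ℕ) (z : ℝ) : Xc a p N c s z = 0 ∨ Xc a p N c s z = 1 := by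
  unfold Xc
  split_ifs
  · exact Or.inr rfl
  · exact Or.inl rfl

theorem Xc_nonneg (N c s : ℕ) (z : ℝ) : 0 ≤ Xc a p N c s z := by
  rcases Xc_cases (a := a) (p := p) N c s z with h | h <;> rw [h]; norm_num

theorem Xc_le_one (N c s : ℕ) (z : ℝ) : Xc a p N c s z ≤ 1 := by
  rcases Xc_cases (a := a) (p := p) N c s z with h | h <;> rw [h]; norm_num

theorem Xt_eq (N : ℕ) (y : ℝ) (j : ℕ) : (Xt a p N y j : ℝ) = ee a p N y j 0 := by
  unfold Xt ee
  rw [pow_zero, div_one, Nat.sub_zero]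
  split_ifs <;> norm_num

/-- the exact identity -/
theorem identity (ha : 0 < a) (hp : 2 ≤ p) (N : ℕ) (y : ℝ) {j C : ℕ} (hCj : C ≤ j) :
    (Xt a p N y j : ℝ) = ∑ c ∈ Finset.Icc 1 C,
      Xc a p N c (j - c) (Int.fract ((p : ℝ) ^ (j - c) * y)) + ee a p N y j C := by
  rw [Xt_eq]
  induction C with
  | zero => simp
  | succ C ih =>
    rw [ih (by omega), Finset.sum_Icc_succ_top (by omega)]
    have := ee_step ha hp N y (j := j) (c := C + 1) (by omega) hCj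
    rw [Nat.add_sub_cancel] at this
    rw [this]
    ring

theorem ee_one_of_le (ha : 0 < a) (hp : 2 ≤ p) (N : ℕ) (y : ℝ) {j i i' : ℕ} (hij : i ≤ j)
    (h : ee a p N y j i = 1) (hi : i' ≤ i) : ee a p N y j i' = 1 := by
  induction i with
  | zero =>
    have : i' = 0 := by omega
    rw [this]; exact h
  | succ i ih =>
    rcases Nat.lt_or_ge i' (i + 1) with h1 | h1
    · apply ih (by omega) _ (by omega)
      have := ee_step ha hp N y (j := j) (c := i + 1) (by omega) hij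
      rw [Nat.add_sub_cancel, h] at this
      have h2 := Xc_nonneg (a := a) (p := p) N (i + 1) (j - (i + 1))
        (Int.fract ((p : ℝ) ^ (j - (i + 1)) * y))
      have h3 : ee a p N y j i ≤ 1 := by
        unfold ee
        split_ifs <;> norm_num
      linarith
    · have : i' = i + 1 := by omega
      rw [this]; exact h

theorem Xt_run (ha : 0 < a) (hp : 2 ≤ p) (N : ℕ) (y : ℝ) {s c t : ℕ} (hc : 1 ≤ c)
    (h : Xc a p N c s (Int.fract ((p : ℝ) ^ s * y)) = 1) (ht1 : s < t) (ht2 : t ≤ s + c) :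
    Xt a p N y t = 1 := by
  have hp1 : (1 : ℝ) ≤ p := by exact_mod_cast (by omega : 1 ≤ p)
  have h1 := ee_step ha hp N y (j := s + c) (c := c) hc (by omega)
  rw [Nat.add_sub_cancel, h] at h1
  have h2 : ee a p N y (s + c) (c - 1) = 1 := by
    have h3 : ee a p N y (s + c) (c - 1) ≤ 1 := by
      unfold ee
      split_ifs <;> norm_num
    have := ee_nonneg (a := a) (p := p) N y (s + c) c
    linarith
  have h3 := ee_one_of_le ha hp N y (i' := s + c - t) (by omega) h2 (by omega)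
  have e : s + c - (s + c - t) = t := by omega
  unfold ee at h3
  rw [e] at h3
  have h4 : Int.fract ((p : ℝ) ^ t * y) < thr a p N (s + c) / (p : ℝ) ^ (s + c - t) := by
    by_contra h
    rw [if_neg h] at h3
    norm_num at h3
  have h5 : thr a p N (s + c) / (p : ℝ) ^ (s + c - t) ≤ thr a p N t := by
    refine (div_le_self (thr_nonneg N _) (one_le_pow₀ hp1)).trans ?_
    exact thr_anti ha N (by omega) ht2
  unfold Xt
  rw [if_pos (lt_of_lt_of_le h4 h5)]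

theorem St_run (ha : 0 < a) (hp : 2 ≤ p) (N : ℕ) (y : ℝ) {s c : ℕ} (hc : 1 ≤ c)
    (h : Xc a p N c s (Int.fract ((p : ℝ) ^ s * y)) = 1) : St a p N y (s + c) = St a p N y s + c := by
  have key : ∀ i ≤ c, St a p N y (s + i) = St a p N y s + i := by
    intro i
    induction i with
    | zero => intro _; rfl
    | succ i ih =>
      intro hi
      have h1 : St a p N y (s + (i + 1)) = St a p N y (s + i) + Xt a p N y (s + (i + 1)) := by
        unfold St
        rw [← add_assoc, Finset.sum_Icc_succ_top (by omega)]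
      rw [h1, ih (by omega), Xt_run ha hp N y hc h (by omega) (by omega)]
      ring
  exact key c le_rfl

theorem Xt_le_one (N : ℕ) (y : ℝ) (n : ℕ) : Xt a p N y n ≤ 1 := by
  unfold Xt
  split_ifs <;> norm_num

theorem exists_Xt (N : ℕ) (y : ℝ) {s : ℕ} (h : St a p N y s ≠ al a p N y s) :
    ∃ j, 1 ≤ j ∧ s < j + hN N ∧ j ≤ s ∧ Xt a p N y j = 1 := by
  by_contra hcon
  push Not at hcon
  apply h
  unfold al St
  symm
  apply Finset.sum_subset
  · apply Finset.Icc_subset_Icc_right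
    omega
  · intro j hj hj'
    rw [Finset.mem_Icc] at hj hj'
    have h1 := hcon j hj.1 (by omega) hj.2
    have h2 := Xt_le_one (a := a) (p := p) N y j
    omega

/-- if two consecutive runs are too close, the separation is at least `L` -/
theorem sep (hp : 2 ≤ p) {y : ℝ} {s j L : ℕ} (hjs : j ≤ s)
    (h1 : Int.fract ((p : ℝ) ^ j * y) < 1 / (p : ℝ) ^ L)
    (h2 : 1 / (p : ℝ) ≤ Int.fract ((p : ℝ) ^ s * y)) : L ≤ s - j := by
  by_contra hlt
  rw [not_le] at hlt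
  have hp0 : (0 : ℝ) < p := by positivity
  have hp1 : (1 : ℝ) ≤ p := by exact_mod_cast (by omega : 1 ≤ p)
  have key : ∀ d, d < L → Int.fract ((p : ℝ) ^ (j + d) * y) < 1 / (p : ℝ) ^ (L - d) := by
    intro d
    induction d with
    | zero => intro _; simpa using h1
    | succ d ih =>
      intro hd
      have h3 := ih (by omega)
      have e : (1 : ℝ) / (p : ℝ) ^ (L - d) = (1 / (p : ℝ) ^ (L - (d + 1))) / p := by
        rw [div_div, ← pow_succ]
        congr 2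
        omega
      rw [e] at h3
      have h4 : (1 : ℝ) / (p : ℝ) ^ (L - (d + 1)) ≤ 1 :=
        div_le_one_of_le₀ (one_le_pow₀ hp1) (by positivity)
      have h5 := ((step_iff hp (Int.fract_nonneg _) h4).1 h3).2
      rw [← add_assoc, fract_succ]
      exact h5
  have h3 := key (s - j) hlt
  have e : j + (s - j) = s := by omega
  rw [e] at h3
  have h4 : (1 : ℝ) / (p : ℝ) ^ (L - (s - j)) ≤ 1 / p := by
    apply one_div_le_one_div_of_le hp0
    calc (p : ℝ) = (p : ℝ) ^ 1 := (pow_one _).symm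
      _ ≤ _ := pow_le_pow_right₀ hp1 (by omega)
  linarith

open Classical in
/-- indicator of `z < θ` -/
noncomputable def lt1 (θ z : ℝ) : ℝ := if z < θ then 1 else 0

theorem lt1_nonneg (θ z : ℝ) : 0 ≤ lt1 θ z := by
  unfold lt1
  split_ifs <;> norm_num

theorem lt1_le_one (θ z : ℝ) : lt1 θ z ≤ 1 := by
  unfold lt1
  split_ifs <;> norm_num

/-- indicator of `m ≠ n` -/
def dI (m n : ℕ) : ℝ := if m = n then 0 else 1

theorem dI_nonneg (m n : ℕ) : 0 ≤ dI m n := by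
  unfold dI
  split_ifs <;> norm_num

theorem dI_of_ne {m n : ℕ} (h : m ≠ n) : dI m n = 1 := if_neg h

theorem dI_of_eq {m n : ℕ} (h : m = n) : dI m n = 0 := if_pos h

/-- close runs are controlled by independent events -/
theorem close_le (hp : 2 ≤ p) {N c s L n₀ : ℕ} {y : ℝ} (hs : n₀ ≤ s)
    (hL : ∀ j, n₀ < j + hN N → thr a p N j ≤ 1 / (p : ℝ) ^ L) :
    Xc a p N c s (Int.fract ((p : ℝ) ^ s * y)) * dI (St a p N y s) (al a p N y s) ≤
      ∑ d ∈ Finset.Ico L (hN N), lt1 (1 / (p : ℝ) ^ L) (Int.fract ((p : ℝ) ^ (s - d) * y)) *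
        Xc a p N c s (Int.fract ((p : ℝ) ^ s * y)) := by
  have hnn : ∀ d ∈ Finset.Ico L (hN N),
      0 ≤ lt1 (1 / (p : ℝ) ^ L) (Int.fract ((p : ℝ) ^ (s - d) * y)) *
        Xc a p N c s (Int.fract ((p : ℝ) ^ s * y)) := fun d _ =>
    mul_nonneg (lt1_nonneg _ _) (Xc_nonneg _ _ _ _)
  rcases Xc_cases (a := a) (p := p) N c s (Int.fract ((p : ℝ) ^ s * y)) with h | h
  · rw [h]; simp
  by_cases hne : St a p N y s ≠ al a p N y s
  swap
  · rw [dI_of_eq (not_not.1 hne), mul_zero]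
    exact Finset.sum_nonneg hnn
  rw [dI_of_ne hne, mul_one]
  obtain ⟨j, hj1, hj2, hj3, hj4⟩ := exists_Xt N y hne
  have hlt : Int.fract ((p : ℝ) ^ j * y) < 1 / (p : ℝ) ^ L := by
    have : Int.fract ((p : ℝ) ^ j * y) < thr a p N j := by
      unfold Xt at hj4
      by_contra hcon
      rw [if_neg hcon] at hj4
      omega
    exact this.trans_le (hL j (by omega))
  have hge : 1 / (p : ℝ) ≤ Int.fract ((p : ℝ) ^ s * y) := by
    unfold Xc at h
    by_contra hcon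
    rw [if_neg (fun h' => hcon h'.1)] at h
    norm_num at h
  have hsep := sep hp hj3 hlt hge
  have hmem : s - j ∈ Finset.Ico L (hN N) := Finset.mem_Ico.2 ⟨hsep, by omega⟩
  refine le_trans (le_of_eq ?_) (Finset.single_le_sum hnn hmem)
  have e : s - (s - j) = j := by omega
  rw [e, h, mul_one]
  unfold lt1
  rw [if_pos hlt]

/-- the deterministic decomposition -/
theorem det (ha : 0 < a) (hp : 2 ≤ p) {N C n₀ : ℕ} (hC : 1 ≤ C) (hM : n₀ + C ≤ N) {y : ℝ}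
    (htr : ∀ n : ℕ, 1 ≤ n → n ≤ 2 * N → Xt a p N y n = ind a p y n) {φ : ℕ → ℕ → ℝ}
    (hφ : ∀ i j, |φ i j| ≤ 1) :
    |∑ j ∈ Finset.Icc 1 N, (ind a p y j : ℝ) * φ (cnt a p y j) j
      - ∑ c ∈ Finset.Icc 1 C, ∑ s ∈ Finset.Ico n₀ N,
          Xc a p N c s (Int.fract ((p : ℝ) ^ s * y)) * φ (al a p N y s + c) (s + c)| ≤
    (cnt a p y (n₀ + C) : ℝ) +
      ∑ s ∈ Finset.range N, lt1 (thr a p N (s + C) / (p : ℝ) ^ C) (Int.fract ((p : ℝ) ^ s * y)) +
      ∑ c ∈ Finset.Icc 1 C, (2 * (∑ s ∈ Finset.Ico n₀ N,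
        Xc a p N c s (Int.fract ((p : ℝ) ^ s * y)) *
          dI (St a p N y s) (al a p N y s)) + C) := by
  have hcs : ∀ j, j ≤ 2 * N → cnt a p y j = St a p N y j := by
    intro j hj
    unfold cnt St
    refine Finset.sum_congr rfl fun i hi => ?_
    rw [Finset.mem_Icc] at hi
    exact (htr i hi.1 (by omega)).symm
  have hS1 : ∑ j ∈ Finset.Icc 1 N, (ind a p y j : ℝ) * φ (cnt a p y j) j =
      ∑ j ∈ Finset.Ico 1 (N + 1), (Xt a p N y j : ℝ) * φ (St a p N y j) j := by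
    have e : Finset.Icc 1 N = Finset.Ico 1 (N + 1) := by
      ext j; rw [Finset.mem_Icc, Finset.mem_Ico]; omega
    rw [e]
    refine Finset.sum_congr rfl fun j hj => ?_
    rw [Finset.mem_Ico] at hj
    rw [hcs j (by omega), htr j hj.1 (by omega)]
  set M := n₀ + C with hMdef
  have hsplit := Finset.sum_Ico_consecutive
    (fun j => (Xt a p N y j : ℝ) * φ (St a p N y j) j) (show 1 ≤ M by omega)
    (show M ≤ N + 1 by omega)
  rw [hS1, ← hsplit]
  -- first part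
  have hA : |∑ j ∈ Finset.Ico 1 M, (Xt a p N y j : ℝ) * φ (St a p N y j) j| ≤
      (cnt a p y M : ℝ) := by
    rw [hcs M (by omega)]
    refine (Finset.abs_sum_le_sum_abs _ _).trans ?_
    unfold St
    push_cast
    calc ∑ j ∈ Finset.Ico 1 M, |(Xt a p N y j : ℝ) * φ (∑ j ∈ Finset.Icc 1 j, Xt a p N y j) j|
        ≤ ∑ j ∈ Finset.Ico 1 M, (Xt a p N y j : ℝ) := by
          refine Finset.sum_le_sum fun j _ => ?_
          rw [abs_mul, abs_of_nonneg (Nat.cast_nonneg _)]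
          exact mul_le_of_le_one_right (Nat.cast_nonneg _) (hφ _ _)
      _ ≤ ∑ j ∈ Finset.Icc 1 M, (Xt a p N y j : ℝ) := by
          refine Finset.sum_le_sum_of_subset_of_nonneg ?_ fun j _ _ => Nat.cast_nonneg _
          intro j hj
          rw [Finset.mem_Ico] at hj
          rw [Finset.mem_Icc]
          omega
  -- second part
  have hB : ∑ j ∈ Finset.Ico M (N + 1), (Xt a p N y j : ℝ) * φ (St a p N y j) j =
      ∑ c ∈ Finset.Icc 1 C, (∑ j ∈ Finset.Ico M (N + 1),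
        Xc a p N c (j - c) (Int.fract ((p : ℝ) ^ (j - c) * y)) * φ (St a p N y j) j) +
      ∑ j ∈ Finset.Ico M (N + 1), ee a p N y j C * φ (St a p N y j) j := by
    rw [Finset.sum_comm, ← Finset.sum_add_distrib]
    refine Finset.sum_congr rfl fun j hj => ?_
    rw [Finset.mem_Ico] at hj
    rw [identity ha hp N y (j := j) (C := C) (by omega), add_mul, Finset.sum_mul]
  have hE : |∑ j ∈ Finset.Ico M (N + 1), ee a p N y j C * φ (St a p N y j) j| ≤
      ∑ s ∈ Finset.range N, lt1 (thr a p N (s + C) / (p : ℝ) ^ C)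
        (Int.fract ((p : ℝ) ^ s * y)) := by
    refine (Finset.abs_sum_le_sum_abs _ _).trans ?_
    have h1 : ∑ j ∈ Finset.Ico M (N + 1), |ee a p N y j C * φ (St a p N y j) j| ≤
        ∑ j ∈ Finset.Ico M (N + 1), ee a p N y j C := by
      refine Finset.sum_le_sum fun j _ => ?_
      rw [abs_mul, abs_of_nonneg (ee_nonneg _ _ _ _)]
      exact mul_le_of_le_one_right (ee_nonneg _ _ _ _) (hφ _ _)
    refine h1.trans ?_
    have h2 := Finset.sum_Ico_add' (fun j => ee a p N y j C) n₀ (N + 1 - C) C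
    have e : N + 1 - C + C = N + 1 := by omega
    rw [e, ← hMdef] at h2
    rw [← h2]
    have h3 : ∀ s, ee a p N y (s + C) C = lt1 (thr a p N (s + C) / (p : ℝ) ^ C)
        (Int.fract ((p : ℝ) ^ s * y)) := by
      intro s
      unfold ee lt1
      rw [Nat.add_sub_cancel]
    simp only [h3]
    refine Finset.sum_le_sum_of_subset_of_nonneg ?_ fun j _ _ => lt1_nonneg _ _
    intro s hs
    rw [Finset.mem_Ico] at hs
    rw [Finset.mem_range]
    omega
  -- the main terms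
  have hc : ∀ c ∈ Finset.Icc 1 C, |(∑ j ∈ Finset.Ico M (N + 1),
        Xc a p N c (j - c) (Int.fract ((p : ℝ) ^ (j - c) * y)) * φ (St a p N y j) j) -
      ∑ s ∈ Finset.Ico n₀ N,
          Xc a p N c s (Int.fract ((p : ℝ) ^ s * y)) * φ (al a p N y s + c) (s + c)| ≤
      2 * (∑ s ∈ Finset.Ico n₀ N, Xc a p N c s (Int.fract ((p : ℝ) ^ s * y)) *
          dI (St a p N y s) (al a p N y s)) + C := by
    intro c hc
    rw [Finset.mem_Icc] at hc
    have h2 := Finset.sum_Ico_add' (fun j => Xc a p N c (j - c)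
      (Int.fract ((p : ℝ) ^ (j - c) * y)) * φ (St a p N y j) j) (M - c) (N + 1 - c) c
    have e1 : M - c + c = M := by omega
    have e2 : N + 1 - c + c = N + 1 := by omega
    rw [e1, e2] at h2
    rw [← h2]
    simp only [Nat.add_sub_cancel]
    have h3 := Finset.sum_Ico_consecutive (fun s =>
      Xc a p N c s (Int.fract ((p : ℝ) ^ s * y)) * φ (al a p N y s + c) (s + c))
      (show n₀ ≤ M - c by omega) (show M - c ≤ N by omega)
    have h4 := Finset.sum_Ico_consecutive (fun s =>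
      Xc a p N c s (Int.fract ((p : ℝ) ^ s * y)) * φ (al a p N y s + c) (s + c))
      (show M - c ≤ N + 1 - c by omega) (show N + 1 - c ≤ N by omega)
    rw [← h3, ← h4]
    have hout : ∀ m n, m ≤ n → |∑ s ∈ Finset.Ico m n,
        Xc a p N c s (Int.fract ((p : ℝ) ^ s * y)) * φ (al a p N y s + c) (s + c)| ≤
        (n : ℝ) - m := by
      intro m n hmn
      refine (Finset.abs_sum_le_sum_abs _ _).trans ?_
      calc ∑ s ∈ Finset.Ico m n, |Xc a p N c s (Int.fract ((p : ℝ) ^ s * y)) *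
            φ (al a p N y s + c) (s + c)| ≤ ∑ s ∈ Finset.Ico m n, (1 : ℝ) := by
            refine Finset.sum_le_sum fun s _ => ?_
            rw [abs_mul, abs_of_nonneg (Xc_nonneg _ _ _ _)]
            exact mul_le_one₀ (Xc_le_one _ _ _ _) (abs_nonneg _) (hφ _ _)
        _ = (n : ℝ) - m := by
            rw [Finset.sum_const, Nat.card_Ico, nsmul_eq_mul, mul_one, Nat.cast_sub hmn]
    have o1 := hout n₀ (M - c) (by omega)
    have o2 := hout (N + 1 - c) N (by omega)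
    rw [Nat.cast_sub (by omega)] at o1
    rw [Nat.cast_sub (by omega)] at o2
    have hmid : |∑ s ∈ Finset.Ico (M - c) (N + 1 - c),
          Xc a p N c s (Int.fract ((p : ℝ) ^ s * y)) * φ (St a p N y (s + c)) (s + c) -
        ∑ s ∈ Finset.Ico (M - c) (N + 1 - c),
          Xc a p N c s (Int.fract ((p : ℝ) ^ s * y)) * φ (al a p N y s + c) (s + c)| ≤
        2 * (∑ s ∈ Finset.Ico n₀ N, Xc a p N c s (Int.fract ((p : ℝ) ^ s * y)) *
          dI (St a p N y s) (al a p N y s)) := by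
      rw [← Finset.sum_sub_distrib, Finset.mul_sum]
      refine (Finset.abs_sum_le_sum_abs _ _).trans ?_
      have h5 : ∀ s, |Xc a p N c s (Int.fract ((p : ℝ) ^ s * y)) * φ (St a p N y (s + c)) (s + c) -
          Xc a p N c s (Int.fract ((p : ℝ) ^ s * y)) * φ (al a p N y s + c) (s + c)| ≤
          2 * (Xc a p N c s (Int.fract ((p : ℝ) ^ s * y)) *
          dI (St a p N y s) (al a p N y s)) := by
        intro s
        rcases Xc_cases (a := a) (p := p) N c s (Int.fract ((p : ℝ) ^ s * y)) with h | h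
        · rw [h]; simp
        · rw [h, St_run ha hp N y hc.1 h, one_mul, one_mul, one_mul]
          by_cases hne : St a p N y s ≠ al a p N y s
          · rw [dI_of_ne hne]
            have := abs_sub (φ (St a p N y s + c) (s + c)) (φ (al a p N y s + c) (s + c))
            linarith [hφ (St a p N y s + c) (s + c), hφ (al a p N y s + c) (s + c)]
          · push Not at hne
            rw [hne]
            simp [dI]
      refine (Finset.sum_le_sum fun s _ => h5 s).trans ?_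
      refine Finset.sum_le_sum_of_subset_of_nonneg ?_ fun s _ _ => ?_
      · intro s hs
        rw [Finset.mem_Ico] at hs ⊢
        omega
      · exact mul_nonneg (by norm_num) (mul_nonneg (Xc_nonneg _ _ _ _) (dI_nonneg _ _))
    have hcC : (c : ℝ) ≤ C := by exact_mod_cast hc.2
    have hMc : (M : ℝ) = n₀ + C := by rw [hMdef]; push_cast; ring
    push_cast at o2
    rw [abs_le] at hmid o1 o2 ⊢
    constructor <;> linarith [hmid.1, hmid.2, o1.1, o1.2, o2.1, o2.2]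
  have hcsum : |∑ c ∈ Finset.Icc 1 C, (∑ j ∈ Finset.Ico M (N + 1),
        Xc a p N c (j - c) (Int.fract ((p : ℝ) ^ (j - c) * y)) * φ (St a p N y j) j) -
      ∑ c ∈ Finset.Icc 1 C, ∑ s ∈ Finset.Ico n₀ N,
          Xc a p N c s (Int.fract ((p : ℝ) ^ s * y)) * φ (al a p N y s + c) (s + c)| ≤
      ∑ c ∈ Finset.Icc 1 C, (2 * (∑ s ∈ Finset.Ico n₀ N,
        Xc a p N c s (Int.fract ((p : ℝ) ^ s * y)) *
          dI (St a p N y s) (al a p N y s)) + C) := by
    rw [← Finset.sum_sub_distrib]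
    exact (Finset.abs_sum_le_sum_abs _ _).trans (Finset.sum_le_sum hc)
  rw [hB]
  rw [abs_le] at hA hE hcsum ⊢
  constructor <;> linarith [hA.1, hA.2, hE.1, hE.2, hcsum.1, hcsum.2]

end pointwise

/-! ### Borel-Cantelli and Markov -/

theorem bc {P : ℕ → ℝ → Prop} {K : ℝ}
    (h : ∀ᶠ k : ℕ in atTop, volume {y : ℝ | y ∈ Set.Icc (0 : ℝ) 1 ∧ P k y} ≤
      ENNReal.ofReal (K / (k : ℝ) ^ 2)) :
    ∀ᵐ y ∂(volume.restrict (Set.Icc (0 : ℝ) 1)), ∀ᶠ k : ℕ in atTop, ¬ P k y := by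
  classical
  obtain ⟨k0, hk0⟩ := eventually_atTop.1 h
  set S : ℕ → Set ℝ := fun k => if k0 ≤ k then {y : ℝ | y ∈ Set.Icc (0 : ℝ) 1 ∧ P k y} else ∅
    with hS
  have hsum : ∑' k, volume (S k) ≠ ⊤ := by
    have h1 : ∀ k, volume (S k) ≤ ENNReal.ofReal (|K| * (1 / (k : ℝ) ^ 2)) := by
      intro k
      rw [hS]
      simp only
      split_ifs with hk
      · refine (hk0 k hk).trans (ENNReal.ofReal_le_ofReal ?_)
        rw [mul_one_div]
        exact div_le_div_of_nonneg_right (le_abs_self K) (by positivity)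
      · simp
    refine ne_top_of_le_ne_top ?_ (ENNReal.tsum_le_tsum h1)
    have hs : Summable fun k : ℕ => |K| * (1 / (k : ℝ) ^ 2) :=
      (Real.summable_one_div_nat_pow.2 (by norm_num)).mul_left _
    rw [← ENNReal.ofReal_tsum_of_nonneg (fun k => by positivity) hs]
    exact ENNReal.ofReal_ne_top
  have h2 := ae_eventually_notMem hsum
  have h3 : ∀ᵐ y ∂(volume.restrict (Set.Icc (0 : ℝ) 1)), ∀ᶠ k : ℕ in atTop, y ∉ S k :=
    ae_restrict_of_ae h2
  filter_upwards [h3, ae_restrict_mem measurableSet_Icc] with y hy hyI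
  filter_upwards [hy, eventually_ge_atTop k0] with k hk hk0' hP
  apply hk
  rw [hS]
  simp only
  rw [if_pos hk0']
  exact ⟨hyI, hP⟩

theorem markov {H : ℝ → ℝ} (hm : Measurable H) (h0 : ∀ y, 0 ≤ H y) {K : ℝ} (hK : ∀ y, H y ≤ K)
    {B T : ℝ} (hB : ∫ y in (0 : ℝ)..1, H y ≤ B) (hT : 0 < T) :
    volume {y : ℝ | y ∈ Set.Icc (0 : ℝ) 1 ∧ T ≤ H y} ≤ ENNReal.ofReal (B / T) := by
  set μ : Measure ℝ := volume.restrict (Set.Icc (0 : ℝ) 1) with hμ
  have hint : Integrable H μ := by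
    refine Integrable.of_bound hm.aestronglyMeasurable K (Eventually.of_forall fun y => ?_)
    rw [Real.norm_of_nonneg (h0 y)]
    exact hK y
  have h1 := mul_meas_ge_le_integral_of_nonneg (μ := μ) (Eventually.of_forall h0) hint T
  have h2 : ∫ y, H y ∂μ = ∫ y in (0 : ℝ)..1, H y := by
    rw [intervalIntegral.integral_of_le zero_le_one, hμ, integral_Icc_eq_integral_Ioc]
  rw [h2] at h1
  have h3 : volume {y : ℝ | y ∈ Set.Icc (0 : ℝ) 1 ∧ T ≤ H y} = μ {y | T ≤ H y} := by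
    rw [hμ, Measure.restrict_apply (measurableSet_le measurable_const hm), Set.inter_comm]
    rfl
  rw [h3, ← ENNReal.ofReal_toReal (measure_ne_top μ _)]
  apply ENNReal.ofReal_le_ofReal
  rw [le_div_iff₀ hT, mul_comm]
  exact h1.trans hB

/-! ### integrals -/

section integrals

variable {a : ℝ} {p : ℕ}

theorem measurable_lt1 (θ : ℝ) : Measurable (lt1 θ) := by
  unfold lt1
  exact Measurable.ite measurableSet_Iio measurable_const measurable_const

theorem integral_lt1 {θ : ℝ} (h0 : 0 ≤ θ) (h1 : θ ≤ 1) : ∫ z in (0 : ℝ)..1, lt1 θ z = θ := by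
  rw [intervalIntegral.integral_of_le zero_le_one, ← integral_Ico_eq_integral_Ioc]
  have e : ∀ z ∈ Set.Ico (0 : ℝ) 1, lt1 θ z = (Set.Ico (0 : ℝ) θ).indicator (fun _ => 1) z := by
    intro z hz
    unfold lt1
    by_cases h : z < θ
    · have hm : z ∈ Set.Ico (0 : ℝ) θ := ⟨hz.1, h⟩
      rw [if_pos h, Set.indicator_of_mem hm]
    · rw [if_neg h, Set.indicator_of_notMem (fun h' => h h'.2)]
  rw [setIntegral_congr_fun measurableSet_Ico e, integral_indicator measurableSet_Ico,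
    Measure.restrict_restrict measurableSet_Ico]
  have e2 : Set.Ico (0 : ℝ) θ ∩ Set.Ico (0 : ℝ) 1 = Set.Ico (0 : ℝ) θ := by
    apply Set.inter_eq_left.2
    exact Set.Ico_subset_Ico_right h1
  rw [e2]
  simp [h0]

theorem ii_of_bdd {f : ℝ → ℝ} (hm : Measurable f) {K : ℝ} (hK : ∀ y, |f y| ≤ K) :
    IntervalIntegrable f volume 0 1 := by
  rw [intervalIntegrable_iff_integrableOn_Ioc_of_le zero_le_one]
  exact Integrable.of_bound hm.aestronglyMeasurable K (Eventually.of_forall hK)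

theorem digM_const (p t : ℕ) (A : ℝ) : DigM p t (fun _ => A) := fun _ _ _ => rfl

theorem integral_fract (hp : 2 ≤ p) (t : ℕ) {f : ℝ → ℝ} (hf : IntervalIntegrable f volume 0 1) :
    ∫ y in (0 : ℝ)..1, f (Int.fract ((p : ℝ) ^ t * y)) = ∫ z in (0 : ℝ)..1, f z := by
  have := integral_mul_fract (p := p) (t := t) (by omega) (digM_const p t 1) hf
  simpa using this

theorem digM_lt1 (hp : 2 ≤ p) (w : ℕ) (n : ℤ) : DigM p w (lt1 ((n : ℝ) / (p : ℝ) ^ w)) := by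
  have h := DigM.lt_thr (p := p) (w := w) (by omega) n 1 0
  have e : (lt1 ((n : ℝ) / (p : ℝ) ^ w)) = (fun z => haveI := Classical.dec (z < (n : ℝ) / (p : ℝ) ^ w)
      if z < (n : ℝ) / (p : ℝ) ^ w then (1 : ℝ) else 0) := by
    funext z
    unfold lt1
    by_cases h : z < (n : ℝ) / (p : ℝ) ^ w
    · rw [if_pos h]
    · rw [if_neg h]
  rw [e]
  exact h

theorem measurable_fract_pow (p t : ℕ) : Measurable fun y : ℝ => Int.fract ((p : ℝ) ^ t * y) :=
  measurable_fract.comp (measurable_id.const_mul _)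

theorem measurable_Xc (N c s : ℕ) : Measurable (Xc a p N c s) := by
  unfold Xc
  refine Measurable.ite ?_ measurable_const measurable_const
  apply MeasurableSet.inter
  · exact measurableSet_le measurable_const measurable_id
  · exact measurableSet_lt (measurable_fract.comp (measurable_id.const_mul _)) measurable_const

theorem integral_Xc_le (ha : 0 < a) (hp : 2 ≤ p) (N : ℕ) {c s : ℕ} (hc : 1 ≤ c) :
    ∫ z in (0 : ℝ)..1, Xc a p N c s z ≤ thr a p N (s + c) := by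
  have hp1 : (1 : ℝ) ≤ p := by exact_mod_cast (by omega : 1 ≤ p)
  set θ := thr a p N (s + c) / (p : ℝ) ^ (c - 1) with hθ
  have h0 : 0 ≤ θ := div_nonneg (thr_nonneg _ _) (by positivity)
  have hle : θ ≤ thr a p N (s + c) := div_le_self (thr_nonneg _ _) (one_le_pow₀ hp1)
  have h1 : θ ≤ 1 := hle.trans (thr_le_one ha hp N (by omega))
  have h2 : ∫ z in (0 : ℝ)..1, Xc a p N c s z ≤
      ∫ z in (0 : ℝ)..1, lt1 θ (Int.fract ((p : ℝ) ^ 1 * z)) := by
    apply intervalIntegral.integral_mono_on zero_le_one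
    · exact ii_of_bdd (measurable_Xc N c s) (K := 1) fun y => by
        rw [abs_of_nonneg (Xc_nonneg _ _ _ _)]; exact Xc_le_one _ _ _ _
    · exact ii_of_bdd ((measurable_lt1 θ).comp (measurable_fract_pow p 1)) (K := 1) fun y => by
        show |lt1 θ _| ≤ 1
        rw [abs_of_nonneg (lt1_nonneg _ _)]; exact lt1_le_one _ _
    · intro z _
      rw [pow_one]
      unfold Xc lt1
      rw [← hθ]
      by_cases h : 1 / (p : ℝ) ≤ z ∧ Int.fract ((p : ℝ) * z) < θ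
      · rw [if_pos h, if_pos h.2]
      · rw [if_neg h]
        split_ifs <;> norm_num
  rw [integral_fract hp 1 (ii_of_bdd (measurable_lt1 θ) (K := 1) fun y => by
        rw [abs_of_nonneg (lt1_nonneg _ _)]; exact lt1_le_one _ _), integral_lt1 h0 h1] at h2
  exact h2.trans hle

/-- expectation of a close pair -/
theorem integral_pair_le (ha : 0 < a) (hp : 2 ≤ p) (N : ℕ) {c s d L : ℕ} (hc : 1 ≤ c) (hd : L ≤ d)
    (hds : d ≤ s) :
    ∫ y in (0 : ℝ)..1, lt1 (1 / (p : ℝ) ^ L) (Int.fract ((p : ℝ) ^ (s - d) * y)) *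
        Xc a p N c s (Int.fract ((p : ℝ) ^ s * y)) ≤
      1 / (p : ℝ) ^ L * thr a p N (s + c) := by
  have hp1 : (1 : ℝ) ≤ p := by exact_mod_cast (by omega : 1 ≤ p)
  have h1 : DigM p (s - d + L) (fun y => lt1 (1 / (p : ℝ) ^ L)
      (Int.fract ((p : ℝ) ^ (s - d) * y))) := by
    have := digM_lt1 hp L 1
    push_cast at this
    exact DigM.comp_fract (by omega) this (s - d)
  have h2 : DigM p s (fun y => lt1 (1 / (p : ℝ) ^ L) (Int.fract ((p : ℝ) ^ (s - d) * y))) :=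
    DigM.mono (by omega) (by omega) h1
  have h3 : IntervalIntegrable (Xc a p N c s) volume 0 1 :=
    ii_of_bdd (measurable_Xc N c s) (K := 1) fun y => by
        rw [abs_of_nonneg (Xc_nonneg _ _ _ _)]; exact Xc_le_one _ _ _ _
  rw [integral_mul_fract (by omega) h2 h3,
    integral_fract hp (s - d) (ii_of_bdd (measurable_lt1 _) (K := 1) fun y => by
        rw [abs_of_nonneg (lt1_nonneg _ _)]; exact lt1_le_one _ _),
    integral_lt1 (by positivity) (div_le_one_of_le₀ (one_le_pow₀ hp1) (by positivity))]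
  exact mul_le_mul_of_nonneg_left (integral_Xc_le ha hp N hc) (by positivity)

/-- the sum over close pairs -/
noncomputable def Hc (a : ℝ) (p N c L n₀ : ℕ) (y : ℝ) : ℝ :=
  ∑ s ∈ Finset.Ico n₀ N, ∑ d ∈ Finset.Ico L (hN N),
    lt1 (1 / (p : ℝ) ^ L) (Int.fract ((p : ℝ) ^ (s - d) * y)) *
      Xc a p N c s (Int.fract ((p : ℝ) ^ s * y))

theorem term_meas (N c L s d : ℕ) : Measurable fun y =>
    lt1 (1 / (p : ℝ) ^ L) (Int.fract ((p : ℝ) ^ (s - d) * y)) *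
      Xc a p N c s (Int.fract ((p : ℝ) ^ s * y)) :=
  ((measurable_lt1 _).comp (measurable_fract_pow p _)).mul
    ((measurable_Xc N c s).comp (measurable_fract_pow p _))

theorem term_bd (N c L s d : ℕ) (y : ℝ) :
    |lt1 (1 / (p : ℝ) ^ L) (Int.fract ((p : ℝ) ^ (s - d) * y)) *
      Xc a p N c s (Int.fract ((p : ℝ) ^ s * y))| ≤ 1 := by
  rw [abs_mul, abs_of_nonneg (lt1_nonneg _ _), abs_of_nonneg (Xc_nonneg _ _ _ _)]
  exact mul_le_one₀ (lt1_le_one _ _) (Xc_nonneg _ _ _ _) (Xc_le_one _ _ _ _)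

theorem integral_Hc (ha : 0 < a) (hp : 2 ≤ p) (N : ℕ) {c L n₀ : ℕ} (hc : 1 ≤ c) (hn : 1 ≤ n₀)
    (hh : hN N ≤ n₀) : ∫ y in (0 : ℝ)..1, Hc a p N c L n₀ y ≤
      N * (hN N * (1 / (p : ℝ) ^ L * (n₀ : ℝ) ^ (-a))) := by
  unfold Hc
  rw [intervalIntegral.integral_finsetSum]
  swap
  · intro s _
    exact ii_of_bdd (Finset.measurable_sum _ fun d _ => term_meas N c L s d)
      (K := ∑ d ∈ Finset.Ico L (hN N), (1 : ℝ)) fun y =>
        (Finset.abs_sum_le_sum_abs _ _).trans (Finset.sum_le_sum fun d _ => term_bd N c L s d y)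
  have h1 : ∀ s ∈ Finset.Ico n₀ N, ∫ y in (0 : ℝ)..1, ∑ d ∈ Finset.Ico L (hN N),
      lt1 (1 / (p : ℝ) ^ L) (Int.fract ((p : ℝ) ^ (s - d) * y)) *
        Xc a p N c s (Int.fract ((p : ℝ) ^ s * y)) ≤
      hN N * (1 / (p : ℝ) ^ L * (n₀ : ℝ) ^ (-a)) := by
    intro s hs
    rw [Finset.mem_Ico] at hs
    rw [intervalIntegral.integral_finsetSum
      (fun d _ => ii_of_bdd (term_meas N c L s d) (term_bd N c L s d))]
    have h2 : ∀ d ∈ Finset.Ico L (hN N), ∫ y in (0 : ℝ)..1,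
        lt1 (1 / (p : ℝ) ^ L) (Int.fract ((p : ℝ) ^ (s - d) * y)) *
        Xc a p N c s (Int.fract ((p : ℝ) ^ s * y)) ≤ 1 / (p : ℝ) ^ L * (n₀ : ℝ) ^ (-a) := by
      intro d hd
      rw [Finset.mem_Ico] at hd
      refine (integral_pair_le ha hp N hc hd.1 (by omega)).trans ?_
      apply mul_le_mul_of_nonneg_left _ (by positivity)
      refine (thr_le hp N (s + c)).trans ?_
      apply Real.rpow_le_rpow_of_nonpos
      · exact_mod_cast hn
      · exact_mod_cast (by omega : n₀ ≤ s + c)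
      · linarith
    refine (Finset.sum_le_sum h2).trans ?_
    rw [Finset.sum_const, Nat.card_Ico, nsmul_eq_mul]
    apply mul_le_mul_of_nonneg_right _ (by positivity)
    exact_mod_cast Nat.sub_le _ _
  refine (Finset.sum_le_sum h1).trans ?_
  rw [Finset.sum_const, Nat.card_Ico, nsmul_eq_mul]
  apply mul_le_mul_of_nonneg_right _ (by positivity)
  exact_mod_cast Nat.sub_le _ _

theorem markov_Hc (ha : 0 < a) (hp : 2 ≤ p) (N : ℕ) {c L n₀ : ℕ} (hc : 1 ≤ c) (hn : 1 ≤ n₀)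
    (hh : hN N ≤ n₀) {T : ℝ} (hT : 0 < T) :
    volume {y : ℝ | y ∈ Set.Icc (0 : ℝ) 1 ∧ T ≤ Hc a p N c L n₀ y} ≤
      ENNReal.ofReal ((N * (hN N * (1 / (p : ℝ) ^ L * (n₀ : ℝ) ^ (-a)))) / T) := by
  refine markov ?_ ?_ (K := ∑ s ∈ Finset.Ico n₀ N, ∑ d ∈ Finset.Ico L (hN N), (1 : ℝ)) ?_
    (integral_Hc ha hp N hc hn hh) hT
  · unfold Hc
    exact Finset.measurable_sum _ fun s _ => Finset.measurable_sum _ fun d _ =>
      term_meas N c L s d
  · intro y
    exact Finset.sum_nonneg fun s _ => Finset.sum_nonneg fun d _ =>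
      mul_nonneg (lt1_nonneg _ _) (Xc_nonneg _ _ _ _)
  · intro y
    exact Finset.sum_le_sum fun s _ => Finset.sum_le_sum fun d _ =>
      (le_abs_self _).trans (term_bd N c L s d y)

/-- the tail of the residual count -/
theorem tail (ha : 0 < a) (hp : 2 ≤ p) {N C : ℕ} (hN1 : 1 ≤ N) (hC : 1 ≤ C) (τ : ℝ) :
    volume {y : ℝ | y ∈ Set.Icc (0 : ℝ) 1 ∧
      ((C + hN N : ℕ) : ℝ) * τ * (N : ℝ) ^ ((1 : ℝ) / 4) +
        (1 + (N : ℝ) ^ (-(1 : ℝ) / 4)) * (((p : ℝ) ^ C)⁻¹ * W a N) ≤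
      ∑ s ∈ Finset.range N, lt1 (thr a p N (s + C) / (p : ℝ) ^ C)
        (Int.fract ((p : ℝ) ^ s * y))} ≤ ENNReal.ofReal (Real.exp (-τ)) := by
  have hp1 : (1 : ℝ) ≤ p := by exact_mod_cast (by omega : 1 ≤ p)
  have hNr : (1 : ℝ) ≤ N := by exact_mod_cast hN1
  set θ : ℕ → ℝ := fun s => thr a p N (s + C) / (p : ℝ) ^ C with hθ
  have hθ0 : ∀ s, 0 ≤ θ s := fun s => div_nonneg (thr_nonneg _ _) (by positivity)
  have hθ1 : ∀ s, θ s ≤ 1 := fun s =>
    div_le_one_of_le₀ ((thr_le_one ha hp N (by omega)).trans (one_le_pow₀ hp1)) (by positivity)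
  set l : ℝ := (N : ℝ) ^ (-(1 : ℝ) / 4) with hl
  have hl0 : 0 < l := Real.rpow_pos_of_pos (by linarith) _
  have hl1 : l ≤ 1 := Real.rpow_le_one_of_one_le_of_nonpos hNr (by norm_num)
  have hlinv : 1 / l = (N : ℝ) ^ ((1 : ℝ) / 4) := by
    rw [hl, neg_div, Real.rpow_neg (by linarith), one_div, inv_inv]
  have key := exp_tail hp (w := C + hN N) (by omega) (Finset.range N) (fun _ _ => 1)
    (fun s z => lt1 (θ s) z - θ s) θ (l := l) (τ := τ) hl0 hl1
    (fun s _ => digM_const p s 1) (fun s _ y => by simp)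
    (fun s _ => (measurable_lt1 _).sub measurable_const)
    (fun s _ z => by
      have h1 := lt1_nonneg (θ s) z
      have h2 := lt1_le_one (θ s) z
      rw [abs_le]
      constructor <;> linarith [hθ0 s, hθ1 s])
    (fun s _ => by
      rw [intervalIntegral.integral_sub, integral_lt1 (hθ0 s) (hθ1 s)]
      · simp
      · exact ii_of_bdd (measurable_lt1 _) (K := 1) fun y => by
          rw [abs_of_nonneg (lt1_nonneg _ _)]; exact lt1_le_one _ _
      · exact intervalIntegrable_const)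
    (fun s _ => by
      have e : ∀ z, (lt1 (θ s) z - θ s) ^ 2 = (1 - 2 * θ s) * lt1 (θ s) z + (θ s) ^ 2 := by
        intro z
        unfold lt1
        split_ifs <;> ring
      simp only [e]
      rw [intervalIntegral.integral_add, intervalIntegral.integral_const_mul,
        integral_lt1 (hθ0 s) (hθ1 s)]
      · simp only [intervalIntegral.integral_const, sub_zero, one_smul]
        nlinarith [hθ0 s, hθ1 s]
      · exact (ii_of_bdd (measurable_lt1 _) (K := 1) fun y => by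
          rw [abs_of_nonneg (lt1_nonneg _ _)]; exact lt1_le_one _ _).const_mul _
      · exact intervalIntegrable_const)
    (fun s _ => by
      have h1 : DigM p (C + hN N) (fun z => lt1 (θ s) z - θ s) := by
        have e : θ s = ((⌊(p : ℝ) ^ (hN N) * ((s + C : ℕ) : ℝ) ^ (-a)⌋ : ℤ) : ℝ) /
            (p : ℝ) ^ (C + hN N) := by
          rw [hθ]
          simp only
          unfold thr
          rw [div_div, ← pow_add, add_comm C (hN N)]
        intro y z hyz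
        have h2 := digM_lt1 hp (C + hN N) ⌊(p : ℝ) ^ (hN N) * ((s + C : ℕ) : ℝ) ^ (-a)⌋ y z hyz
        rw [← e] at h2
        simp only [h2]
      exact DigM.comp_fract (by omega) h1 s)
  refine le_trans (measure_mono ?_) key
  intro y hy
  refine ⟨hy.1, ?_⟩
  have hy2 := hy.2
  simp only [one_pow, mul_one, one_mul, Finset.sum_sub_distrib]
  have hsum : ∑ s ∈ Finset.range N, θ s ≤ ((p : ℝ) ^ C)⁻¹ * W a N := by
    unfold W
    rw [Finset.mul_sum]
    have e : Finset.Icc 1 N = Finset.Ico (0 + 1) (N + 1) := by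
      ext j; rw [Finset.mem_Icc, Finset.mem_Ico]; omega
    rw [e, ← Finset.sum_Ico_add' (fun n : ℕ => ((p : ℝ) ^ C)⁻¹ * (n : ℝ) ^ (-a)) 0 N 1,
      ← Finset.range_eq_Ico]
    refine Finset.sum_le_sum fun s _ => ?_
    rw [hθ]
    simp only
    rw [div_eq_inv_mul]
    apply mul_le_mul_of_nonneg_left _ (by positivity)
    refine (thr_le hp N (s + C)).trans ?_
    apply Real.rpow_le_rpow_of_nonpos
    · exact_mod_cast Nat.succ_pos s
    · exact_mod_cast (by omega : s + 1 ≤ s + C)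
    · linarith
  have e1 : ((C + hN N : ℕ) : ℝ) * τ / l = ((C + hN N : ℕ) : ℝ) * τ * (N : ℝ) ^ ((1 : ℝ) / 4) := by
    rw [← hlinv, mul_one_div]
  rw [e1]
  have h3 : (1 + l) * ∑ s ∈ Finset.range N, θ s ≤ (1 + l) * (((p : ℝ) ^ C)⁻¹ * W a N) :=
    mul_le_mul_of_nonneg_left hsum (by linarith)
  have h4 : ∑ s ∈ Finset.range N, lt1 (thr a p N (s + C) / (p : ℝ) ^ C)
        (Int.fract ((p : ℝ) ^ s * y)) = ∑ s ∈ Finset.range N, lt1 (θ s)
        (Int.fract ((p : ℝ) ^ s * y)) := rfl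
  rw [h4] at hy2
  linarith

end integrals

/-! ### asymptotics -/

theorem ev_rpow {α β : ℝ} (h : α < β) (K : ℝ) :
    ∀ᶠ N : ℕ in atTop, K * (N : ℝ) ^ α ≤ (N : ℝ) ^ β := by
  have h1 : Tendsto (fun N : ℕ => (N : ℝ) ^ (β - α)) atTop atTop :=
    (tendsto_rpow_atTop (by linarith)).comp tendsto_natCast_atTop_atTop
  filter_upwards [h1.eventually_ge_atTop K, eventually_ge_atTop 1] with N hN hN1
  have hN0 : (0 : ℝ) < N := by exact_mod_cast hN1
  have e : (N : ℝ) ^ β = (N : ℝ) ^ (β - α) * (N : ℝ) ^ α := by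
    rw [← Real.rpow_add hN0]; congr 1; ring
  rw [e]
  exact mul_le_mul_of_nonneg_right hN (by positivity)

theorem ev_rpow' {α β ε : ℝ} (h : α < β) (K : ℝ) (hε : 0 < ε) :
    ∀ᶠ N : ℕ in atTop, K * (N : ℝ) ^ α ≤ ε * (N : ℝ) ^ β := by
  filter_upwards [ev_rpow h (K / ε)] with N hN
  have h1 := mul_le_mul_of_nonneg_left hN hε.le
  have e : ε * (K / ε * (N : ℝ) ^ α) = K * (N : ℝ) ^ α := by field_simp
  rwa [e] at h1

theorem ev_hN {ε : ℝ} (hε : 0 < ε) : ∀ᶠ N : ℕ in atTop, (hN N : ℝ) ≤ (N : ℝ) ^ ε := by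
  have h1 : ∀ᶠ x : ℝ in atTop, ‖Real.log x‖ ≤ (1 / 12) * ‖x ^ ε‖ :=
    (isLittleO_log_rpow_atTop hε).def (by norm_num)
  have h2 := tendsto_natCast_atTop_atTop.eventually h1
  filter_upwards [h2, ev_rpow' (ε := 1 / 2) hε 3 (by norm_num), eventually_ge_atTop 1]
    with N hX h3 hN1
  have hN0 : (1 : ℝ) ≤ N := by exact_mod_cast hN1
  have hp : 0 < (N : ℝ) ^ ε := by positivity
  rw [Real.norm_of_nonneg hp.le, Real.norm_of_nonneg (Real.log_nonneg hN0)] at hX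
  rw [Real.rpow_zero] at h3
  have h4 : (Nat.log 2 N : ℝ) ≤ 2 * Real.log N := by
    have h5 := Real.natLog_le_logb N 2
    have h6 : Real.logb 2 N = Real.log N / Real.log 2 := rfl
    have h7 : 1 / 2 < Real.log 2 := by linarith [Real.log_two_gt_d9]
    have h8 : Real.log N / Real.log 2 ≤ 2 * Real.log N := by
      rw [div_le_iff₀ (by linarith)]
      nlinarith [Real.log_nonneg hN0]
    push_cast at h5
    linarith
  unfold hN
  push_cast
  linarith

theorem W_le {a : ℝ} (ha : 0 < a) (ha2 : a < 1 / 2) (N : ℕ) : W a N ≤ 2 * (N : ℝ) ^ (1 - a) := by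
  induction N with
  | zero =>
    unfold W
    rw [Nat.cast_zero, Real.zero_rpow (by linarith)]
    simp
  | succ N ih =>
    have e : W a (N + 1) = W a N + ((N + 1 : ℕ) : ℝ) ^ (-a) := by
      unfold W
      rw [Finset.sum_Icc_succ_top (by omega)]
    rw [e]
    have hpos : (0 : ℝ) < ((N + 1 : ℕ) : ℝ) := by positivity
    have hN0 : (0 : ℝ) ≤ (N : ℝ) := Nat.cast_nonneg _
    have h1 : (N : ℝ) ^ (1 - a) ≤ ((N + 1 : ℕ) : ℝ) ^ (1 - a) - (1 - a) * ((N + 1 : ℕ) : ℝ) ^ (-a) := by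
      have h2 := rpow_one_add_le_one_add_mul_self (s := -1 / ((N + 1 : ℕ) : ℝ)) (by
        rw [neg_div, neg_le_neg_iff]
        apply div_le_one_of_le₀ _ hpos.le
        push_cast
        linarith) (show (0 : ℝ) ≤ 1 - a by linarith) (show 1 - a ≤ 1 by linarith)
      have h3 : (1 : ℝ) + -1 / ((N + 1 : ℕ) : ℝ) = (N : ℝ) / ((N + 1 : ℕ) : ℝ) := by
        push_cast
        field_simp
        ring
      rw [h3, Real.div_rpow hN0 hpos.le, div_le_iff₀ (by positivity)] at h2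
      refine h2.trans (le_of_eq ?_)
      have h4 : ((N + 1 : ℕ) : ℝ) ^ (1 - a) = ((N + 1 : ℕ) : ℝ) * ((N + 1 : ℕ) : ℝ) ^ (-a) := by
        rw [sub_eq_add_neg, Real.rpow_add hpos, Real.rpow_one]
      rw [h4]
      field_simp
      ring
    have h5 : 0 ≤ ((N + 1 : ℕ) : ℝ) ^ (-a) := by positivity
    nlinarith

theorem tendsto_kD {D : ℕ} (hD : D ≠ 0) : Tendsto (fun k : ℕ => k ^ D) atTop atTop :=
  tendsto_pow_atTop hD

/-- the residual count is small -/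
theorem ae_tail {a δ : ℝ} (ha : 0 < a) {p : ℕ} (hp : 2 ≤ p) {D : ℕ}
    (hD : 8 ≤ δ * D) {C : ℕ} (hC : 1 ≤ C) :
    ∀ᵐ y ∂(volume.restrict (Set.Icc (0 : ℝ) 1)), ∀ᶠ k : ℕ in atTop,
      ∑ s ∈ Finset.range (k ^ D), lt1 (thr a p (k ^ D) (s + C) / (p : ℝ) ^ C)
        (Int.fract ((p : ℝ) ^ s * y)) ≤
      ((C + hN (k ^ D) : ℕ) : ℝ) * ((k ^ D : ℕ) : ℝ) ^ δ * ((k ^ D : ℕ) : ℝ) ^ ((1 : ℝ) / 4) +
        (1 + ((k ^ D : ℕ) : ℝ) ^ (-(1 : ℝ) / 4)) * (((p : ℝ) ^ C)⁻¹ * W a (k ^ D)) := by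
  have key := bc (P := fun k y =>
      ((C + hN (k ^ D) : ℕ) : ℝ) * ((k ^ D : ℕ) : ℝ) ^ δ * ((k ^ D : ℕ) : ℝ) ^ ((1 : ℝ) / 4) +
        (1 + ((k ^ D : ℕ) : ℝ) ^ (-(1 : ℝ) / 4)) * (((p : ℝ) ^ C)⁻¹ * W a (k ^ D)) ≤
      ∑ s ∈ Finset.range (k ^ D), lt1 (thr a p (k ^ D) (s + C) / (p : ℝ) ^ C)
        (Int.fract ((p : ℝ) ^ s * y))) (K := 2) (by
    filter_upwards [eventually_ge_atTop 1] with k hk
    refine (tail ha hp (Nat.one_le_pow _ _ hk) hC (((k ^ D : ℕ) : ℝ) ^ δ)).trans ?_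
    apply ENNReal.ofReal_le_ofReal
    have hk1 : (1 : ℝ) ≤ k := by exact_mod_cast hk
    have h1 : (k : ℝ) ≤ ((k ^ D : ℕ) : ℝ) ^ δ := by
      push_cast
      rw [← Real.rpow_natCast, ← Real.rpow_mul (by linarith)]
      calc (k : ℝ) = (k : ℝ) ^ (1 : ℝ) := (Real.rpow_one _).symm
        _ ≤ _ := Real.rpow_le_rpow_of_exponent_le hk1 (by linarith)
    have h2 : Real.exp (-((k ^ D : ℕ) : ℝ) ^ δ) ≤ Real.exp (-(k : ℝ)) :=
      Real.exp_le_exp.2 (by linarith)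
    refine h2.trans ?_
    have h3 := Real.quadratic_le_exp_of_nonneg (show (0 : ℝ) ≤ k by linarith)
    rw [Real.exp_neg, ← one_div, div_le_div_iff₀ (Real.exp_pos _) (by positivity)]
    nlinarith)
  filter_upwards [key] with y hy
  filter_upwards [hy] with k hk
  exact (not_le.1 hk).le

theorem N0_ge (δ : ℝ) (N : ℕ) : (N : ℝ) ^ (1 - δ) ≤ N0 δ N := Nat.le_ceil _

theorem N0_le (δ : ℝ) (N : ℕ) : (N0 δ N : ℝ) ≤ (N : ℝ) ^ (1 - δ) + 1 :=
  (Nat.ceil_lt_add_one (by positivity)).le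

/-- the separation used for the close pairs -/
noncomputable def LL (a δ : ℝ) (p N : ℕ) : ℕ := Nat.log p ⌊((N0 δ N : ℝ) / 2) ^ a⌋₊

theorem LL_spec {a δ : ℝ} (ha : 0 < a) {p : ℕ} (hp : 2 ≤ p) {N : ℕ} (hn : (2 : ℝ) ≤ N0 δ N) :
    (((N0 δ N : ℝ) / 2) ^ a)⁻¹ ≤ 1 / (p : ℝ) ^ (LL a δ p N) ∧
      1 / (p : ℝ) ^ (LL a δ p N) ≤ p * (((N0 δ N : ℝ) / 2) ^ a)⁻¹ := by
  have h1 : (1 : ℝ) ≤ ((N0 δ N : ℝ) / 2) ^ a :=
    Real.one_le_rpow (by linarith) ha.le
  have hfl : ⌊((N0 δ N : ℝ) / 2) ^ a⌋₊ ≠ 0 := by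
    have := Nat.floor_pos.2 h1
    omega
  have hp0 : (0 : ℝ) < p := by positivity
  have hX : (0 : ℝ) < ((N0 δ N : ℝ) / 2) ^ a := by linarith
  constructor
  · rw [← one_div]
    apply one_div_le_one_div_of_le (by positivity)
    have h2 : p ^ (LL a δ p N) ≤ ⌊((N0 δ N : ℝ) / 2) ^ a⌋₊ := Nat.pow_log_le_self p hfl
    have h3 : (p : ℝ) ^ (LL a δ p N) ≤ (⌊((N0 δ N : ℝ) / 2) ^ a⌋₊ : ℝ) := by exact_mod_cast h2
    exact h3.trans (Nat.floor_le hX.le)
  · have h2 : ⌊((N0 δ N : ℝ) / 2) ^ a⌋₊ < p ^ (LL a δ p N + 1) :=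
      Nat.lt_pow_succ_log_self (by omega) _
    have h3 : ((N0 δ N : ℝ) / 2) ^ a < (p : ℝ) ^ (LL a δ p N + 1) := by
      have h4 := Nat.lt_floor_add_one (((N0 δ N : ℝ) / 2) ^ a)
      have h5 : (⌊((N0 δ N : ℝ) / 2) ^ a⌋₊ : ℝ) + 1 ≤ (p : ℝ) ^ (LL a δ p N + 1) := by
        exact_mod_cast h2
      linarith
    rw [div_le_iff₀ (by positivity), mul_assoc, mul_comm _ ((p : ℝ) ^ _), ← mul_assoc,
      ← pow_succ', ← div_eq_mul_inv, le_div_iff₀ hX, one_mul]
    exact h3.le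

/-- few close pairs -/
theorem ae_close {a δ : ℝ} (ha : 0 < a) (ha2 : a < 1 / 2) (hδ : 0 < δ)
    (hδ2 : 4 * δ ≤ a) {p : ℕ} (hp : 2 ≤ p) {D : ℕ} (hD : 8 ≤ δ * D) {c : ℕ} (hc : 1 ≤ c) :
    ∀ᵐ y ∂(volume.restrict (Set.Icc (0 : ℝ) 1)), ∀ᶠ k : ℕ in atTop,
      Hc a p (k ^ D) c (LL a δ p (k ^ D)) (N0 δ (k ^ D)) y ≤ ((k ^ D : ℕ) : ℝ) ^ (1 - a - δ) := by
  have hD0 : D ≠ 0 := by
    rintro rfl
    norm_num at hD
  have key := bc (P := fun k y => ((k ^ D : ℕ) : ℝ) ^ (1 - a - δ) ≤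
      Hc a p (k ^ D) c (LL a δ p (k ^ D)) (N0 δ (k ^ D)) y) (K := 2 * p) (by
    have e1 := (tendsto_kD hD0).eventually (ev_hN (ε := a / 4) (by linarith))
    have e2 := (tendsto_kD hD0).eventually (ev_rpow (α := a / 4) (β := 1 - δ) (by linarith) 1)
    have e3 := (tendsto_kD hD0).eventually (ev_rpow (α := 0) (β := 1 - δ) (by linarith) 2)
    filter_upwards [eventually_ge_atTop 1, e1, e2, e3] with k hk h1 h2 h3
    have hk1 : (1 : ℝ) ≤ k := by exact_mod_cast hk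
    set N : ℕ := k ^ D with hNdef
    have hN1 : 1 ≤ N := Nat.one_le_pow _ _ hk
    have hNr : (1 : ℝ) ≤ N := by exact_mod_cast hN1
    have hN0 : (0 : ℝ) < N := by linarith
    rw [one_mul] at h2
    rw [Real.rpow_zero, mul_one] at h3
    have hge := N0_ge δ N
    have hn2 : (2 : ℝ) ≤ N0 δ N := h3.trans hge
    have hn1 : 1 ≤ N0 δ N := by
      have : (1 : ℝ) ≤ N0 δ N := by linarith
      exact_mod_cast this
    have hh : hN N ≤ N0 δ N := by
      have : (hN N : ℝ) ≤ N0 δ N := (h1.trans h2).trans hge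
      exact_mod_cast this
    refine (markov_Hc ha hp N hc hn1 hh (by positivity)).trans ?_
    apply ENNReal.ofReal_le_ofReal
    obtain ⟨_, hL2⟩ := LL_spec ha hp hn2
    have hhalf : (((N0 δ N : ℝ) / 2) ^ a)⁻¹ ≤ 2 * (N : ℝ) ^ (-(a * (1 - δ))) := by
      have h4 : (N : ℝ) ^ (1 - δ) / 2 ≤ (N0 δ N : ℝ) / 2 := by linarith
      have h5 : ((N : ℝ) ^ (1 - δ) / 2) ^ a ≤ ((N0 δ N : ℝ) / 2) ^ a :=
        Real.rpow_le_rpow (by positivity) h4 ha.le
      have h6 : (((N0 δ N : ℝ) / 2) ^ a)⁻¹ ≤ (((N : ℝ) ^ (1 - δ) / 2) ^ a)⁻¹ :=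
        inv_anti₀ (by positivity) h5
      refine h6.trans ?_
      rw [Real.div_rpow (by positivity) (by norm_num), inv_div, ← Real.rpow_mul hN0.le,
        mul_comm (1 - δ) a, Real.rpow_neg hN0.le, div_eq_mul_inv]
      apply mul_le_mul_of_nonneg_right _ (by positivity)
      calc (2 : ℝ) ^ a ≤ (2 : ℝ) ^ (1 : ℝ) :=
            Real.rpow_le_rpow_of_exponent_le (by norm_num) (by linarith)
        _ = 2 := Real.rpow_one 2
    have hn0a : (N0 δ N : ℝ) ^ (-a) ≤ (N : ℝ) ^ (-(a * (1 - δ))) := by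
      have h4 := Real.rpow_le_rpow_of_nonpos (x := (N : ℝ) ^ (1 - δ)) (by positivity) hge
        (show -a ≤ 0 by linarith)
      refine h4.trans (le_of_eq ?_)
      rw [← Real.rpow_mul hN0.le]
      congr 1
      ring
    have hprod : 1 / (p : ℝ) ^ (LL a δ p N) * (N0 δ N : ℝ) ^ (-a) ≤
        (p * (2 * (N : ℝ) ^ (-(a * (1 - δ))))) * (N : ℝ) ^ (-(a * (1 - δ))) := by
      apply mul_le_mul _ hn0a (by positivity) (by positivity)
      exact hL2.trans (mul_le_mul_of_nonneg_left hhalf (by positivity))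
    have htot : (N : ℝ) * (hN N * (1 / (p : ℝ) ^ (LL a δ p N) * (N0 δ N : ℝ) ^ (-a))) ≤
        (N : ℝ) * ((N : ℝ) ^ (a / 4) *
          ((p * (2 * (N : ℝ) ^ (-(a * (1 - δ))))) * (N : ℝ) ^ (-(a * (1 - δ))))) := by
      apply mul_le_mul_of_nonneg_left _ hN0.le
      exact mul_le_mul h1 hprod (by positivity) (by positivity)
    rw [div_le_div_iff₀ (by positivity) (by positivity)]
    have hpw : (N : ℝ) * ((N : ℝ) ^ (a / 4) *
          ((p * (2 * (N : ℝ) ^ (-(a * (1 - δ))))) * (N : ℝ) ^ (-(a * (1 - δ))))) =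
        2 * p * (N : ℝ) ^ (1 + a / 4 + -(a * (1 - δ)) + -(a * (1 - δ))) := by
      rw [Real.rpow_add hN0, Real.rpow_add hN0, Real.rpow_add hN0, Real.rpow_one]
      ring
    have hexp : 1 + a / 4 + -(a * (1 - δ)) + -(a * (1 - δ)) ≤ (1 - a - δ) + -(a / 4) := by
      nlinarith
    have hN3 : (N : ℝ) ^ (1 + a / 4 + -(a * (1 - δ)) + -(a * (1 - δ))) ≤
        (N : ℝ) ^ (1 - a - δ) * (N : ℝ) ^ (-(a / 4)) := by
      rw [← Real.rpow_add hN0]
      exact Real.rpow_le_rpow_of_exponent_le hNr hexp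
    have hk2 : (N : ℝ) ^ (-(a / 4)) * (k : ℝ) ^ 2 ≤ 1 := by
      have h4 : (k : ℝ) ^ 2 ≤ (N : ℝ) ^ (a / 4) := by
        rw [hNdef]
        push_cast
        rw [← Real.rpow_natCast, ← Real.rpow_natCast, ← Real.rpow_mul (by linarith)]
        apply Real.rpow_le_rpow_of_exponent_le hk1
        have h5 : (0 : ℝ) ≤ D := Nat.cast_nonneg _
        push_cast
        nlinarith
      have h5 : (N : ℝ) ^ (-(a / 4)) * (N : ℝ) ^ (a / 4) = 1 := by
        rw [← Real.rpow_add hN0]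
        simp
      rw [← h5]
      exact mul_le_mul_of_nonneg_left h4 (by positivity)
    calc (N : ℝ) * (hN N * (1 / (p : ℝ) ^ (LL a δ p N) * (N0 δ N : ℝ) ^ (-a))) * (k : ℝ) ^ 2
        ≤ (2 * p * ((N : ℝ) ^ (1 - a - δ) * (N : ℝ) ^ (-(a / 4)))) * (k : ℝ) ^ 2 := by
          apply mul_le_mul_of_nonneg_right _ (by positivity)
          refine htot.trans ?_
          rw [hpw]
          exact mul_le_mul_of_nonneg_left hN3 (by positivity)
      _ = 2 * p * (N : ℝ) ^ (1 - a - δ) * ((N : ℝ) ^ (-(a / 4)) * (k : ℝ) ^ 2) := by ring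
      _ ≤ 2 * p * (N : ℝ) ^ (1 - a - δ) * 1 :=
          mul_le_mul_of_nonneg_left hk2 (by positivity)
      _ = 2 * p * (N : ℝ) ^ (1 - a - δ) := mul_one _)
  filter_upwards [key] with y hy
  filter_upwards [hy] with k hk
  exact (not_le.1 hk).le

end Appr

open Appr in
theorem ae_approx {a δ : ℝ} (ha : 0 < a) (ha2 : a < 1 / 2) (hδ : 0 < δ) (hδ1 : 8 * δ ≤ 1 / 2 - a)
    (hδ2 : 4 * δ ≤ a) {p : ℕ} (hp : 2 ≤ p) {D : ℕ} (hD : 8 ≤ δ * D) {C : ℕ} (hC : 1 ≤ C) :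
    ∀ᵐ y ∂(volume.restrict (Set.Icc (0 : ℝ) 1)), ∀ᶠ k : ℕ in atTop, ∀ φ : ℕ → ℕ → ℝ,
      (∀ i j, |φ i j| ≤ 1) →
      |∑ j ∈ Finset.Icc 1 (k ^ D), (ind a p y j : ℝ) * φ (cnt a p y j) j
        - ∑ c ∈ Finset.Icc 1 C, ∑ s ∈ Finset.Ico (N0 δ (k ^ D)) (k ^ D),
            Xc a p (k ^ D) c s (Int.fract ((p : ℝ) ^ s * y)) *
              φ (al a p (k ^ D) y s + c) (s + c)|
        ≤ 5 * ((p : ℝ) ^ C)⁻¹ * ((k ^ D : ℕ) : ℝ) ^ (1 - a) := by
  have hD0 : D ≠ 0 := by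
    rintro rfl
    norm_num at hD
  have hkD := tendsto_kD hD0
  have hpC : (0 : ℝ) < ((p : ℝ) ^ C)⁻¹ := by positivity
  set ε : ℝ := ((p : ℝ) ^ C)⁻¹ / 2 with hε
  have hε0 : 0 < ε := by positivity
  -- eventual inequalities
  have g0 : ∀ᶠ N : ℕ in atTop, (1 : ℝ) ≤ N := by
    filter_upwards [eventually_ge_atTop 1] with N hN
    exact_mod_cast hN
  have g1 : ∀ᶠ N : ℕ in atTop, ((C : ℝ) + 1) * (N : ℝ) ^ (0 : ℝ) ≤ 1 / 2 * (N : ℝ) ^ (1 : ℝ) :=
    ev_rpow' (by norm_num) _ (by norm_num)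
  have g2 : ∀ᶠ N : ℕ in atTop, 1 * (N : ℝ) ^ (1 - δ) ≤ 1 / 2 * (N : ℝ) ^ (1 : ℝ) :=
    ev_rpow' (by linarith) _ (by norm_num)
  have g3 : ∀ᶠ N : ℕ in atTop, (hN N : ℝ) ≤ (N : ℝ) ^ δ := ev_hN hδ
  have g4 : ∀ᶠ N : ℕ in atTop, 2 * (N : ℝ) ^ δ ≤ (N : ℝ) ^ (1 - δ) :=
    ev_rpow (by linarith) _
  have g5 : ∀ᶠ N : ℕ in atTop, ((C : ℝ) + 2) * (N : ℝ) ^ (0 : ℝ) ≤ (N : ℝ) ^ (1 - δ) :=
    ev_rpow (by linarith) _
  have g6 : ∀ᶠ N : ℕ in atTop, (C : ℝ) * (N : ℝ) ^ (0 : ℝ) ≤ (N : ℝ) ^ δ := ev_rpow hδ _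
  have t1 : ∀ᶠ N : ℕ in atTop, 6 * (N : ℝ) ^ ((1 - δ) * (1 - a)) ≤ ε * (N : ℝ) ^ (1 - a) :=
    ev_rpow' (by nlinarith) _ hε0
  have t2 : ∀ᶠ N : ℕ in atTop, 2 * (N : ℝ) ^ (2 * δ + 1 / 4) ≤ ε * (N : ℝ) ^ (1 - a) :=
    ev_rpow' (by linarith) _ hε0
  have t3 : ∀ᶠ N : ℕ in atTop, (2 * ((p : ℝ) ^ C)⁻¹) * (N : ℝ) ^ (3 / 4 - a) ≤
      ε * (N : ℝ) ^ (1 - a) := ev_rpow' (by linarith) _ hε0
  have t4 : ∀ᶠ N : ℕ in atTop, (2 * (C : ℝ)) * (N : ℝ) ^ (1 - a - δ) ≤ ε * (N : ℝ) ^ (1 - a) :=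
    ev_rpow' (by linarith) _ hε0
  have t5 : ∀ᶠ N : ℕ in atTop, ((C : ℝ) * C) * (N : ℝ) ^ (0 : ℝ) ≤ ε * (N : ℝ) ^ (1 - a) :=
    ev_rpow' (by linarith) _ hε0
  have hM : Tendsto (fun N : ℕ => N0 δ N + C) atTop atTop := by
    apply tendsto_atTop_mono (f := fun N : ℕ => N0 δ N) (fun N => Nat.le_add_right _ _)
    have : Tendsto (fun N : ℕ => (N : ℝ) ^ (1 - δ)) atTop atTop :=
      (tendsto_rpow_atTop (by linarith)).comp tendsto_natCast_atTop_atTop
    exact tendsto_nat_ceil_atTop.comp this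
  have hclose : ∀ᵐ y ∂(volume.restrict (Set.Icc (0 : ℝ) 1)), ∀ c ∈ Finset.Icc 1 C,
      ∀ᶠ k : ℕ in atTop, Hc a p (k ^ D) c (LL a δ p (k ^ D)) (N0 δ (k ^ D)) y ≤
        ((k ^ D : ℕ) : ℝ) ^ (1 - a - δ) := by
    rw [Finset.eventually_all]
    intro c hc
    exact ae_close ha ha2 hδ hδ2 hp hD (Finset.mem_Icc.1 hc).1
  filter_upwards [ae_trunc ha hp, ae_slln ha ha2 hδ hδ1 hδ2 hp, ae_tail ha hp hD hC, hclose]
    with y h1 h2 h3 h4
  have h2' := hM.eventually h2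
  have h4' : ∀ᶠ k : ℕ in atTop, ∀ c ∈ Finset.Icc 1 C,
      Hc a p (k ^ D) c (LL a δ p (k ^ D)) (N0 δ (k ^ D)) y ≤
        ((k ^ D : ℕ) : ℝ) ^ (1 - a - δ) := by
    rw [Finset.eventually_all]
    exact h4
  filter_upwards [hkD.eventually h1, hkD.eventually h2', h3, h4', hkD.eventually g0,
    hkD.eventually g1, hkD.eventually g2, hkD.eventually g3, hkD.eventually g4, hkD.eventually g5,
    hkD.eventually g6, hkD.eventually t1, hkD.eventually t2, hkD.eventually t3, hkD.eventually t4,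
    hkD.eventually t5] with k htr hsl htail hcl g0 g1 g2 g3 g4 g5 g6 t1 t2 t3 t4 t5 φ hφ
  set N : ℕ := k ^ D with hNdef
  set n₀ : ℕ := N0 δ N with hn₀
  have hge := N0_ge δ N
  have hle := N0_le δ N
  rw [← hn₀] at hge hle
  rw [Real.rpow_zero, mul_one] at g5 g6 g1 t5
  rw [Real.rpow_one] at g1 g2
  have hN0 : (0 : ℝ) < N := by linarith
  have hn2 : (2 : ℝ) ≤ n₀ := by linarith [(Nat.cast_nonneg C : (0 : ℝ) ≤ C)]
  have hMN : n₀ + C ≤ N := by
    have : ((n₀ + C : ℕ) : ℝ) ≤ N := by push_cast; linarith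
    exact_mod_cast this
  have hdet := det ha hp hC hMN htr hφ
  refine hdet.trans ?_
  -- the close pairs
  obtain ⟨hL1, _⟩ := LL_spec ha hp hn2
  have hL : ∀ j, n₀ < j + hN N → thr a p N j ≤ 1 / (p : ℝ) ^ (LL a δ p N) := by
    intro j hj
    refine le_trans ?_ hL1
    refine (Appr.thr_le hp N j).trans ?_
    have hj' : (n₀ : ℝ) / 2 ≤ j := by
      have h5 : (n₀ : ℝ) < j + hN N := by exact_mod_cast hj
      linarith
    rw [← Real.rpow_neg (by positivity)]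
    exact Real.rpow_le_rpow_of_nonpos (by linarith) hj' (by linarith)
  have hsumc : ∀ c ∈ Finset.Icc 1 C, 2 * (∑ s ∈ Finset.Ico n₀ N,
        Xc a p N c s (Int.fract ((p : ℝ) ^ s * y)) *
          dI (St a p N y s) (al a p N y s)) + C ≤
      2 * (N : ℝ) ^ (1 - a - δ) + C := by
    intro c hc
    have h5 := hcl c hc
    have h6 : ∑ s ∈ Finset.Ico n₀ N, Xc a p N c s (Int.fract ((p : ℝ) ^ s * y)) *
          dI (St a p N y s) (al a p N y s) ≤
        Hc a p N c (LL a δ p N) n₀ y := by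
      unfold Hc
      refine Finset.sum_le_sum fun s hs => ?_
      exact close_le hp (Finset.mem_Ico.1 hs).1 hL
    linarith
  have hsum := Finset.sum_le_sum hsumc
  rw [Finset.sum_const, Nat.card_Icc, Nat.add_sub_cancel, nsmul_eq_mul] at hsum
  -- the first part
  have hcnt : (cnt a p y (n₀ + C) : ℝ) ≤ 6 * (N : ℝ) ^ ((1 - δ) * (1 - a)) := by
    have h5 := (abs_le.1 hsl).2
    have h6 := W_le ha ha2 (n₀ + C)
    have hM1 : (1 : ℝ) ≤ ((n₀ + C : ℕ) : ℝ) := by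
      push_cast
      linarith [(Nat.cast_nonneg C : (0 : ℝ) ≤ C)]
    have h7 : ((n₀ + C : ℕ) : ℝ) ^ (1 - a - δ) ≤ ((n₀ + C : ℕ) : ℝ) ^ (1 - a) :=
      Real.rpow_le_rpow_of_exponent_le hM1 (by linarith)
    have h8 : ((n₀ + C : ℕ) : ℝ) ≤ 2 * (N : ℝ) ^ (1 - δ) := by
      push_cast
      linarith
    have h9 : ((n₀ + C : ℕ) : ℝ) ^ (1 - a) ≤ 2 * (N : ℝ) ^ ((1 - δ) * (1 - a)) := by
      refine (Real.rpow_le_rpow (by linarith) h8 (by linarith)).trans ?_
      rw [Real.mul_rpow (by norm_num) (by positivity), ← Real.rpow_mul hN0.le]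
      apply mul_le_mul_of_nonneg_right _ (by positivity)
      calc (2 : ℝ) ^ (1 - a) ≤ (2 : ℝ) ^ (1 : ℝ) :=
            Real.rpow_le_rpow_of_exponent_le (by norm_num) (by linarith)
        _ = 2 := Real.rpow_one 2
    linarith
  -- the residual count
  have hres : ∑ s ∈ Finset.range N, lt1 (thr a p N (s + C) / (p : ℝ) ^ C)
        (Int.fract ((p : ℝ) ^ s * y)) ≤
      2 * (N : ℝ) ^ (2 * δ + 1 / 4) + (2 * ((p : ℝ) ^ C)⁻¹ * (N : ℝ) ^ (1 - a) +
        (2 * ((p : ℝ) ^ C)⁻¹) * (N : ℝ) ^ (3 / 4 - a)) := by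
    refine htail.trans ?_
    apply add_le_add
    · have h5 : ((C + hN N : ℕ) : ℝ) ≤ 2 * (N : ℝ) ^ δ := by push_cast; linarith
      calc ((C + hN N : ℕ) : ℝ) * (N : ℝ) ^ δ * (N : ℝ) ^ ((1 : ℝ) / 4)
          ≤ (2 * (N : ℝ) ^ δ) * (N : ℝ) ^ δ * (N : ℝ) ^ ((1 : ℝ) / 4) := by gcongr
        _ = 2 * (N : ℝ) ^ (2 * δ + 1 / 4) := by
            rw [Real.rpow_add hN0, two_mul δ, Real.rpow_add hN0]
            ring
    · have h5 := W_le ha ha2 N
      have h6 : (N : ℝ) ^ (3 / 4 - a) = (N : ℝ) ^ (-(1 : ℝ) / 4) * (N : ℝ) ^ (1 - a) := by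
        rw [← Real.rpow_add hN0]
        congr 1
        ring
      calc (1 + (N : ℝ) ^ (-(1 : ℝ) / 4)) * (((p : ℝ) ^ C)⁻¹ * W a N)
          ≤ (1 + (N : ℝ) ^ (-(1 : ℝ) / 4)) * (((p : ℝ) ^ C)⁻¹ * (2 * (N : ℝ) ^ (1 - a))) := by
            gcongr
        _ = _ := by rw [h6]; ring
  have hε2 : ((p : ℝ) ^ C)⁻¹ = 2 * ε := by rw [hε]; ring
  have hNa : 0 ≤ (N : ℝ) ^ (1 - a) := by positivity
  have hfin : 6 * (N : ℝ) ^ ((1 - δ) * (1 - a)) + (2 * (N : ℝ) ^ (2 * δ + 1 / 4) +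
      (2 * ((p : ℝ) ^ C)⁻¹ * (N : ℝ) ^ (1 - a) +
        (2 * ((p : ℝ) ^ C)⁻¹) * (N : ℝ) ^ (3 / 4 - a))) +
      (C : ℝ) * (2 * (N : ℝ) ^ (1 - a - δ) + C) ≤ 5 * ((p : ℝ) ^ C)⁻¹ * (N : ℝ) ^ (1 - a) := by
    have h5 : (C : ℝ) * (2 * (N : ℝ) ^ (1 - a - δ) + C) =
        (2 * (C : ℝ)) * (N : ℝ) ^ (1 - a - δ) + (C : ℝ) * C := by ring
    have h6 : 5 * ((p : ℝ) ^ C)⁻¹ * (N : ℝ) ^ (1 - a) =
        2 * ((p : ℝ) ^ C)⁻¹ * (N : ℝ) ^ (1 - a) + 6 * (ε * (N : ℝ) ^ (1 - a)) := by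
      rw [hε2]; ring
    have h7 : 0 ≤ ε * (N : ℝ) ^ (1 - a) := by positivity
    rw [h5, h6]
    linarith
  refine le_trans ?_ hfin
  exact add_le_add (add_le_add hcnt hres) hsum

end Pool.Agent.SRG
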