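import Pool.Agent.SRG.Defs

/-!
Semi-random ergodic averages: auxiliary notions used in the proof.
-/

open MeasureTheory Filter Topology

namespace Pool.Agent.SRG

noncomputable section

/-- indicator (as a natural number) of the return set -/
def ind (a : ℝ) (p : ℕ) (y : ℝ) (n : ℕ) : ℕ :=
  haveI := Classical.dec (n ∈ returnSet a p y)
  if n ∈ returnSet a p y then 1 else 0

/-- number of return times up to `n` -/
def cnt (a : ℝ) (p : ℕ) (y : ℝ) (n : ℕ) : ℕ := ∑ j ∈ Finset.Icc 1 n, ind a p y j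

/-- expected number of return times -/
def W (a : ℝ) (N : ℕ) : ℝ := ∑ n ∈ Finset.Icc 1 N, (n : ℝ) ^ (-a)

/-- number of digits used at scale `N`; `N ^ 3 ≤ 2 ^ hN N` -/
def hN (N : ℕ) : ℕ := 3 * (Nat.log 2 N + 1)

/-- truncated threshold at scale `N`: `n ^ (-a)` rounded down to a multiple of `p ^ (-hN N)` -/
def thr (a : ℝ) (p N n : ℕ) : ℝ :=
  (⌊(p : ℝ) ^ (hN N) * (n : ℝ) ^ (-a)⌋ : ℝ) / (p : ℝ) ^ (hN N)

/-- truncated indicator at scale `N` -/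
def Xt (a : ℝ) (p N : ℕ) (y : ℝ) (n : ℕ) : ℕ :=
  haveI := Classical.dec (Int.fract ((p : ℝ) ^ n * y) < thr a p N n)
  if Int.fract ((p : ℝ) ^ n * y) < thr a p N n then 1 else 0

/-- truncated count at scale `N` -/
def St (a : ℝ) (p N : ℕ) (y : ℝ) (n : ℕ) : ℕ := ∑ j ∈ Finset.Icc 1 n, Xt a p N y j

/-- the delayed count: only depends on the first `s` digits of `y` -/
def al (a : ℝ) (p N : ℕ) (y : ℝ) (s : ℕ) : ℕ := St a p N y (s - hN N)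

/-- `Xc a p N c s z` for `z = fract (p ^ s y)`: the digit `s + 1` is not zero, the following
`c - 1` digits are zero and `s + c` is a (truncated) return time -/
def Xc (a : ℝ) (p N c s : ℕ) (z : ℝ) : ℝ :=
  haveI := Classical.dec (1 / (p : ℝ) ≤ z ∧
    Int.fract ((p : ℝ) * z) < thr a p N (s + c) / (p : ℝ) ^ (c - 1))
  if 1 / (p : ℝ) ≤ z ∧ Int.fract ((p : ℝ) * z) < thr a p N (s + c) / (p : ℝ) ^ (c - 1) then 1
  else 0

/-- the probability of `Xc` -/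
def wc (a : ℝ) (p N c s : ℕ) : ℝ :=
  (1 - 1 / (p : ℝ)) * (thr a p N (s + c) / (p : ℝ) ^ (c - 1))

/-- centred version of `Xc` at the point `y` -/
def Yc (a : ℝ) (p N c : ℕ) (y : ℝ) (s : ℕ) : ℝ :=
  Xc a p N c s (Int.fract ((p : ℝ) ^ s * y)) - wc a p N c s

/-- start of the range -/
def N0 (δ : ℝ) (N : ℕ) : ℕ := ⌈(N : ℝ) ^ (1 - δ)⌉₊

/-- length of the van der Corput window -/
def Mw (a δ : ℝ) (N : ℕ) : ℕ := ⌈(N : ℝ) ^ (a + δ)⌉₊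

/-- bound for the number of returns in a window -/
def Rw (δ : ℝ) (N : ℕ) : ℕ := ⌈(N : ℝ) ^ (2 * δ)⌉₊

/-- the exponential sums -/
def expSum (a : ℝ) (p N c : ℕ) (δ : ℝ) (y : ℝ) (m r Q k₁ k₂ : ℕ) : ℂ :=
  ∑ s ∈ Finset.Ico (N0 δ N) (N - m),
    if al a p N y (s + m) = al a p N y s + r then
      ((Yc a p N c y s * Yc a p N c y (s + m) : ℝ) : ℂ) *
        Complex.exp (2 * Real.pi * Complex.I * ((k₁ * al a p N y s + k₂ * s : ℕ) : ℂ) / (2 * Q : ℕ))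
    else 0

/-- The pseudorandomness properties of `y` (with `N = k ^ D`). -/
structure GoodY (a δ : ℝ) (p D : ℕ) (y : ℝ) : Prop where
  trunc : ∀ᶠ N : ℕ in atTop, ∀ n : ℕ, 1 ≤ n → n ≤ 2 * N → Xt a p N y n = ind a p y n
  slln : ∀ᶠ N : ℕ in atTop, |(cnt a p y N : ℝ) - W a N| ≤ (N : ℝ) ^ (1 - a - δ)
  approx : ∀ C : ℕ, 1 ≤ C → ∀ᶠ k : ℕ in atTop, ∀ φ : ℕ → ℕ → ℝ, (∀ i j, |φ i j| ≤ 1) →
    |∑ j ∈ Finset.Icc 1 (k ^ D), (ind a p y j : ℝ) * φ (cnt a p y j) j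
      - ∑ c ∈ Finset.Icc 1 C, ∑ s ∈ Finset.Ico (N0 δ (k ^ D)) (k ^ D),
          Xc a p (k ^ D) c s (Int.fract ((p : ℝ) ^ s * y)) * φ (al a p (k ^ D) y s + c) (s + c)|
      ≤ 5 * ((p : ℝ) ^ C)⁻¹ * ((k ^ D : ℕ) : ℝ) ^ (1 - a)
  sq : ∀ c : ℕ, 1 ≤ c → ∀ᶠ N : ℕ in atTop,
    ∑ s ∈ Finset.Ico (N0 δ N) N, (Yc a p N c y s) ^ 2 ≤ (N : ℝ) ^ (1 - a + δ / 2)
  win : ∀ᶠ N : ℕ in atTop, ∀ s m : ℕ, N0 δ N ≤ s → s + m < N → m < Mw a δ N →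
    al a p N y (s + m) < al a p N y s + Rw δ N
  expsum : ∀ c : ℕ, 1 ≤ c → ∀ᶠ N : ℕ in atTop, ∀ m r k₁ k₂ : ℕ, 2 * hN N ≤ m → m < Mw a δ N →
    r < Rw δ N → k₁ < 2 * (2 * N) → k₂ < 2 * (2 * N) →
    ‖expSum a p N c δ y m r (2 * N) k₁ k₂‖ ≤ 4 * (N : ℝ) ^ (1 / 2 - a + 2 * δ)

/-- `F` only depends on the first `t` digits -/
def DigM (p t : ℕ) (F : ℝ → ℝ) : Prop :=
  ∀ y z : ℝ, ⌊(p : ℝ) ^ t * y⌋ = ⌊(p : ℝ) ^ t * z⌋ → F y = F z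

end

end Pool.Agent.SRG
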