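import Mathlib

/-!
Semi-random ergodic averages along return times of `x ↦ p x`: definitions of the statement.
-/

open MeasureTheory Filter Topology

namespace Pool.Agent.SRG

noncomputable section

/-- The set `Λ_{a,p}(y)` of return times: `n ≥ 1` with `p ^ n y mod 1 ∈ (0, n ^ (-a))`. -/
def returnSet (a : ℝ) (p : ℕ) (y : ℝ) : Set ℕ :=
  {n | 1 ≤ n ∧ Int.fract ((p : ℝ) ^ n * y) ∈ Set.Ioo (0 : ℝ) ((n : ℝ) ^ (-a))}

/-- The σ-algebra `I(T)` of the events `A` with `T⁻¹ A = A` modulo `μ`. -/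
@[instance_reducible]
def invAlg {X : Type*} [MeasurableSpace X] (μ : Measure X) (T : X → X) : MeasurableSpace X where
  MeasurableSet' A := MeasurableSet A ∧ T ⁻¹' A =ᵐ[μ] A
  measurableSet_empty := ⟨MeasurableSet.empty, by simp⟩
  measurableSet_compl A hA := ⟨hA.1.compl, by
    rw [Set.preimage_compl]; exact hA.2.compl⟩
  measurableSet_iUnion A hA := ⟨MeasurableSet.iUnion fun n => (hA n).1, by
    rw [Set.preimage_iUnion]; exact Filter.EventuallyEq.countable_iUnion fun n => (hA n).2⟩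

/-- An increasing sequence `b 1 < b 2 < ...` of positive integers is semi-random good. -/
def SemiRandomGood.{u} (b : ℕ → ℕ) : Prop :=
  ∀ (X : Type u) [MeasurableSpace X] (μ : Measure X) [IsProbabilityMeasure μ] (T₁ T₂ : X → X),
    MeasurePreserving T₁ μ μ → MeasurePreserving T₂ μ μ → T₁ ∘ T₂ =ᵐ[μ] T₂ ∘ T₁ →
    ∀ f₁ f₂ : X → ℂ, MemLp f₁ ⊤ μ → MemLp f₂ ⊤ μ →
      ∀ᵐ x ∂μ, Tendsto
        (fun N : ℕ => (N : ℂ)⁻¹ * ∑ n ∈ Finset.Icc 1 N, f₁ (T₁^[n] x) * f₂ (T₂^[b n] x)) atTop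
        (𝓝 ((μ[f₁ | invAlg μ T₁]) x * (μ[f₂ | invAlg μ T₂]) x))

end

end Pool.Agent.SRG
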