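import Pool.Agent.SRG.Facts
import Pool.Agent.SRG.Dig

/-!
Semi-random ergodic averages, module M4c: exponential sums along return times.
-/

open MeasureTheory Filter Topology

namespace Pool.Agent.SRG

noncomputable section

namespace Exps

theorem Xt_congr (a : ℝ) {p : ℕ} (hp : 2 ≤ p) (N : ℕ) {n t : ℕ} (hnt : n + hN N ≤ t) {y z : ℝ}
    (h : ⌊(p : ℝ) ^ t * y⌋ = ⌊(p : ℝ) ^ t * z⌋) : Xt a p N y n = Xt a p N z n := by
  have h1 := DigM.comp_fract (p := p) (w := hN N) (by omega)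
    (DigM.lt_thr (by omega) ⌊(p : ℝ) ^ (hN N) * (n : ℝ) ^ (-a)⌋ (1 : ℝ) 0) n
  have h2 := (DigM.mono (by omega) hnt h1) y z h
  have h3 : ((Xt a p N y n : ℕ) : ℝ) = (Xt a p N z n : ℕ) := by
    unfold Xt thr
    push_cast
    simpa using h2
  exact_mod_cast h3

theorem al_congr (a : ℝ) {p : ℕ} (hp : 2 ≤ p) (N : ℕ) {s t : ℕ} (hst : s ≤ t) {y z : ℝ}
    (h : ⌊(p : ℝ) ^ t * y⌋ = ⌊(p : ℝ) ^ t * z⌋) : al a p N y s = al a p N z s := by
  unfold al St
  refine Finset.sum_congr rfl fun j hj => ?_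
  rw [Finset.mem_Icc] at hj
  exact Xt_congr a hp N (by omega) h

/-- the second factor of `Xc` -/
def gc (a : ℝ) (p N c s : ℕ) (z : ℝ) : ℝ :=
  haveI := Classical.dec (z < (⌊(p : ℝ) ^ (hN N) * ((s + c : ℕ) : ℝ) ^ (-a)⌋ : ℝ) /
    (p : ℝ) ^ (hN N + (c - 1)))
  if z < (⌊(p : ℝ) ^ (hN N) * ((s + c : ℕ) : ℝ) ^ (-a)⌋ : ℝ) /
    (p : ℝ) ^ (hN N + (c - 1)) then 1 else 0

/-- the first factor of `Xc` -/
def fc (p : ℕ) (z : ℝ) : ℝ :=
  haveI := Classical.dec (z < ((1 : ℤ) : ℝ) / (p : ℝ) ^ 1)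
  if z < ((1 : ℤ) : ℝ) / (p : ℝ) ^ 1 then 0 else 1

theorem Xc_eq (a : ℝ) (p N c s : ℕ) (z : ℝ) :
    Xc a p N c s z = fc p z * gc a p N c s (Int.fract ((p : ℝ) ^ 1 * z)) := by
  have h1 : (1 / (p : ℝ) ≤ z) ↔ ¬ (z < ((1 : ℤ) : ℝ) / (p : ℝ) ^ 1) := by
    rw [not_lt]; simp
  have h2 : thr a p N (s + c) / (p : ℝ) ^ (c - 1) =
      (⌊(p : ℝ) ^ (hN N) * ((s + c : ℕ) : ℝ) ^ (-a)⌋ : ℝ) / (p : ℝ) ^ (hN N + (c - 1)) := by
    unfold thr
    rw [pow_add, div_div]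
  unfold Xc fc gc
  by_cases h3 : z < ((1 : ℤ) : ℝ) / (p : ℝ) ^ 1
  · have h4 : ¬ (1 / (p : ℝ) ≤ z ∧
        Int.fract ((p : ℝ) * z) < thr a p N (s + c) / (p : ℝ) ^ (c - 1)) :=
      fun h => (h1.mp h.1) h3
    rw [if_neg h4, if_pos h3, zero_mul]
  · have h4 : 1 / (p : ℝ) ≤ z := by rw [h1]; exact h3
    rw [if_neg h3, one_mul, pow_one]
    by_cases h5 : Int.fract ((p : ℝ) * z) < thr a p N (s + c) / (p : ℝ) ^ (c - 1)
    · have h6 := h5
      rw [h2] at h6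
      rw [if_pos (And.intro h4 h5), if_pos h6]
    · have h6 := h5
      rw [h2] at h6
      have h7 : ¬ (1 / (p : ℝ) ≤ z ∧
        Int.fract ((p : ℝ) * z) < thr a p N (s + c) / (p : ℝ) ^ (c - 1)) := fun h => h5 h.2
      rw [if_neg h7, if_neg h6]

theorem digM_fc {p : ℕ} (hp : 2 ≤ p) : DigM p 1 (fc p) :=
  DigM.lt_thr (by omega) 1 (0 : ℝ) 1

theorem digM_gc (a : ℝ) {p : ℕ} (hp : 2 ≤ p) (N c s : ℕ) :
    DigM p (hN N + (c - 1)) (gc a p N c s) :=
  DigM.lt_thr (by omega) _ (1 : ℝ) 0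

theorem digM_Xc (a : ℝ) {p : ℕ} (hp : 2 ≤ p) (N : ℕ) {c : ℕ} (hc : 1 ≤ c) (s : ℕ) :
    DigM p (c + hN N) (Xc a p N c s) := by
  intro y z h
  rw [Xc_eq, Xc_eq]
  have h1 := (DigM.mono (by omega) (by omega : 1 ≤ c + hN N) (digM_fc hp)) y z h
  have h2 := (DigM.mono (by omega) (by omega : 1 + (hN N + (c - 1)) ≤ c + hN N)
    (DigM.comp_fract (by omega) (digM_gc a hp N c s) 1)) y z h
  rw [h1]
  simp only at h2
  rw [h2]

theorem Yc_congr (a : ℝ) {p : ℕ} (hp : 2 ≤ p) (N : ℕ) {c : ℕ} (hc : 1 ≤ c) {s t : ℕ}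
    (hst : s + (c + hN N) ≤ t) {y z : ℝ}
    (h : ⌊(p : ℝ) ^ t * y⌋ = ⌊(p : ℝ) ^ t * z⌋) : Yc a p N c y s = Yc a p N c z s := by
  have h1 := (DigM.mono (by omega) hst (DigM.comp_fract (by omega) (digM_Xc a hp N hc s) s)) y z h
  unfold Yc
  simp only at h1
  rw [h1]

theorem intervalIntegrable_of_bdd {f : ℝ → ℝ} (hf : Measurable f) {K : ℝ} (hK : ∀ x, |f x| ≤ K)
    (a b : ℝ) : IntervalIntegrable f volume a b := by
  rw [intervalIntegrable_iff]
  refine Measure.integrableOn_of_bounded (M := K) ?_ hf.aestronglyMeasurable ?_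
  · simp
  · exact Filter.Eventually.of_forall fun x => by rw [Real.norm_eq_abs]; exact hK x

theorem integral_lt {θ : ℝ} (h0 : 0 ≤ θ) (h1 : θ ≤ 1) (A B : ℝ) :
    ∫ z in (0 : ℝ)..1, (haveI := Classical.dec (z < θ); if z < θ then A else B) =
      A * θ + B * (1 - θ) := by
  classical
  have hm : Measurable (fun z : ℝ => if z < θ then A else B) :=
    Measurable.ite measurableSet_Iio measurable_const measurable_const
  have hb : ∀ z : ℝ, |if z < θ then A else B| ≤ |A| + |B| := by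
    intro z
    split_ifs
    · linarith [abs_nonneg B]
    · linarith [abs_nonneg A]
  have e0 : ∫ z in (0 : ℝ)..1, (haveI := Classical.dec (z < θ); if z < θ then A else B) =
      ∫ z in (0 : ℝ)..1, (if z < θ then A else B) := by
    congr 1
  rw [e0, ← intervalIntegral.integral_add_adjacent_intervals
    (intervalIntegrable_of_bdd hm hb 0 θ) (intervalIntegrable_of_bdd hm hb θ 1)]
  have e1 : ∫ z in (0 : ℝ)..θ, (if z < θ then A else B) = ∫ z in (0 : ℝ)..θ, A := by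
    refine intervalIntegral.integral_congr_ae ?_
    have : ∀ᵐ z : ℝ, z ≠ θ := by
      rw [ae_iff]; simp
    filter_upwards [this] with z hz hz2
    rw [Set.uIoc_of_le h0] at hz2
    rw [if_pos (lt_of_le_of_ne hz2.2 hz)]
  have e2 : ∫ z in (θ : ℝ)..1, (if z < θ then A else B) = ∫ z in (θ : ℝ)..1, B := by
    refine intervalIntegral.integral_congr ?_
    intro z hz
    rw [Set.uIcc_of_le h1] at hz
    simp only
    rw [if_neg (not_lt.mpr hz.1)]
  rw [e1, e2]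
  simp
  ring

theorem integral_Xc {a : ℝ} (ha : 0 < a) {p : ℕ} (hp : 2 ≤ p) (N : ℕ) {c : ℕ} (s : ℕ) :
    ∫ z in (0 : ℝ)..1, Xc a p N c s z = wc a p N c s := by
  have hp1 : (2 : ℝ) ≤ p := by exact_mod_cast hp
  have hg1 : ∀ z, |gc a p N c s z| ≤ 1 := by
    intro z; unfold gc; split_ifs <;> norm_num
  have h := integral_mul_fract (t := 1) (by omega : 1 ≤ p) (digM_fc hp)
    (intervalIntegrable_of_bdd ((digM_gc a hp N c s).measurable (by omega)) hg1 0 1)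
  simp_rw [Xc_eq]
  rw [h]
  have h2 : thr a p N (s + c) / (p : ℝ) ^ (c - 1) =
      (⌊(p : ℝ) ^ (hN N) * ((s + c : ℕ) : ℝ) ^ (-a)⌋ : ℝ) / (p : ℝ) ^ (hN N + (c - 1)) := by
    unfold thr
    rw [pow_add, div_div]
  have h3 : 0 ≤ thr a p N (s + c) / (p : ℝ) ^ (c - 1) := by
    have := thr_nonneg a hp N (s + c)
    positivity
  have h4 : thr a p N (s + c) / (p : ℝ) ^ (c - 1) ≤ 1 := by
    have h5 : (1 : ℝ) ≤ (p : ℝ) ^ (c - 1) := one_le_pow₀ (by linarith)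
    exact (div_le_self (thr_nonneg a hp N (s + c)) h5).trans (thr_le_one ha hp N _)
  have e1 : ∫ z in (0 : ℝ)..1, fc p z = 1 - 1 / (p : ℝ) := by
    unfold fc
    rw [integral_lt (by positivity) (by
      rw [pow_one]; push_cast; rw [div_le_one (by linarith)]; linarith)]
    simp
  have e2 : ∫ z in (0 : ℝ)..1, gc a p N c s z = thr a p N (s + c) / (p : ℝ) ^ (c - 1) := by
    unfold gc
    rw [integral_lt (by rw [← h2]; exact h3) (by rw [← h2]; exact h4), h2]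
    simp
  rw [e1, e2]
  rfl

theorem measurable_Xc (a : ℝ) {p : ℕ} (hp : 2 ≤ p) (N : ℕ) {c : ℕ} (hc : 1 ≤ c) (s : ℕ) :
    Measurable (Xc a p N c s) :=
  (digM_Xc a hp N hc s).measurable (by omega)

theorem abs_Xc_sub {a : ℝ} (ha : 0 < a) {p : ℕ} (hp : 2 ≤ p) (N c s : ℕ) (z : ℝ) :
    |Xc a p N c s z - wc a p N c s| ≤ 1 := by
  have h1 := Xc_nonneg a p N c s z
  have h2 := Xc_le_one a p N c s z
  have h3 := wc_nonneg a hp N c s
  have h4 := wc_le_one ha hp N c s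
  rw [abs_le]; constructor <;> linarith

theorem integral_Xc_sub {a : ℝ} (ha : 0 < a) {p : ℕ} (hp : 2 ≤ p) (N : ℕ) {c : ℕ} (hc : 1 ≤ c)
    (s : ℕ) : ∫ z in (0 : ℝ)..1, (Xc a p N c s z - wc a p N c s) = 0 := by
  have hX : ∀ x, |Xc a p N c s x| ≤ 1 := fun x => by
    rw [abs_of_nonneg (Xc_nonneg a p N c s x)]; exact Xc_le_one a p N c s x
  rw [intervalIntegral.integral_sub
    (intervalIntegrable_of_bdd (measurable_Xc a hp N hc s) hX 0 1) (by simp), integral_Xc ha hp]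
  simp

theorem integral_Xc_sub_sq {a : ℝ} (ha : 0 < a) {p : ℕ} (hp : 2 ≤ p) (N : ℕ) {c : ℕ} (hc : 1 ≤ c)
    (s : ℕ) : ∫ z in (0 : ℝ)..1, (Xc a p N c s z - wc a p N c s) ^ 2 ≤ wc a p N c s := by
  have hX : ∀ x, |Xc a p N c s x| ≤ 1 := fun x => by
    rw [abs_of_nonneg (Xc_nonneg a p N c s x)]; exact Xc_le_one a p N c s x
  have e : ∀ z, (Xc a p N c s z - wc a p N c s) ^ 2 =
      (1 - 2 * wc a p N c s) * Xc a p N c s z + wc a p N c s ^ 2 := by
    intro z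
    have := Xc_sq a p N c s z
    linear_combination this
  simp_rw [e]
  rw [intervalIntegral.integral_add
    ((intervalIntegrable_of_bdd (measurable_Xc a hp N hc s) hX 0 1).const_mul _) (by simp),
    intervalIntegral.integral_const_mul, integral_Xc ha hp]
  simp
  have := wc_nonneg a hp N c s
  nlinarith [sq_nonneg (wc a p N c s)]

/-- the coefficients of the martingale transform -/
def xi (a : ℝ) (p N c m r k₁ k₂ : ℕ) (tr : ℝ → ℝ) (u : ℕ) (y : ℝ) : ℝ :=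
  if al a p N y u = al a p N y (u - m) + r then
    Yc a p N c y (u - m) * tr (2 * Real.pi *
      ((k₁ * al a p N y (u - m) + k₂ * (u - m) : ℕ) : ℝ) / ((2 * (2 * N) : ℕ) : ℝ))
  else 0

theorem digM_xi (a : ℝ) {p : ℕ} (hp : 2 ≤ p) {N c m : ℕ} (hc : 1 ≤ c) (r k₁ k₂ : ℕ)
    (tr : ℝ → ℝ) (hm : c + hN N ≤ m) {u : ℕ} (hu : m ≤ u) :
    DigM p u (xi a p N c m r k₁ k₂ tr u) := by
  intro y z h
  unfold xi
  rw [al_congr a hp N le_rfl h, al_congr a hp N (Nat.sub_le u m) h,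
    Yc_congr a hp N hc (by omega) h]

theorem abs_xi_le (a : ℝ) (p N c m r k₁ k₂ : ℕ)
    {tr : ℝ → ℝ} (htr : ∀ x, |tr x| ≤ 1) (u : ℕ) (y : ℝ) :
    |xi a p N c m r k₁ k₂ tr u y| ≤ |Yc a p N c y (u - m)| := by
  unfold xi
  split_ifs
  · rw [abs_mul]
    exact mul_le_of_le_one_right (abs_nonneg _) (htr _)
  · simp

/-- one tail event -/
theorem tail_one {a : ℝ} (ha : 0 < a) {p : ℕ} (hp : 2 ≤ p) {N c m : ℕ} (hc : 1 ≤ c)
    (r k₁ k₂ n₀ : ℕ) (hn₀ : 1 ≤ n₀) {tr : ℝ → ℝ} (htr : ∀ x, |tr x| ≤ 1) (hm : c + hN N ≤ m)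
    {l τ : ℝ} (hl : 0 < l) (hl1 : l ≤ 1) {σ : ℝ} (hσ : σ = 1 ∨ σ = -1) :
    volume {y : ℝ | y ∈ Set.Icc (0 : ℝ) 1 ∧
      ((c + hN N : ℕ) : ℝ) * τ / l + l * ∑ u ∈ Finset.Ico (n₀ + m) (N - m + m),
          (n₀ : ℝ) ^ (-a) * (xi a p N c m r k₁ k₂ tr u y) ^ 2 ≤
        σ * ∑ u ∈ Finset.Ico (n₀ + m) (N - m + m), xi a p N c m r k₁ k₂ tr u y *
          Yc a p N c y u} ≤ ENNReal.ofReal (Real.exp (-τ)) := by
  have hσ1 : |σ| = 1 := by rcases hσ with h | h <;> simp [h]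
  have hσ2 : σ ^ 2 = 1 := by rcases hσ with h | h <;> simp [h]
  have key := exp_tail hp (w := c + hN N) (by omega) (Finset.Ico (n₀ + m) (N - m + m))
    (xi a p N c m r k₁ k₂ tr) (fun u z => σ * (Xc a p N c u z - wc a p N c u))
    (fun _ => (n₀ : ℝ) ^ (-a)) (τ := τ) hl hl1
    (fun u hu => digM_xi a hp hc r k₁ k₂ tr hm (by rw [Finset.mem_Ico] at hu; omega))
    (fun u _ y => (abs_xi_le a p N c m r k₁ k₂ htr u y).trans (abs_Yc_le ha hp N c y _))
    (fun u _ => ((measurable_Xc a hp N hc u).sub_const _).const_mul σ)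
    (fun u _ z => by
      rw [abs_mul, hσ1, one_mul]; exact abs_Xc_sub ha hp N c u z)
    (fun u _ => by
      rw [intervalIntegral.integral_const_mul, integral_Xc_sub ha hp N hc, mul_zero])
    (fun u hu => by
      rw [Finset.mem_Ico] at hu
      simp_rw [mul_pow, hσ2, one_mul]
      refine (integral_Xc_sub_sq ha hp N hc u).trans ((wc_le hp N c u).trans ?_)
      exact Real.rpow_le_rpow_of_nonpos (by exact_mod_cast hn₀)
        (by exact_mod_cast (by omega : n₀ ≤ u + c)) (by linarith))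
    (fun u _ => by
      intro y z h
      have := (DigM.comp_fract (by omega) (digM_Xc a hp N hc u) u) y z h
      simp only at this ⊢
      rw [this])
  refine le_trans (measure_mono ?_) key
  intro y hy
  refine ⟨hy.1, ?_⟩
  have h2 := hy.2
  rw [Finset.mul_sum (a := σ)] at h2
  refine h2.trans (le_of_eq ?_)
  refine Finset.sum_congr rfl fun u _ => ?_
  unfold Yc
  ring

theorem expSum_re (a : ℝ) (p N c : ℕ) (δ : ℝ) (y : ℝ) (m r k₁ k₂ : ℕ) :
    (expSum a p N c δ y m r (2 * N) k₁ k₂).re =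
      ∑ u ∈ Finset.Ico (N0 δ N + m) (N - m + m), xi a p N c m r k₁ k₂ Real.cos u y *
        Yc a p N c y u := by
  rw [← Finset.sum_Ico_add' _ (N0 δ N) (N - m) m]
  unfold expSum
  rw [Complex.re_sum]
  refine Finset.sum_congr rfl fun s _ => ?_
  unfold xi
  rw [Nat.add_sub_cancel]
  split_ifs with h
  · have e : (2 * Real.pi * Complex.I * ((k₁ * al a p N y s + k₂ * s : ℕ) : ℂ) /
        ((2 * (2 * N) : ℕ) : ℂ)) = ((2 * Real.pi *
        ((k₁ * al a p N y s + k₂ * s : ℕ) : ℝ) / ((2 * (2 * N) : ℕ) : ℝ) : ℝ) : ℂ) *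
        Complex.I := by
      push_cast; ring
    rw [e, Complex.re_ofReal_mul, Complex.exp_ofReal_mul_I_re]
    ring
  · simp

theorem expSum_im (a : ℝ) (p N c : ℕ) (δ : ℝ) (y : ℝ) (m r k₁ k₂ : ℕ) :
    (expSum a p N c δ y m r (2 * N) k₁ k₂).im =
      ∑ u ∈ Finset.Ico (N0 δ N + m) (N - m + m), xi a p N c m r k₁ k₂ Real.sin u y *
        Yc a p N c y u := by
  rw [← Finset.sum_Ico_add' _ (N0 δ N) (N - m) m]
  unfold expSum
  rw [Complex.im_sum]
  refine Finset.sum_congr rfl fun s _ => ?_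
  unfold xi
  rw [Nat.add_sub_cancel]
  split_ifs with h
  · have e : (2 * Real.pi * Complex.I * ((k₁ * al a p N y s + k₂ * s : ℕ) : ℂ) /
        ((2 * (2 * N) : ℕ) : ℂ)) = ((2 * Real.pi *
        ((k₁ * al a p N y s + k₂ * s : ℕ) : ℝ) / ((2 * (2 * N) : ℕ) : ℝ) : ℝ) : ℂ) *
        Complex.I := by
      push_cast; ring
    rw [e, Complex.im_ofReal_mul, Complex.exp_ofReal_mul_I_im]
    ring
  · simp

/-- `hN N` is smaller than any power -/
theorem hN_le_rpow {δ : ℝ} (hδ : 0 < δ) (C : ℝ) :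
    ∀ᶠ N : ℕ in atTop, C + (hN N : ℝ) ≤ (N : ℝ) ^ δ := by
  have h1 := (isLittleO_log_rpow_atTop hδ).comp_tendsto
    (tendsto_natCast_atTop_atTop (R := ℝ))
  have h2 : ∀ᶠ N : ℕ in atTop, Real.log (N : ℝ) ≤ (1 / 12) * (N : ℝ) ^ δ := by
    have := h1.def (c := 1 / 12) (by norm_num)
    filter_upwards [this, eventually_ge_atTop 1] with N hN1 hN2
    simp only [Function.comp_apply, Real.norm_eq_abs] at hN1
    have h3 : 0 ≤ Real.log (N : ℝ) := Real.log_nonneg (by exact_mod_cast hN2)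
    have h4 : 0 ≤ (N : ℝ) ^ δ := Real.rpow_nonneg (Nat.cast_nonneg N) _
    rw [abs_of_nonneg h3, abs_of_nonneg h4] at hN1
    exact hN1
  have h5 : ∀ᶠ N : ℕ in atTop, 2 * (C + 3) ≤ (N : ℝ) ^ δ := by
    have := (tendsto_rpow_atTop hδ).comp (tendsto_natCast_atTop_atTop (R := ℝ))
    exact this.eventually_ge_atTop _
  filter_upwards [h2, h5, eventually_ge_atTop 1] with N hN2 hN3 hN1
  have h6 : ((Nat.log 2 N : ℕ) : ℝ) ≤ 2 * Real.log N := by
    have h7 : ((Nat.log 2 N : ℕ) : ℝ) * Real.log 2 ≤ Real.log N := by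
      rw [← Real.log_pow]
      apply Real.log_le_log (by positivity)
      exact_mod_cast Nat.pow_log_le_self 2 (by omega)
    have h8 := Real.log_two_gt_d9
    have h9 : (0 : ℝ) ≤ (Nat.log 2 N : ℕ) := Nat.cast_nonneg _
    nlinarith
  unfold hN
  push_cast
  linarith

theorem exp_neg_rpow_le {δ : ℝ} (hδ : 0 < δ) :
    ∃ K : ℝ, 0 ≤ K ∧ ∀ N : ℕ, 1 ≤ N → Real.exp (-(N : ℝ) ^ δ) ≤ K / (N : ℝ) ^ 6 := by
  obtain ⟨n, hn⟩ := exists_nat_ge (6 / δ)
  refine ⟨(n.factorial : ℝ), by positivity, fun N hN1 => ?_⟩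
  have hN2 : (1 : ℝ) ≤ N := by exact_mod_cast hN1
  have h1 := Real.pow_div_factorial_le_exp ((N : ℝ) ^ δ) (by positivity) n
  have h2 : (N : ℝ) ^ 6 ≤ ((N : ℝ) ^ δ) ^ n := by
    rw [← Real.rpow_natCast ((N : ℝ) ^ δ) n, ← Real.rpow_mul (by linarith),
      ← Real.rpow_natCast]
    apply Real.rpow_le_rpow_of_exponent_le hN2
    rw [div_le_iff₀ hδ] at hn
    push_cast
    linarith
  have h3 : (0 : ℝ) < (N : ℝ) ^ 6 := by positivity
  have h4 : (0 : ℝ) < n.factorial := by exact_mod_cast n.factorial_pos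
  rw [Real.exp_neg, le_div_iff₀ h3, inv_mul_le_iff₀ (Real.exp_pos _)]
  rw [div_le_iff₀ h4] at h1
  linarith [mul_comm (Real.exp ((N : ℝ) ^ δ)) (n.factorial : ℝ)]

/-- the bad set at scale `N` -/
def bad (a δ : ℝ) (p c N : ℕ) : Set ℝ :=
  ⋃ q ∈ (Finset.range (2 * N) ×ˢ Finset.range (2 * N)) ×ˢ
      (Finset.range (4 * N) ×ˢ Finset.range (4 * N)),
    ⋃ b ∈ (Finset.univ : Finset (Bool × Bool)),
      {y : ℝ | c + hN N ≤ q.1.1 ∧ y ∈ Set.Icc (0 : ℝ) 1 ∧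
        ((c + hN N : ℕ) : ℝ) * (N : ℝ) ^ (δ / 2) / (N : ℝ) ^ (-(1 / 2 - a) - δ / 2) +
          (N : ℝ) ^ (-(1 / 2 - a) - δ / 2) * ∑ u ∈ Finset.Ico (N0 δ N + q.1.1) (N - q.1.1 + q.1.1),
          (N0 δ N : ℝ) ^ (-a) * (xi a p N c q.1.1 q.1.2 q.2.1 q.2.2
            (if b.1 then Real.cos else Real.sin) u y) ^ 2 ≤
        (if b.2 then (1 : ℝ) else -1) * ∑ u ∈ Finset.Ico (N0 δ N + q.1.1) (N - q.1.1 + q.1.1),
          xi a p N c q.1.1 q.1.2 q.2.1 q.2.2 (if b.1 then Real.cos else Real.sin) u y *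
          Yc a p N c y u}

theorem N0_pos {δ : ℝ} {N : ℕ} (hN1 : 1 ≤ N) : 1 ≤ N0 δ N := by
  unfold N0
  rw [Nat.one_le_ceil_iff]
  have : (0 : ℝ) < N := by exact_mod_cast hN1
  positivity

theorem volume_bad {a δ : ℝ} (ha : 0 < a) (ha2 : a < 1 / 2) (hδ : 0 < δ) {p : ℕ} (hp : 2 ≤ p)
    {c : ℕ} (hc : 1 ≤ c) {N : ℕ} (hN1 : 1 ≤ N) :
    volume (bad a δ p c N) ≤
      ENNReal.ofReal (256 * (N : ℝ) ^ 4 * Real.exp (-(N : ℝ) ^ (δ / 2))) := by
  have hN2 : (1 : ℝ) ≤ N := by exact_mod_cast hN1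
  unfold bad
  refine (measure_biUnion_finset_le _ _).trans ?_
  refine (Finset.sum_le_sum (g := fun _ => ENNReal.ofReal (4 * Real.exp (-(N : ℝ) ^ (δ / 2))))
    fun q hq => ?_).trans ?_
  · refine (measure_biUnion_finset_le _ _).trans ?_
    refine (Finset.sum_le_sum (g := fun _ => ENNReal.ofReal (Real.exp (-(N : ℝ) ^ (δ / 2))))
      fun b _ => ?_).trans ?_
    · by_cases hq1 : c + hN N ≤ q.1.1
      · refine (measure_mono ?_).trans (tail_one ha hp hc q.1.2 q.2.1 q.2.2 (N0 δ N) (N0_pos hN1)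
          (tr := if b.1 then Real.cos else Real.sin) ?_ hq1
          (l := (N : ℝ) ^ (-(1 / 2 - a) - δ / 2)) (by positivity) ?_
          (σ := if b.2 then (1 : ℝ) else -1) ?_)
        · intro y hy
          exact ⟨hy.2.1, hy.2.2⟩
        · intro x
          split_ifs
          · exact Real.abs_cos_le_one x
          · exact Real.abs_sin_le_one x
        · exact Real.rpow_le_one_of_one_le_of_nonpos hN2 (by linarith)
        · split_ifs
          · exact Or.inl rfl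
          · exact Or.inr rfl
      · have : {y : ℝ | c + hN N ≤ q.1.1 ∧ y ∈ Set.Icc (0 : ℝ) 1 ∧
          ((c + hN N : ℕ) : ℝ) * (N : ℝ) ^ (δ / 2) / (N : ℝ) ^ (-(1 / 2 - a) - δ / 2) +
            (N : ℝ) ^ (-(1 / 2 - a) - δ / 2) *
            ∑ u ∈ Finset.Ico (N0 δ N + q.1.1) (N - q.1.1 + q.1.1),
            (N0 δ N : ℝ) ^ (-a) * (xi a p N c q.1.1 q.1.2 q.2.1 q.2.2
              (if b.1 then Real.cos else Real.sin) u y) ^ 2 ≤
          (if b.2 then (1 : ℝ) else -1) * ∑ u ∈ Finset.Ico (N0 δ N + q.1.1) (N - q.1.1 + q.1.1),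
            xi a p N c q.1.1 q.1.2 q.2.1 q.2.2 (if b.1 then Real.cos else Real.sin) u y *
            Yc a p N c y u} = ∅ := by
          ext y; simp [hq1]
        rw [this]; simp
    · rw [Finset.sum_const, Finset.card_univ]
      rw [ENNReal.ofReal_mul (by norm_num)]
      simp
  · rw [Finset.sum_const, Finset.card_product, Finset.card_product, Finset.card_product]
    simp only [Finset.card_range]
    rw [nsmul_eq_mul, ← ENNReal.ofReal_natCast, ← ENNReal.ofReal_mul (by positivity)]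
    apply ENNReal.ofReal_le_ofReal
    push_cast
    nlinarith [Real.exp_pos (-(N : ℝ) ^ (δ / 2))]

theorem ae_not_bad {a δ : ℝ} (ha : 0 < a) (ha2 : a < 1 / 2) (hδ : 0 < δ) {p : ℕ} (hp : 2 ≤ p)
    {c : ℕ} (hc : 1 ≤ c) : ∀ᵐ y ∂(volume : Measure ℝ), ∀ᶠ N : ℕ in atTop, y ∉ bad a δ p c N := by
  obtain ⟨K, hK0, hK⟩ := exp_neg_rpow_le (half_pos hδ)
  have hs : Summable (fun N : ℕ => 256 * K * (1 / ((N : ℝ)) ^ 2)) :=
    (Real.summable_one_div_nat_pow.mpr (by norm_num)).mul_left _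
  have h1 : ∀ᵐ y ∂(volume : Measure ℝ), ∀ᶠ N : ℕ in atTop, y ∉ bad a δ p c (N + 1) := by
    apply ae_eventually_notMem
    refine ne_top_of_le_ne_top ?_ (ENNReal.tsum_le_tsum (g := fun N : ℕ =>
      ENNReal.ofReal (256 * K * (1 / ((N + 1 : ℕ) : ℝ) ^ 2))) fun N => ?_)
    · exact ((summable_nat_add_iff 1).mpr hs).tsum_ofReal_ne_top
    · refine (volume_bad ha ha2 hδ hp hc (by omega)).trans (ENNReal.ofReal_le_ofReal ?_)
      have h2 := hK (N + 1) (by omega)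
      have h3 : (0 : ℝ) < ((N + 1 : ℕ) : ℝ) := by positivity
      calc 256 * ((N + 1 : ℕ) : ℝ) ^ 4 * Real.exp (-((N + 1 : ℕ) : ℝ) ^ (δ / 2))
          ≤ 256 * ((N + 1 : ℕ) : ℝ) ^ 4 * (K / ((N + 1 : ℕ) : ℝ) ^ 6) :=
            mul_le_mul_of_nonneg_left h2 (by positivity)
        _ = 256 * K * (1 / ((N + 1 : ℕ) : ℝ) ^ 2) := by
            field_simp
  filter_upwards [h1] with y hy
  obtain ⟨N₁, h⟩ := eventually_atTop.mp hy
  refine eventually_atTop.mpr ⟨N₁ + 1, fun N hN => ?_⟩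
  have := h (N - 1) (by omega)
  rwa [Nat.sub_add_cancel (by omega)] at this

theorem sum_xi_sq_le (a : ℝ) (p N c m r k₁ k₂ n₀ : ℕ)
    {tr : ℝ → ℝ} (htr : ∀ x, |tr x| ≤ 1) (y : ℝ) :
    ∑ u ∈ Finset.Ico (n₀ + m) (N - m + m), (xi a p N c m r k₁ k₂ tr u y) ^ 2 ≤
      ∑ s ∈ Finset.Ico n₀ N, (Yc a p N c y s) ^ 2 := by
  rw [← Finset.sum_Ico_add' _ n₀ (N - m) m]
  refine (Finset.sum_le_sum (g := fun s => (Yc a p N c y s) ^ 2) fun s _ => ?_).trans
    (Finset.sum_le_sum_of_subset_of_nonneg (Finset.Ico_subset_Ico_right (Nat.sub_le N m))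
      fun _ _ _ => sq_nonneg _)
  have := abs_xi_le a p N c m r k₁ k₂ htr (s + m) y
  rw [Nat.add_sub_cancel] at this
  exact sq_le_sq.mpr this

end Exps

/-- M4c, given the bound for the sum of squares (`ae_sq`) -/
theorem ae_expsum_of_sq {a δ : ℝ} (ha : 0 < a) (ha2 : a < 1 / 2) (hδ : 0 < δ)
    (hδ1 : 8 * δ ≤ 1 / 2 - a) (hδ2 : 4 * δ ≤ a) {p : ℕ} (hp : 2 ≤ p) {c : ℕ} (hc : 1 ≤ c)
    (h1 : ∀ᵐ y ∂(volume.restrict (Set.Icc (0 : ℝ) 1)), ∀ᶠ N : ℕ in atTop,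
      ∑ s ∈ Finset.Ico (N0 δ N) N, (Yc a p N c y s) ^ 2 ≤ (N : ℝ) ^ (1 - a + δ / 2)) :
    ∀ᵐ y ∂(volume.restrict (Set.Icc (0 : ℝ) 1)), ∀ᶠ N : ℕ in atTop, ∀ m r k₁ k₂ : ℕ,
      2 * hN N ≤ m → m < Mw a δ N → r < Rw δ N → k₁ < 2 * (2 * N) → k₂ < 2 * (2 * N) →
      ‖expSum a p N c δ y m r (2 * N) k₁ k₂‖ ≤ 4 * (N : ℝ) ^ (1 / 2 - a + 2 * δ) := by
  have h2 := ae_restrict_of_ae (s := Set.Icc (0 : ℝ) 1) (Exps.ae_not_bad ha ha2 hδ hp hc)
  filter_upwards [h1, h2, ae_restrict_mem measurableSet_Icc] with y hy1 hy2 hy3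
  have hlog : ∀ᶠ N : ℕ in atTop, c ≤ hN N := by
    filter_upwards [eventually_ge_atTop (2 ^ c)] with N hNc
    have : c ≤ Nat.log 2 N := (Nat.le_log_iff_pow_le (by norm_num) (by
      have := Nat.one_le_two_pow (n := c); omega)).mpr hNc
    unfold hN; omega
  filter_upwards [hy1, hy2, Exps.hN_le_rpow hδ (c + 1), eventually_ge_atTop 1, hlog] with N
    hsq hbad hrp hN1 hcN
  intro m r k₁ k₂ hm hmM hr hk1 hk2
  have hN2 : (1 : ℝ) ≤ N := by exact_mod_cast hN1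
  have hN3 : (0 : ℝ) < N := by linarith
  have hmN : m < N := by
    refine hmM.trans_le ?_
    unfold Mw
    rw [Nat.ceil_le]
    calc (N : ℝ) ^ (a + δ) ≤ (N : ℝ) ^ (1 : ℝ) :=
          Real.rpow_le_rpow_of_exponent_le hN2 (by linarith)
      _ = N := Real.rpow_one _
  have hrN : r < N := by
    refine hr.trans_le ?_
    unfold Rw
    rw [Nat.ceil_le]
    calc (N : ℝ) ^ (2 * δ) ≤ (N : ℝ) ^ (1 : ℝ) :=
          Real.rpow_le_rpow_of_exponent_le hN2 (by linarith)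
      _ = N := Real.rpow_one _
  have hcm : c + hN N ≤ m := by omega
  -- the main bound
  have main : ∀ b : Bool × Bool,
      (if b.2 then (1 : ℝ) else -1) * ∑ u ∈ Finset.Ico (N0 δ N + m) (N - m + m),
          Exps.xi a p N c m r k₁ k₂ (if b.1 then Real.cos else Real.sin) u y *
          Yc a p N c y u ≤ (N : ℝ) ^ (1 / 2 - a + 2 * δ) := by
    intro b
    have hb : ¬ (((c + hN N : ℕ) : ℝ) * (N : ℝ) ^ (δ / 2) / (N : ℝ) ^ (-(1 / 2 - a) - δ / 2) +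
          (N : ℝ) ^ (-(1 / 2 - a) - δ / 2) * ∑ u ∈ Finset.Ico (N0 δ N + m) (N - m + m),
          (N0 δ N : ℝ) ^ (-a) * (Exps.xi a p N c m r k₁ k₂
            (if b.1 then Real.cos else Real.sin) u y) ^ 2 ≤
        (if b.2 then (1 : ℝ) else -1) * ∑ u ∈ Finset.Ico (N0 δ N + m) (N - m + m),
          Exps.xi a p N c m r k₁ k₂ (if b.1 then Real.cos else Real.sin) u y *
          Yc a p N c y u) := by
      intro hcon
      apply hbad
      unfold Exps.bad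
      simp only [Set.mem_iUnion]
      refine ⟨((m, r), (k₁, k₂)), ?_, b, Finset.mem_univ _, hcm, hy3, hcon⟩
      simp only [Finset.mem_product, Finset.mem_range]
      omega
    refine (not_le.mp hb).le.trans ?_
    have htr : ∀ x, |(if b.1 then Real.cos else Real.sin) x| ≤ 1 := by
      intro x
      split_ifs
      · exact Real.abs_cos_le_one x
      · exact Real.abs_sin_le_one x
    have e1 : ((c + hN N : ℕ) : ℝ) * (N : ℝ) ^ (δ / 2) / (N : ℝ) ^ (-(1 / 2 - a) - δ / 2) =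
        (c + hN N : ℕ) * (N : ℝ) ^ (1 / 2 - a + δ) := by
      rw [mul_div_assoc, ← Real.rpow_sub hN3]
      congr 2
      ring
    have e2 : (N : ℝ) ^ (-(1 / 2 - a) - δ / 2) * ∑ u ∈ Finset.Ico (N0 δ N + m) (N - m + m),
          (N0 δ N : ℝ) ^ (-a) * (Exps.xi a p N c m r k₁ k₂
            (if b.1 then Real.cos else Real.sin) u y) ^ 2 ≤ (N : ℝ) ^ (1 / 2 - a + δ) := by
      rw [← Finset.mul_sum]
      have h3 := (Exps.sum_xi_sq_le a p N c m r k₁ k₂ (N0 δ N) htr y).trans hsq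
      have h4 : (N0 δ N : ℝ) ^ (-a) ≤ (N : ℝ) ^ (-(a * (1 - δ))) := by
        have h5 : (N : ℝ) ^ (1 - δ) ≤ N0 δ N := Nat.le_ceil _
        calc (N0 δ N : ℝ) ^ (-a) ≤ ((N : ℝ) ^ (1 - δ)) ^ (-a) :=
              Real.rpow_le_rpow_of_nonpos (by positivity) h5 (by linarith)
          _ = (N : ℝ) ^ (-(a * (1 - δ))) := by
              rw [← Real.rpow_mul hN3.le]; congr 1; ring
      have h6 : 0 ≤ ∑ u ∈ Finset.Ico (N0 δ N + m) (N - m + m), (Exps.xi a p N c m r k₁ k₂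
            (if b.1 then Real.cos else Real.sin) u y) ^ 2 :=
        Finset.sum_nonneg fun _ _ => sq_nonneg _
      calc (N : ℝ) ^ (-(1 / 2 - a) - δ / 2) * ((N0 δ N : ℝ) ^ (-a) *
            ∑ u ∈ Finset.Ico (N0 δ N + m) (N - m + m), (Exps.xi a p N c m r k₁ k₂
            (if b.1 then Real.cos else Real.sin) u y) ^ 2)
          ≤ (N : ℝ) ^ (-(1 / 2 - a) - δ / 2) * ((N : ℝ) ^ (-(a * (1 - δ))) *
            (N : ℝ) ^ (1 - a + δ / 2)) := by
            apply mul_le_mul_of_nonneg_left _ (by positivity)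
            exact mul_le_mul h4 h3 h6 (by positivity)
        _ = (N : ℝ) ^ (-(1 / 2 - a) - δ / 2 + (-(a * (1 - δ)) + (1 - a + δ / 2))) := by
            rw [← Real.rpow_add hN3, ← Real.rpow_add hN3]
        _ ≤ (N : ℝ) ^ (1 / 2 - a + δ) := by
            apply Real.rpow_le_rpow_of_exponent_le hN2
            nlinarith
    rw [e1]
    have h7 : (0 : ℝ) < (N : ℝ) ^ (1 / 2 - a + δ) := by positivity
    calc ((c + hN N : ℕ) : ℝ) * (N : ℝ) ^ (1 / 2 - a + δ) + _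
        ≤ ((c + hN N : ℕ) : ℝ) * (N : ℝ) ^ (1 / 2 - a + δ) + (N : ℝ) ^ (1 / 2 - a + δ) :=
          by linarith
      _ = (((c + hN N : ℕ) : ℝ) + 1) * (N : ℝ) ^ (1 / 2 - a + δ) := by ring
      _ ≤ (N : ℝ) ^ δ * (N : ℝ) ^ (1 / 2 - a + δ) := by
          apply mul_le_mul_of_nonneg_right _ h7.le
          push_cast
          linarith
      _ = (N : ℝ) ^ (1 / 2 - a + 2 * δ) := by
          rw [← Real.rpow_add hN3]; congr 1; ring
  have hre : |(expSum a p N c δ y m r (2 * N) k₁ k₂).re| ≤ (N : ℝ) ^ (1 / 2 - a + 2 * δ) := by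
    rw [Exps.expSum_re, abs_le]
    have m1 := main (true, true)
    have m2 := main (true, false)
    simp only [if_true, Bool.false_eq_true, if_false] at m1 m2
    constructor <;> linarith
  have him : |(expSum a p N c δ y m r (2 * N) k₁ k₂).im| ≤ (N : ℝ) ^ (1 / 2 - a + 2 * δ) := by
    rw [Exps.expSum_im, abs_le]
    have m1 := main (false, true)
    have m2 := main (false, false)
    simp only [if_true, Bool.false_eq_true, if_false] at m1 m2
    constructor <;> linarith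
  have hpos : (0 : ℝ) < (N : ℝ) ^ (1 / 2 - a + 2 * δ) := by positivity
  refine (Complex.norm_le_abs_re_add_abs_im _).trans ?_
  linarith

end

end Pool.Agent.SRG
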