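import Pool.Agent.SRG.Win
import Pool.Agent.SRG.Trunc

/-!
Semi-random ergodic averages, module M4b, second part: squares.  Seat: helper96.
-/

open MeasureTheory Filter Topology

namespace Pool.Agent.SRG

noncomputable section

open Win in
/-- M4b -/
theorem ae_sq {a δ : ℝ} (ha : 0 < a) (ha2 : a < 1 / 2) (hδ : 0 < δ) (hδ1 : 8 * δ ≤ 1 / 2 - a)
    (hδ2 : 4 * δ ≤ a) {p : ℕ} (hp : 2 ≤ p) {c : ℕ} (hc : 1 ≤ c) :
    ∀ᵐ y ∂(volume.restrict (Set.Icc (0 : ℝ) 1)), ∀ᶠ N : ℕ in atTop,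
      ∑ s ∈ Finset.Ico (N0 δ N) N, (Yc a p N c y s) ^ 2 ≤ (N : ℝ) ^ (1 - a + δ / 2) := by
  filter_upwards [ae_trunc ha hp, ae_slln ha ha2 hδ hδ1 hδ2 hp] with y htr hsl
  have hshift : Tendsto (fun N : ℕ => N + c) atTop atTop := tendsto_add_atTop_nat c
  filter_upwards [htr, hshift.eventually hsl, eventually_ge_atTop c, eventually_gt_atTop 0,
    ev_const_mul_le (show 1 - a < 1 - a + δ / 2 by linarith) 7] with N h1 h2 hcN hN0 h7
  have hN1 : (1 : ℝ) ≤ N := by exact_mod_cast hN0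
  have hNp : (0 : ℝ) < N := by linarith
  have hNc : ((N + c : ℕ) : ℝ) ≤ 2 * N := by
    have : N + c ≤ 2 * N := by omega
    exact_mod_cast this
  have hNc0 : (0 : ℝ) ≤ ((N + c : ℕ) : ℝ) := Nat.cast_nonneg _
  have hNc1 : (1 : ℝ) ≤ ((N + c : ℕ) : ℝ) := by
    have : 1 ≤ N + c := by omega
    exact_mod_cast this
  -- first sum
  have hA : ∑ s ∈ Finset.Ico (N0 δ N) N, Xc a p N c s (Int.fract ((p : ℝ) ^ s * y)) ≤
      6 * (N : ℝ) ^ (1 - a) := by
    have e1 : ∑ s ∈ Finset.Ico (N0 δ N) N, Xc a p N c s (Int.fract ((p : ℝ) ^ s * y)) ≤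
        ∑ s ∈ Finset.Ico (N0 δ N) N, (Xt a p N y (s + c) : ℝ) :=
      Finset.sum_le_sum fun s _ => Xc_le_Xt ha hp N hc s y
    have e2 : ∑ s ∈ Finset.Ico (N0 δ N) N, (Xt a p N y (s + c) : ℝ) ≤
        ∑ j ∈ Finset.Icc 1 (N + c), (Xt a p N y j : ℝ) := by
      rw [← Finset.sum_image (f := fun j => (Xt a p N y j : ℝ)) (g := fun s => s + c)
        (fun u _ v _ huv => by simpa using huv)]
      apply Finset.sum_le_sum_of_subset_of_nonneg
      · intro j hj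
        rw [Finset.mem_image] at hj
        obtain ⟨s, hs, rfl⟩ := hj
        rw [Finset.mem_Ico] at hs
        rw [Finset.mem_Icc]
        omega
      · intro j _ _
        positivity
    have e3 : ∑ j ∈ Finset.Icc 1 (N + c), (Xt a p N y j : ℝ) = (cnt a p y (N + c) : ℝ) := by
      rw [← St_eq_cnt h1 (by omega)]
      unfold St
      push_cast
      rfl
    have e4 : (cnt a p y (N + c) : ℝ) ≤ W a (N + c) + ((N + c : ℕ) : ℝ) ^ (1 - a - δ) := by
      have := (abs_le.mp h2).2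
      linarith
    have e5 := W_le_two ha ha2 (N + c)
    have e6 : ((N + c : ℕ) : ℝ) ^ (1 - a - δ) ≤ ((N + c : ℕ) : ℝ) ^ (1 - a) :=
      Real.rpow_le_rpow_of_exponent_le hNc1 (by linarith)
    have e7 : ((N + c : ℕ) : ℝ) ^ (1 - a) ≤ 2 * (N : ℝ) ^ (1 - a) := by
      calc ((N + c : ℕ) : ℝ) ^ (1 - a) ≤ (2 * (N : ℝ)) ^ (1 - a) :=
            Real.rpow_le_rpow hNc0 hNc (by linarith)
        _ = 2 ^ (1 - a) * (N : ℝ) ^ (1 - a) := Real.mul_rpow (by norm_num) hNp.le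
        _ ≤ 2 * (N : ℝ) ^ (1 - a) := by
            apply mul_le_mul_of_nonneg_right _ (Real.rpow_nonneg hNp.le _)
            calc (2 : ℝ) ^ (1 - a) ≤ 2 ^ (1 : ℝ) :=
                  Real.rpow_le_rpow_of_exponent_le (by norm_num) (by linarith)
              _ = 2 := Real.rpow_one 2
    linarith
  -- second sum
  have hB : ∑ s ∈ Finset.Ico (N0 δ N) N, (wc a p N c s) ^ 2 ≤ (N : ℝ) ^ (1 - a) := by
    have e1 : ∀ s ∈ Finset.Ico (N0 δ N) N, (wc a p N c s) ^ 2 ≤ (N : ℝ) ^ (-a) := by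
      intro s hs
      rw [Finset.mem_Ico] at hs
      have hs' : (N : ℝ) ^ (1 - δ) ≤ ((s + c : ℕ) : ℝ) :=
        (N0_ge δ N).trans (by exact_mod_cast (by omega : N0 δ N ≤ s + c))
      have hX : 0 < (N : ℝ) ^ (1 - δ) := Real.rpow_pos_of_pos hNp _
      have e2 : wc a p N c s ≤ (N : ℝ) ^ (-(a / 2)) := by
        refine (wc_le hp N c s).trans ?_
        have h9 : ((s + c : ℕ) : ℝ) ^ (-a) ≤ ((N : ℝ) ^ (1 - δ)) ^ (-a) :=
          Real.rpow_le_rpow_of_nonpos hX hs' (by linarith)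
        refine h9.trans ?_
        rw [← Real.rpow_mul hNp.le]
        apply Real.rpow_le_rpow_of_exponent_le hN1
        nlinarith
      have e3 := wc_nonneg a hp N c s
      calc (wc a p N c s) ^ 2 ≤ ((N : ℝ) ^ (-(a / 2))) ^ 2 := pow_le_pow_left₀ e3 e2 2
        _ = (N : ℝ) ^ (-a) := by
            rw [← Real.rpow_natCast, ← Real.rpow_mul hNp.le]
            congr 1
            push_cast
            ring
    refine (Finset.sum_le_sum e1).trans ?_
    rw [Finset.sum_const, Nat.card_Ico, nsmul_eq_mul]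
    have e4 : (N : ℝ) ^ (1 - a) = (N : ℝ) * (N : ℝ) ^ (-a) := by
      rw [sub_eq_add_neg, Real.rpow_add hNp, Real.rpow_one]
    rw [e4]
    apply mul_le_mul_of_nonneg_right _ (Real.rpow_nonneg hNp.le _)
    exact_mod_cast Nat.sub_le _ _
  calc ∑ s ∈ Finset.Ico (N0 δ N) N, (Yc a p N c y s) ^ 2
      ≤ ∑ s ∈ Finset.Ico (N0 δ N) N,
        (Xc a p N c s (Int.fract ((p : ℝ) ^ s * y)) + (wc a p N c s) ^ 2) :=
        Finset.sum_le_sum fun s _ => Yc_sq_le hp N c y s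
    _ = ∑ s ∈ Finset.Ico (N0 δ N) N, Xc a p N c s (Int.fract ((p : ℝ) ^ s * y)) +
        ∑ s ∈ Finset.Ico (N0 δ N) N, (wc a p N c s) ^ 2 := Finset.sum_add_distrib
    _ ≤ 7 * (N : ℝ) ^ (1 - a) := by linarith
    _ ≤ (N : ℝ) ^ (1 - a + δ / 2) := h7

end

end Pool.Agent.SRG
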