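import Pool.Agent.SRG.Dig
import Pool.Agent.SRG.Facts

/-!
Semi-random ergodic averages, module M4b: squares and windows.  Seat: helper96.
-/

open MeasureTheory Filter Topology

namespace Pool.Agent.SRG

noncomputable section

namespace Win

/-! ### Elementary asymptotics -/

theorem ev_const_mul_le {α β : ℝ} (hαβ : α < β) (K : ℝ) :
    ∀ᶠ N : ℕ in atTop, K * (N : ℝ) ^ α ≤ (N : ℝ) ^ β := by
  have h1 : Tendsto (fun N : ℕ => (N : ℝ) ^ (β - α)) atTop atTop :=
    (tendsto_rpow_atTop (by linarith)).comp tendsto_natCast_atTop_atTop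
  filter_upwards [h1.eventually_ge_atTop K, eventually_gt_atTop 0] with N hN h0
  have h2 : (0 : ℝ) < N := by exact_mod_cast h0
  have h3 : (N : ℝ) ^ β = (N : ℝ) ^ (β - α) * (N : ℝ) ^ α := by
    rw [← Real.rpow_add h2]
    congr 1
    ring
  rw [h3]
  exact mul_le_mul_of_nonneg_right hN (Real.rpow_nonneg h2.le _)

theorem hN_le (N : ℕ) (hN0 : N ≠ 0) : (hN N : ℝ) ≤ 3 * (Real.log N / Real.log 2 + 1) := by
  unfold hN
  have h1 : 2 ^ Nat.log 2 N ≤ N := Nat.pow_log_le_self 2 hN0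
  have h2 : (2 : ℝ) ^ Nat.log 2 N ≤ N := by exact_mod_cast h1
  have h3 := Real.log_le_log (by positivity) h2
  rw [Real.log_pow] at h3
  have h4 : 0 < Real.log 2 := Real.log_pos (by norm_num)
  have h5 : (Nat.log 2 N : ℝ) ≤ Real.log N / Real.log 2 := by
    rw [le_div_iff₀ h4]
    exact h3
  push_cast
  linarith

/-- `hN` grows slower than any power -/
theorem ev_hN_le {β : ℝ} (hβ : 0 < β) : ∀ᶠ N : ℕ in atTop, (hN N : ℝ) ≤ (N : ℝ) ^ β := by
  have h1 : Tendsto (fun N : ℕ => Real.log (N : ℝ) / (N : ℝ) ^ β) atTop (𝓝 0) :=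
    ((isLittleO_log_rpow_atTop hβ).tendsto_div_nhds_zero).comp tendsto_natCast_atTop_atTop
  have h2 : Tendsto (fun N : ℕ => (N : ℝ) ^ β) atTop atTop :=
    (tendsto_rpow_atTop hβ).comp tendsto_natCast_atTop_atTop
  have hl : 0 < Real.log 2 := Real.log_pos (by norm_num)
  filter_upwards [h1.eventually (gt_mem_nhds (show (0 : ℝ) < Real.log 2 / 6 by positivity)),
    h2.eventually_ge_atTop 6, eventually_gt_atTop 0] with N ha hb h0
  have h3 : (0 : ℝ) < N := by exact_mod_cast h0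
  have h4 : 0 < (N : ℝ) ^ β := Real.rpow_pos_of_pos h3 _
  rw [div_lt_iff₀ h4] at ha
  refine (hN_le N h0.ne').trans ?_
  have h5 : Real.log N / Real.log 2 ≤ (N : ℝ) ^ β / 6 := by
    rw [div_le_iff₀ hl]
    linarith
  linarith

/-- summability of the error probabilities -/
theorem tsum_ne_top {δ : ℝ} (hδ : 0 < δ) (k : ℕ) :
    ∑' N : ℕ, ENNReal.ofReal ((N : ℝ) ^ k * Real.exp (-(N : ℝ) ^ δ)) ≠ ⊤ := by
  have h1 : Summable (fun N : ℕ => (N : ℝ) ^ k * Real.exp (-(N : ℝ) ^ δ)) := by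
    obtain ⟨m, hm⟩ := exists_nat_ge ((k + 2 : ℝ) / δ)
    have h2 : Tendsto (fun N : ℕ => ((N : ℝ) ^ δ) ^ m * Real.exp (-(N : ℝ) ^ δ)) atTop (𝓝 0) :=
      (Real.tendsto_pow_mul_exp_neg_atTop_nhds_zero m).comp
        ((tendsto_rpow_atTop hδ).comp tendsto_natCast_atTop_atTop)
    have h3 : Summable (fun N : ℕ => 1 / (N : ℝ) ^ 2) :=
      Real.summable_one_div_nat_pow.mpr (by norm_num)
    refine summable_of_isBigO_nat h3 (Asymptotics.IsBigO.of_bound 1 ?_)
    filter_upwards [h2.eventually (gt_mem_nhds (show (0 : ℝ) < 1 by norm_num)),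
      eventually_gt_atTop 0] with N ha h0
    have h4 : (1 : ℝ) ≤ N := by exact_mod_cast h0
    have h5 : (0 : ℝ) < N := by linarith
    have h6 : (N : ℝ) ^ (k + 2) ≤ ((N : ℝ) ^ δ) ^ m := by
      rw [← Real.rpow_natCast ((N : ℝ) ^ δ), ← Real.rpow_mul h5.le, ← Real.rpow_natCast]
      apply Real.rpow_le_rpow_of_exponent_le h4
      rw [div_le_iff₀ hδ] at hm
      push_cast
      linarith
    have h7 : (N : ℝ) ^ (k + 2) * Real.exp (-(N : ℝ) ^ δ) ≤ 1 :=
      (mul_le_mul_of_nonneg_right h6 (Real.exp_pos _).le).trans ha.le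
    rw [Real.norm_of_nonneg (by positivity), Real.norm_of_nonneg (by positivity), one_mul,
      le_div_iff₀ (by positivity)]
    calc (N : ℝ) ^ k * Real.exp (-(N : ℝ) ^ δ) * (N : ℝ) ^ 2
        = (N : ℝ) ^ (k + 2) * Real.exp (-(N : ℝ) ^ δ) := by ring
      _ ≤ 1 := h7
  rw [← ENNReal.ofReal_tsum_of_nonneg (fun N => by positivity) h1]
  exact ENNReal.ofReal_ne_top

/-! ### The centred indicator of `z < t` -/

/-- `1[z < t] - t` -/
def cen (t z : ℝ) : ℝ :=
  haveI := Classical.dec (z < t)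
  if z < t then 1 - t else -t

theorem abs_cen_le {t : ℝ} (h0 : 0 ≤ t) (h1 : t ≤ 1) (z : ℝ) : |cen t z| ≤ 1 := by
  unfold cen
  split_ifs
  · rw [abs_le]; constructor <;> linarith
  · rw [abs_le]; constructor <;> linarith

theorem measurable_cen (t : ℝ) : Measurable (cen t) := by
  unfold cen
  exact Measurable.ite measurableSet_Iio measurable_const measurable_const

theorem cen_of_lt {t z : ℝ} (h : z < t) : cen t z = 1 - t := by
  unfold cen
  rw [if_pos h]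

theorem cen_of_not_lt {t z : ℝ} (h : ¬ z < t) : cen t z = -t := by
  unfold cen
  rw [if_neg h]

theorem integral_comp_cen {t : ℝ} (h0 : 0 ≤ t) (h1 : t ≤ 1) (g : ℝ → ℝ) :
    ∫ z in (0 : ℝ)..1, g (cen t z) = t * g (1 - t) + (1 - t) * g (-t) := by
  have e1 : ∫ z in (0 : ℝ)..t, g (cen t z) = ∫ z in (0 : ℝ)..t, g (1 - t) := by
    apply intervalIntegral.integral_congr_ae
    have : ∀ᵐ z : ℝ ∂volume, z ≠ t := by
      simp [ae_iff, measure_singleton]
    filter_upwards [this] with z hz hz2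
    rw [Set.uIoc_of_le h0] at hz2
    rw [cen_of_lt (lt_of_le_of_ne hz2.2 hz)]
  have e2 : ∫ z in t..(1 : ℝ), g (cen t z) = ∫ z in t..(1 : ℝ), g (-t) := by
    apply intervalIntegral.integral_congr_ae
    refine Eventually.of_forall fun z hz2 => ?_
    rw [Set.uIoc_of_le h1] at hz2
    rw [cen_of_not_lt (not_lt.mpr hz2.1.le)]
  have i1 : IntervalIntegrable (fun z => g (cen t z)) volume 0 t := by
    refine (intervalIntegrable_const (c := g (1 - t))).congr_ae ?_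
    rw [Set.uIoc_of_le h0, EventuallyEq, ae_restrict_iff' measurableSet_Ioc]
    have : ∀ᵐ z : ℝ ∂volume, z ≠ t := by
      simp [ae_iff, measure_singleton]
    filter_upwards [this] with z hz hz2
    rw [cen_of_lt (lt_of_le_of_ne hz2.2 hz)]
  have i2 : IntervalIntegrable (fun z => g (cen t z)) volume t 1 := by
    refine (intervalIntegrable_const (c := g (-t))).congr_ae ?_
    rw [Set.uIoc_of_le h1, EventuallyEq, ae_restrict_iff' measurableSet_Ioc]
    refine Eventually.of_forall fun z hz2 => ?_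
    rw [cen_of_not_lt (not_lt.mpr hz2.1.le)]
  rw [← intervalIntegral.integral_add_adjacent_intervals i1 i2, e1, e2,
    intervalIntegral.integral_const, intervalIntegral.integral_const]
  simp only [smul_eq_mul, sub_zero]

theorem integral_cen {t : ℝ} (h0 : 0 ≤ t) (h1 : t ≤ 1) : ∫ z in (0 : ℝ)..1, cen t z = 0 := by
  rw [integral_comp_cen h0 h1 (fun x => x)]
  ring

theorem integral_cen_sq {t : ℝ} (h0 : 0 ≤ t) (h1 : t ≤ 1) :
    ∫ z in (0 : ℝ)..1, (cen t z) ^ 2 ≤ t := by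
  rw [integral_comp_cen h0 h1 (fun x => x ^ 2)]
  nlinarith [mul_nonneg h0 h0]

theorem digM_cen (a : ℝ) {p : ℕ} (hp : 2 ≤ p) (N j : ℕ) :
    DigM p (j + hN N) (fun y => cen (thr a p N j) (Int.fract ((p : ℝ) ^ j * y))) := by
  have h1 := DigM.lt_thr (p := p) (w := hN N) (by omega)
    ⌊(p : ℝ) ^ (hN N) * (j : ℝ) ^ (-a)⌋ (1 - thr a p N j) (-(thr a p N j))
  have h2 := DigM.comp_fract (by omega : 1 ≤ p) h1 j
  exact h2

theorem Xt_eq (a : ℝ) (p N : ℕ) (y : ℝ) (j : ℕ) :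
    (Xt a p N y j : ℝ) = cen (thr a p N j) (Int.fract ((p : ℝ) ^ j * y)) + thr a p N j := by
  unfold Xt cen
  split_ifs
  · push_cast; ring
  · push_cast; ring

/-! ### The windows -/

/-- the bad event -/
def bad (a δ : ℝ) (p N s m : ℕ) : Set ℝ :=
  {y | (hN N : ℝ) * (N : ℝ) ^ δ + 2 * ∑ j ∈ Finset.Ioc (s - hN N) (s + m - hN N), thr a p N j ≤
    ∑ j ∈ Finset.Ioc (s - hN N) (s + m - hN N), (Xt a p N y j : ℝ)}

theorem bad_le {a : ℝ} (ha : 0 < a) (δ : ℝ) {p : ℕ} (hp : 2 ≤ p) (N s m : ℕ) :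
    (volume.restrict (Set.Icc (0 : ℝ) 1)) (bad a δ p N s m) ≤
      ENNReal.ofReal (Real.exp (-(N : ℝ) ^ δ)) := by
  have hw : 1 ≤ hN N := by unfold hN; omega
  have h1 := exp_tail hp hw (Finset.Ioc (s - hN N) (s + m - hN N)) (fun _ _ => 1)
    (fun j => cen (thr a p N j)) (fun j => thr a p N j) (l := 1) (τ := (N : ℝ) ^ δ) one_pos le_rfl
    (fun _ _ _ _ _ => rfl) (fun _ _ _ => by simp) (fun _ _ => measurable_cen _)
    (fun j _ z => abs_cen_le (thr_nonneg a hp N j) (thr_le_one ha hp N j) z)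
    (fun j _ => integral_cen (thr_nonneg a hp N j) (thr_le_one ha hp N j))
    (fun j _ => integral_cen_sq (thr_nonneg a hp N j) (thr_le_one ha hp N j))
    (fun j _ => digM_cen a hp N j)
  refine le_trans ?_ h1
  rw [Measure.restrict_apply' measurableSet_Icc]
  apply measure_mono
  rintro y ⟨hy1, hy2⟩
  refine ⟨hy2, ?_⟩
  have hy1' : (hN N : ℝ) * (N : ℝ) ^ δ +
      2 * ∑ j ∈ Finset.Ioc (s - hN N) (s + m - hN N), thr a p N j ≤
    ∑ j ∈ Finset.Ioc (s - hN N) (s + m - hN N), (Xt a p N y j : ℝ) := hy1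
  have h2 : ∑ j ∈ Finset.Ioc (s - hN N) (s + m - hN N), (Xt a p N y j : ℝ) =
      ∑ j ∈ Finset.Ioc (s - hN N) (s + m - hN N),
        cen (thr a p N j) (Int.fract ((p : ℝ) ^ j * y)) +
      ∑ j ∈ Finset.Ioc (s - hN N) (s + m - hN N), thr a p N j := by
    rw [← Finset.sum_add_distrib]
    exact Finset.sum_congr rfl fun j _ => Xt_eq a p N y j
  rw [h2] at hy1'
  simp only [one_mul, one_pow, mul_one, div_one]
  linarith

theorem ae_not_bad {a δ : ℝ} (ha : 0 < a) (hδ : 0 < δ) {p : ℕ} (hp : 2 ≤ p) :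
    ∀ᵐ y ∂(volume.restrict (Set.Icc (0 : ℝ) 1)), ∀ᶠ N : ℕ in atTop, ∀ s m : ℕ, s < N → m < N →
      y ∉ bad a δ p N s m := by
  have h1 : ∑' N : ℕ, (volume.restrict (Set.Icc (0 : ℝ) 1))
      (⋃ s ∈ Finset.range N, ⋃ m ∈ Finset.range N, bad a δ p N s m) ≠ ⊤ := by
    refine ne_top_of_le_ne_top (tsum_ne_top hδ 2) (ENNReal.tsum_le_tsum fun N => ?_)
    have e1 : (volume.restrict (Set.Icc (0 : ℝ) 1))
        (⋃ s ∈ Finset.range N, ⋃ m ∈ Finset.range N, bad a δ p N s m) ≤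
        ∑ s ∈ Finset.range N, (volume.restrict (Set.Icc (0 : ℝ) 1))
          (⋃ m ∈ Finset.range N, bad a δ p N s m) := measure_biUnion_finset_le _ _
    have e2 : ∑ s ∈ Finset.range N, (volume.restrict (Set.Icc (0 : ℝ) 1))
          (⋃ m ∈ Finset.range N, bad a δ p N s m) ≤ ∑ s ∈ Finset.range N, ∑ m ∈ Finset.range N,
          (volume.restrict (Set.Icc (0 : ℝ) 1)) (bad a δ p N s m) :=
      Finset.sum_le_sum fun s _ => measure_biUnion_finset_le _ _
    have e3 : ∑ s ∈ Finset.range N, ∑ m ∈ Finset.range N,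
          (volume.restrict (Set.Icc (0 : ℝ) 1)) (bad a δ p N s m) ≤
        ∑ s ∈ Finset.range N, ∑ m ∈ Finset.range N,
          ENNReal.ofReal (Real.exp (-(N : ℝ) ^ δ)) :=
      Finset.sum_le_sum fun s _ => Finset.sum_le_sum fun m _ => bad_le ha δ hp N s m
    have e4 : ∑ s ∈ Finset.range N, ∑ m ∈ Finset.range N,
          ENNReal.ofReal (Real.exp (-(N : ℝ) ^ δ)) =
        ENNReal.ofReal ((N : ℝ) ^ 2 * Real.exp (-(N : ℝ) ^ δ)) := by
      rw [Finset.sum_const, Finset.sum_const, Finset.card_range, smul_smul, nsmul_eq_mul,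
        ENNReal.ofReal_mul (by positivity), ← pow_two, Nat.cast_pow,
        ENNReal.ofReal_pow (by positivity), ENNReal.ofReal_natCast]
    exact (e1.trans e2).trans (e3.trans e4.le)
  filter_upwards [ae_eventually_notMem h1] with y hy
  filter_upwards [hy] with N hN s m hs hm hb
  apply hN
  simp only [Set.mem_iUnion, Finset.mem_range]
  exact ⟨s, hs, m, hm, hb⟩

theorem N0_ge (δ : ℝ) (N : ℕ) : (N : ℝ) ^ (1 - δ) ≤ (N0 δ N : ℝ) := Nat.le_ceil _

theorem Rw_ge (δ : ℝ) (N : ℕ) : (N : ℝ) ^ (2 * δ) ≤ (Rw δ N : ℝ) := Nat.le_ceil _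

theorem al_sub (a : ℝ) (p N : ℕ) (y : ℝ) (s m : ℕ) :
    (al a p N y (s + m) : ℝ) = al a p N y s +
      ∑ j ∈ Finset.Ioc (s - hN N) (s + m - hN N), (Xt a p N y j : ℝ) := by
  have h1 : ∀ u v : ℕ, u ≤ v → St a p N y v = St a p N y u + ∑ j ∈ Finset.Ioc u v, Xt a p N y j := by
    intro u v huv
    induction v, huv using Nat.le_induction with
    | base => simp
    | succ v hv ih =>
      rw [St_succ, ih, add_assoc, ← Finset.sum_Ioc_succ_top hv]
  unfold al
  rw [h1 (s - hN N) (s + m - hN N) (by omega)]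
  push_cast
  rfl

end Win

open Win in
/-- M4b -/
theorem ae_win {a δ : ℝ} (ha : 0 < a) (ha2 : a < 1 / 2) (hδ : 0 < δ) (hδ1 : 8 * δ ≤ 1 / 2 - a)
    (hδ2 : 4 * δ ≤ a) {p : ℕ} (hp : 2 ≤ p) :
    ∀ᵐ y ∂(volume.restrict (Set.Icc (0 : ℝ) 1)), ∀ᶠ N : ℕ in atTop, ∀ s m : ℕ, N0 δ N ≤ s →
      s + m < N → m < Mw a δ N → al a p N y (s + m) < al a p N y s + Rw δ N := by
  filter_upwards [ae_not_bad ha hδ hp] with y hy
  filter_upwards [hy, ev_hN_le (show (0 : ℝ) < δ / 4 by linarith),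
    ev_const_mul_le (show δ + δ / 4 < 2 * δ by linarith) 2,
    ev_const_mul_le (show δ + δ / 2 < 2 * δ by linarith) 17,
    ev_const_mul_le (show δ / 4 < 1 - δ by linarith) 2,
    eventually_gt_atTop 0] with N hb hh h1 h2 h3 hN0 s m hs hsm hm
  have hN1 : (1 : ℝ) ≤ N := by exact_mod_cast hN0
  have hNp : (0 : ℝ) < N := by linarith
  have hnb := hb s m (by omega) (by omega)
  have hnb' : ∑ j ∈ Finset.Ioc (s - hN N) (s + m - hN N), (Xt a p N y j : ℝ) <
      (hN N : ℝ) * (N : ℝ) ^ δ +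
        2 * ∑ j ∈ Finset.Ioc (s - hN N) (s + m - hN N), thr a p N j := not_le.mp hnb
  -- the thresholds
  have hs' : (N : ℝ) ^ (1 - δ) ≤ (s : ℝ) := (N0_ge δ N).trans (by exact_mod_cast hs)
  have hX : 0 < (N : ℝ) ^ (1 - δ) := Real.rpow_pos_of_pos hNp _
  have hthr : ∀ j ∈ Finset.Ioc (s - hN N) (s + m - hN N),
      thr a p N j ≤ 2 * (N : ℝ) ^ (-a + δ / 2) := by
    intro j hj
    rw [Finset.mem_Ioc] at hj
    refine (thr_le a hp N j).trans ?_
    have h4 : (N : ℝ) ^ (1 - δ) / 2 ≤ (j : ℝ) := by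
      have h5 : s ≤ j + hN N := by omega
      have h6 : (s : ℝ) ≤ j + hN N := by exact_mod_cast h5
      linarith
    have h7 : (j : ℝ) ^ (-a) ≤ ((N : ℝ) ^ (1 - δ) / 2) ^ (-a) :=
      Real.rpow_le_rpow_of_nonpos (by positivity) h4 (by linarith)
    refine h7.trans ?_
    rw [Real.div_rpow hX.le (by norm_num), ← Real.rpow_mul hNp.le, Real.rpow_neg (by norm_num),
      div_inv_eq_mul, mul_comm]
    apply mul_le_mul
    · calc (2 : ℝ) ^ a ≤ 2 ^ (1 : ℝ) :=
          Real.rpow_le_rpow_of_exponent_le (by norm_num) (by linarith)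
        _ = 2 := Real.rpow_one 2
    · apply Real.rpow_le_rpow_of_exponent_le hN1
      nlinarith
    · exact Real.rpow_nonneg hNp.le _
    · norm_num
  have hsum : ∑ j ∈ Finset.Ioc (s - hN N) (s + m - hN N), thr a p N j ≤
      (m : ℝ) * (2 * (N : ℝ) ^ (-a + δ / 2)) := by
    refine (Finset.sum_le_sum hthr).trans ?_
    rw [Finset.sum_const, Nat.card_Ioc, nsmul_eq_mul]
    apply mul_le_mul_of_nonneg_right
    · exact_mod_cast (by omega : s + m - hN N - (s - hN N) ≤ m)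
    · positivity
  have hmle : (m : ℝ) ≤ 2 * (N : ℝ) ^ (a + δ) := by
    have h5 : (m : ℝ) < (N : ℝ) ^ (a + δ) + 1 := by
      refine lt_of_lt_of_le ?_ (Nat.ceil_lt_add_one (Real.rpow_nonneg hNp.le _)).le
      exact_mod_cast hm
    have h6 : 1 ≤ (N : ℝ) ^ (a + δ) := Real.one_le_rpow hN1 (by linarith)
    linarith
  have hprod : (m : ℝ) * (2 * (N : ℝ) ^ (-a + δ / 2)) ≤ 4 * (N : ℝ) ^ (δ + δ / 2) := by
    have h5 : (N : ℝ) ^ (δ + δ / 2) = (N : ℝ) ^ (a + δ) * (N : ℝ) ^ (-a + δ / 2) := by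
      rw [← Real.rpow_add hNp]
      congr 1
      ring
    rw [h5]
    have h6 := Real.rpow_nonneg hNp.le (-a + δ / 2)
    nlinarith
  have hhN : (hN N : ℝ) * (N : ℝ) ^ δ ≤ (N : ℝ) ^ (δ + δ / 4) := by
    rw [Real.rpow_add hNp, mul_comm]
    exact mul_le_mul_of_nonneg_left hh (Real.rpow_nonneg hNp.le _)
  have hpos : 0 < (N : ℝ) ^ (δ + δ / 2) := Real.rpow_pos_of_pos hNp _
  have hfin : (al a p N y (s + m) : ℝ) < al a p N y s + Rw δ N := by
    rw [al_sub]
    have h7 := Rw_ge δ N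
    linarith
  exact_mod_cast hfin

namespace Win

/-! ### The squares -/

theorem Xc_le_Xt {a : ℝ} (ha : 0 < a) {p : ℕ} (hp : 2 ≤ p) (N : ℕ) {c : ℕ} (hc : 1 ≤ c) (s : ℕ)
    (y : ℝ) : Xc a p N c s (Int.fract ((p : ℝ) ^ s * y)) ≤ (Xt a p N y (s + c) : ℝ) := by
  have hp0 : (0 : ℝ) < p := by exact_mod_cast (by omega : 0 < p)
  unfold Xc
  split_ifs with h
  · have h1 : Int.fract ((p : ℝ) * Int.fract ((p : ℝ) ^ s * y)) = Int.fract ((p : ℝ) ^ (s + 1) * y) := by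
      have e : (p : ℝ) * Int.fract ((p : ℝ) ^ s * y) =
          (p : ℝ) ^ (s + 1) * y - ((p * ⌊(p : ℝ) ^ s * y⌋ : ℤ) : ℝ) := by
        rw [Int.fract]
        push_cast
        ring
      rw [e, Int.fract_sub_intCast]
    have h2 : Int.fract ((p : ℝ) ^ (s + c) * y) < thr a p N (s + c) := by
      have h3 := h.2
      rw [h1, lt_div_iff₀ (by positivity)] at h3
      have h4 : (p : ℝ) ^ (s + c) * y = (p : ℝ) ^ (c - 1) * Int.fract ((p : ℝ) ^ (s + 1) * y) +
          (((p ^ (c - 1) : ℕ) * ⌊(p : ℝ) ^ (s + 1) * y⌋ : ℤ) : ℝ) := by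
        rw [Int.fract]
        have e1 : (p : ℝ) ^ (s + c) = (p : ℝ) ^ (c - 1) * (p : ℝ) ^ (s + 1) := by
          rw [← pow_add]
          congr 1
          omega
        rw [e1]
        push_cast
        ring
      rw [h4, Int.fract_add_intCast]
      have h5 : Int.fract ((p : ℝ) ^ (c - 1) * Int.fract ((p : ℝ) ^ (s + 1) * y)) =
          (p : ℝ) ^ (c - 1) * Int.fract ((p : ℝ) ^ (s + 1) * y) := by
        rw [Int.fract_eq_self]
        refine ⟨mul_nonneg (by positivity) (Int.fract_nonneg _), ?_⟩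
        rw [mul_comm]
        exact h3.trans_le (thr_le_one ha hp N (s + c))
      rw [h5, mul_comm]
      exact h3
    unfold Xt
    rw [if_pos h2]
    simp
  · positivity

theorem Yc_sq_le {a : ℝ} {p : ℕ} (hp : 2 ≤ p) (N c : ℕ) (y : ℝ) (s : ℕ) :
    (Yc a p N c y s) ^ 2 ≤ Xc a p N c s (Int.fract ((p : ℝ) ^ s * y)) + (wc a p N c s) ^ 2 := by
  have h1 := Xc_sq a p N c s (Int.fract ((p : ℝ) ^ s * y))
  have h2 := Xc_nonneg a p N c s (Int.fract ((p : ℝ) ^ s * y))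
  have h3 := wc_nonneg a hp N c s
  unfold Yc
  nlinarith [mul_nonneg h2 h3]

end Win

end

end Pool.Agent.SRG
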