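import Pool.Agent.SRG.A5
import Pool.Agent.SRG.Trunc
import Pool.Agent.SRG.Win
import Pool.Agent.SRG.Sq
import Pool.Agent.SRG.Exps
import Pool.Agent.SRG.Appr

/-!
Semi-random ergodic averages: almost every `y` is good.
-/

open MeasureTheory Filter Topology

namespace Pool.Agent.SRG

noncomputable section

theorem ae_good {a δ : ℝ} (ha : 0 < a) (ha2 : a < 1 / 2) (hδ : 0 < δ) (hδ1 : 8 * δ ≤ 1 / 2 - a)
    (hδ2 : 4 * δ ≤ a) {p : ℕ} (hp : 2 ≤ p) {D : ℕ} (hD : 8 ≤ δ * D) :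
    ∀ᵐ y ∂(volume.restrict (Set.Icc (0 : ℝ) 1)), GoodY a δ p D y := by
  have h1 : ∀ᵐ y ∂(volume.restrict (Set.Icc (0 : ℝ) 1)), ∀ C : ℕ, 1 ≤ C → ∀ᶠ k : ℕ in atTop,
      ∀ φ : ℕ → ℕ → ℝ, (∀ i j, |φ i j| ≤ 1) →
      |∑ j ∈ Finset.Icc 1 (k ^ D), (ind a p y j : ℝ) * φ (cnt a p y j) j
        - ∑ c ∈ Finset.Icc 1 C, ∑ s ∈ Finset.Ico (N0 δ (k ^ D)) (k ^ D),
            Xc a p (k ^ D) c s (Int.fract ((p : ℝ) ^ s * y)) *
              φ (al a p (k ^ D) y s + c) (s + c)|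
        ≤ 5 * ((p : ℝ) ^ C)⁻¹ * ((k ^ D : ℕ) : ℝ) ^ (1 - a) := by
    rw [ae_all_iff]
    intro C
    by_cases hC : 1 ≤ C
    · filter_upwards [ae_approx ha ha2 hδ hδ1 hδ2 hp hD hC] with y hy _
      exact hy
    · exact Eventually.of_forall fun y h => absurd h hC
  have h2 : ∀ᵐ y ∂(volume.restrict (Set.Icc (0 : ℝ) 1)), ∀ c : ℕ, 1 ≤ c → ∀ᶠ N : ℕ in atTop,
      ∑ s ∈ Finset.Ico (N0 δ N) N, (Yc a p N c y s) ^ 2 ≤ (N : ℝ) ^ (1 - a + δ / 2) := by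
    rw [ae_all_iff]
    intro c
    by_cases hc : 1 ≤ c
    · filter_upwards [ae_sq ha ha2 hδ hδ1 hδ2 hp hc] with y hy _
      exact hy
    · exact Eventually.of_forall fun y h => absurd h hc
  have h3 : ∀ᵐ y ∂(volume.restrict (Set.Icc (0 : ℝ) 1)), ∀ c : ℕ, 1 ≤ c → ∀ᶠ N : ℕ in atTop,
      ∀ m r k₁ k₂ : ℕ, 2 * hN N ≤ m → m < Mw a δ N → r < Rw δ N → k₁ < 2 * (2 * N) →
      k₂ < 2 * (2 * N) →
      ‖expSum a p N c δ y m r (2 * N) k₁ k₂‖ ≤ 4 * (N : ℝ) ^ (1 / 2 - a + 2 * δ) := by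
    rw [ae_all_iff]
    intro c
    by_cases hc : 1 ≤ c
    · filter_upwards [ae_expsum_of_sq ha ha2 hδ hδ1 hδ2 hp hc (ae_sq ha ha2 hδ hδ1 hδ2 hp hc)]
        with y hy _
      exact hy
    · exact Eventually.of_forall fun y h => absurd h hc
  filter_upwards [h1, h2, h3, ae_trunc ha hp, ae_slln ha ha2 hδ hδ1 hδ2 hp,
    ae_win ha ha2 hδ hδ1 hδ2 hp] with y h1 h2 h3 h4 h5 h6
  exact ⟨h4, h5, h1, h2, h6, h3⟩

theorem semiRandom.{u} (a : ℝ) (ha : 0 < a) (ha2 : a < 1 / 2) (p : ℕ) (hp : 2 ≤ p) :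
    ∀ᵐ y ∂(volume.restrict (Set.Icc (0 : ℝ) 1)), (returnSet a p y).Infinite ∧
      SemiRandomGood.{u} (fun n => Nat.nth (· ∈ returnSet a p y) (n - 1)) := by
  set δ : ℝ := min ((1 / 2 - a) / 8) (a / 4) with hδdef
  have hδ : 0 < δ := lt_min (by linarith) (by linarith)
  have hδ1 : 8 * δ ≤ 1 / 2 - a := by
    have := min_le_left ((1 / 2 - a) / 8) (a / 4)
    linarith
  have hδ2 : 4 * δ ≤ a := by
    have := min_le_right ((1 / 2 - a) / 8) (a / 4)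
    linarith
  obtain ⟨D, hD⟩ : ∃ D : ℕ, 8 ≤ δ * D := by
    obtain ⟨D, hD⟩ := exists_nat_ge (8 / δ)
    refine ⟨D, ?_⟩
    rw [div_le_iff₀ hδ] at hD
    linarith
  filter_upwards [ae_good ha ha2 hδ hδ1 hδ2 hp hD] with y hy
  exact A5.good_srg ha ha2 hδ hδ1 hδ2 hp hD hy

end

end Pool.Agent.SRG
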