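import Pool.Agent.SRG.Base

/-!
Semi-random ergodic averages: transference to exponential sums and van der Corput.
-/

open MeasureTheory Filter Topology

namespace Pool.Agent.SRG

noncomputable section

namespace Vdc

/-- orthogonality of the characters of the cyclic group of order `n` -/
theorem orth {n : ℕ} {w : ℂ} (hw : IsPrimitiveRoot w n) (hw1 : ‖w‖ = 1)
    {m m' : ℕ} (hm : m < n) (hm' : m' < n) :
    ∑ k ∈ Finset.range n, w ^ (k * m) * (starRingEnd ℂ w) ^ (k * m') =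
      if m = m' then (n : ℂ) else 0 := by
  have hw0 : w ≠ 0 := by
    intro h; rw [h, norm_zero] at hw1; exact zero_ne_one hw1
  have hwc : w * starRingEnd ℂ w = 1 := by
    rw [Complex.mul_conj, Complex.normSq_eq_norm_sq, hw1]; simp
  have hterm : ∀ k : ℕ, w ^ (k * m) * (starRingEnd ℂ w) ^ (k * m') =
      (w ^ m * (starRingEnd ℂ w) ^ m') ^ k := by
    intro k
    rw [mul_pow, ← pow_mul, ← pow_mul, mul_comm m k, mul_comm m' k]
  simp_rw [hterm]
  by_cases h : m = m'
  · subst h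
    rw [if_pos rfl]
    have : w ^ m * (starRingEnd ℂ w) ^ m = 1 := by rw [← mul_pow, hwc, one_pow]
    simp [this]
  · rw [if_neg h]
    set z := w ^ m * (starRingEnd ℂ w) ^ m' with hz
    have hcn : (starRingEnd ℂ w) ^ n = 1 := by
      rw [← map_pow, hw.pow_eq_one, map_one]
    have hzn : z ^ n = 1 := by
      rw [hz, mul_pow, ← pow_mul, ← pow_mul, mul_comm m n, mul_comm m' n, pow_mul, pow_mul,
        hw.pow_eq_one, hcn]; simp
    have hz1 : z ≠ 1 := by
      intro h1
      apply h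
      have h2 : w ^ m = w ^ m' := by
        calc w ^ m = w ^ m * ((w * starRingEnd ℂ w) ^ m') := by rw [hwc]; simp
          _ = z * w ^ m' := by rw [hz, mul_pow]; ring
          _ = w ^ m' := by rw [h1, one_mul]
      exact hw.pow_inj hm hm' h2
    have := mul_neg_geom_sum z n
    rw [hzn, sub_self] at this
    rcases mul_eq_zero.1 this with h3 | h3
    · exact absurd (sub_eq_zero.1 h3).symm hz1
    · exact h3

/-- an abstract Parseval identity -/
theorem parseval {K J : Type*} [DecidableEq J] (k : Finset K) (j : Finset J) (E : K → J → ℂ)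
    (n : ℝ)
    (hE : ∀ p ∈ j, ∀ q ∈ j, ∑ x ∈ k, E x p * starRingEnd ℂ (E x q) = if p = q then (n : ℂ) else 0)
    (a : J → ℂ) :
    ∑ x ∈ k, ‖∑ p ∈ j, a p * E x p‖ ^ 2 = n * ∑ p ∈ j, ‖a p‖ ^ 2 := by
  have h1 : ∀ z : ℂ, ((‖z‖ ^ 2 : ℝ) : ℂ) = z * starRingEnd ℂ z := by
    intro z
    rw [Complex.mul_conj, Complex.normSq_eq_norm_sq]
  have h2 : ((∑ x ∈ k, ‖∑ p ∈ j, a p * E x p‖ ^ 2 : ℝ) : ℂ) =
      ((n * ∑ p ∈ j, ‖a p‖ ^ 2 : ℝ) : ℂ) := by
    rw [Complex.ofReal_sum, Complex.ofReal_mul, Complex.ofReal_sum]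
    simp_rw [h1, map_sum, map_mul, Finset.sum_mul_sum]
    rw [Finset.sum_comm, Finset.mul_sum]
    refine Finset.sum_congr rfl fun p hp => ?_
    rw [Finset.sum_comm]
    have h3 : ∀ q ∈ j, ∑ x ∈ k, a p * E x p * ((starRingEnd ℂ) (a q) * (starRingEnd ℂ) (E x q)) =
        (a p * (starRingEnd ℂ) (a q)) * (if p = q then (n : ℂ) else 0) := by
      intro q hq
      rw [← hE p hp q hq, Finset.mul_sum]
      exact Finset.sum_congr rfl fun x _ => by ring
    rw [Finset.sum_congr rfl h3]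
    simp only [mul_ite, mul_zero]
    rw [Finset.sum_ite_eq, if_pos hp]
    ring
  exact_mod_cast h2

/-- the two-dimensional discrete Fourier inequality -/
theorem grid_aux {n Q : ℕ} (hn : 0 < n) (hQn : 2 * Q ≤ n) {w : ℂ} (hw : IsPrimitiveRoot w n)
    (hw1 : ‖w‖ = 1) (I : Finset ℕ) (l : ℕ → ℂ) (al be : ℕ → ℕ) (hal : ∀ s ∈ I, al s < Q)
    (hbe : ∀ s ∈ I, be s < Q) {B : ℝ}
    (hB : ∀ k₁ k₂ : ℕ, k₁ < n → k₂ < n →
      ‖∑ s ∈ I, l s * w ^ (k₁ * al s + k₂ * be s)‖ ≤ B)
    (a b : ℕ → ℕ → ℂ) (ha : ∀ i j, ‖a i j‖ ≤ 1) (hb : ∀ i j, ‖b i j‖ ≤ 1) :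
    ‖∑ i ∈ Finset.range Q, ∑ j ∈ Finset.range Q, ∑ s ∈ I, l s * (a (al s + i) j * b i (be s + j))‖
      ≤ n * Q * B := by
  classical
  set wb := starRingEnd ℂ w with hwb
  have hB0 : 0 ≤ B := (norm_nonneg _).trans (hB 0 0 hn hn)
  have horth := @orth n w hw hw1
  set D : ℕ × ℕ → ℂ := fun k => ∑ s ∈ I, l s * w ^ (k.1 * al s + k.2 * be s) with hD
  set K := Finset.range n ×ˢ Finset.range n with hK
  set P := Finset.range n ×ˢ Finset.range Q with hP
  set R := Finset.range Q ×ˢ Finset.range n with hR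
  set EA : ℕ × ℕ → ℕ × ℕ → ℂ := fun k p => wb ^ (k.1 * p.1) * w ^ (k.2 * p.2) with hEA
  set EB : ℕ × ℕ → ℕ × ℕ → ℂ := fun k q => w ^ (k.1 * q.1) * wb ^ (k.2 * q.2) with hEB
  have hconj : starRingEnd ℂ wb = w := by rw [hwb]; simp
  have hA2 : ∑ k ∈ K, ‖∑ p ∈ P, a p.1 p.2 * EA k p‖ ^ 2 ≤ (n : ℝ) ^ 2 * (n * Q) := by
    rw [parseval K P EA ((n : ℝ) ^ 2) _ (fun p => a p.1 p.2)]
    · refine mul_le_mul_of_nonneg_left ?_ (by positivity)
      calc ∑ p ∈ P, ‖a p.1 p.2‖ ^ 2 ≤ ∑ p ∈ P, (1 : ℝ) :=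
            Finset.sum_le_sum fun p _ => pow_le_one₀ (norm_nonneg _) (ha _ _)
        _ = n * Q := by simp [hP]
    · intro p hp q hq
      rw [hP, Finset.mem_product, Finset.mem_range, Finset.mem_range] at hp hq
      have h1 : ∀ x : ℕ × ℕ, EA x p * starRingEnd ℂ (EA x q) =
          (w ^ (x.1 * q.1) * wb ^ (x.1 * p.1)) * (w ^ (x.2 * p.2) * wb ^ (x.2 * q.2)) := by
        intro x
        simp only [hEA, map_mul, map_pow, hconj, ← hwb]
        ring
      simp_rw [h1]
      rw [hK, Finset.sum_product]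
      simp only
      simp_rw [← Finset.mul_sum]
      rw [← Finset.sum_mul, horth hq.1 hp.1, horth (hp.2.trans_le (by omega))
        (hq.2.trans_le (by omega))]
      by_cases h : p = q
      · subst h; simp [sq]
      · rw [if_neg h]
        by_cases h3 : q.1 = p.1
        · have h4 : p.2 ≠ q.2 := fun h4 => h (Prod.ext h3.symm h4)
          simp [h4]
        · simp [h3]
  have hB2 : ∑ k ∈ K, ‖∑ q ∈ R, b q.1 q.2 * EB k q‖ ^ 2 ≤ (n : ℝ) ^ 2 * (n * Q) := by
    rw [parseval K R EB ((n : ℝ) ^ 2) _ (fun p => b p.1 p.2)]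
    · refine mul_le_mul_of_nonneg_left ?_ (by positivity)
      calc ∑ p ∈ R, ‖b p.1 p.2‖ ^ 2 ≤ ∑ p ∈ R, (1 : ℝ) :=
            Finset.sum_le_sum fun p _ => pow_le_one₀ (norm_nonneg _) (hb _ _)
        _ = n * Q := by simp [hR, mul_comm]
    · intro p hp q hq
      rw [hR, Finset.mem_product, Finset.mem_range, Finset.mem_range] at hp hq
      have h1 : ∀ x : ℕ × ℕ, EB x p * starRingEnd ℂ (EB x q) =
          (w ^ (x.1 * p.1) * wb ^ (x.1 * q.1)) * (w ^ (x.2 * q.2) * wb ^ (x.2 * p.2)) := by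
        intro x
        simp only [hEB, map_mul, map_pow, hconj, ← hwb]
        ring
      simp_rw [h1]
      rw [hK, Finset.sum_product]
      simp only
      simp_rw [← Finset.mul_sum]
      rw [← Finset.sum_mul, horth hq.2 hp.2, horth (hp.1.trans_le (by omega))
        (hq.1.trans_le (by omega))]
      by_cases h : p = q
      · subst h; simp [sq]
      · rw [if_neg h]
        by_cases h3 : p.1 = q.1
        · have h4 : q.2 ≠ p.2 := fun h4 => h (Prod.ext h3 h4.symm)
          simp [h4]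
        · simp [h3]
  have hmain : ((n : ℂ) ^ 2) * ∑ i ∈ Finset.range Q, ∑ j ∈ Finset.range Q, ∑ s ∈ I,
      l s * (a (al s + i) j * b i (be s + j)) =
      ∑ k ∈ K, D k * ((∑ p ∈ P, a p.1 p.2 * EA k p) * (∑ q ∈ R, b q.1 q.2 * EB k q)) := by
    have h1 : ∀ k ∈ K, D k * ((∑ p ∈ P, a p.1 p.2 * EA k p) * (∑ q ∈ R, b q.1 q.2 * EB k q)) =
        ∑ s ∈ I, ∑ p ∈ P, ∑ q ∈ R, (l s * a p.1 p.2 * b q.1 q.2) *
          ((w ^ (k.1 * (al s + q.1)) * wb ^ (k.1 * p.1)) *
            (w ^ (k.2 * (be s + p.2)) * wb ^ (k.2 * q.2))) := by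
      intro k _
      simp only [hD]
      rw [Finset.sum_mul_sum P R, Finset.sum_mul]
      refine Finset.sum_congr rfl fun s _ => ?_
      rw [Finset.mul_sum]
      refine Finset.sum_congr rfl fun p _ => ?_
      rw [Finset.mul_sum]
      refine Finset.sum_congr rfl fun q _ => ?_
      simp only [hEA, hEB, mul_add, pow_add]
      ring
    rw [Finset.sum_congr rfl h1, Finset.sum_comm (s := K) (t := I)]
    have h2 : ∀ s ∈ I, ∑ k ∈ K, ∑ p ∈ P, ∑ q ∈ R, (l s * a p.1 p.2 * b q.1 q.2) *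
          ((w ^ (k.1 * (al s + q.1)) * wb ^ (k.1 * p.1)) *
            (w ^ (k.2 * (be s + p.2)) * wb ^ (k.2 * q.2))) =
        (n : ℂ) ^ 2 * ∑ i ∈ Finset.range Q, ∑ j ∈ Finset.range Q,
          l s * (a (al s + i) j * b i (be s + j)) := by
      intro s hs
      have e1 := hal s hs
      have e2 := hbe s hs
      rw [Finset.sum_comm]
      have h3 : ∀ p ∈ P, ∑ k ∈ K, ∑ q ∈ R, (l s * a p.1 p.2 * b q.1 q.2) *
          ((w ^ (k.1 * (al s + q.1)) * wb ^ (k.1 * p.1)) *
            (w ^ (k.2 * (be s + p.2)) * wb ^ (k.2 * q.2))) =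
          ∑ q ∈ R, (l s * a p.1 p.2 * b q.1 q.2) *
            ((if al s + q.1 = p.1 then (n : ℂ) else 0) *
              (if be s + p.2 = q.2 then (n : ℂ) else 0)) := by
        intro p hp
        rw [Finset.sum_comm]
        refine Finset.sum_congr rfl fun q hq => ?_
        rw [hP, Finset.mem_product, Finset.mem_range, Finset.mem_range] at hp
        rw [hR, Finset.mem_product, Finset.mem_range, Finset.mem_range] at hq
        rw [← Finset.mul_sum, ← horth (m := al s + q.1) (m' := p.1) (by omega) hp.1,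
          ← horth (m := be s + p.2) (m' := q.2) (by omega) hq.2, Finset.sum_mul_sum, hK,
          Finset.sum_product]
      rw [Finset.sum_congr rfl h3, hP, hR]
      simp_rw [Finset.sum_product]
      rw [Finset.sum_comm]
      have h4 : ∀ j ∈ Finset.range Q, ∑ x ∈ Finset.range n, ∑ i ∈ Finset.range Q,
          ∑ y ∈ Finset.range n, (l s * a x j * b i y) *
            ((if al s + i = x then (n : ℂ) else 0) * (if be s + j = y then (n : ℂ) else 0)) =
          ∑ i ∈ Finset.range Q, (n : ℂ) ^ 2 * (l s * (a (al s + i) j * b i (be s + j))) := by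
        intro j hj
        rw [Finset.mem_range] at hj
        rw [Finset.sum_comm]
        refine Finset.sum_congr rfl fun i hi => ?_
        rw [Finset.mem_range] at hi
        rw [Finset.sum_eq_single_of_mem (al s + i) (Finset.mem_range.2 (by omega)),
          Finset.sum_eq_single_of_mem (be s + j) (Finset.mem_range.2 (by omega))]
        · simp only [if_true]; ring
        · intro y _ hy
          simp [hy.symm]
        · intro x _ hx
          simp [hx.symm]
      rw [Finset.sum_congr rfl h4, Finset.sum_comm, Finset.mul_sum]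
      refine Finset.sum_congr rfl fun i _ => ?_
      rw [Finset.mul_sum]
    rw [Finset.sum_congr rfl h2, ← Finset.mul_sum]
    congr 1
    rw [Finset.sum_comm (s := I)]
    refine Finset.sum_congr rfl fun i _ => ?_
    rw [Finset.sum_comm]
  have hn0 : (0 : ℝ) < n := by exact_mod_cast hn
  have hle : ‖((n : ℂ) ^ 2) * ∑ i ∈ Finset.range Q, ∑ j ∈ Finset.range Q, ∑ s ∈ I,
      l s * (a (al s + i) j * b i (be s + j))‖ ≤ (n : ℝ) ^ 2 * (n * Q * B) := by
    rw [hmain]
    calc ‖∑ k ∈ K, D k * ((∑ p ∈ P, a p.1 p.2 * EA k p) * (∑ q ∈ R, b q.1 q.2 * EB k q))‖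
        ≤ ∑ k ∈ K, B * (‖∑ p ∈ P, a p.1 p.2 * EA k p‖ * ‖∑ q ∈ R, b q.1 q.2 * EB k q‖) := by
          refine (norm_sum_le _ _).trans (Finset.sum_le_sum fun k hk => ?_)
          rw [norm_mul, norm_mul]
          refine mul_le_mul_of_nonneg_right ?_ (by positivity)
          rw [hK, Finset.mem_product, Finset.mem_range, Finset.mem_range] at hk
          exact hB k.1 k.2 hk.1 hk.2
      _ = B * ∑ k ∈ K, ‖∑ p ∈ P, a p.1 p.2 * EA k p‖ * ‖∑ q ∈ R, b q.1 q.2 * EB k q‖ := by
          rw [Finset.mul_sum]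
      _ ≤ B * ((n : ℝ) ^ 2 * (n * Q)) := by
          refine mul_le_mul_of_nonneg_left ?_ hB0
          calc ∑ k ∈ K, ‖∑ p ∈ P, a p.1 p.2 * EA k p‖ * ‖∑ q ∈ R, b q.1 q.2 * EB k q‖
              ≤ ∑ k ∈ K, (‖∑ p ∈ P, a p.1 p.2 * EA k p‖ ^ 2 +
                  ‖∑ q ∈ R, b q.1 q.2 * EB k q‖ ^ 2) / 2 :=
                Finset.sum_le_sum fun k _ => by
                  nlinarith [sq_nonneg (‖∑ p ∈ P, a p.1 p.2 * EA k p‖ -
                    ‖∑ q ∈ R, b q.1 q.2 * EB k q‖)]
            _ = (∑ k ∈ K, ‖∑ p ∈ P, a p.1 p.2 * EA k p‖ ^ 2 +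
                  ∑ k ∈ K, ‖∑ q ∈ R, b q.1 q.2 * EB k q‖ ^ 2) / 2 := by
                rw [← Finset.sum_add_distrib, Finset.sum_div]
            _ ≤ (n : ℝ) ^ 2 * (n * Q) := by linarith
      _ = (n : ℝ) ^ 2 * (n * Q * B) := by ring
  rw [norm_mul, norm_pow, Complex.norm_natCast] at hle
  exact le_of_mul_le_mul_left hle (by positivity)

theorem comm_iter {X : Type*} [MeasurableSpace X] {μ : Measure X} {T₁ T₂ : X → X}
    (h₁ : MeasurePreserving T₁ μ μ) (h₂ : MeasurePreserving T₂ μ μ)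
    (hc : T₁ ∘ T₂ =ᵐ[μ] T₂ ∘ T₁) (i j : ℕ) :
    T₁^[i] ∘ T₂^[j] =ᵐ[μ] T₂^[j] ∘ T₁^[i] := by
  have h : ∀ j, T₁ ∘ T₂^[j] =ᵐ[μ] T₂^[j] ∘ T₁ := by
    intro j
    induction j with
    | zero => simp
    | succ j ih =>
      have e1 : (T₁ ∘ T₂^[j]) ∘ T₂ =ᵐ[μ] (T₂^[j] ∘ T₁) ∘ T₂ :=
        h₂.quasiMeasurePreserving.ae_eq_comp ih
      have e2 : T₂^[j] ∘ (T₁ ∘ T₂) =ᵐ[μ] T₂^[j] ∘ (T₂ ∘ T₁) := hc.fun_comp (T₂^[j])
      rw [Function.iterate_succ]
      exact e1.trans e2
  induction i with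
  | zero => simp
  | succ i ih =>
    have e1 : T₁^[i] ∘ (T₁ ∘ T₂^[j]) =ᵐ[μ] T₁^[i] ∘ (T₂^[j] ∘ T₁) := (h j).fun_comp (T₁^[i])
    have e2 : (T₁^[i] ∘ T₂^[j]) ∘ T₁ =ᵐ[μ] (T₂^[j] ∘ T₁^[i]) ∘ T₁ :=
      h₁.quasiMeasurePreserving.ae_eq_comp ih
    rw [Function.iterate_succ]
    exact e1.trans e2

theorem shift {X : Type*} [MeasurableSpace X] {μ : Measure X} [IsProbabilityMeasure μ]
    {T₁ T₂ : X → X} (h₁ : MeasurePreserving T₁ μ μ) (h₂ : MeasurePreserving T₂ μ μ)
    (hc : T₁ ∘ T₂ =ᵐ[μ] T₂ ∘ T₁) {F G : X → ℝ} (hF : Measurable F) (hG : Measurable G)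
    (α β i j : ℕ) :
    ∫ x, F (T₁^[α] x) * G (T₂^[β] x) ∂μ =
      ∫ x, F (T₁^[α + i] (T₂^[j] x)) * G (T₁^[i] (T₂^[β + j] x)) ∂μ := by
  have hS : MeasurePreserving (T₁^[i] ∘ T₂^[j]) μ μ := (h₁.iterate i).comp (h₂.iterate j)
  have hm : Measurable fun x => F (T₁^[α] x) * G (T₂^[β] x) :=
    (hF.comp (h₁.iterate α).measurable).mul (hG.comp (h₂.iterate β).measurable)
  have e1 : ∫ x, F (T₁^[α] x) * G (T₂^[β] x) ∂μ =
      ∫ x, F (T₁^[α] ((T₁^[i] ∘ T₂^[j]) x)) * G (T₂^[β] ((T₁^[i] ∘ T₂^[j]) x)) ∂μ := by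
    conv_lhs => rw [← hS.map_eq]
    rw [integral_map hS.measurable.aemeasurable hm.aestronglyMeasurable]
  rw [e1]
  refine integral_congr_ae ?_
  have e2 := (h₂.iterate j).quasiMeasurePreserving.ae_eq_comp (comm_iter h₁ h₂ hc i β)
  filter_upwards [e2] with x hx
  have e3 : T₁^[i] (T₂^[β] (T₂^[j] x)) = T₂^[β] (T₁^[i] (T₂^[j] x)) := hx
  simp only [Function.comp]
  rw [← e3, Function.iterate_add_apply T₁ α i, Function.iterate_add_apply T₂ β j]

end Vdc

/-- transference: correlation sums are bounded by exponential sums on the grid `(1/(2Q)) ℤ²` -/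
theorem transfer {X : Type*} [MeasurableSpace X] {μ : Measure X} [IsProbabilityMeasure μ]
    {T₁ T₂ : X → X} (h₁ : MeasurePreserving T₁ μ μ) (h₂ : MeasurePreserving T₂ μ μ)
    (hc : T₁ ∘ T₂ =ᵐ[μ] T₂ ∘ T₁) {F G : X → ℝ} (hF : Measurable F) (hG : Measurable G)
    (hF1 : ∀ x, |F x| ≤ 1) (hG1 : ∀ x, |G x| ≤ 1) {Q : ℕ} (hQ : 1 ≤ Q) (I : Finset ℕ)
    (l : ℕ → ℝ) (al be : ℕ → ℕ) (hal : ∀ s ∈ I, al s < Q) (hbe : ∀ s ∈ I, be s < Q) {B : ℝ}
    (hB : ∀ k₁ k₂ : ℕ, k₁ < 2 * Q → k₂ < 2 * Q →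
      ‖∑ s ∈ I, (l s : ℂ) * Complex.exp (2 * Real.pi * Complex.I *
        ((k₁ * al s + k₂ * be s : ℕ) : ℂ) / (2 * Q : ℕ))‖ ≤ B) :
    |∑ s ∈ I, l s * ∫ x, F (T₁^[al s] x) * G (T₂^[be s] x) ∂μ| ≤ 2 * B := by
  have hn : 2 * Q ≠ 0 := by omega
  set w : ℂ := Complex.exp (2 * Real.pi * Complex.I / (2 * Q : ℕ)) with hw
  have hwp : IsPrimitiveRoot w (2 * Q) := Complex.isPrimitiveRoot_exp (2 * Q) hn
  have hw1 : ‖w‖ = 1 := hwp.norm'_eq_one hn
  have hwk : ∀ m : ℕ, Complex.exp (2 * Real.pi * Complex.I * (m : ℂ) / (2 * Q : ℕ)) = w ^ m := by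
    intro m
    rw [hw, ← Complex.exp_nat_mul]
    congr 1
    ring
  have hB' : ∀ k₁ k₂ : ℕ, k₁ < 2 * Q → k₂ < 2 * Q →
      ‖∑ s ∈ I, (l s : ℂ) * w ^ (k₁ * al s + k₂ * be s)‖ ≤ B := by
    intro k₁ k₂ e1 e2
    have := hB k₁ k₂ e1 e2
    simpa only [hwk] using this
  -- pointwise bound
  have hpt : ∀ x, |∑ i ∈ Finset.range Q, ∑ j ∈ Finset.range Q, ∑ s ∈ I,
      l s * (F (T₁^[al s + i] (T₂^[j] x)) * G (T₁^[i] (T₂^[be s + j] x)))| ≤
      ((2 * Q : ℕ) : ℝ) * Q * B := by
    intro x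
    have h := Vdc.grid_aux (n := 2 * Q) (Q := Q) (by omega) le_rfl hwp hw1 I
      (fun s => (l s : ℂ)) al be hal hbe hB'
      (fun i j => ((F (T₁^[i] (T₂^[j] x)) : ℝ) : ℂ)) (fun i j => ((G (T₁^[i] (T₂^[j] x)) : ℝ) : ℂ))
      (fun i j => by rw [Complex.norm_real]; exact hF1 _)
      (fun i j => by rw [Complex.norm_real]; exact hG1 _)
    have e : (∑ i ∈ Finset.range Q, ∑ j ∈ Finset.range Q, ∑ s ∈ I,
        (l s : ℂ) * (((F (T₁^[al s + i] (T₂^[j] x)) : ℝ) : ℂ) *
          ((G (T₁^[i] (T₂^[be s + j] x)) : ℝ) : ℂ))) =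
        ((∑ i ∈ Finset.range Q, ∑ j ∈ Finset.range Q, ∑ s ∈ I,
          l s * (F (T₁^[al s + i] (T₂^[j] x)) * G (T₁^[i] (T₂^[be s + j] x))) : ℝ) : ℂ) := by
      push_cast
      rfl
    rw [e, Complex.norm_real] at h
    exact h
  -- integrability
  have hint : ∀ s i j, Integrable (fun x => F (T₁^[al s + i] (T₂^[j] x)) *
      G (T₁^[i] (T₂^[be s + j] x))) μ := by
    intro s i j
    refine Integrable.of_bound (C := 1) ?_ (Eventually.of_forall fun x => ?_)
    · exact ((hF.comp ((h₁.iterate _).measurable.comp (h₂.iterate _).measurable)).mul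
        (hG.comp ((h₁.iterate _).measurable.comp (h₂.iterate _).measurable))).aestronglyMeasurable
    · rw [norm_mul]
      exact mul_le_one₀ (hF1 _) (norm_nonneg _) (hG1 _)
  have heq : ((Q : ℝ) * Q) * ∑ s ∈ I, l s * ∫ x, F (T₁^[al s] x) * G (T₂^[be s] x) ∂μ =
      ∫ x, ∑ i ∈ Finset.range Q, ∑ j ∈ Finset.range Q, ∑ s ∈ I,
        l s * (F (T₁^[al s + i] (T₂^[j] x)) * G (T₁^[i] (T₂^[be s + j] x))) ∂μ := by
    rw [integral_finsetSum _ fun i _ => integrable_finsetSum _ fun j _ =>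
      integrable_finsetSum _ fun s _ => (hint s i j).const_mul (l s)]
    have e1 : ∀ i ∈ Finset.range Q, ∫ x, ∑ j ∈ Finset.range Q, ∑ s ∈ I,
        l s * (F (T₁^[al s + i] (T₂^[j] x)) * G (T₁^[i] (T₂^[be s + j] x))) ∂μ =
        (Q : ℝ) * ∑ s ∈ I, l s * ∫ x, F (T₁^[al s] x) * G (T₂^[be s] x) ∂μ := by
      intro i _
      rw [integral_finsetSum _ fun j _ =>
        integrable_finsetSum _ fun s _ => (hint s i j).const_mul (l s)]
      have e2 : ∀ j ∈ Finset.range Q, ∫ x, ∑ s ∈ I,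
          l s * (F (T₁^[al s + i] (T₂^[j] x)) * G (T₁^[i] (T₂^[be s + j] x))) ∂μ =
          ∑ s ∈ I, l s * ∫ x, F (T₁^[al s] x) * G (T₂^[be s] x) ∂μ := by
        intro j _
        rw [integral_finsetSum _ fun s _ => (hint s i j).const_mul (l s)]
        refine Finset.sum_congr rfl fun s _ => ?_
        rw [integral_const_mul, Vdc.shift h₁ h₂ hc hF hG (al s) (be s) i j]
      rw [Finset.sum_congr rfl e2]
      simp
    rw [Finset.sum_congr rfl e1]
    simp
    ring
  have hQ0 : (0 : ℝ) < Q := by exact_mod_cast hQ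
  have hbd : |((Q : ℝ) * Q) * ∑ s ∈ I, l s * ∫ x, F (T₁^[al s] x) * G (T₂^[be s] x) ∂μ| ≤
      ((2 * Q : ℕ) : ℝ) * Q * B := by
    rw [heq]
    have h := norm_integral_le_of_norm_le_const (μ := μ)
      (f := fun x => ∑ i ∈ Finset.range Q, ∑ j ∈ Finset.range Q, ∑ s ∈ I,
        l s * (F (T₁^[al s + i] (T₂^[j] x)) * G (T₁^[i] (T₂^[be s + j] x))))
      (C := ((2 * Q : ℕ) : ℝ) * Q * B)
      (Eventually.of_forall fun x => by rw [Real.norm_eq_abs]; exact hpt x)
    rw [probReal_univ, mul_one, Real.norm_eq_abs] at h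
    exact h
  rw [abs_mul, abs_of_pos (by positivity)] at hbd
  push_cast at hbd
  refine le_of_mul_le_mul_left (hbd.trans (le_of_eq (by ring))) (by positivity : (0 : ℝ) < Q * Q)

namespace Vdc

theorem vdc_pt (n₀ N M : ℕ) (v : ℕ → ℝ) :
    ((M : ℝ) * ∑ s ∈ Finset.Ico n₀ N, v s) ^ 2 ≤ ((N : ℝ) + M) *
      ∑ m ∈ Finset.range M, ∑ m' ∈ Finset.range M,
        ∑ s ∈ Finset.Ico n₀ (N - ((m - m') + (m' - m))), v s * v (s + ((m - m') + (m' - m))) := by
  classical
  set u : ℕ → ℝ := fun k => if M + n₀ ≤ k ∧ k < M + N then v (k - M) else 0 with hu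
  have h1 : ∀ m ∈ Finset.range M, ∑ t ∈ Finset.range (N + M), u (t + m) =
      ∑ s ∈ Finset.Ico n₀ N, v s := by
    intro m hm
    rw [Finset.mem_range] at hm
    simp only [hu]
    rw [← Finset.sum_filter]
    refine Finset.sum_nbij' (fun t => t + m - M) (fun s => s + M - m) ?_ ?_ ?_ ?_ ?_
    · intro t ht
      simp only [Finset.mem_filter, Finset.mem_range, Finset.mem_Ico] at ht ⊢
      omega
    · intro s hs
      simp only [Finset.mem_filter, Finset.mem_range, Finset.mem_Ico] at hs ⊢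
      omega
    · intro t ht
      simp only [Finset.mem_filter, Finset.mem_range] at ht
      show t + m - M + M - m = t
      omega
    · intro s hs
      simp only [Finset.mem_Ico] at hs
      show s + M - m + m - M = s
      omega
    · intro t ht
      rfl
  have h2' : ∀ m m', m ≤ m' → m < M → m' < M →
      ∑ t ∈ Finset.range (N + M), u (t + m) * u (t + m') =
      ∑ s ∈ Finset.Ico n₀ (N - (m' - m)), v s * v (s + (m' - m)) := by
    intro m m' hmm hm hm'
    have e1 : ∀ t, u (t + m) * u (t + m') = if M + n₀ ≤ t + m ∧ t + m' < M + N then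
        v (t + m - M) * v (t + m' - M) else 0 := by
      intro t
      simp only [hu]
      by_cases c1 : M + n₀ ≤ t + m ∧ t + m' < M + N
      · rw [if_pos c1, if_pos ⟨c1.1, by omega⟩, if_pos ⟨by omega, c1.2⟩]
      · rw [if_neg c1]
        by_cases c2 : M + n₀ ≤ t + m
        · have : ¬ (M + n₀ ≤ t + m' ∧ t + m' < M + N) := by omega
          rw [if_neg this, mul_zero]
        · have : ¬ (M + n₀ ≤ t + m ∧ t + m < M + N) := by omega
          rw [if_neg this, zero_mul]
    rw [Finset.sum_congr rfl fun t _ => e1 t, ← Finset.sum_filter]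
    refine Finset.sum_nbij' (fun t => t + m - M) (fun s => s + M - m) ?_ ?_ ?_ ?_ ?_
    · intro t ht
      simp only [Finset.mem_filter, Finset.mem_range, Finset.mem_Ico] at ht ⊢
      omega
    · intro s hs
      simp only [Finset.mem_filter, Finset.mem_range, Finset.mem_Ico] at hs ⊢
      omega
    · intro t ht
      simp only [Finset.mem_filter, Finset.mem_range] at ht
      show t + m - M + M - m = t
      omega
    · intro s hs
      simp only [Finset.mem_Ico] at hs
      show s + M - m + m - M = s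
      omega
    · intro t ht
      simp only [Finset.mem_filter, Finset.mem_range] at ht
      show v (t + m - M) * v (t + m' - M) = v (t + m - M) * v (t + m - M + (m' - m))
      rw [show t + m - M + (m' - m) = t + m' - M by omega]
  have h2 : ∀ m ∈ Finset.range M, ∀ m' ∈ Finset.range M,
      ∑ t ∈ Finset.range (N + M), u (t + m) * u (t + m') =
      ∑ s ∈ Finset.Ico n₀ (N - ((m - m') + (m' - m))), v s * v (s + ((m - m') + (m' - m))) := by
    intro m hm m' hm'
    rw [Finset.mem_range] at hm hm'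
    rcases le_total m m' with h | h
    · rw [h2' m m' h hm hm', show m - m' + (m' - m) = m' - m by omega]
    · rw [Finset.sum_congr rfl fun t _ => mul_comm (u (t + m)) (u (t + m')),
        h2' m' m h hm' hm, show m - m' + (m' - m) = m - m' by omega]
  have h3 : (M : ℝ) * ∑ s ∈ Finset.Ico n₀ N, v s =
      ∑ t ∈ Finset.range (N + M), ∑ m ∈ Finset.range M, u (t + m) := by
    rw [Finset.sum_comm, Finset.sum_congr rfl h1]
    simp
  rw [h3]
  have h4 := sq_sum_le_card_mul_sum_sq (s := Finset.range (N + M))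
    (f := fun t => ∑ m ∈ Finset.range M, u (t + m))
  rw [Finset.card_range] at h4
  refine h4.trans (le_of_eq ?_)
  push_cast
  congr 1
  have h5 : ∀ t, (∑ m ∈ Finset.range M, u (t + m)) ^ 2 =
      ∑ m ∈ Finset.range M, ∑ m' ∈ Finset.range M, u (t + m) * u (t + m') := by
    intro t
    rw [sq, Finset.sum_mul_sum]
  rw [Finset.sum_congr rfl fun t _ => h5 t, Finset.sum_comm]
  refine Finset.sum_congr rfl fun m hm => ?_
  rw [Finset.sum_comm]
  exact Finset.sum_congr rfl fun m' hm' => h2 m hm m' hm'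

/-- counting of the near-diagonal terms -/
theorem count_le {M H : ℕ} (hH : 1 ≤ H) {E B : ℝ} (hE : 0 ≤ E) (hB : 0 ≤ B) :
    ∑ m ∈ Finset.range M, ∑ m' ∈ Finset.range M,
      (if (m - m') + (m' - m) < H then E else B) ≤ M * (2 * H * E + M * B) := by
  have h1 : ∀ m ∈ Finset.range M, ∑ m' ∈ Finset.range M,
      (if (m - m') + (m' - m) < H then E else B) ≤ 2 * H * E + M * B := by
    intro m _
    have h2 : ∑ m' ∈ Finset.range M, (if (m - m') + (m' - m) < H then E else B) ≤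
        ∑ m' ∈ Finset.range M, ((if m' ∈ Finset.Ico (m + 1 - H) (m + H) then E else 0) + B) := by
      refine Finset.sum_le_sum fun m' _ => ?_
      by_cases h : (m - m') + (m' - m) < H
      · rw [if_pos h, if_pos (by rw [Finset.mem_Ico]; omega)]
        linarith
      · rw [if_neg h]
        split_ifs <;> linarith
    refine h2.trans ?_
    rw [Finset.sum_add_distrib]
    have h3 : ∑ m' ∈ Finset.range M, (if m' ∈ Finset.Ico (m + 1 - H) (m + H) then E else 0) ≤
        2 * H * E := by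
      rw [← Finset.sum_filter, Finset.sum_const, nsmul_eq_mul]
      refine mul_le_mul_of_nonneg_right ?_ hE
      have : ((Finset.range M).filter fun m' => m' ∈ Finset.Ico (m + 1 - H) (m + H)).card ≤
          2 * H := by
        calc ((Finset.range M).filter fun m' => m' ∈ Finset.Ico (m + 1 - H) (m + H)).card
            ≤ (Finset.Ico (m + 1 - H) (m + H)).card :=
              Finset.card_le_card fun x hx => (Finset.mem_filter.1 hx).2
          _ ≤ 2 * H := by rw [Nat.card_Ico]; omega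
      exact_mod_cast this
    have h4 : ∑ m' ∈ Finset.range M, B = M * B := by simp
    linarith
  calc _ ≤ ∑ m ∈ Finset.range M, (2 * H * E + M * B) := Finset.sum_le_sum h1
    _ = _ := by rw [Finset.sum_const, Finset.card_range, nsmul_eq_mul]

end Vdc

theorem vdc_transfer {X : Type*} [MeasurableSpace X] {μ : Measure X} [IsProbabilityMeasure μ]
    {T₁ T₂ : X → X} (h₁ : MeasurePreserving T₁ μ μ) (h₂ : MeasurePreserving T₂ μ μ)
    (hc : T₁ ∘ T₂ =ᵐ[μ] T₂ ∘ T₁) {f₁ f₂ : X → ℝ} (hf₁ : Measurable f₁) (hf₂ : Measurable f₂)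
    (hb₁ : ∀ x, |f₁ x| ≤ 1) (hb₂ : ∀ x, |f₂ x| ≤ 1) {n₀ N M H R Q c : ℕ} (hM : 1 ≤ M) (hH : 1 ≤ H)
    (Y : ℕ → ℝ) (al : ℕ → ℕ) (hmono : Monotone al) (hal : ∀ s < N, al s + c < Q)
    (hN : N + c ≤ Q)
    (hR : ∀ s m, n₀ ≤ s → s + m < N → m < M → al (s + m) < al s + R) {B : ℝ} (hB0 : 0 ≤ B)
    (hB : ∀ m r k₁ k₂ : ℕ, H ≤ m → m < M → r < R → k₁ < 2 * Q → k₂ < 2 * Q →
      ‖∑ s ∈ Finset.Ico n₀ (N - m), if al (s + m) = al s + r then
        ((Y s * Y (s + m) : ℝ) : ℂ) * Complex.exp (2 * Real.pi * Complex.I *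
          ((k₁ * al s + k₂ * s : ℕ) : ℂ) / (2 * Q : ℕ)) else 0‖ ≤ B) :
    ∫ x, (∑ s ∈ Finset.Ico n₀ N, Y s * (f₁ (T₁^[al s + c] x) * f₂ (T₂^[s + c] x))) ^ 2 ∂μ ≤
      ((N : ℝ) + M) / M * (2 * H * ∑ s ∈ Finset.Ico n₀ N, Y s ^ 2 + 4 * M * R * B) := by
  classical
  set v : X → ℕ → ℝ := fun x s => Y s * (f₁ (T₁^[al s + c] x) * f₂ (T₂^[s + c] x)) with hv
  set E : ℝ := ∑ s ∈ Finset.Ico n₀ N, Y s ^ 2 with hE
  have hE0 : 0 ≤ E := Finset.sum_nonneg fun _ _ => sq_nonneg _
  have hM0 : (0 : ℝ) < M := by exact_mod_cast hM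
  have hvm : ∀ s, Measurable fun x => v x s := fun s =>
    ((hf₁.comp (h₁.iterate _).measurable).mul (hf₂.comp (h₂.iterate _).measurable)).const_mul (Y s)
  have hvb : ∀ s x, |v x s| ≤ |Y s| := by
    intro s x
    simp only [hv, abs_mul]
    exact mul_le_of_le_one_right (abs_nonneg _) (mul_le_one₀ (hb₁ _) (abs_nonneg _) (hb₂ _))
  have hint2 : ∀ s s', Integrable (fun x => v x s * v x s') μ := by
    intro s s'
    refine Integrable.of_bound (C := |Y s| * |Y s'|)
      ((hvm s).mul (hvm s')).aestronglyMeasurable (Eventually.of_forall fun x => ?_)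
    rw [norm_mul]
    exact mul_le_mul (hvb s x) (hvb s' x) (abs_nonneg _) (abs_nonneg _)
  set C : ℕ → ℝ := fun d => ∫ x, ∑ s ∈ Finset.Ico n₀ (N - d), v x s * v x (s + d) ∂μ with hCdef
  have hCint : ∀ d, Integrable (fun x => ∑ s ∈ Finset.Ico n₀ (N - d), v x s * v x (s + d)) μ :=
    fun d => integrable_finsetSum _ fun s _ => hint2 s (s + d)
  have hC1 : ∀ d, C d ≤ E := by
    intro d
    have hpt : ∀ x, ∑ s ∈ Finset.Ico n₀ (N - d), v x s * v x (s + d) ≤ E := by
      intro x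
      have e1 : ∀ s ∈ Finset.Ico n₀ (N - d), v x s * v x (s + d) ≤
          Y s ^ 2 / 2 + Y (s + d) ^ 2 / 2 := by
        intro s _
        have a1 : v x s * v x (s + d) ≤ |Y s| * |Y (s + d)| := by
          calc v x s * v x (s + d) ≤ |v x s * v x (s + d)| := le_abs_self _
            _ = |v x s| * |v x (s + d)| := abs_mul _ _
            _ ≤ _ := mul_le_mul (hvb _ _) (hvb _ _) (abs_nonneg _) (abs_nonneg _)
        have a2 : |Y s| ^ 2 = Y s ^ 2 := sq_abs _
        have a3 : |Y (s + d)| ^ 2 = Y (s + d) ^ 2 := sq_abs _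
        nlinarith [sq_nonneg (|Y s| - |Y (s + d)|)]
      refine (Finset.sum_le_sum e1).trans ?_
      rw [Finset.sum_add_distrib, ← Finset.sum_div, ← Finset.sum_div]
      have e2 : ∑ s ∈ Finset.Ico n₀ (N - d), Y s ^ 2 ≤ E := by
        refine Finset.sum_le_sum_of_subset_of_nonneg ?_ fun _ _ _ => sq_nonneg _
        intro k hk
        rw [Finset.mem_Ico] at hk ⊢
        omega
      have e3 : ∑ s ∈ Finset.Ico n₀ (N - d), Y (s + d) ^ 2 ≤ E := by
        rw [Finset.sum_Ico_add' (fun k => Y k ^ 2) n₀ (N - d) d]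
        refine Finset.sum_le_sum_of_subset_of_nonneg ?_ fun _ _ _ => sq_nonneg _
        intro k hk
        rw [Finset.mem_Ico] at hk ⊢
        omega
      linarith
    calc C d ≤ ∫ _, E ∂μ := integral_mono (hCint d) (integrable_const _) hpt
      _ = E := by simp
  have hC2 : ∀ d, H ≤ d → d < M → C d ≤ R * (2 * B) := by
    intro d hHd hdM
    set l : ℕ → ℕ → ℝ := fun r s => if al (s + d) = al s + r then Y s * Y (s + d) else 0 with hl
    set F : ℕ → X → ℝ := fun r x => f₁ x * f₁ (T₁^[r] x) with hF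
    set G : X → ℝ := fun x => f₂ x * f₂ (T₂^[d] x) with hG
    have hFm : ∀ r, Measurable (F r) := fun r => hf₁.mul (hf₁.comp (h₁.iterate r).measurable)
    have hGm : Measurable G := hf₂.mul (hf₂.comp (h₂.iterate d).measurable)
    have hF1 : ∀ r x, |F r x| ≤ 1 := fun r x => by
      simp only [hF, abs_mul]; exact mul_le_one₀ (hb₁ _) (abs_nonneg _) (hb₁ _)
    have hG1 : ∀ x, |G x| ≤ 1 := fun x => by
      simp only [hG, abs_mul]; exact mul_le_one₀ (hb₂ _) (abs_nonneg _) (hb₂ _)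
    have hint3 : ∀ r s, Integrable (fun x => F r (T₁^[al s + c] x) * G (T₂^[s + c] x)) μ := by
      intro r s
      refine Integrable.of_bound (C := 1)
        (((hFm r).comp (h₁.iterate _).measurable).mul
          (hGm.comp (h₂.iterate _).measurable)).aestronglyMeasurable
        (Eventually.of_forall fun x => ?_)
      rw [norm_mul]
      exact mul_le_one₀ (hF1 r _) (norm_nonneg _) (hG1 _)
    have hpt : ∀ x, ∑ s ∈ Finset.Ico n₀ (N - d), v x s * v x (s + d) =
        ∑ r ∈ Finset.range R, ∑ s ∈ Finset.Ico n₀ (N - d),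
          l r s * (F r (T₁^[al s + c] x) * G (T₂^[s + c] x)) := by
      intro x
      rw [Finset.sum_comm]
      refine Finset.sum_congr rfl fun s hs => ?_
      rw [Finset.mem_Ico] at hs
      have b1 : al s ≤ al (s + d) := hmono (by omega)
      have b2 : al (s + d) < al s + R := hR s d hs.1 (by omega) hdM
      rw [Finset.sum_eq_single_of_mem (al (s + d) - al s) (Finset.mem_range.2 (by omega))]
      · have b3 : al (s + d) = al s + (al (s + d) - al s) := by omega
        simp only [hl, hF, hG]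
        rw [if_pos b3, ← Function.iterate_add_apply T₁, ← Function.iterate_add_apply T₂,
          show al (s + d) - al s + (al s + c) = al (s + d) + c by omega,
          show d + (s + c) = s + d + c by omega]
        simp only [hv]
        ring
      · intro r _ hr
        simp only [hl]
        rw [if_neg (by omega), zero_mul]
    have hCd : C d = ∑ r ∈ Finset.range R, ∑ s ∈ Finset.Ico n₀ (N - d),
        l r s * ∫ x, F r (T₁^[al s + c] x) * G (T₂^[s + c] x) ∂μ := by
      simp only [hCdef]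
      rw [integral_congr_ae (Eventually.of_forall hpt)]
      rw [integral_finsetSum _ fun r _ => integrable_finsetSum _ fun s _ =>
        (hint3 r s).const_mul (l r s)]
      refine Finset.sum_congr rfl fun r _ => ?_
      rw [integral_finsetSum _ fun s _ => (hint3 r s).const_mul (l r s)]
      exact Finset.sum_congr rfl fun s _ => integral_const_mul _ _
    rw [hCd]
    have hr : ∀ r ∈ Finset.range R, ∑ s ∈ Finset.Ico n₀ (N - d),
        l r s * ∫ x, F r (T₁^[al s + c] x) * G (T₂^[s + c] x) ∂μ ≤ 2 * B := by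
      intro r hr
      rw [Finset.mem_range] at hr
      by_cases hN0 : Finset.Ico n₀ (N - d) = ∅
      · rw [hN0, Finset.sum_empty]; positivity
      obtain ⟨s₀, hs₀⟩ := Finset.nonempty_iff_ne_empty.2 hN0
      rw [Finset.mem_Ico] at hs₀
      refine (le_abs_self _).trans (transfer h₁ h₂ hc (hFm r) hGm (hF1 r) hG1 (Q := Q) (by omega)
        (Finset.Ico n₀ (N - d)) (l r) (fun s => al s + c) (fun s => s + c) ?_ ?_ ?_)
      · intro s hs
        rw [Finset.mem_Ico] at hs
        exact hal s (by omega)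
      · intro s hs
        rw [Finset.mem_Ico] at hs
        show s + c < Q
        omega
      · intro k₁ k₂ hk₁ hk₂
        have e1 : ∀ s ∈ Finset.Ico n₀ (N - d), (l r s : ℂ) * Complex.exp (2 * Real.pi * Complex.I *
            ((k₁ * (al s + c) + k₂ * (s + c) : ℕ) : ℂ) / (2 * Q : ℕ)) =
            Complex.exp (2 * Real.pi * Complex.I * (((k₁ + k₂) * c : ℕ) : ℂ) / (2 * Q : ℕ)) *
            (if al (s + d) = al s + r then
              ((Y s * Y (s + d) : ℝ) : ℂ) * Complex.exp (2 * Real.pi * Complex.I *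
              ((k₁ * al s + k₂ * s : ℕ) : ℂ) / (2 * Q : ℕ)) else 0) := by
          intro s _
          have e2 : Complex.exp (2 * Real.pi * Complex.I *
              ((k₁ * (al s + c) + k₂ * (s + c) : ℕ) : ℂ) / (2 * Q : ℕ)) =
              Complex.exp (2 * Real.pi * Complex.I * (((k₁ + k₂) * c : ℕ) : ℂ) / (2 * Q : ℕ)) *
              Complex.exp (2 * Real.pi * Complex.I *
                ((k₁ * al s + k₂ * s : ℕ) : ℂ) / (2 * Q : ℕ)) := by
            rw [← Complex.exp_add]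
            congr 1
            push_cast
            ring
          simp only [hl]
          rw [e2]
          split_ifs
          · ring
          · simp
        rw [Finset.sum_congr rfl e1, ← Finset.mul_sum, norm_mul]
        have e3 : ‖Complex.exp (2 * Real.pi * Complex.I * (((k₁ + k₂) * c : ℕ) : ℂ) /
            (2 * Q : ℕ))‖ = 1 := by
          have : (2 * Real.pi * Complex.I * (((k₁ + k₂) * c : ℕ) : ℂ) / (2 * Q : ℕ) : ℂ) =
              ((2 * Real.pi * (((k₁ + k₂) * c : ℕ) : ℝ) / (2 * Q : ℕ) : ℝ) : ℂ) * Complex.I := by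
            push_cast
            ring
          rw [this, Complex.norm_exp_ofReal_mul_I]
        rw [e3, one_mul]
        exact hB d r k₁ k₂ hHd hdM hr hk₁ hk₂
    calc _ ≤ ∑ r ∈ Finset.range R, 2 * B := Finset.sum_le_sum hr
      _ = R * (2 * B) := by rw [Finset.sum_const, Finset.card_range, nsmul_eq_mul]
  -- assemble
  have hR0 : (0 : ℝ) ≤ R := Nat.cast_nonneg _
  have hRB : 0 ≤ (R : ℝ) * (2 * B) := by positivity
  have hkey : (M : ℝ) ^ 2 * ∫ x, (∑ s ∈ Finset.Ico n₀ N, v x s) ^ 2 ∂μ ≤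
      ((N : ℝ) + M) * (M * (2 * H * E + M * (R * (2 * B)))) := by
    have hI : Integrable (fun x => ((N : ℝ) + M) *
        ∑ m ∈ Finset.range M, ∑ m' ∈ Finset.range M,
        ∑ s ∈ Finset.Ico n₀ (N - ((m - m') + (m' - m))),
          v x s * v x (s + ((m - m') + (m' - m)))) μ :=
      (integrable_finsetSum _ fun m _ => integrable_finsetSum _ fun m' _ => hCint _).const_mul _
    have hI2 : Integrable (fun x => ((M : ℝ) * ∑ s ∈ Finset.Ico n₀ N, v x s) ^ 2) μ := by
      have : (fun x => ((M : ℝ) * ∑ s ∈ Finset.Ico n₀ N, v x s) ^ 2) =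
          fun x => (M : ℝ) ^ 2 * ∑ s ∈ Finset.Ico n₀ N, ∑ s' ∈ Finset.Ico n₀ N,
            v x s * v x s' := by
        funext x
        rw [mul_pow, sq (∑ s ∈ Finset.Ico n₀ N, v x s), Finset.sum_mul_sum]
      rw [this]
      exact (integrable_finsetSum _ fun s _ => integrable_finsetSum _ fun s' _ =>
        hint2 s s').const_mul _
    calc (M : ℝ) ^ 2 * ∫ x, (∑ s ∈ Finset.Ico n₀ N, v x s) ^ 2 ∂μ
        = ∫ x, ((M : ℝ) * ∑ s ∈ Finset.Ico n₀ N, v x s) ^ 2 ∂μ := by
          rw [← integral_const_mul]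
          congr 1
          funext x
          rw [mul_pow]
      _ ≤ ∫ x, ((N : ℝ) + M) *
          ∑ m ∈ Finset.range M, ∑ m' ∈ Finset.range M,
          ∑ s ∈ Finset.Ico n₀ (N - ((m - m') + (m' - m))),
            v x s * v x (s + ((m - m') + (m' - m))) ∂μ :=
          integral_mono hI2 hI fun x => Vdc.vdc_pt n₀ N M (v x)
      _ = ((N : ℝ) + M) * ∑ m ∈ Finset.range M, ∑ m' ∈ Finset.range M,
            C ((m - m') + (m' - m)) := by
          rw [integral_const_mul, integral_finsetSum _ fun m _ =>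
            integrable_finsetSum _ fun m' _ => hCint _]
          congr 1
          refine Finset.sum_congr rfl fun m _ => ?_
          rw [integral_finsetSum _ fun m' _ => hCint _]
      _ ≤ ((N : ℝ) + M) * ∑ m ∈ Finset.range M, ∑ m' ∈ Finset.range M,
            (if (m - m') + (m' - m) < H then E else R * (2 * B)) := by
          refine mul_le_mul_of_nonneg_left ?_ (by positivity)
          refine Finset.sum_le_sum fun m hm => Finset.sum_le_sum fun m' hm' => ?_
          rw [Finset.mem_range] at hm hm'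
          split_ifs with hlt
          · exact hC1 _
          · exact hC2 _ (by omega) (by omega)
      _ ≤ _ := by
          refine mul_le_mul_of_nonneg_left ?_ (by positivity)
          exact Vdc.count_le hH hE0 hRB
  have hfin : ∫ x, (∑ s ∈ Finset.Ico n₀ N, v x s) ^ 2 ∂μ ≤
      ((N : ℝ) + M) / M * (2 * H * E + 2 * M * R * B) := by
    refine le_of_mul_le_mul_left (hkey.trans (le_of_eq ?_)) (by positivity : (0 : ℝ) < (M : ℝ) ^ 2)
    field_simp
  refine hfin.trans (mul_le_mul_of_nonneg_left ?_ (by positivity))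
  have : 0 ≤ (M : ℝ) * R * B := by positivity
  linarith

end

end Pool.Agent.SRG
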